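import Mathlib

set_option autoImplicit false

namespace Pool.Agent.Helper304.Signs

open MeasureTheory Filter Topology
open scoped ENNReal

/-- the sign of a bit -/
def sg (b : Bool) : ℝ := if b then -1 else 1

lemma sg_sq (b : Bool) : sg b * sg b = 1 := by cases b <;> simp [sg]

lemma abs_sg (b : Bool) : |sg b| = 1 := by cases b <;> simp [sg]

variable {X : Type*} [MeasurableSpace X]

/-- the first `J` bits -/
def pre (d : ℕ → X → Bool) (J : ℕ) (x : X) : Fin J → Bool := fun i => d i x

/-- independent fair bits -/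
structure SignSystem (μ : Measure X) (d : ℕ → X → Bool) : Prop where
  meas : ∀ J, Measurable (d J)
  indep : ∀ (J : ℕ) (G : (Fin J → Bool) → ℝ), ∫ x, sg (d J x) * G (pre d J x) ∂μ = 0

section basic

set_option linter.unusedSectionVars false

variable {μ : Measure X} [IsProbabilityMeasure μ] {d : ℕ → X → Bool} (hd : SignSystem μ d)

include hd

lemma pre_meas (J : ℕ) : Measurable (pre d J) := measurable_pi_lambda _ fun i => hd.meas i

lemma dep_meas (J : ℕ) (G : (Fin J → Bool) → ℝ) : Measurable (fun x => G (pre d J x)) :=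
  (Measurable.of_discrete (f := G)).comp (pre_meas hd J)

lemma dep_int (J : ℕ) (G : (Fin J → Bool) → ℝ) : Integrable (fun x => G (pre d J x)) μ := by
  refine Integrable.of_bound (dep_meas hd J G).aestronglyMeasurable (∑ w, |G w|)
    (ae_of_all _ fun x => ?_)
  rw [Real.norm_eq_abs]
  exact Finset.single_le_sum (f := fun w => |G w|) (fun _ _ => abs_nonneg _) (Finset.mem_univ _)

lemma sg_meas (J : ℕ) : Measurable (fun x => sg (d J x)) :=
  (Measurable.of_discrete (f := sg)).comp (hd.meas J)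

lemma sg_dep_int (J : ℕ) (G : (Fin J → Bool) → ℝ) :
    Integrable (fun x => sg (d J x) * G (pre d J x)) μ := by
  refine (dep_int hd J G).bdd_mul (c := 1) (sg_meas hd J).aestronglyMeasurable ?_
  exact ae_of_all _ fun x => by rw [Real.norm_eq_abs, abs_sg]

omit [MeasurableSpace X] hd in
lemma pre_succ (d : ℕ → X → Bool) (J : ℕ) (x : X) :
    pre d (J + 1) x = Fin.snoc (pre d J x) (d J x) := by
  funext i
  refine Fin.lastCases ?_ (fun j => ?_) i
  · simp [pre]
  · simp [pre]

lemma expect (J : ℕ) (G : (Fin J → Bool) → ℝ) :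
    ∫ x, G (pre d J x) ∂μ = (1 / 2 ^ J) * ∑ w, G w := by
  induction J with
  | zero =>
    have : ∀ x, G (pre d 0 x) = G default := fun x => by
      congr 1; exact Subsingleton.elim _ _
    simp only [this]
    rw [Fintype.sum_unique]
    simp only [integral_const, probReal_univ, pow_zero, smul_eq_mul, one_mul, div_one]
    exact congrArg G (Subsingleton.elim _ _)
  | succ J ih =>
    have h1 : ∀ x, G (pre d (J + 1) x) =
        (G (Fin.snoc (pre d J x) false) + G (Fin.snoc (pre d J x) true)) / 2 +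
        sg (d J x) * ((G (Fin.snoc (pre d J x) false) - G (Fin.snoc (pre d J x) true)) / 2) := by
      intro x
      rw [pre_succ]
      cases d J x <;> simp [sg] <;> ring
    simp only [h1]
    rw [integral_add (dep_int hd J fun w => (G (Fin.snoc w false) + G (Fin.snoc w true)) / 2)
      (sg_dep_int hd J fun w => (G (Fin.snoc w false) - G (Fin.snoc w true)) / 2),
      hd.indep J (fun w => (G (Fin.snoc w false) - G (Fin.snoc w true)) / 2),
      ih (fun w => (G (Fin.snoc w false) + G (Fin.snoc w true)) / 2), add_zero,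
      ← Equiv.sum_comp (Fin.snocEquiv (fun _ => Bool)), Fintype.sum_prod_type]
    simp only [Fintype.sum_bool, ← Finset.sum_add_distrib, ← Finset.sum_div]
    rw [pow_succ]
    have : ∑ x : Fin J → Bool, (G ((Fin.snocEquiv fun _ => Bool) (true, x)) +
        G ((Fin.snocEquiv fun _ => Bool) (false, x))) =
      ∑ i : Fin J → Bool, (G (Fin.snoc i false) + G (Fin.snoc i true)) :=
      Finset.sum_congr rfl fun _ _ => add_comm _ _
    rw [this]
    ring

/-- finite combinations of signs with indices below `J` depend on the first `J` bits -/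
lemma sum_dep (F : Finset ℕ) (β : ℕ → ℝ) (J : ℕ) (hF : ∀ j ∈ F, j < J) :
    ∃ G : (Fin J → Bool) → ℝ, ∀ x, ∑ j ∈ F, β j * sg (d j x) = G (pre d J x) := by
  refine ⟨fun w => ∑ j ∈ F, β j * sg (if h : j < J then w ⟨j, h⟩ else false), fun x => ?_⟩
  refine Finset.sum_congr rfl fun j hj => ?_
  simp [hF j hj, pre]

lemma second_fourth (F : Finset ℕ) (β : ℕ → ℝ) :
    ∫ x, (∑ j ∈ F, β j * sg (d j x)) ^ 2 ∂μ = ∑ j ∈ F, β j ^ 2 ∧
    ∫ x, (∑ j ∈ F, β j * sg (d j x)) ^ 4 ∂μ ≤ 3 * (∑ j ∈ F, β j ^ 2) ^ 2 := by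
  induction F using Finset.induction_on_max with
  | empty => simp
  | insert m F hm ih =>
    have hmF : m ∉ F := fun h => lt_irrefl _ (hm m h)
    obtain ⟨G, hG⟩ := sum_dep hd F β m hm
    obtain ⟨ih2, ih4⟩ := ih
    simp only [Finset.sum_insert hmF, hG] at ih2 ih4 ⊢
    have e2 : ∀ x, (β m * sg (d m x) + G (pre d m x)) ^ 2 =
        ((G (pre d m x)) ^ 2 + β m ^ 2) + sg (d m x) * (2 * β m * G (pre d m x)) := by
      intro x
      have := sg_sq (d m x)
      linear_combination (β m ^ 2) * this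
    have e4 : ∀ x, (β m * sg (d m x) + G (pre d m x)) ^ 4 =
        ((G (pre d m x)) ^ 4 + (6 * β m ^ 2) * (G (pre d m x)) ^ 2 + β m ^ 4) +
        sg (d m x) * (4 * β m * (G (pre d m x)) ^ 3 + 4 * β m ^ 3 * G (pre d m x)) := by
      intro x
      have := sg_sq (d m x)
      linear_combination (β m ^ 4 * (sg (d m x) ^ 2 + 1) + 4 * β m ^ 3 * sg (d m x) * G (pre d m x) +
        6 * β m ^ 2 * (G (pre d m x)) ^ 2) * this
    constructor
    · simp only [e2]
      rw [integral_add (dep_int hd m fun w => (G w) ^ 2 + β m ^ 2)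
        (sg_dep_int hd m fun w => 2 * β m * G w), hd.indep m (fun w => 2 * β m * G w),
        integral_add (dep_int hd m fun w => (G w) ^ 2) (integrable_const _), ih2]
      simp
      ring
    · simp only [e4]
      rw [integral_add (dep_int hd m fun w => (G w) ^ 4 + (6 * β m ^ 2) * (G w) ^ 2 + β m ^ 4)
        (sg_dep_int hd m fun w => 4 * β m * (G w) ^ 3 + 4 * β m ^ 3 * G w),
        hd.indep m (fun w => 4 * β m * (G w) ^ 3 + 4 * β m ^ 3 * G w),
        integral_add (dep_int hd m fun w => (G w) ^ 4 + (6 * β m ^ 2) * (G w) ^ 2)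
          (integrable_const _),
        integral_add (dep_int hd m fun w => (G w) ^ 4)
          (dep_int hd m fun w => (6 * β m ^ 2) * (G w) ^ 2), integral_const_mul, ih2]
      simp only [integral_const, probReal_univ, smul_eq_mul, one_mul, add_zero]
      have h1 : 0 ≤ β m ^ 2 := sq_nonneg _
      have h2 : 0 ≤ ∑ j ∈ F, β j ^ 2 := Finset.sum_nonneg fun _ _ => sq_nonneg _
      nlinarith [h1, h2, ih4, mul_nonneg h1 h2, sq_nonneg (β m ^ 2)]

lemma fourth_enorm (F : Finset ℕ) (β : ℕ → ℝ) :
    ∫⁻ x, ‖∑ j ∈ F, β j * sg (d j x)‖ₑ ^ 4 ∂μ ≤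
      ENNReal.ofReal (3 * (∑ j ∈ F, β j ^ 2) ^ 2) := by
  obtain ⟨G, hG⟩ := sum_dep hd F β (F.sup id + 1) (fun j hj =>
    Nat.lt_succ_of_le (Finset.le_sup (f := id) hj))
  have h := (second_fourth hd F β).2
  simp only [hG] at h ⊢
  have h1 : ∀ x, ‖G (pre d (F.sup id + 1) x)‖ₑ ^ 4 =
      ENNReal.ofReal ((G (pre d (F.sup id + 1) x)) ^ 4) := by
    intro x
    rw [Real.enorm_eq_ofReal_abs, ← ENNReal.ofReal_pow (abs_nonneg _)]
    congr 1
    have : |G (pre d (F.sup id + 1) x)| ^ 4 = (|G (pre d (F.sup id + 1) x)| ^ 2) ^ 2 := by ring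
    rw [this, sq_abs]; ring
  simp only [h1]
  rw [← ofReal_integral_eq_lintegral_ofReal (dep_int hd _ fun w => (G w) ^ 4)
    (ae_of_all _ fun x => by positivity)]
  exact ENNReal.ofReal_le_ofReal h

end basic

end Pool.Agent.Helper304.Signs
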