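import Mathlib
import Pool.Agent.Helper304.Signs

set_option autoImplicit false

namespace Pool.Agent.Helper304.Basis

open MeasureTheory Filter Topology
open scoped ENNReal
open Pool.Agent.Helper304.Signs

/-! ### The finite orthogonal systems -/

/-- `fs N s u`, the `s`-th function on `{0, …, N-1}` -/
noncomputable def fs (N s u : ℕ) : ℝ :=
  if s = 0 then 1 else (if u = s then √(N : ℝ) else 0) +
    ((if u = 0 then √(N : ℝ) else 0) - 1) / (√(N : ℝ) - 1)

lemma sqrt_gt {N : ℕ} (hN : 2 ≤ N) : 1 < √(N : ℝ) := by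
  rw [Real.lt_sqrt (by norm_num)]
  have : (2 : ℝ) ≤ N := by exact_mod_cast hN
  linarith

lemma fs_sum_pos {N s : ℕ} (hs : s ≠ 0) (hN : s < N) (v : ℕ → ℝ) :
    ∑ u ∈ Finset.range N, v u * fs N s u =
      v s * √(N : ℝ) + (v 0 * √(N : ℝ) - ∑ u ∈ Finset.range N, v u) / (√(N : ℝ) - 1) := by
  simp only [fs, if_neg hs, mul_add, Finset.sum_add_distrib, mul_ite, mul_zero]
  rw [Finset.sum_ite_eq' (Finset.range N) s, if_pos (Finset.mem_range.2 hN)]
  congr 1
  simp only [mul_div_assoc', mul_sub, mul_ite, mul_zero, mul_one]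
  rw [← Finset.sum_div, Finset.sum_sub_distrib, Finset.sum_ite_eq' (Finset.range N) 0,
    if_pos (Finset.mem_range.2 (by omega))]

lemma fs_orth {N s t : ℕ} (hs : s < N) (ht : t < N) :
    ∑ u ∈ Finset.range N, fs N s u * fs N t u = if s = t then (N : ℝ) else 0 := by
  by_cases hs0 : s = 0
  · subst hs0
    by_cases ht0 : t = 0
    · subst ht0
      simp [fs]
    · have hN : 2 ≤ N := by omega
      have h1 := sqrt_gt hN
      have h2 : √(N : ℝ) * √(N : ℝ) = N := Real.mul_self_sqrt (by positivity)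
      have h3 := fs_sum_pos ht0 ht (fun _ => (1 : ℝ))
      rw [if_neg (Ne.symm ht0)]
      have h4 : ∑ u ∈ Finset.range N, fs N 0 u * fs N t u =
          ∑ u ∈ Finset.range N, 1 * fs N t u := by simp [fs]
      rw [h4, h3]
      simp only [Finset.sum_const, Finset.card_range, nsmul_eq_mul, mul_one, one_mul]
      have h5 : √(N : ℝ) - 1 ≠ 0 := by linarith
      field_simp
      nlinarith
  · by_cases ht0 : t = 0
    · subst ht0
      have hN : 2 ≤ N := by omega
      have h1 := sqrt_gt hN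
      have h2 : √(N : ℝ) * √(N : ℝ) = N := Real.mul_self_sqrt (by positivity)
      have h3 := fs_sum_pos hs0 hs (fun _ => (1 : ℝ))
      rw [if_neg hs0]
      have h4 : ∑ u ∈ Finset.range N, fs N s u * fs N 0 u =
          ∑ u ∈ Finset.range N, 1 * fs N s u := by simp [fs]
      rw [h4, h3]
      simp only [Finset.sum_const, Finset.card_range, nsmul_eq_mul, mul_one, one_mul]
      have h5 : √(N : ℝ) - 1 ≠ 0 := by linarith
      field_simp
      nlinarith
    · have hN : 2 ≤ N := by omega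
      have h1 := sqrt_gt hN
      have h2 : √(N : ℝ) * √(N : ℝ) = N := Real.mul_self_sqrt (by positivity)
      have h5 : √(N : ℝ) - 1 ≠ 0 := by linarith
      rw [fs_sum_pos ht0 ht (fun u => fs N s u)]
      have h6 : ∑ u ∈ Finset.range N, fs N s u = 0 := by
        have h3 := fs_sum_pos hs0 hs (fun _ => (1 : ℝ))
        simp only [one_mul, Finset.sum_const, Finset.card_range, nsmul_eq_mul, mul_one] at h3
        rw [h3]
        field_simp
        nlinarith
      rw [h6]
      simp only [fs, if_neg hs0, if_neg ht0, if_neg (Ne.symm hs0)]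
      by_cases hst : s = t
      · subst hst
        simp only [if_true]
        field_simp
        nlinarith
      · simp only [if_neg (Ne.symm hst), if_neg hst, if_true]
        field_simp
        ring

lemma fs_complete {N : ℕ} (v : ℕ → ℝ)
    (hv : ∀ s < N, ∑ u ∈ Finset.range N, v u * fs N s u = 0) : ∀ u < N, v u = 0 := by
  intro u hu
  by_cases hN : N < 2
  · have h0 : N = 1 := by omega
    subst h0
    have := hv 0 (by norm_num)
    have hu0 : u = 0 := by omega
    subst hu0
    simpa [fs] using this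
  · push Not at hN
    have h1 := sqrt_gt hN
    have h2 : √(N : ℝ) * √(N : ℝ) = N := Real.mul_self_sqrt (by positivity)
    have h5 : √(N : ℝ) - 1 ≠ 0 := by linarith
    have hs0 : ∑ u ∈ Finset.range N, v u = 0 := by
      have := hv 0 (by omega)
      simpa [fs] using this
    have key : ∀ s < N, s ≠ 0 → v s = - v 0 / (√(N : ℝ) - 1) := by
      intro s hs hs'
      have := hv s hs
      rw [fs_sum_pos hs' hs, hs0, sub_zero] at this
      field_simp at this ⊢
      have h6 : √(N : ℝ) ≠ 0 := by linarith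
      have h7 : √(N : ℝ) * (v s * (√(N : ℝ) - 1) + v 0) = 0 := by linarith
      rcases mul_eq_zero.1 h7 with h | h
      · exact absurd h h6
      · linarith
    have hv0 : v 0 = 0 := by
      have h8 : ∑ u ∈ Finset.range N, v u = v 0 + (N - 1 : ℝ) * (- v 0 / (√(N : ℝ) - 1)) := by
        obtain ⟨M, rfl⟩ : ∃ M, N = M + 1 := ⟨N - 1, by omega⟩
        rw [Finset.sum_range_succ', add_comm]
        congr 1
        rw [Finset.sum_congr rfl (fun u hu => key (u + 1) (by
          rw [Finset.mem_range] at hu; omega) (by omega))]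
        simp
      rw [h8] at hs0
      field_simp at hs0
      have h9 : √(N : ℝ) * (√(N : ℝ) - 1) * v 0 = 0 := by
        linear_combination (-1) * hs0 + v 0 * h2
      have h10 : √(N : ℝ) * (√(N : ℝ) - 1) ≠ 0 := by
        apply mul_ne_zero <;> linarith
      exact (mul_eq_zero.1 h9).resolve_left h10
    by_cases hu0 : u = 0
    · rw [hu0, hv0]
    · rw [key u hu hu0, hv0]; simp

/-- partial sums of the finite system are controlled by a single function -/
lemma fs_partial {N S u : ℕ} (hS : S ≤ N) (A : ℕ → ℝ) :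
    (∑ s ∈ Finset.range S, A s * fs N s u) ^ 2 ≤
      3 * (A 0 ^ 2 + (N : ℝ) * A u ^ 2 + (N : ℝ) * (∑ s ∈ Finset.range N, A s ^ 2) *
        (((if u = 0 then √(N : ℝ) else 0) - 1) / (√(N : ℝ) - 1)) ^ 2) := by
  have hN0 : (0:ℝ) ≤ N := by positivity
  have h2 : √(N : ℝ) * √(N : ℝ) = N := Real.mul_self_sqrt (by positivity)
  set c := ((if u = 0 then √(N : ℝ) else 0) - 1) / (√(N : ℝ) - 1) with hc
  rcases Nat.eq_zero_or_pos S with h0 | h0
  · subst h0
    simp only [Finset.range_zero, Finset.sum_empty]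
    have : 0 ≤ ∑ s ∈ Finset.range N, A s ^ 2 := Finset.sum_nonneg fun _ _ => sq_nonneg _
    rw [zero_pow two_ne_zero]
    positivity
  obtain ⟨M, rfl⟩ : ∃ M, S = M + 1 := ⟨S - 1, by omega⟩
  rw [Finset.sum_range_succ']
  have h3 : ∀ k, A (k + 1) * fs N (k + 1) u =
      A (k + 1) * (if u = k + 1 then √(N : ℝ) else 0) + A (k + 1) * c := by
    intro k
    simp only [fs, Nat.succ_ne_zero, if_false, hc]
    ring
  simp only [h3, Finset.sum_add_distrib, ← Finset.sum_mul]
  have h4 : fs N 0 u = 1 := by simp [fs]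
  rw [h4, mul_one]
  set x := ∑ k ∈ Finset.range M, A (k + 1) * (if u = k + 1 then √(N : ℝ) else 0) with hx
  set y := ∑ k ∈ Finset.range M, A (k + 1) with hy
  have hx2 : x ^ 2 ≤ N * A u ^ 2 := by
    have : x = 0 ∨ x = A u * √(N : ℝ) := by
      by_cases hu1 : ∃ k ∈ Finset.range M, u = k + 1
      · obtain ⟨k, hk, hk'⟩ := hu1
        right
        rw [hx, Finset.sum_eq_single k]
        · simp [hk']
        · intro j _ hj
          rw [if_neg (by omega), mul_zero]
        · intro h; exact absurd hk h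
      · left
        push Not at hu1
        exact Finset.sum_eq_zero fun k hk => by rw [if_neg (hu1 k hk), mul_zero]
    rcases this with h | h
    · rw [h, zero_pow two_ne_zero]; positivity
    · rw [h]; apply le_of_eq; linear_combination (A u ^ 2) * h2
  have hy2 : y ^ 2 ≤ N * ∑ s ∈ Finset.range N, A s ^ 2 := by
    have h5 := sq_sum_le_card_mul_sum_sq (s := Finset.range M) (f := fun k => A (k + 1))
    have h6 : ∑ k ∈ Finset.range M, A (k + 1) ^ 2 ≤ ∑ s ∈ Finset.range N, A s ^ 2 := by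
      have h7 : ∑ s ∈ Finset.range (M + 1), A s ^ 2 ≤ ∑ s ∈ Finset.range N, A s ^ 2 :=
        Finset.sum_le_sum_of_subset_of_nonneg (Finset.range_mono hS) fun _ _ _ => sq_nonneg _
      rw [Finset.sum_range_succ'] at h7
      have : 0 ≤ A 0 ^ 2 := sq_nonneg _
      linarith
    have h8 : ((Finset.range M).card : ℝ) ≤ N := by
      rw [Finset.card_range]; exact_mod_cast (by omega : M ≤ N)
    calc y ^ 2 ≤ ((Finset.range M).card : ℝ) * ∑ k ∈ Finset.range M, A (k + 1) ^ 2 := h5
      _ ≤ _ := by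
        gcongr
  have hyc : (y * c) ^ 2 ≤ N * (∑ s ∈ Finset.range N, A s ^ 2) * c ^ 2 := by
    rw [mul_pow]; gcongr
  nlinarith [sq_nonneg (x - y * c), sq_nonneg (x - A 0), sq_nonneg (y * c - A 0)]

lemma fs_partial_avg {N : ℕ} (hN : 1 ≤ N) (A : ℕ → ℝ) :
    (1 / (N : ℝ)) * ∑ u ∈ Finset.range N, 3 * (A 0 ^ 2 + (N : ℝ) * A u ^ 2 +
      (N : ℝ) * (∑ s ∈ Finset.range N, A s ^ 2) *
        (((if u = 0 then √(N : ℝ) else 0) - 1) / (√(N : ℝ) - 1)) ^ 2) ≤
    30 * ∑ s ∈ Finset.range N, A s ^ 2 := by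
  have hNpos : (0:ℝ) < N := by exact_mod_cast hN
  set S := ∑ s ∈ Finset.range N, A s ^ 2 with hS
  have hS0 : 0 ≤ S := Finset.sum_nonneg fun _ _ => sq_nonneg _
  have hA0 : A 0 ^ 2 ≤ S :=
    Finset.single_le_sum (f := fun s => A s ^ 2) (fun _ _ => sq_nonneg _)
      (Finset.mem_range.2 (by omega))
  have h2 : √(N : ℝ) * √(N : ℝ) = N := Real.mul_self_sqrt (by positivity)
  have hsum : ∑ u ∈ Finset.range N,
      (((if u = 0 then √(N : ℝ) else 0) - 1) / (√(N : ℝ) - 1)) ^ 2 ≤ 8 := by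
    rcases Nat.lt_or_ge N 2 with h | h
    · have : N = 1 := by omega
      subst this
      simp
    · have h1 := sqrt_gt h
      have h5 : √(N : ℝ) - 1 > 0 := by linarith
      have h6 : (1.4 : ℝ) ≤ √(N : ℝ) := by
        apply Real.le_sqrt_of_sq_le
        have : (2:ℝ) ≤ N := by exact_mod_cast h
        norm_num; linarith
      obtain ⟨M, rfl⟩ : ∃ M, N = M + 1 := ⟨N - 1, by omega⟩
      rw [Finset.sum_range_succ']
      simp only [Nat.succ_ne_zero, if_false, if_true, Finset.sum_const, Finset.card_range,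
        nsmul_eq_mul]
      rw [div_self h5.ne', div_pow]
      have h7 : (M : ℝ) = √((M + 1 : ℕ) : ℝ) * √((M + 1 : ℕ) : ℝ) - 1 := by
        rw [h2]; push_cast; ring
      set q := √((M + 1 : ℕ) : ℝ) with hq
      rw [h7]
      have h8 : (q * q - 1) * ((0 - 1) ^ 2 / (q - 1) ^ 2) = (q + 1) / (q - 1) := by
        field_simp
        ring
      rw [h8]
      have h9 : (q + 1) / (q - 1) ≤ 7 := by
        rw [div_le_iff₀ h5]; linarith
      norm_num
      linarith
  have e1 : ∑ u ∈ Finset.range N, 3 * (A 0 ^ 2 + (N : ℝ) * A u ^ 2 + (N : ℝ) * S *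
        (((if u = 0 then √(N : ℝ) else 0) - 1) / (√(N : ℝ) - 1)) ^ 2) =
      3 * (N * A 0 ^ 2 + N * S + N * S * ∑ u ∈ Finset.range N,
        (((if u = 0 then √(N : ℝ) else 0) - 1) / (√(N : ℝ) - 1)) ^ 2) := by
    rw [← Finset.mul_sum, Finset.sum_add_distrib, Finset.sum_add_distrib, ← Finset.mul_sum,
      ← Finset.mul_sum]
    simp only [Finset.sum_const, Finset.card_range, nsmul_eq_mul, ← hS]
  rw [e1]
  have e2 : (1 / (N : ℝ)) * (3 * (N * A 0 ^ 2 + N * S + N * S * ∑ u ∈ Finset.range N,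
        (((if u = 0 then √(N : ℝ) else 0) - 1) / (√(N : ℝ) - 1)) ^ 2)) =
      3 * (A 0 ^ 2 + S + S * ∑ u ∈ Finset.range N,
        (((if u = 0 then √(N : ℝ) else 0) - 1) / (√(N : ℝ) - 1)) ^ 2) := by
    field_simp
  rw [e2]
  nlinarith [mul_le_mul_of_nonneg_left hsum hS0]

/-! ### The orthonormal basis -/

section fn

set_option linter.unusedSectionVars false

variable {X : Type*} [MeasurableSpace X]

noncomputable def cd (J : ℕ) : (Fin J → Bool) ≃ Fin (2 ^ J) := Fintype.equivFinOfCardEq (by simp)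

/-- functions of the first `J` bits -/
noncomputable def lv (J s : ℕ) (w : Fin J → Bool) : ℝ := fs (2 ^ J) s (cd J w)

/-- the basis functions -/
noncomputable def hB (d : ℕ → X → Bool) (B : ℕ) (x : X) : ℝ :=
  if B = 0 then 1 else
    sg (d (Nat.log 2 B) x) * lv (Nat.log 2 B) (B - 2 ^ Nat.log 2 B) (pre d (Nat.log 2 B) x)

lemma hB_zero (d : ℕ → X → Bool) (x : X) : hB d 0 x = 1 := by simp [hB]

lemma log_eq {J s : ℕ} (hs : s < 2 ^ J) : Nat.log 2 (2 ^ J + s) = J := by
  apply Nat.log_eq_of_pow_le_of_lt_pow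
  · omega
  · rw [pow_succ]; omega

lemma hB_level (d : ℕ → X → Bool) {J s : ℕ} (hs : s < 2 ^ J) (x : X) :
    hB d (2 ^ J + s) x = sg (d J x) * lv J s (pre d J x) := by
  have h0 : 2 ^ J + s ≠ 0 := by have : 0 < 2 ^ J := by positivity
                                omega
  unfold hB
  rw [if_neg h0, log_eq hs]
  simp

lemma hB_pow (d : ℕ → X → Bool) (J : ℕ) (x : X) : hB d (2 ^ J) x = sg (d J x) := by
  have := hB_level d (J := J) (s := 0) (by positivity) x
  rw [add_zero] at this
  rw [this]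
  simp [lv, fs]

lemma exists_level {B : ℕ} (hB : B ≠ 0) : ∃ J s, s < 2 ^ J ∧ B = 2 ^ J + s := by
  refine ⟨Nat.log 2 B, B - 2 ^ Nat.log 2 B, ?_, ?_⟩
  · have h1 := Nat.pow_log_le_self 2 hB
    have h2 := Nat.lt_pow_succ_log_self (b := 2) (by norm_num) B
    rw [pow_succ] at h2
    omega
  · have h1 := Nat.pow_log_le_self 2 hB
    omega

lemma lift_dep (d : ℕ → X → Bool) {J J' : ℕ} (h : J ≤ J') (G : (Fin J → Bool) → ℝ) :
    ∃ G' : (Fin J' → Bool) → ℝ, ∀ x, G (pre d J x) = G' (pre d J' x) :=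
  ⟨fun w => G (fun i => w (Fin.castLE h i)), fun _ => rfl⟩

lemma sg_dep (d : ℕ → X → Bool) (J : ℕ) (G : (Fin J → Bool) → ℝ) :
    ∃ G' : (Fin (J + 1) → Bool) → ℝ, ∀ x, sg (d J x) * G (pre d J x) = G' (pre d (J + 1) x) :=
  ⟨fun w => sg (w (Fin.last J)) * G (fun i => w i.castSucc), fun _ => rfl⟩

lemma hB_dep (d : ℕ → X → Bool) {B J : ℕ} (h : B < 2 ^ J) :
    ∃ G : (Fin J → Bool) → ℝ, ∀ x, hB d B x = G (pre d J x) := by
  by_cases hB0 : B = 0
  · subst hB0
    exact ⟨fun _ => 1, fun x => hB_zero d x⟩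
  · obtain ⟨J', s, hs, rfl⟩ := exists_level hB0
    have hJ : J' + 1 ≤ J := by
      have : 2 ^ J' < 2 ^ J := by omega
      exact (Nat.pow_lt_pow_iff_right (by norm_num)).1 this
    obtain ⟨G, hG⟩ := sg_dep d J' (lv J' s)
    obtain ⟨G', hG'⟩ := lift_dep d hJ G
    exact ⟨G', fun x => by rw [hB_level d hs, hG, hG']⟩

variable {μ : Measure X} [IsProbabilityMeasure μ] {d : ℕ → X → Bool} (hd : SignSystem μ d)

include hd

lemma hB_meas (B : ℕ) : Measurable (hB d B) := by
  obtain ⟨G, hG⟩ := hB_dep d (B := B) (J := B) Nat.lt_two_pow_self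
  have : hB d B = fun x => G (pre d B x) := funext hG
  rw [this]
  exact dep_meas hd B G

lemma hB_bound (B : ℕ) : ∃ H : ℝ, 1 ≤ H ∧ ∀ x, |hB d B x| ≤ H := by
  obtain ⟨G, hG⟩ := hB_dep d (B := B) (J := B) Nat.lt_two_pow_self
  refine ⟨1 + ∑ w, |G w|, ?_, fun x => ?_⟩
  · have : 0 ≤ ∑ w, |G w| := Finset.sum_nonneg fun _ _ => abs_nonneg _
    linarith
  · rw [hG x]
    have := Finset.single_le_sum (f := fun w => |G w|) (fun _ _ => abs_nonneg _)
      (Finset.mem_univ (pre d B x))
    linarith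

lemma int_lv_lv (J : ℕ) {s t : ℕ} (hs : s < 2 ^ J) (ht : t < 2 ^ J) :
    ∫ x, lv J s (pre d J x) * lv J t (pre d J x) ∂μ = if s = t then 1 else 0 := by
  rw [expect hd J (fun w => lv J s w * lv J t w)]
  have h1 : ∑ w : Fin J → Bool, lv J s w * lv J t w =
      ∑ u ∈ Finset.range (2 ^ J), fs (2 ^ J) s u * fs (2 ^ J) t u := by
    rw [Finset.sum_range]
    exact Equiv.sum_comp (cd J) (fun u : Fin (2 ^ J) => fs (2 ^ J) s u * fs (2 ^ J) t u)
  rw [h1, fs_orth hs ht]
  split_ifs
  · push_cast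
    field_simp
  · simp

lemma hB_lt_orth {B B' J' s' : ℕ} (hs' : s' < 2 ^ J') (hB' : B' = 2 ^ J' + s') (hB0 : B < 2 ^ J') :
    ∫ x, hB d B x * hB d B' x ∂μ = 0 := by
  subst hB'
  obtain ⟨G, hG⟩ := hB_dep d hB0
  have : ∀ x, hB d B x * hB d (2 ^ J' + s') x =
      sg (d J' x) * (fun w => G w * lv J' s' w) (pre d J' x) := by
    intro x
    rw [hG, hB_level d hs']; ring
  simp only [this]
  exact hd.indep J' (fun w => G w * lv J' s' w)

lemma hB_orth (B B' : ℕ) : ∫ x, hB d B x * hB d B' x ∂μ = if B = B' then 1 else 0 := by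
  by_cases hB0 : B = 0
  · subst hB0
    by_cases hB0' : B' = 0
    · subst hB0'; simp [hB_zero]
    · obtain ⟨J', s', hs', rfl⟩ := exists_level hB0'
      rw [hB_lt_orth hd hs' rfl (by positivity), if_neg (Ne.symm hB0')]
  · by_cases hB0' : B' = 0
    · subst hB0'
      obtain ⟨J, s, hs, rfl⟩ := exists_level hB0
      simp only [mul_comm (hB d (2 ^ J + s) _)]
      rw [hB_lt_orth hd hs rfl (by positivity), if_neg hB0]
    · obtain ⟨J, s, hs, rfl⟩ := exists_level hB0
      obtain ⟨J', s', hs', rfl⟩ := exists_level hB0'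
      rcases lt_trichotomy J J' with h | h | h
      · have h1 : 2 ^ (J + 1) ≤ 2 ^ J' := Nat.pow_le_pow_right (by norm_num) h
        rw [pow_succ] at h1
        rw [hB_lt_orth hd hs' rfl (by omega), if_neg (by omega)]
      · subst h
        have : ∀ x, hB d (2 ^ J + s) x * hB d (2 ^ J + s') x =
            lv J s (pre d J x) * lv J s' (pre d J x) := by
          intro x
          rw [hB_level d hs, hB_level d hs']
          linear_combination (lv J s (pre d J x) * lv J s' (pre d J x)) * sg_sq (d J x)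
        simp only [this]
        rw [int_lv_lv hd J hs hs']
        by_cases hss : s = s'
        · rw [if_pos hss, if_pos (by omega)]
        · rw [if_neg hss, if_neg (by omega)]
      · have h1 : 2 ^ (J' + 1) ≤ 2 ^ J := Nat.pow_le_pow_right (by norm_num) h
        rw [pow_succ] at h1
        simp only [mul_comm (hB d (2 ^ J + s) _)]
        rw [hB_lt_orth hd hs rfl (by omega), if_neg (by omega)]

lemma hB_mul_int (B B' : ℕ) : Integrable (fun x => hB d B x * hB d B' x) μ := by
  obtain ⟨G, hG⟩ := hB_dep d (B := B) (J := B + B') (Nat.lt_two_pow_self.trans_le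
    (Nat.pow_le_pow_right (by norm_num) (by omega)))
  obtain ⟨G', hG'⟩ := hB_dep d (B := B') (J := B + B') (Nat.lt_two_pow_self.trans_le
    (Nat.pow_le_pow_right (by norm_num) (by omega)))
  simp only [hG, hG']
  exact dep_int hd _ (fun w => G w * G' w)

/-- square integral of finite combinations -/
lemma int_sq (F : Finset ℕ) (A : ℕ → ℝ) :
    ∫ x, (∑ B ∈ F, A B * hB d B x) ^ 2 ∂μ = ∑ B ∈ F, A B ^ 2 := by
  have h1 : ∀ x, (∑ B ∈ F, A B * hB d B x) ^ 2 =
      ∑ B ∈ F, ∑ B' ∈ F, (A B * A B') * (hB d B x * hB d B' x) := by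
    intro x
    rw [sq, Finset.sum_mul_sum]
    refine Finset.sum_congr rfl fun B _ => Finset.sum_congr rfl fun B' _ => by ring
  simp only [h1]
  rw [integral_finsetSum _ fun B _ => integrable_finsetSum _ fun B' _ =>
    (hB_mul_int hd B B').const_mul _]
  refine Finset.sum_congr rfl fun B hB' => ?_
  rw [integral_finsetSum _ fun B' _ => (hB_mul_int hd B B').const_mul _]
  simp only [integral_const_mul, hB_orth hd]
  simp [hB', sq]

/-- if `f` is orthogonal to all basis functions then it is orthogonal to all functions of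
finitely many bits -/
lemma complete_dep (f : X → ℝ) (hf : Integrable f μ)
    (h : ∀ B, ∫ x, f x * hB d B x ∂μ = 0) (J : ℕ) (G : (Fin J → Bool) → ℝ) :
    ∫ x, f x * G (pre d J x) ∂μ = 0 := by
  have fint : ∀ (J : ℕ) (G : (Fin J → Bool) → ℝ), Integrable (fun x => f x * G (pre d J x)) μ := by
    intro J G
    refine hf.mul_bdd (c := ∑ w, |G w|) (dep_meas hd J G).aestronglyMeasurable
      (ae_of_all _ fun x => ?_)
    rw [Real.norm_eq_abs]
    exact Finset.single_le_sum (f := fun w => |G w|) (fun _ _ => abs_nonneg _) (Finset.mem_univ _)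
  have fint' : ∀ (J : ℕ) (G : (Fin J → Bool) → ℝ),
      Integrable (fun x => f x * (sg (d J x) * G (pre d J x))) μ := by
    intro J G
    obtain ⟨G', hG'⟩ := sg_dep d J G
    simp only [hG']
    exact fint _ G'
  induction J with
  | zero =>
    have h0 := h 0
    simp only [hB_zero, mul_one] at h0
    have : ∀ x, f x * G (pre d 0 x) = f x * G default := fun x => by
      congr 2; exact Subsingleton.elim _ _
    simp only [this]
    rw [integral_mul_const, h0, zero_mul]
  | succ J ih =>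
    have h1 : ∀ x, f x * G (pre d (J + 1) x) =
        f x * (fun w => (G (Fin.snoc w false) + G (Fin.snoc w true)) / 2) (pre d J x) +
        f x * (sg (d J x) *
          (fun w => (G (Fin.snoc w false) - G (Fin.snoc w true)) / 2) (pre d J x)) := by
      intro x
      rw [pre_succ]
      cases d J x <;> simp [sg] <;> ring
    simp only [h1]
    rw [integral_add (fint J fun w => (G (Fin.snoc w false) + G (Fin.snoc w true)) / 2)
      (fint' J fun w => (G (Fin.snoc w false) - G (Fin.snoc w true)) / 2),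
      ih (fun w => (G (Fin.snoc w false) + G (Fin.snoc w true)) / 2), zero_add]
    -- the level part
    set G1 : (Fin J → Bool) → ℝ := fun w => (G (Fin.snoc w false) - G (Fin.snoc w true)) / 2
    have hsing : ∀ u : Fin (2 ^ J), ∫ x, f x * (sg (d J x) *
        (if cd J (pre d J x) = u then 1 else 0)) ∂μ = 0 := by
      set v : ℕ → ℝ := fun u => ∫ x, f x * (sg (d J x) *
        (if ((cd J (pre d J x) : Fin (2 ^ J)) : ℕ) = u then 1 else 0)) ∂μ with hv
      have hv0 : ∀ u < 2 ^ J, v u = 0 := by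
        apply fs_complete (N := 2 ^ J) v
        intro s hs
        have h2 := h (2 ^ J + s)
        simp only [hB_level d hs] at h2
        have h3 : ∀ x, f x * (sg (d J x) * lv J s (pre d J x)) =
            ∑ u ∈ Finset.range (2 ^ J), (f x * (sg (d J x) *
              (if ((cd J (pre d J x) : Fin (2 ^ J)) : ℕ) = u then 1 else 0))) * fs (2 ^ J) s u := by
          intro x
          rw [Finset.sum_eq_single ((cd J (pre d J x) : Fin (2 ^ J)) : ℕ)]
          · simp [lv]; ring
          · intro u _ hu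
            rw [if_neg (Ne.symm hu)]; ring
          · intro hcon
            exact absurd (Finset.mem_range.2 (cd J (pre d J x)).2) hcon
        simp only [h3] at h2
        rw [integral_finsetSum _ fun u _ => (fint' J fun w =>
          if ((cd J w : Fin (2 ^ J)) : ℕ) = u then 1 else 0).mul_const _] at h2
        simp only [integral_mul_const] at h2
        exact h2
      intro u
      have h4 := hv0 u u.2
      simp only [hv] at h4
      simpa [Fin.ext_iff] using h4
    have h5 : ∀ x, f x * (sg (d J x) * G1 (pre d J x)) =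
        ∑ u : Fin (2 ^ J), (f x * (sg (d J x) *
          (if cd J (pre d J x) = u then 1 else 0))) * G1 ((cd J).symm u) := by
      intro x
      rw [Finset.sum_eq_single (cd J (pre d J x))]
      · simp; ring
      · intro u _ hu
        rw [if_neg (Ne.symm hu)]; ring
      · intro hcon
        exact absurd (Finset.mem_univ _) hcon
    refine (integral_congr_ae (ae_of_all _ h5)).trans ?_
    rw [integral_finsetSum _ fun u _ => (fint' J fun w =>
      if cd J w = u then 1 else 0).mul_const _]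
    simp only [integral_mul_const, hsing, zero_mul, Finset.sum_const_zero]

/-! ### The basis is a convergence system -/

/-- the filtration of the first bits -/
def filt : Filtration ℕ ‹MeasurableSpace X› where
  seq J := MeasurableSpace.comap (pre d J) inferInstance
  mono' := by
    intro i j hij
    have : pre d i = (fun (w : Fin j → Bool) (k : Fin i) => w (Fin.castLE hij k)) ∘ pre d j := rfl
    change MeasurableSpace.comap (pre d i) inferInstance ≤
      MeasurableSpace.comap (pre d j) inferInstance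
    rw [this, ← MeasurableSpace.comap_comp]
    exact MeasurableSpace.comap_mono (measurable_iff_comap_le.1 Measurable.of_discrete)
  le' J := measurable_iff_comap_le.1 (pre_meas hd J)

/-- partial sums at dyadic indices -/
noncomputable def PS (d : ℕ → X → Bool) (A : ℕ → ℝ) (J : ℕ) (x : X) : ℝ :=
  ∑ B ∈ Finset.range (2 ^ J), A B * hB d B x

omit hd in
lemma PS_dep (d : ℕ → X → Bool) (A : ℕ → ℝ) (J : ℕ) :
    ∃ G : (Fin J → Bool) → ℝ, ∀ x, PS d A J x = G (pre d J x) := by
  choose G hG using fun B : Finset.range (2 ^ J) => hB_dep d (Finset.mem_range.1 B.2)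
  refine ⟨fun w => ∑ B ∈ (Finset.range (2 ^ J)).attach, A B * G B w, fun x => ?_⟩
  unfold PS
  rw [← Finset.sum_attach]
  exact Finset.sum_congr rfl fun B _ => by rw [hG B x]

omit hd in
lemma PS_succ (d : ℕ → X → Bool) (A : ℕ → ℝ) (J : ℕ) :
    ∃ G : (Fin J → Bool) → ℝ, ∀ x, PS d A (J + 1) x = PS d A J x + sg (d J x) * G (pre d J x) := by
  refine ⟨fun w => ∑ s ∈ Finset.range (2 ^ J), A (2 ^ J + s) * lv J s w, fun x => ?_⟩
  unfold PS
  rw [pow_succ, mul_two, Finset.sum_range_add, Finset.mul_sum]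
  congr 1
  refine Finset.sum_congr rfl fun s hs => ?_
  rw [hB_level d (Finset.mem_range.1 hs)]; ring

lemma PS_martingale (A : ℕ → ℝ) : Martingale (PS d A) (filt hd) μ := by
  apply martingale_of_setIntegral_eq_succ
  · intro J
    obtain ⟨G, hG⟩ := PS_dep d A J
    have : PS d A J = fun x => G (pre d J x) := funext hG
    rw [this]
    have hm : Measurable[filt hd J] (fun x => G (pre d J x)) :=
      (Measurable.of_discrete (f := G)).comp (comap_measurable (pre d J))
    exact hm.stronglyMeasurable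
  · intro J
    obtain ⟨G, hG⟩ := PS_dep d A J
    have : PS d A J = fun x => G (pre d J x) := funext hG
    rw [this]
    exact dep_int hd J G
  · intro J s hs
    obtain ⟨G, hG⟩ := PS_dep d A J
    obtain ⟨G1, hG1⟩ := PS_succ d A J
    obtain ⟨t, _, rfl⟩ := hs
    have hms : MeasurableSet (pre d J ⁻¹' t) := (pre_meas hd J) (MeasurableSet.of_discrete)
    have e1 : ∀ x, PS d A (J + 1) x = G (pre d J x) + sg (d J x) * G1 (pre d J x) := by
      intro x; rw [hG1, hG]
    simp only [e1, hG]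
    rw [integral_add (dep_int hd J G).integrableOn (sg_dep_int hd J G1).integrableOn]
    have h0 : ∫ x in pre d J ⁻¹' t, sg (d J x) * G1 (pre d J x) ∂μ = 0 := by
      classical
      rw [← integral_indicator hms]
      have e2 : ∀ x, (pre d J ⁻¹' t).indicator (fun x => sg (d J x) * G1 (pre d J x)) x =
          sg (d J x) * (fun w => if w ∈ t then G1 w else 0) (pre d J x) := by
        intro x
        by_cases hx : pre d J x ∈ t
        · rw [Set.indicator_of_mem (by exact hx)]; simp [hx]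
        · rw [Set.indicator_of_notMem (by exact hx)]; simp [hx]
      simp only [e2]
      exact hd.indep J (fun w => if w ∈ t then G1 w else 0)
    rw [h0, add_zero]

lemma PS_converges (A : ℕ → ℝ) (hA : Summable fun B => A B ^ 2) :
    ∀ᵐ x ∂μ, ∃ c, Tendsto (fun J => PS d A J x) atTop (𝓝 c) := by
  refine (PS_martingale hd A).submartingale.exists_ae_tendsto_of_bdd
    (R := (1 + ∑' B, A B ^ 2).toNNReal) fun J => ?_
  obtain ⟨G, hG⟩ := PS_dep d A J
  rw [eLpNorm_one_eq_lintegral_enorm]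
  have h1 : ∫ x, (PS d A J x) ^ 2 ∂μ = ∑ B ∈ Finset.range (2 ^ J), A B ^ 2 := int_sq hd _ A
  have h2 : ∫⁻ x, ‖PS d A J x‖ₑ ∂μ ≤ ∫⁻ x, ENNReal.ofReal (1 + (PS d A J x) ^ 2) ∂μ := by
    refine lintegral_mono fun x => ?_
    rw [Real.enorm_eq_ofReal_abs]
    apply ENNReal.ofReal_le_ofReal
    have h3 := abs_nonneg (PS d A J x)
    have h4 : (PS d A J x) ^ 2 = |PS d A J x| ^ 2 := (sq_abs _).symm
    rw [h4]
    nlinarith [sq_nonneg (|PS d A J x| - 1)]
  refine h2.trans ?_
  have h5 : Integrable (fun x => 1 + (PS d A J x) ^ 2) μ := by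
    simp only [hG]
    exact dep_int hd J (fun w => 1 + (G w) ^ 2)
  rw [← ofReal_integral_eq_lintegral_ofReal h5 (ae_of_all _ fun x => by positivity)]
  have h6 : ∫ x, (1 + (PS d A J x) ^ 2) ∂μ = 1 + ∑ B ∈ Finset.range (2 ^ J), A B ^ 2 := by
    rw [integral_add (integrable_const _) (by
      simp only [hG]; exact dep_int hd J (fun w => (G w) ^ 2)), h1]
    simp
  rw [h6]
  have h7 := hA.sum_le_tsum (Finset.range (2 ^ J)) (fun B _ => sq_nonneg _)
  exact ENNReal.ofReal_le_ofReal (by linarith)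

/-- the square of the bound for partial sums inside level `J` -/
noncomputable def ZQ (A : ℕ → ℝ) (J : ℕ) (w : Fin J → Bool) : ℝ :=
  3 * (A (2 ^ J) ^ 2 + ((2 ^ J : ℕ) : ℝ) * A (2 ^ J + (cd J w : ℕ)) ^ 2 +
    ((2 ^ J : ℕ) : ℝ) * (∑ s ∈ Finset.range (2 ^ J), A (2 ^ J + s) ^ 2) *
      (((if (cd J w : ℕ) = 0 then √((2 ^ J : ℕ) : ℝ) else 0) - 1) / (√((2 ^ J : ℕ) : ℝ) - 1)) ^ 2)

omit hd in
lemma ZQ_nonneg (A : ℕ → ℝ) (J : ℕ) (w : Fin J → Bool) : 0 ≤ ZQ A J w := by
  unfold ZQ
  have : 0 ≤ ∑ s ∈ Finset.range (2 ^ J), A (2 ^ J + s) ^ 2 :=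
    Finset.sum_nonneg fun _ _ => sq_nonneg _
  positivity

omit hd in
lemma partial_le (d : ℕ → X → Bool) (A : ℕ → ℝ) (J S : ℕ) (hS : S ≤ 2 ^ J) (x : X) :
    (∑ s ∈ Finset.range S, A (2 ^ J + s) * hB d (2 ^ J + s) x) ^ 2 ≤ ZQ A J (pre d J x) := by
  have h1 : ∑ s ∈ Finset.range S, A (2 ^ J + s) * hB d (2 ^ J + s) x =
      sg (d J x) * ∑ s ∈ Finset.range S, A (2 ^ J + s) * fs (2 ^ J) s (cd J (pre d J x)) := by
    rw [Finset.mul_sum]
    refine Finset.sum_congr rfl fun s hs => ?_
    rw [hB_level d (lt_of_lt_of_le (Finset.mem_range.1 hs) hS)]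
    simp only [lv]; ring
  rw [h1, mul_pow, sq (sg _), sg_sq, one_mul]
  exact fs_partial hS (fun s => A (2 ^ J + s))

lemma ZQ_int (A : ℕ → ℝ) (J : ℕ) : ∫ x, ZQ A J (pre d J x) ∂μ ≤
    30 * ∑ s ∈ Finset.range (2 ^ J), A (2 ^ J + s) ^ 2 := by
  rw [expect hd J (ZQ A J)]
  have h1 := fs_partial_avg (N := 2 ^ J) (Nat.one_le_two_pow) (fun s => A (2 ^ J + s))
  refine le_trans (le_of_eq ?_) h1
  congr 1
  · push_cast; rfl
  · rw [Finset.sum_range]
    exact Equiv.sum_comp (cd J) (fun u : Fin (2 ^ J) => 3 * (A (2 ^ J + 0) ^ 2 +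
      ((2 ^ J : ℕ) : ℝ) * A (2 ^ J + (u : ℕ)) ^ 2 +
      ((2 ^ J : ℕ) : ℝ) * (∑ s ∈ Finset.range (2 ^ J), A (2 ^ J + s) ^ 2) *
      (((if (u : ℕ) = 0 then √((2 ^ J : ℕ) : ℝ) else 0) - 1) / (√((2 ^ J : ℕ) : ℝ) - 1)) ^ 2))

/-- a sequence of nonnegative functions with summable integrals tends to zero a.e. -/
lemma tendsto_zero_of_summable {Z : ℕ → X → ℝ} (hZ0 : ∀ n x, 0 ≤ Z n x)
    (hZi : ∀ n, Integrable (Z n) μ) (b : ℕ → ℝ) (hb : Summable b) (hZb : ∀ n, ∫ x, Z n x ∂μ ≤ b n) :
    ∀ᵐ x ∂μ, Tendsto (fun n => Z n x) atTop (𝓝 0) := by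
  have hb0 : ∀ n, 0 ≤ b n := fun n => (integral_nonneg (hZ0 n)).trans (hZb n)
  have h1 : ∫⁻ x, ∑' n, ENNReal.ofReal (Z n x) ∂μ ≠ ⊤ := by
    rw [lintegral_tsum fun n => (hZi n).aemeasurable.ennreal_ofReal]
    have h2 : ∀ n, ∫⁻ x, ENNReal.ofReal (Z n x) ∂μ ≤ ENNReal.ofReal (b n) := by
      intro n
      rw [← ofReal_integral_eq_lintegral_ofReal (hZi n) (ae_of_all _ (hZ0 n))]
      exact ENNReal.ofReal_le_ofReal (hZb n)
    refine ne_top_of_le_ne_top ?_ (ENNReal.tsum_le_tsum h2)
    rw [← ENNReal.ofReal_tsum_of_nonneg hb0 hb]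
    exact ENNReal.ofReal_ne_top
  have h3 := ae_lt_top' (AEMeasurable.tsum fun n => (hZi n).aemeasurable.ennreal_ofReal) h1
  filter_upwards [h3] with x hx
  have h4 := ENNReal.tendsto_atTop_zero_of_tsum_ne_top hx.ne
  have h5 := (ENNReal.tendsto_toReal ENNReal.zero_ne_top).comp h4
  simp only [ENNReal.toReal_zero] at h5
  refine h5.congr fun n => ?_
  exact ENNReal.toReal_ofReal (hZ0 n x)

theorem hB_converges (A : ℕ → ℝ) (hA : Summable fun B => A B ^ 2) :
    ∀ᵐ x ∂μ, ∃ c, Tendsto (fun N => ∑ B ∈ Finset.range N, A B * hB d B x) atTop (𝓝 c) := by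
  have hsum : Summable fun J => 30 * ∑ s ∈ Finset.range (2 ^ J), A (2 ^ J + s) ^ 2 := by
    refine Summable.mul_left _ ?_
    refine summable_of_sum_range_le (c := ∑' B, A B ^ 2)
      (fun J => Finset.sum_nonneg fun _ _ => sq_nonneg _) fun n => ?_
    have h1 : ∀ n, A 0 ^ 2 + ∑ J ∈ Finset.range n, ∑ s ∈ Finset.range (2 ^ J), A (2 ^ J + s) ^ 2 =
        ∑ B ∈ Finset.range (2 ^ n), A B ^ 2 := by
      intro n
      induction n with
      | zero => simp
      | succ n ih =>
        rw [Finset.sum_range_succ, ← add_assoc, ih, pow_succ, mul_two, Finset.sum_range_add]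
    have h2 := hA.sum_le_tsum (Finset.range (2 ^ n)) (fun B _ => sq_nonneg _)
    have h3 : 0 ≤ A 0 ^ 2 := sq_nonneg _
    linarith [h1 n]
  have hZ := tendsto_zero_of_summable (μ := μ) hd (Z := fun J x => ZQ A J (pre d J x))
    (fun J x => ZQ_nonneg A J _) (fun J => dep_int hd J (ZQ A J)) _ hsum (ZQ_int hd A)
  filter_upwards [PS_converges hd A hA, hZ] with x ⟨c, hc⟩ hz
  refine ⟨c, ?_⟩
  rw [Metric.tendsto_atTop] at hc hz ⊢
  intro ε hε
  obtain ⟨J1, hJ1⟩ := hc (ε / 2) (by positivity)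
  obtain ⟨J2, hJ2⟩ := hz ((ε / 2) ^ 2) (by positivity)
  refine ⟨2 ^ (max J1 J2), fun N hN => ?_⟩
  have hN0 : N ≠ 0 := by
    have : 0 < 2 ^ (max J1 J2) := by positivity
    omega
  obtain ⟨J, s, hs, rfl⟩ := exists_level hN0
  have hJ : max J1 J2 ≤ J := by
    by_contra hcon
    push Not at hcon
    have : 2 ^ (J + 1) ≤ 2 ^ (max J1 J2) := Nat.pow_le_pow_right (by norm_num) hcon
    rw [pow_succ] at this
    omega
  rw [Finset.sum_range_add]
  have h1 := hJ1 J (by omega)
  have h2 := hJ2 J (by omega)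
  rw [Real.dist_eq] at h1 h2 ⊢
  rw [sub_zero, abs_of_nonneg (ZQ_nonneg A J _)] at h2
  have h3 := partial_le d A J s hs.le x
  have h4 : |∑ i ∈ Finset.range s, A (2 ^ J + i) * hB d (2 ^ J + i) x| < ε / 2 := by
    apply abs_lt_of_sq_lt_sq (h3.trans_lt h2) (by positivity)
  have h5 : PS d A J x = ∑ B ∈ Finset.range (2 ^ J), A B * hB d B x := rfl
  rw [← h5]
  calc |PS d A J x + ∑ i ∈ Finset.range s, A (2 ^ J + i) * hB d (2 ^ J + i) x - c|
      = |(PS d A J x - c) + ∑ i ∈ Finset.range s, A (2 ^ J + i) * hB d (2 ^ J + i) x| := by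
        congr 1; ring
    _ ≤ |PS d A J x - c| + |∑ i ∈ Finset.range s, A (2 ^ J + i) * hB d (2 ^ J + i) x| :=
        abs_add_le _ _
    _ < ε := by linarith

end fn

end Pool.Agent.Helper304.Basis
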