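import Mathlib

set_option autoImplicit false

namespace Pool.Agent.Helper304.Blocks

/-- orthonormal rows of size `K+1` with weighted `ℓ¹` bound -/
structure Good (H : ℝ) (K : ℕ) (O : ℕ → ℕ → ℝ) : Prop where
  rows : ∀ l m, l < K + 1 → m < K + 1 →
    ∑ j ∈ Finset.range (K + 1), O l j * O m j = if l = m then 1 else 0
  bound : ∀ l, l < K + 1 → |O l 0| * H + ∑ j ∈ Finset.range K, |O l (j + 1)| ≤ 5

/-- adding one rotation -/
def ext (s c : ℝ) (O : ℕ → ℕ → ℝ) : ℕ → ℕ → ℝ
  | 0, 0 => s
  | 0, 1 => c
  | 0, _ + 2 => 0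
  | l + 1, 0 => O l 0 * c
  | l + 1, 1 => -(O l 0 * s)
  | l + 1, j + 2 => O l (j + 1)

lemma exists_good : ∀ (n : ℕ) (H : ℝ), 0 ≤ H → H ^ 2 ≤ n → ∃ K O, Good H K O := by
  intro n
  induction n with
  | zero =>
    intro H h0 h1
    have hH : H = 0 := by
      have : H ^ 2 = 0 := le_antisymm (by simpa using h1) (sq_nonneg _)
      exact pow_eq_zero_iff (two_ne_zero) |>.1 this
    refine ⟨0, fun _ _ => 1, ⟨?_, ?_⟩⟩
    · intro l m hl hm
      have : l = m := by omega
      simp [this]
    · intro l hl
      simp [hH]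
  | succ n ih =>
    intro H h0 h1
    by_cases h5 : H ≤ 5
    · refine ⟨0, fun _ _ => 1, ⟨?_, ?_⟩⟩
      · intro l m hl hm
        have : l = m := by omega
        simp [this]
      · intro l hl
        simp [h5]
    · push Not at h5
      set s := 4 / H with hs
      have hHpos : 0 < H := by linarith
      have hsH : s * H = 4 := by rw [hs]; field_simp
      have hs0 : 0 < s := by positivity
      have hs1 : s < 1 := by rw [hs, div_lt_one hHpos]; linarith
      set c := √(1 - s ^ 2) with hc
      have hc0 : 0 ≤ c := Real.sqrt_nonneg _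
      have hcs : c ^ 2 + s ^ 2 = 1 := by
        rw [hc, Real.sq_sqrt (by nlinarith)]; ring
      have hc1 : c ≤ 1 := by nlinarith
      have hH'0 : 0 ≤ c * H + s := by positivity
      have hH' : (c * H + s) ^ 2 ≤ n := by
        have e1 : (c * H + s) ^ 2 = c ^ 2 * H ^ 2 + 2 * c * (s * H) + s ^ 2 := by ring
        have e2 : c ^ 2 * H ^ 2 = H ^ 2 - (s * H) ^ 2 := by
          have : c ^ 2 = 1 - s ^ 2 := by linarith
          rw [this]; ring
        rw [e1, e2, hsH]
        push_cast at h1
        nlinarith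
      obtain ⟨K, O, hO⟩ := ih (c * H + s) hH'0 hH'
      refine ⟨K + 1, ext s c O, ⟨?_, ?_⟩⟩
      · intro l m hl hm
        rw [Finset.sum_range_succ', Finset.sum_range_succ']
        rcases l with _ | l <;> rcases m with _ | m
        · simp only [ext, mul_zero, Finset.sum_const_zero, if_true]
          nlinarith
        · simp only [ext, zero_mul, Finset.sum_const_zero]
          rw [if_neg (by omega)]
          ring
        · simp only [ext, mul_zero, Finset.sum_const_zero]
          rw [if_neg (by omega)]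
          ring
        · simp only [ext]
          have h2 := hO.rows l m (by omega) (by omega)
          rw [Finset.sum_range_succ'] at h2
          have h3 : (if l + 1 = m + 1 then (1:ℝ) else 0) = if l = m then 1 else 0 := by
            by_cases h : l = m <;> simp [h]
          rw [h3, ← h2]
          linear_combination (O l 0 * O m 0) * hcs
      · intro l hl
        rw [Finset.sum_range_succ']
        rcases l with _ | l
        · simp only [ext, abs_zero, Finset.sum_const_zero]
          rw [abs_of_pos hs0, hsH, abs_of_nonneg hc0]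
          linarith
        · simp only [ext]
          have h2 := hO.bound l (by omega)
          rw [abs_mul, abs_neg, abs_mul, abs_of_nonneg hc0, abs_of_pos hs0]
          linarith

lemma exists_good' (H : ℝ) (h0 : 0 ≤ H) : ∃ K O, Good H K O := by
  obtain ⟨n, hn⟩ := exists_nat_ge (H ^ 2)
  exact exists_good n H h0 hn

lemma Good.cols {H : ℝ} {K : ℕ} {O : ℕ → ℕ → ℝ} (h : Good H K O) :
    ∀ l m, l < K + 1 → m < K + 1 →
    ∑ j ∈ Finset.range (K + 1), O j l * O j m = if l = m then 1 else 0 := by
  intro l m hl hm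
  let M : Matrix (Fin (K + 1)) (Fin (K + 1)) ℝ := Matrix.of fun i j => O i j
  have h1 : M * M.transpose = 1 := by
    ext i j
    rw [Matrix.mul_apply, Matrix.one_apply]
    have := h.rows i j i.2 j.2
    rw [Finset.sum_range] at this
    simpa [M, Fin.ext_iff] using this
  have h2 : M.transpose * M = 1 := mul_eq_one_comm.1 h1
  have h3 := congrFun (congrFun h2 ⟨l, hl⟩) ⟨m, hm⟩
  rw [Matrix.mul_apply, Matrix.one_apply] at h3
  rw [Finset.sum_range]
  simpa [M, Fin.ext_iff] using h3

/-! ### Block decomposition of the diagonal -/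

section blocks

variable (H : ℕ → ℝ) (hH : ∀ B, 0 ≤ H B)

/-- block sizes minus one -/
noncomputable def KK (B : ℕ) : ℕ := (exists_good' (H B) (hH B)).choose

/-- block matrices -/
noncomputable def OO (B : ℕ) : ℕ → ℕ → ℝ := (exists_good' (H B) (hH B)).choose_spec.choose

lemma good (B : ℕ) : Good (H B) (KK H hH B) (OO H hH B) :=
  (exists_good' (H B) (hH B)).choose_spec.choose_spec

/-- block starts -/
noncomputable def PP : ℕ → ℕ
  | 0 => 0
  | B + 1 => PP B + (KK H hH B + 1)

lemma PP_strictMono : StrictMono (PP H hH) := strictMono_nat_of_lt_succ fun B => by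
  simp only [PP]; omega

/-- the block of an index -/
noncomputable def blk (n : ℕ) : ℕ := Nat.findGreatest (fun B => PP H hH B ≤ n) n

lemma blk_le (n : ℕ) : PP H hH (blk H hH n) ≤ n :=
  Nat.findGreatest_spec (P := fun B => PP H hH B ≤ n) (m := 0) (Nat.zero_le n) (by simp [PP])

lemma lt_blk (n : ℕ) : n < PP H hH (blk H hH n + 1) := by
  by_contra hcon
  push Not at hcon
  have h1 : blk H hH n + 1 ≤ n := ((PP_strictMono H hH).id_le _).trans hcon
  have h2 : blk H hH n + 1 ≤ blk H hH n :=
    Nat.le_findGreatest (P := fun B => PP H hH B ≤ n) h1 hcon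
  omega

lemma blk_eq {n B : ℕ} (h1 : PP H hH B ≤ n) (h2 : n < PP H hH (B + 1)) : blk H hH n = B := by
  have h3 := blk_le H hH n
  have h4 := lt_blk H hH n
  have h5 : B < blk H hH n + 1 := (PP_strictMono H hH).lt_iff_lt.1 (h1.trans_lt h4)
  have h6 : blk H hH n < B + 1 := (PP_strictMono H hH).lt_iff_lt.1 (h3.trans_lt h2)
  omega

lemma blk_PP (B : ℕ) : blk H hH (PP H hH B) = B :=
  blk_eq H hH le_rfl (PP_strictMono H hH (Nat.lt_succ_self B))

lemma blk_iff {n B : ℕ} : n ∈ Finset.Ico (PP H hH B) (PP H hH (B + 1)) ↔ blk H hH n = B := by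
  rw [Finset.mem_Ico]
  constructor
  · rintro ⟨h1, h2⟩; exact blk_eq H hH h1 h2
  · rintro rfl; exact ⟨blk_le H hH n, lt_blk H hH n⟩

/-- the infinite block diagonal orthogonal matrix -/
noncomputable def UU (n k : ℕ) : ℝ :=
  if blk H hH n = blk H hH k then
    OO H hH (blk H hH n) (n - PP H hH (blk H hH n)) (k - PP H hH (blk H hH n)) else 0

lemma PP_sub (B : ℕ) : PP H hH (B + 1) - PP H hH B = KK H hH B + 1 := by
  simp only [PP]; omega

lemma UU_block {B n k : ℕ} (hn : blk H hH n = B) (hk : blk H hH k = B) :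
    UU H hH n k = OO H hH B (n - PP H hH B) (k - PP H hH B) := by
  subst hn
  unfold UU
  rw [if_pos hk.symm]

lemma offset_lt {B n : ℕ} (hn : blk H hH n = B) : n - PP H hH B < KK H hH B + 1 := by
  have h1 := (blk_iff H hH).2 hn
  rw [Finset.mem_Ico] at h1
  have := PP_sub H hH B
  omega

lemma UU_rows {B n m : ℕ} (hn : blk H hH n = B) (hm : blk H hH m = B) :
    ∑ k ∈ Finset.Ico (PP H hH B) (PP H hH (B + 1)), UU H hH n k * UU H hH m k =
      if n = m then 1 else 0 := by
  rw [Finset.sum_Ico_eq_sum_range, PP_sub]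
  have h1 := (good H hH B).rows _ _ (offset_lt H hH hn) (offset_lt H hH hm)
  have e1 : (n - PP H hH B = m - PP H hH B) ↔ n = m := by
    have a1 := (blk_iff H hH).2 hn
    have a2 := (blk_iff H hH).2 hm
    rw [Finset.mem_Ico] at a1 a2
    omega
  simp only [e1] at h1
  rw [← h1]
  refine Finset.sum_congr rfl fun j hj => ?_
  rw [Finset.mem_range] at hj
  have hk : blk H hH (PP H hH B + j) = B := by
    apply blk_eq H hH (by omega)
    have := PP_sub H hH B
    have := PP_strictMono H hH (Nat.lt_succ_self B)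
    omega
  rw [UU_block H hH hn hk, UU_block H hH hm hk]
  simp

lemma UU_cols {B n m : ℕ} (hn : blk H hH n = B) (hm : blk H hH m = B) :
    ∑ k ∈ Finset.Ico (PP H hH B) (PP H hH (B + 1)), UU H hH k n * UU H hH k m =
      if n = m then 1 else 0 := by
  rw [Finset.sum_Ico_eq_sum_range, PP_sub]
  have h1 := (good H hH B).cols _ _ (offset_lt H hH hn) (offset_lt H hH hm)
  have e1 : (n - PP H hH B = m - PP H hH B) ↔ n = m := by
    have a1 := (blk_iff H hH).2 hn
    have a2 := (blk_iff H hH).2 hm
    rw [Finset.mem_Ico] at a1 a2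
    omega
  simp only [e1] at h1
  rw [← h1]
  refine Finset.sum_congr rfl fun j hj => ?_
  rw [Finset.mem_range] at hj
  have hk : blk H hH (PP H hH B + j) = B := by
    apply blk_eq H hH (by omega)
    have := PP_sub H hH B
    have := PP_strictMono H hH (Nat.lt_succ_self B)
    omega
  rw [UU_block H hH hk hn, UU_block H hH hk hm]
  simp

lemma UU_bound {B n : ℕ} (hn : blk H hH n = B) :
    |UU H hH n (PP H hH B)| * H B +
      ∑ k ∈ Finset.Ico (PP H hH B + 1) (PP H hH (B + 1)), |UU H hH n k| ≤ 5 := by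
  have h1 := (good H hH B).bound _ (offset_lt H hH hn)
  rw [UU_block H hH hn (blk_PP H hH B), Nat.sub_self]
  refine le_trans (le_of_eq ?_) h1
  congr 1
  rw [Finset.sum_Ico_eq_sum_range, show PP H hH (B + 1) - (PP H hH B + 1) = KK H hH B by
    have := PP_sub H hH B; omega]
  refine Finset.sum_congr rfl fun j hj => ?_
  rw [Finset.mem_range] at hj
  have hk : blk H hH (PP H hH B + 1 + j) = B := by
    apply blk_eq H hH (by omega)
    have := PP_sub H hH B
    have := PP_strictMono H hH (Nat.lt_succ_self B)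
    omega
  rw [UU_block H hH hn hk]
  congr 2
  omega

lemma UU_ne {n k : ℕ} (h : blk H hH n ≠ blk H hH k) : UU H hH n k = 0 := by
  unfold UU; rw [if_neg h]

end blocks

end Pool.Agent.Helper304.Blocks
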