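import Mathlib

set_option autoImplicit false

namespace Pool.Agent.Helper304.MaxIneq

open MeasureTheory Filter Topology
open scoped ENNReal NNReal

/-! ### Numerical lemmas -/

lemma four_real (x y : ℝ) : (x + y) ^ 4 ≤ 3 / 2 * x ^ 4 + 500 * y ^ 4 := by
  have h1 : 0 ≤ (x ^ 2 - 4 * x * y - 14 * y ^ 2) ^ 2 := sq_nonneg _
  have h2 : 0 ≤ (x * y - 7 * y ^ 2) ^ 2 := sq_nonneg _
  nlinarith [h1, h2, sq_nonneg (x * y), sq_nonneg (y ^ 2), sq_nonneg (x ^ 2), sq_nonneg (x * y - 8 * y ^ 2),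
    sq_nonneg (x * y + y ^ 2)]

lemma four_ennreal (x y : ℝ≥0∞) : (x + y) ^ 4 ≤ ENNReal.ofReal (3 / 2) * x ^ 4 + ENNReal.ofReal 500 * y ^ 4 := by
  by_cases hx : x = ⊤
  · subst hx
    rw [show (⊤ : ℝ≥0∞) ^ 4 = ⊤ from by simp, ENNReal.mul_top (by simp)]
    simp
  by_cases hy : y = ⊤
  · subst hy
    rw [show (⊤ : ℝ≥0∞) ^ 4 = ⊤ from by simp, ENNReal.mul_top (by simp)]
    simp
  have h := four_real x.toReal y.toReal
  rw [← ENNReal.ofReal_toReal hx, ← ENNReal.ofReal_toReal hy, ← ENNReal.ofReal_add (by positivity) (by positivity),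
    ← ENNReal.ofReal_pow (by positivity), ← ENNReal.ofReal_pow (by positivity),
    ← ENNReal.ofReal_pow (by positivity), ← ENNReal.ofReal_mul (by norm_num),
    ← ENNReal.ofReal_mul (by norm_num), ← ENNReal.ofReal_add (by positivity) (by positivity)]
  exact ENNReal.ofReal_le_ofReal h

lemma split_exists (g : ℕ → ℝ) (hg : ∀ k, 0 ≤ g k) {a b : ℕ} (hab : a < b) :
    ∃ k, a ≤ k ∧ k < b ∧ ∑ i ∈ Finset.Ico a k, g i ≤ (∑ i ∈ Finset.Ico a b, g i) / 2 ∧
      ∑ i ∈ Finset.Ico (k + 1) b, g i ≤ (∑ i ∈ Finset.Ico a b, g i) / 2 := by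
  classical
  set G := ∑ i ∈ Finset.Ico a b, g i with hG
  have hG0 : 0 ≤ G := Finset.sum_nonneg fun i _ => hg i
  have hex : ∃ k, a ≤ k ∧ G / 2 ≤ ∑ i ∈ Finset.Ico a (k + 1), g i := by
    refine ⟨b - 1, by omega, ?_⟩
    rw [show b - 1 + 1 = b by omega]
    linarith
  obtain ⟨hk1, hk2⟩ := Nat.find_spec hex
  set k := Nat.find hex with hk
  have hkb : k < b := by
    have : k ≤ b - 1 := Nat.find_min' hex ⟨by omega, by
      rw [show b - 1 + 1 = b by omega]; linarith⟩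
    omega
  refine ⟨k, hk1, hkb, ?_, ?_⟩
  · rcases Nat.lt_or_ge a k with h | h
    · have h1 := Nat.find_min hex (m := k - 1) (by omega)
      rw [not_and] at h1
      have h2 := h1 (by omega)
      rw [show k - 1 + 1 = k by omega] at h2
      exact (not_le.1 h2).le
    · have : k = a := le_antisymm h hk1
      rw [this]; simp; linarith
  · have h1 := Finset.sum_Ico_consecutive g (show a ≤ k + 1 by omega) (show k + 1 ≤ b by omega)
    linarith

/-! ### The bisection lemma -/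

theorem bisection {Ω : Type*} [MeasurableSpace Ω] (μ : Measure Ω)
    (D : ℕ → ℕ → Ω → ℝ≥0∞) (hm : ∀ a b, Measurable (D a b))
    (htri : ∀ a b c, a ≤ b → b ≤ c → ∀ ω, D a c ω ≤ D a b ω + D b c ω)
    (g : ℕ → ℝ) (hg : ∀ k, 0 ≤ g k) (K : ℝ) (hK : 0 ≤ K)
    (hD : ∀ a b, a ≤ b → ∫⁻ ω, (D a b ω) ^ 4 ∂μ ≤
      ENNReal.ofReal (K * (∑ i ∈ Finset.Ico a b, g i) ^ 2)) :
    ∀ n a b, b - a ≤ n → a ≤ b → ∫⁻ ω, (⨆ k ∈ Finset.Icc a b, D a k ω) ^ 4 ∂μ ≤
      ENNReal.ofReal (2000 * K * (∑ i ∈ Finset.Ico a b, g i) ^ 2) := by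
  intro n
  induction n with
  | zero =>
    intro a b h1 h2
    have : b = a := by omega
    subst this
    simp only [Finset.Icc_self, Finset.mem_singleton, iSup_iSup_eq_left]
    refine (hD b b le_rfl).trans ?_
    simp
  | succ n ih =>
    intro a b h1 h2
    rcases Nat.eq_or_lt_of_le h2 with h3 | h3
    · subst h3
      simp only [Finset.Icc_self, Finset.mem_singleton, iSup_iSup_eq_left]
      refine (hD a a le_rfl).trans ?_
      simp
    obtain ⟨k, hak, hkb, hs1, hs2⟩ := split_exists g hg h3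
    set G := ∑ i ∈ Finset.Ico a b, g i with hG
    have hG0 : 0 ≤ G := Finset.sum_nonneg fun i _ => hg i
    have i1 := ih a k (by omega) hak
    have i2 := ih (k + 1) b (by omega) (by omega)
    have p1 : (0:ℝ) ≤ ∑ i ∈ Finset.Ico a k, g i := Finset.sum_nonneg fun i _ => hg i
    have p2 : (0:ℝ) ≤ ∑ i ∈ Finset.Ico (k + 1) b, g i := Finset.sum_nonneg fun i _ => hg i
    have i1' : ∫⁻ ω, (⨆ j ∈ Finset.Icc a k, D a j ω) ^ 4 ∂μ ≤ ENNReal.ofReal (500 * K * G ^ 2) := by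
      refine i1.trans (ENNReal.ofReal_le_ofReal ?_)
      have : (∑ i ∈ Finset.Ico a k, g i) ^ 2 ≤ (G / 2) ^ 2 := by gcongr
      nlinarith
    have i2' : ∫⁻ ω, (⨆ j ∈ Finset.Icc (k + 1) b, D (k + 1) j ω) ^ 4 ∂μ ≤
        ENNReal.ofReal (500 * K * G ^ 2) := by
      refine i2.trans (ENNReal.ofReal_le_ofReal ?_)
      have : (∑ i ∈ Finset.Ico (k + 1) b, g i) ^ 2 ≤ (G / 2) ^ 2 := by gcongr
      nlinarith
    have hpt : ∀ ω, (⨆ j ∈ Finset.Icc a b, D a j ω) ^ 4 ≤
        ENNReal.ofReal (3 / 2) * ((⨆ j ∈ Finset.Icc a k, D a j ω) ^ 4 +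
          (⨆ j ∈ Finset.Icc (k + 1) b, D (k + 1) j ω) ^ 4) +
        ENNReal.ofReal 500 * (D a (k + 1) ω) ^ 4 := by
      intro ω
      set M1 := ⨆ j ∈ Finset.Icc a k, D a j ω
      set M2 := ⨆ j ∈ Finset.Icc (k + 1) b, D (k + 1) j ω
      have hsup : (⨆ j ∈ Finset.Icc a b, D a j ω) ≤ max M1 M2 + D a (k + 1) ω := by
        refine iSup₂_le fun j hj => ?_
        rw [Finset.mem_Icc] at hj
        rcases Nat.lt_or_ge k j with h | h
        · refine (htri a (k + 1) j (by omega) (by omega) ω).trans ?_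
          rw [add_comm]
          gcongr
          refine le_trans ?_ (le_max_right _ _)
          exact le_iSup₂_of_le j (Finset.mem_Icc.2 ⟨by omega, hj.2⟩) le_rfl
        · refine le_trans ?_ (le_add_right le_rfl)
          refine le_trans ?_ (le_max_left _ _)
          exact le_iSup₂_of_le j (Finset.mem_Icc.2 ⟨hj.1, h⟩) le_rfl
      have hmax : (max M1 M2) ^ 4 ≤ M1 ^ 4 + M2 ^ 4 := by
        rcases le_total M1 M2 with h | h
        · rw [max_eq_right h]; exact le_add_left le_rfl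
        · rw [max_eq_left h]; exact le_add_right le_rfl
      calc (⨆ j ∈ Finset.Icc a b, D a j ω) ^ 4 ≤ (max M1 M2 + D a (k + 1) ω) ^ 4 := by gcongr
        _ ≤ _ := four_ennreal _ _
        _ ≤ _ := by gcongr
    have hmeas : ∀ a b c, Measurable fun ω => (⨆ j ∈ Finset.Icc a b, D c j ω) ^ 4 := by
      intro a b c
      exact (Measurable.iSup fun j => Measurable.iSup fun _ => hm c j).pow_const 4
    calc ∫⁻ ω, (⨆ k ∈ Finset.Icc a b, D a k ω) ^ 4 ∂μ
        ≤ ∫⁻ ω, (ENNReal.ofReal (3 / 2) * ((⨆ j ∈ Finset.Icc a k, D a j ω) ^ 4 +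
          (⨆ j ∈ Finset.Icc (k + 1) b, D (k + 1) j ω) ^ 4) +
        ENNReal.ofReal 500 * (D a (k + 1) ω) ^ 4) ∂μ := lintegral_mono hpt
      _ = ENNReal.ofReal (3 / 2) * (∫⁻ ω, (⨆ j ∈ Finset.Icc a k, D a j ω) ^ 4 ∂μ +
          ∫⁻ ω, (⨆ j ∈ Finset.Icc (k + 1) b, D (k + 1) j ω) ^ 4 ∂μ) +
        ENNReal.ofReal 500 * ∫⁻ ω, (D a (k + 1) ω) ^ 4 ∂μ := by
          have hs : Measurable fun ω => ((⨆ j ∈ Finset.Icc a k, D a j ω) ^ 4 +
            (⨆ j ∈ Finset.Icc (k + 1) b, D (k + 1) j ω) ^ 4) :=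
            (hmeas a k a).add (hmeas (k + 1) b (k + 1))
          rw [lintegral_add_left (hs.const_mul _), lintegral_const_mul _ hs,
            lintegral_add_left (hmeas a k a), lintegral_const_mul _ ((hm _ _).pow_const 4)]
      _ ≤ ENNReal.ofReal (3 / 2) * (ENNReal.ofReal (500 * K * G ^ 2) +
            ENNReal.ofReal (500 * K * G ^ 2)) +
          ENNReal.ofReal 500 * ENNReal.ofReal (K * G ^ 2) := by
          gcongr
          refine (hD a (k + 1) (by omega)).trans (ENNReal.ofReal_le_ofReal ?_)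
          have : ∑ i ∈ Finset.Ico a (k + 1), g i ≤ G := by
            rw [hG]
            exact Finset.sum_le_sum_of_subset_of_nonneg
              (Finset.Ico_subset_Ico le_rfl (by omega)) (fun i _ _ => hg i)
          have h0 : (0:ℝ) ≤ ∑ i ∈ Finset.Ico a (k + 1), g i := Finset.sum_nonneg fun i _ => hg i
          gcongr
      _ = ENNReal.ofReal (2000 * K * G ^ 2) := by
          rw [← ENNReal.ofReal_add (by positivity) (by positivity),
            ← ENNReal.ofReal_mul (by norm_num), ← ENNReal.ofReal_mul (by norm_num),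
            ← ENNReal.ofReal_add (by positivity) (by positivity)]
          congr 1
          ring

/-! ### The two-parameter maximal inequality -/

/-- rectangular partial sums -/
def T {Ω : Type*} (y : ℕ × ℕ → Ω → ℝ) (a : ℕ × ℕ → ℝ) (m n : ℕ) (ω : Ω) : ℝ :=
  ∑ p ∈ Finset.range m ×ˢ Finset.range n, a p * y p ω

/-- fourth moment property -/
def FourM {Ω : Type*} [MeasurableSpace Ω] (μ : Measure Ω) (y : ℕ × ℕ → Ω → ℝ) : Prop :=
  ∀ (a : ℕ × ℕ → ℝ) (s : Finset (ℕ × ℕ)),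
    ∫⁻ ω, ‖∑ p ∈ s, a p * y p ω‖ₑ ^ 4 ∂μ ≤ ENNReal.ofReal (3 * (∑ p ∈ s, a p ^ 2) ^ 2)

section two

set_option linter.unusedSectionVars false

variable {Ω : Type*} [MeasurableSpace Ω] {μ : Measure Ω} {y : ℕ × ℕ → Ω → ℝ}

lemma T_meas (hy : ∀ p, Measurable (y p)) (a : ℕ × ℕ → ℝ) (m n : ℕ) : Measurable (T y a m n) := by
  unfold T
  exact Finset.measurable_sum _ fun p _ => (hy p).const_mul _

lemma T_zero_left (a : ℕ × ℕ → ℝ) (n : ℕ) (ω : Ω) : T y a 0 n ω = 0 := by simp [T]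

lemma T_zero_right (a : ℕ × ℕ → ℝ) (m : ℕ) (ω : Ω) : T y a m 0 ω = 0 := by simp [T]

lemma T_diff_right (a : ℕ × ℕ → ℝ) {m n' n : ℕ} (h : n' ≤ n) (ω : Ω) :
    T y a m n ω - T y a m n' ω = ∑ p ∈ Finset.range m ×ˢ Finset.Ico n' n, a p * y p ω := by
  unfold T
  rw [Finset.sum_product, Finset.sum_product, Finset.sum_product, ← Finset.sum_sub_distrib]
  refine Finset.sum_congr rfl fun i _ => ?_
  rw [Finset.sum_Ico_eq_sub _ h]

lemma T_diff_both (a : ℕ × ℕ → ℝ) {m' m n' n : ℕ} (h : n' ≤ n) (h' : m' ≤ m) (ω : Ω) :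
    (T y a m n ω - T y a m n' ω) - (T y a m' n ω - T y a m' n' ω) =
      ∑ p ∈ Finset.Ico m' m ×ˢ Finset.Ico n' n, a p * y p ω := by
  rw [T_diff_right a h, T_diff_right a h, Finset.sum_product, Finset.sum_product,
    Finset.sum_product, Finset.sum_Ico_eq_sub _ h']

theorem max_m (hy : ∀ p, Measurable (y p)) (h4 : FourM μ y) (a : ℕ × ℕ → ℝ) (M : ℕ)
    {n' n : ℕ} (h : n' ≤ n) :
    ∫⁻ ω, (⨆ m ∈ Finset.Icc 0 M, ‖T y a m n ω - T y a m n' ω‖ₑ) ^ 4 ∂μ ≤
      ENNReal.ofReal (2000 * 3 * (∑ i ∈ Finset.Ico 0 M, ∑ k ∈ Finset.Ico n' n, a (i, k) ^ 2) ^ 2) := by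
  have := bisection μ
    (fun m' m ω => ‖(T y a m n ω - T y a m n' ω) - (T y a m' n ω - T y a m' n' ω)‖ₑ)
    (by
      intro m' m
      exact ((((T_meas hy a m n).sub (T_meas hy a m n')).sub
        ((T_meas hy a m' n).sub (T_meas hy a m' n')))).enorm)
    (by
      intro p q r _ _ ω
      have : (T y a r n ω - T y a r n' ω) - (T y a p n ω - T y a p n' ω) =
        ((T y a q n ω - T y a q n' ω) - (T y a p n ω - T y a p n' ω)) +
        ((T y a r n ω - T y a r n' ω) - (T y a q n ω - T y a q n' ω)) := by ring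
      rw [this]
      exact enorm_add_le _ _)
    (fun i => ∑ k ∈ Finset.Ico n' n, a (i, k) ^ 2)
    (fun i => Finset.sum_nonneg fun k _ => sq_nonneg _) 3 (by norm_num)
    (by
      intro m' m hm
      simp only [T_diff_both a h hm]
      refine (h4 a _).trans ?_
      rw [Finset.sum_product])
    M 0 M (by omega) (by omega)
  simpa [T_zero_left] using this

theorem max_mn (hy : ∀ p, Measurable (y p)) (h4 : FourM μ y) (a : ℕ × ℕ → ℝ) (M N : ℕ) :
    ∫⁻ ω, (⨆ n ∈ Finset.Icc 0 N, ⨆ m ∈ Finset.Icc 0 M, ‖T y a m n ω‖ₑ) ^ 4 ∂μ ≤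
      ENNReal.ofReal (2000 * 6000 *
        (∑ p ∈ Finset.range M ×ˢ Finset.range N, a p ^ 2) ^ 2) := by
  have := bisection μ
    (fun n' n ω => ⨆ m ∈ Finset.Icc 0 M, ‖T y a m n ω - T y a m n' ω‖ₑ)
    (by
      intro n' n
      exact Measurable.iSup fun m => Measurable.iSup fun _ =>
        ((T_meas hy a m n).sub (T_meas hy a m n')).enorm)
    (by
      intro p q r _ _ ω
      refine iSup₂_le fun m hm => ?_
      have : T y a m r ω - T y a m p ω = (T y a m q ω - T y a m p ω) +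
        (T y a m r ω - T y a m q ω) := by ring
      rw [this]
      refine (enorm_add_le _ _).trans ?_
      gcongr
      · exact le_iSup₂_of_le (f := fun m _ => ‖T y a m q ω - T y a m p ω‖ₑ) m hm le_rfl
      · exact le_iSup₂_of_le (f := fun m _ => ‖T y a m r ω - T y a m q ω‖ₑ) m hm le_rfl)
    (fun k => ∑ i ∈ Finset.Ico 0 M, a (i, k) ^ 2)
    (fun i => Finset.sum_nonneg fun k _ => sq_nonneg _) 6000 (by norm_num)
    (by
      intro n' n hn
      refine (max_m hy h4 a M hn).trans ?_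
      rw [Finset.sum_comm]
      norm_num)
    N 0 N (by omega) (by omega)
  simp only [T_zero_right, sub_zero] at this
  refine this.trans (le_of_eq ?_)
  congr 3
  rw [Finset.sum_comm, Finset.sum_product]
  simp

/-- truncated array -/
def tr (a : ℕ × ℕ → ℝ) (N : ℕ) (p : ℕ × ℕ) : ℝ := if p.1 < N ∧ p.2 < N then 0 else a p

lemma T_tr (a : ℕ × ℕ → ℝ) (N m n : ℕ) (hm : N ≤ m) (hn : N ≤ n) (ω : Ω) :
    T y (tr a N) m n ω = T y a m n ω - T y a N N ω := by
  unfold T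
  have hsub : Finset.range N ×ˢ Finset.range N ⊆ Finset.range m ×ˢ Finset.range n :=
    Finset.product_subset_product (Finset.range_mono hm) (Finset.range_mono hn)
  rw [← Finset.sum_sdiff hsub, ← Finset.sum_sdiff (f := fun p => a p * y p ω) hsub]
  have h1 : ∑ p ∈ Finset.range N ×ˢ Finset.range N, tr a N p * y p ω = 0 := by
    refine Finset.sum_eq_zero fun p hp => ?_
    rw [Finset.mem_product, Finset.mem_range, Finset.mem_range] at hp
    simp [tr, hp]
  rw [h1, add_zero, add_sub_cancel_right]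
  refine Finset.sum_congr rfl fun p hp => ?_
  rw [Finset.mem_sdiff, Finset.mem_product, Finset.mem_product, Finset.mem_range, Finset.mem_range,
    Finset.mem_range, Finset.mem_range] at hp
  simp only [tr, if_neg hp.2]

/-- the maximal function of the tail -/
noncomputable def W (y : ℕ × ℕ → Ω → ℝ) (a : ℕ × ℕ → ℝ) (N : ℕ) (ω : Ω) : ℝ≥0∞ :=
  ⨆ M : ℕ, ⨆ n ∈ Finset.Icc 0 M, ⨆ m ∈ Finset.Icc 0 M, ‖T y (tr a N) m n ω‖ₑ

lemma W_le (a : ℕ × ℕ → ℝ) (N m n : ℕ) (hm : N ≤ m) (hn : N ≤ n) (ω : Ω) :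
    ‖T y a m n ω - T y a N N ω‖ₑ ≤ W y a N ω := by
  rw [← T_tr a N m n hm hn]
  unfold W
  refine le_iSup_of_le (max m n) ?_
  refine le_iSup₂_of_le n (Finset.mem_Icc.2 ⟨by omega, by simp⟩) ?_
  exact le_iSup₂_of_le (f := fun m _ => ‖T y (tr a N) m n ω‖ₑ) m
    (Finset.mem_Icc.2 ⟨by omega, by simp⟩) le_rfl

lemma W_bound (hy : ∀ p, Measurable (y p)) (h4 : FourM μ y) (a : ℕ × ℕ → ℝ) (N : ℕ) (t : ℝ)
    (ht : ∀ s : Finset (ℕ × ℕ), ∑ p ∈ s, (tr a N p) ^ 2 ≤ t) :
    ∫⁻ ω, (W y a N ω) ^ 4 ∂μ ≤ ENNReal.ofReal (2000 * 6000 * t ^ 2) := by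
  have hpow : ∀ ω, (W y a N ω) ^ 4 =
      ⨆ M : ℕ, (⨆ n ∈ Finset.Icc 0 M, ⨆ m ∈ Finset.Icc 0 M, ‖T y (tr a N) m n ω‖ₑ) ^ 4 := by
    intro ω
    unfold W
    rw [ENNReal.iSup_pow_of_ne_zero (by norm_num)]
  simp only [hpow]
  rw [lintegral_iSup]
  · refine iSup_le fun M => (max_mn hy h4 (tr a N) M M).trans (ENNReal.ofReal_le_ofReal ?_)
    have h1 := ht (Finset.range M ×ˢ Finset.range M)
    have h2 : 0 ≤ ∑ p ∈ Finset.range M ×ˢ Finset.range M, (tr a N p) ^ 2 :=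
      Finset.sum_nonneg fun p _ => sq_nonneg _
    gcongr
  · intro M
    exact (Measurable.iSup fun n => Measurable.iSup fun _ => Measurable.iSup fun m =>
      Measurable.iSup fun _ => (T_meas hy (tr a N) m n).enorm).pow_const 4
  · intro M M' hMM' ω
    dsimp only
    gcongr ?_ ^ 4
    refine iSup₂_le fun n hn => ?_
    have hn' : n ∈ Finset.Icc 0 M' := by
      rw [Finset.mem_Icc] at hn ⊢; omega
    refine le_iSup₂_of_le n hn' ?_
    refine iSup₂_le fun m hm => ?_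
    have hm' : m ∈ Finset.Icc 0 M' := by
      rw [Finset.mem_Icc] at hm ⊢; omega
    exact le_iSup₂_of_le (f := fun m _ => ‖T y (tr a N) m n ω‖ₑ) m hm' le_rfl

lemma W_meas (hy : ∀ p, Measurable (y p)) (a : ℕ × ℕ → ℝ) (N : ℕ) : Measurable (W y a N) := by
  unfold W
  exact Measurable.iSup fun M => Measurable.iSup fun n => Measurable.iSup fun _ =>
    Measurable.iSup fun m => Measurable.iSup fun _ => (T_meas hy (tr a N) m n).enorm

lemma tail_le (a : ℕ × ℕ → ℝ) (ha : Summable fun p => a p ^ 2) (N : ℕ) (s : Finset (ℕ × ℕ)) :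
    ∑ p ∈ s, (tr a N p) ^ 2 ≤
      (∑' p, a p ^ 2) - ∑ p ∈ Finset.range N ×ˢ Finset.range N, a p ^ 2 := by
  classical
  have h1 : ∑ p ∈ s, (tr a N p) ^ 2 + ∑ p ∈ Finset.range N ×ˢ Finset.range N, a p ^ 2 ≤
      ∑ p ∈ s ∪ Finset.range N ×ˢ Finset.range N, a p ^ 2 := by
    have h2 : ∑ p ∈ s, (tr a N p) ^ 2 = ∑ p ∈ s \ (Finset.range N ×ˢ Finset.range N), a p ^ 2 := by
      rw [← Finset.sum_filter_add_sum_filter_not s (fun p => p.1 < N ∧ p.2 < N)]
      have h3 : ∑ p ∈ s with (p.1 < N ∧ p.2 < N), (tr a N p) ^ 2 = 0 := by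
        refine Finset.sum_eq_zero fun p hp => ?_
        rw [Finset.mem_filter] at hp
        simp [tr, hp.2]
      rw [h3, zero_add]
      refine Finset.sum_congr ?_ ?_
      · ext p
        simp [Finset.mem_filter, Finset.mem_sdiff, Finset.mem_product]
      · intro p hp
        rw [Finset.mem_sdiff, Finset.mem_product, Finset.mem_range, Finset.mem_range] at hp
        simp only [tr, if_neg hp.2]
    rw [h2, ← Finset.sum_union (Finset.sdiff_disjoint), Finset.sdiff_union_self_eq_union]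
  have h4 := ha.sum_le_tsum (s ∪ Finset.range N ×ˢ Finset.range N) (fun p _ => sq_nonneg _)
  linarith

theorem T_converges (hy : ∀ p, Measurable (y p)) (h4 : FourM μ y) (a : ℕ × ℕ → ℝ)
    (ha : Summable fun p => a p ^ 2) :
    ∀ᵐ ω ∂μ, ∃ s, Tendsto (fun q : ℕ × ℕ => T y a q.1 q.2 ω) atTop (𝓝 s) := by
  set t : ℕ → ℝ := fun N => (∑' p, a p ^ 2) - ∑ p ∈ Finset.range N ×ˢ Finset.range N, a p ^ 2 with ht
  have htt : Tendsto t atTop (𝓝 0) := by
    have h1 : Tendsto (fun N => ∑ p ∈ Finset.range N ×ˢ Finset.range N, a p ^ 2) atTop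
        (𝓝 (∑' p, a p ^ 2)) := by
      refine ha.hasSum.comp (tendsto_atTop_finset_of_monotone ?_ ?_)
      · intro N N' h
        exact Finset.product_subset_product (Finset.range_mono h) (Finset.range_mono h)
      · intro p
        refine ⟨max p.1 p.2 + 1, ?_⟩
        simp only [Finset.mem_product, Finset.mem_range]
        omega
    have := (tendsto_const_nhds (x := ∑' p, a p ^ 2)).sub h1
    simpa using this
  have hbound : ∀ N, ∫⁻ ω, (W y a N ω) ^ 4 ∂μ ≤ ENNReal.ofReal (2000 * 6000 * (t N) ^ 2) :=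
    fun N => W_bound hy h4 a N (t N) (tail_le a ha N)
  have hinf : ∫⁻ ω, (⨅ N, W y a N ω) ^ 4 ∂μ = 0 := by
    refine le_antisymm ?_ bot_le
    have h1 : Tendsto (fun N => ENNReal.ofReal (2000 * 6000 * (t N) ^ 2)) atTop (𝓝 0) := by
      have : Tendsto (fun N => 2000 * 6000 * (t N) ^ 2) atTop (𝓝 0) := by
        simpa using (htt.pow 2).const_mul (2000 * 6000)
      have := ENNReal.tendsto_ofReal this
      simpa using this
    refine ge_of_tendsto' h1 fun N => ?_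
    refine le_trans (lintegral_mono fun ω => ?_) (hbound N)
    dsimp only
    gcongr
    exact iInf_le _ N
  rw [lintegral_eq_zero_iff ((Measurable.iInf fun N => W_meas hy a N).pow_const 4)] at hinf
  filter_upwards [hinf] with ω hω
  have h0 : (⨅ N, W y a N ω) = 0 := by
    simpa using hω
  have hc : CauchySeq (fun q : ℕ × ℕ => T y a q.1 q.2 ω) := by
    rw [EMetric.cauchySeq_iff']
    intro ε hε
    have : (⨅ N, W y a N ω) < ε := by rw [h0]; exact hε
    obtain ⟨N, hN⟩ := iInf_lt_iff.1 this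
    refine ⟨(N, N), fun q hq => ?_⟩
    rw [edist_eq_enorm_sub]
    exact (W_le a N q.1 q.2 hq.1 hq.2 ω).trans_lt hN
  exact cauchySeq_tendsto_of_complete hc

end two

end Pool.Agent.Helper304.MaxIneq
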