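import Mathlib
import Pool.Agent.Helper304.MaxIneq
import Pool.Agent.Helper304.Signs
import Pool.Agent.Helper304.Basis
import Pool.Agent.Helper304.Blocks

set_option autoImplicit false

namespace Pool.Agent.Helper304.Assembly

open MeasureTheory Filter Topology
open scoped ENNReal
open Pool.Agent.Helper304.Signs Pool.Agent.Helper304.Basis Pool.Agent.Helper304.Blocks
open Pool.Agent.Helper304.MaxIneq

/-! ### The combinatorial part -/

/-- powers of two -/
def pw (B : ℕ) : Prop := ∃ j, B = 2 ^ j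

lemma pw_log {B : ℕ} (h : pw B) : 2 ^ Nat.log 2 B = B := by
  obtain ⟨j, rfl⟩ := h
  rw [Nat.log_pow (by norm_num)]

section comb

variable (H : ℕ → ℝ) (hH : ∀ B, 0 ≤ H B)

lemma exists_idx : ∃ E : ℕ × ℕ ≃ ℕ,
    (∀ B, ¬ pw B → E (PP H hH B, PP H hH B) = B) ∧
    (∀ q, (¬ ∃ B, ¬ pw B ∧ q = (PP H hH B, PP H hH B)) → pw (E q)) := by
  classical
  let S : Set (ℕ × ℕ) := {q | ∃ B, ¬ pw B ∧ q = (PP H hH B, PP H hH B)}
  have hSc : Infinite (Sᶜ : Set (ℕ × ℕ)) := by
    have hmem : ∀ n : ℕ, ((0, n + 1) : ℕ × ℕ) ∈ Sᶜ := by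
      rintro n ⟨B, _, h2⟩
      rw [Prod.mk.injEq] at h2
      omega
    refine Infinite.of_injective (fun n : ℕ => (⟨(0, n + 1), hmem n⟩ : (Sᶜ : Set (ℕ × ℕ)))) ?_
    intro n m h
    simpa using h
  have hPw : Infinite {B | pw B} := by
    refine Infinite.of_injective (fun j : ℕ => (⟨2 ^ j, j, rfl⟩ : {B | pw B})) ?_
    intro n m h
    have h' : 2 ^ n = 2 ^ m := congrArg Subtype.val h
    exact Nat.pow_right_injective le_rfl h'
  obtain ⟨e⟩ : Nonempty ((Sᶜ : Set (ℕ × ℕ)) ≃ {B | pw B}) := nonempty_equiv_of_countable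
  let idx : ℕ × ℕ → ℕ := fun q => if h : q ∈ S then blk H hH q.1 else (e ⟨q, h⟩ : ℕ)
  have h1 : ∀ B, ¬ pw B → idx (PP H hH B, PP H hH B) = B := by
    intro B hB
    have : (PP H hH B, PP H hH B) ∈ S := ⟨B, hB, rfl⟩
    simp only [idx, dif_pos this]
    exact blk_PP H hH B
  have h2 : ∀ q, (¬ ∃ B, ¬ pw B ∧ q = (PP H hH B, PP H hH B)) → pw (idx q) := by
    intro q hq
    have : q ∉ S := hq
    simp only [idx, dif_neg this]
    exact (e ⟨q, this⟩).2
  have h3 : ∀ q, q ∈ S → ¬ pw (idx q) := by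
    rintro q ⟨B, hB, rfl⟩
    rw [h1 B hB]; exact hB
  have hbij : Function.Bijective idx := by
    constructor
    · intro q q' hqq
      by_cases hq : q ∈ S
      · by_cases hq' : q' ∈ S
        · obtain ⟨B, hB, rfl⟩ := hq
          obtain ⟨B', hB', rfl⟩ := hq'
          rw [h1 B hB, h1 B' hB'] at hqq
          rw [hqq]
        · exact absurd (hqq ▸ h2 q' hq') (h3 q hq)
      · by_cases hq' : q' ∈ S
        · exact absurd (hqq ▸ h2 q hq) (h3 q' hq')
        · simp only [idx, dif_neg hq, dif_neg hq'] at hqq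
          have := e.injective (Subtype.ext hqq)
          simpa using this
    · intro B
      by_cases hB : pw B
      · refine ⟨(e.symm ⟨B, hB⟩ : ℕ × ℕ), ?_⟩
        have : (e.symm ⟨B, hB⟩ : ℕ × ℕ) ∉ S := (e.symm ⟨B, hB⟩).2
        simp only [idx, dif_neg this]
        simp
      · exact ⟨_, h1 B hB⟩
  exact ⟨Equiv.ofBijective idx hbij, h1, h2⟩

/-- transition matrix -/
noncomputable def V (p q : ℕ × ℕ) : ℝ :=
  if p.1 = p.2 then (if q.1 = q.2 then UU H hH p.1 q.1 else 0) else (if q = p then 1 else 0)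

/-- support of a row -/
noncomputable def Sp (p : ℕ × ℕ) : Finset (ℕ × ℕ) :=
  if p.1 = p.2 then (Finset.Ico (PP H hH (blk H hH p.1)) (PP H hH (blk H hH p.1 + 1))).image
    (fun k => (k, k)) else {p}

lemma V_zero {p q : ℕ × ℕ} (h : q ∉ Sp H hH p) : V H hH p q = 0 := by
  unfold V
  unfold Sp at h
  split_ifs at h with hp
  · rw [if_pos hp]
    by_cases hq : q.1 = q.2
    · rw [if_pos hq]
      apply UU_ne
      intro hcon
      apply h
      rw [Finset.mem_image]
      exact ⟨q.1, (blk_iff H hH).2 hcon.symm, Prod.ext rfl hq⟩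
    · rw [if_neg hq]
  · rw [if_neg hp, if_neg (by simpa using h)]

lemma sum_Sp_diag (n : ℕ) (F : ℕ × ℕ → ℝ) : ∑ q ∈ Sp H hH (n, n), F q =
    ∑ k ∈ Finset.Ico (PP H hH (blk H hH n)) (PP H hH (blk H hH n + 1)), F (k, k) := by
  unfold Sp
  rw [if_pos rfl, Finset.sum_image]
  intro k _ l _ h
  simpa using h

lemma sum_Sp_off {p : ℕ × ℕ} (hp : p.1 ≠ p.2) (F : ℕ × ℕ → ℝ) : ∑ q ∈ Sp H hH p, F q = F p := by
  unfold Sp
  rw [if_neg hp, Finset.sum_singleton]

lemma V_rows (p p' : ℕ × ℕ) (Q : Finset (ℕ × ℕ)) (hQ : Sp H hH p ⊆ Q) :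
    ∑ q ∈ Q, V H hH p q * V H hH p' q = if p = p' then 1 else 0 := by
  rw [← Finset.sum_subset hQ (fun q _ hq => by rw [V_zero H hH hq, zero_mul])]
  by_cases hp : p.1 = p.2
  · obtain ⟨n, rfl⟩ : ∃ n, p = (n, n) := ⟨p.1, Prod.ext rfl hp.symm⟩
    rw [sum_Sp_diag]
    by_cases hp' : p'.1 = p'.2
    · obtain ⟨m, rfl⟩ : ∃ n, p' = (n, n) := ⟨p'.1, Prod.ext rfl hp'.symm⟩
      simp only [V, if_true]
      by_cases hb : blk H hH m = blk H hH n
      · rw [UU_rows H hH rfl hb]
        simp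
      · rw [if_neg (by rintro ⟨⟩; exact hb rfl)]
        refine Finset.sum_eq_zero fun k hk => ?_
        rw [blk_iff] at hk
        rw [UU_ne H hH (n := m) (k := k) (by rw [hk]; exact hb), mul_zero]
    · rw [if_neg (by rintro ⟨⟩; exact hp' rfl)]
      refine Finset.sum_eq_zero fun k hk => ?_
      have : V H hH p' (k, k) = 0 := by
        unfold V
        rw [if_neg hp', if_neg (by rintro ⟨⟩; exact hp' rfl)]
      rw [this, mul_zero]
  · rw [sum_Sp_off H hH hp]
    have h1 : V H hH p p = 1 := by simp [V, hp]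
    rw [h1, one_mul]
    unfold V
    rw [if_neg hp]
    by_cases hp' : p'.1 = p'.2
    · rw [if_pos hp', if_neg (by rintro rfl; exact hp hp')]
    · rw [if_neg hp']

lemma sum_blocks (F : ℕ → ℝ) (B : ℕ) : ∑ k ∈ Finset.range (PP H hH B), F k =
    ∑ b ∈ Finset.range B, ∑ k ∈ Finset.Ico (PP H hH b) (PP H hH (b + 1)), F k := by
  induction B with
  | zero => simp [PP]
  | succ B ih =>
    rw [Finset.sum_range_succ, ← ih, Finset.range_eq_Ico, Finset.range_eq_Ico,
      Finset.sum_Ico_consecutive _ (Nat.zero_le _) (PP_strictMono H hH (Nat.lt_succ_self B)).le]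

end comb

/-! ### The functions -/

section fn

variable {X : Type*} (H : ℕ → ℝ) (hH : ∀ B, 0 ≤ H B) (E : ℕ × ℕ ≃ ℕ) (d : ℕ → X → Bool)

/-- the double system -/
noncomputable def phi (p : ℕ × ℕ) (x : X) : ℝ :=
  ∑ q ∈ Sp H hH p, V H hH p q * hB d (E q) x

open Classical in
/-- its Rademacher part -/
noncomputable def yy (p : ℕ × ℕ) (x : X) : ℝ :=
  ∑ q ∈ Sp H hH p, if pw (E q) then V H hH p q * hB d (E q) x else 0

open Classical in
/-- the remaining part on the diagonal -/
noncomputable def zz (n : ℕ) (x : X) : ℝ :=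
  if pw (blk H hH n) then 0 else UU H hH n (PP H hH (blk H hH n)) * hB d (blk H hH n) x

open Classical in
lemma phi_eq (hE1 : ∀ B, ¬ pw B → E (PP H hH B, PP H hH B) = B)
    (hE2 : ∀ q, (¬ ∃ B, ¬ pw B ∧ q = (PP H hH B, PP H hH B)) → pw (E q)) (p : ℕ × ℕ) (x : X) :
    phi H hH E d p x = yy H hH E d p x + if p.1 = p.2 then zz H hH d p.1 x else 0 := by
  unfold phi yy
  rw [add_comm, ← sub_eq_iff_eq_add, ← Finset.sum_sub_distrib]
  by_cases hp : p.1 = p.2
  · obtain ⟨n, rfl⟩ : ∃ n, p = (n, n) := ⟨p.1, Prod.ext rfl hp.symm⟩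
    rw [sum_Sp_diag]
    simp only [if_true, V]
    set B := blk H hH n with hB
    have hmem : PP H hH B ∈ Finset.Ico (PP H hH B) (PP H hH (B + 1)) := by
      rw [blk_iff, blk_PP]
    rw [Finset.sum_eq_single_of_mem _ hmem]
    · unfold zz
      rw [← hB]
      by_cases hpw : pw B
      · have : pw (E (PP H hH B, PP H hH B)) := by
          apply hE2
          rintro ⟨B', h1, h2⟩
          rw [Prod.mk.injEq] at h2
          have := (PP_strictMono H hH).injective h2.1
          exact h1 (this ▸ hpw)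
        rw [if_pos this, if_pos hpw, sub_self]
      · rw [hE1 B hpw, if_neg hpw, if_neg hpw, sub_zero]
    · intro k hk hne
      have : pw (E (k, k)) := by
        apply hE2
        rintro ⟨B', h1, h2⟩
        rw [Prod.mk.injEq] at h2
        rw [blk_iff, h2.1, blk_PP] at hk
        rw [hk] at h2
        exact hne h2.1
      rw [if_pos this, sub_self]
  · rw [sum_Sp_off H hH hp, if_neg hp]
    have : pw (E p) := by
      apply hE2
      rintro ⟨B', h1, rfl⟩
      exact hp rfl
    rw [if_pos this, sub_self]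

variable [MeasurableSpace X] {μ : Measure X} [IsProbabilityMeasure μ] {d}
  (hd : SignSystem μ d)

include hd

lemma phi_meas (p : ℕ × ℕ) : Measurable (phi H hH E d p) := by
  unfold phi
  exact Finset.measurable_sum _ fun q _ => (hB_meas hd _).const_mul _

open Classical in
lemma yy_meas (p : ℕ × ℕ) : Measurable (yy H hH E d p) := by
  unfold yy
  refine Finset.measurable_sum _ fun q _ => ?_
  split_ifs
  · exact (hB_meas hd _).const_mul _
  · exact measurable_const

lemma phi_orth (p p' : ℕ × ℕ) :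
    ∫ x, phi H hH E d p x * phi H hH E d p' x ∂μ = if p = p' then 1 else 0 := by
  classical
  have h1 : ∀ x, phi H hH E d p x * phi H hH E d p' x =
      ∑ q ∈ Sp H hH p, ∑ q' ∈ Sp H hH p', (V H hH p q * V H hH p' q') *
        (hB d (E q) x * hB d (E q') x) := by
    intro x
    unfold phi
    rw [Finset.sum_mul_sum]
    exact Finset.sum_congr rfl fun q _ => Finset.sum_congr rfl fun q' _ => by ring
  simp only [h1]
  rw [integral_finsetSum _ fun q _ => integrable_finsetSum _ fun q' _ =>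
    (hB_mul_int hd _ _).const_mul _]
  have h2 : ∀ q, ∫ x, ∑ q' ∈ Sp H hH p', (V H hH p q * V H hH p' q') *
        (hB d (E q) x * hB d (E q') x) ∂μ = V H hH p q * V H hH p' q := by
    intro q
    rw [integral_finsetSum _ fun q' _ => (hB_mul_int hd _ _).const_mul _]
    simp only [integral_const_mul, hB_orth hd, EmbeddingLike.apply_eq_iff_eq, mul_ite, mul_one,
      mul_zero, Finset.sum_ite_eq]
    by_cases hq : q ∈ Sp H hH p'
    · rw [if_pos hq]
    · rw [if_neg hq, V_zero H hH hq, mul_zero]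
  simp only [h2]
  exact V_rows H hH p p' _ le_rfl

omit hd in
lemma phi_bound (hE1 : ∀ B, ¬ pw B → E (PP H hH B, PP H hH B) = B)
    (hE2 : ∀ q, (¬ ∃ B, ¬ pw B ∧ q = (PP H hH B, PP H hH B)) → pw (E q))
    (hH1 : ∀ B, 1 ≤ H B) (hHb : ∀ B (x : X), |hB d B x| ≤ H B) (p : ℕ × ℕ) (x : X) :
    |phi H hH E d p x| ≤ 5 := by
  have hpw1 : ∀ B, pw B → |hB d B x| = 1 := by
    rintro B ⟨j, rfl⟩
    rw [hB_pow, abs_sg]
  unfold phi
  by_cases hp : p.1 = p.2
  · obtain ⟨n, rfl⟩ : ∃ n, p = (n, n) := ⟨p.1, Prod.ext rfl hp.symm⟩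
    rw [sum_Sp_diag]
    simp only [if_true, V]
    set B := blk H hH n with hB'
    refine le_trans (Finset.abs_sum_le_sum_abs _ _) ?_
    have hlt : PP H hH B < PP H hH (B + 1) := PP_strictMono H hH (Nat.lt_succ_self B)
    rw [Finset.sum_eq_sum_Ico_succ_bot hlt]
    refine le_trans ?_ (UU_bound H hH hB'.symm)
    refine add_le_add ?_ (Finset.sum_le_sum fun k hk => ?_)
    · rw [abs_mul]
      refine mul_le_mul_of_nonneg_left ?_ (abs_nonneg _)
      by_cases hpw : pw B
      · have : pw (E (PP H hH B, PP H hH B)) := by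
          apply hE2
          rintro ⟨B', h1, h2⟩
          rw [Prod.mk.injEq] at h2
          have := (PP_strictMono H hH).injective h2.1
          exact h1 (this ▸ hpw)
        rw [hpw1 _ this]
        exact hH1 B
      · rw [hE1 B hpw]
        exact hHb B x
    · have hk' : k ∈ Finset.Ico (PP H hH B) (PP H hH (B + 1)) := by
        rw [Finset.mem_Ico] at hk ⊢; omega
      have : pw (E (k, k)) := by
        apply hE2
        rintro ⟨B', h1, h2⟩
        rw [Prod.mk.injEq] at h2
        rw [blk_iff, h2.1, blk_PP] at hk'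
        rw [h2.1, hk', Finset.mem_Ico] at hk
        omega
      rw [abs_mul, hpw1 _ this, mul_one]
  · rw [sum_Sp_off H hH hp]
    have : pw (E p) := by
      apply hE2
      rintro ⟨B', h1, rfl⟩
      exact hp rfl
    rw [abs_mul, hpw1 _ this]
    simp [V, hp]

lemma phi_complete
    (hgen : ∀ f : X → ℝ, MemLp f 2 μ →
      (∀ (J : ℕ) (G : (Fin J → Bool) → ℝ), ∫ x, f x * G (pre d J x) ∂μ = 0) → f =ᵐ[μ] 0)
    (f : X → ℝ) (hf : MemLp f 2 μ) (h : ∀ p, ∫ x, f x * phi H hH E d p x ∂μ = 0) :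
    f =ᵐ[μ] 0 := by
  have hfi : Integrable f μ := hf.integrable (by norm_num)
  apply hgen f hf
  apply complete_dep hd f hfi
  have hint : ∀ B, Integrable (fun x => f x * hB d B x) μ := by
    intro B
    obtain ⟨K, hK1, hK⟩ := hB_bound hd B
    exact hfi.mul_bdd (c := K) (hB_meas hd B).aestronglyMeasurable
      (ae_of_all _ fun x => by rw [Real.norm_eq_abs]; exact hK x)
  have hphi : ∀ p, ∫ x, f x * phi H hH E d p x ∂μ =
      ∑ q ∈ Sp H hH p, V H hH p q * ∫ x, f x * hB d (E q) x ∂μ := by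
    intro p
    have h1 : ∀ x, f x * phi H hH E d p x =
        ∑ q ∈ Sp H hH p, V H hH p q * (f x * hB d (E q) x) := by
      intro x
      unfold phi
      rw [Finset.mul_sum]
      exact Finset.sum_congr rfl fun q _ => by ring
    simp only [h1]
    rw [integral_finsetSum _ fun q _ => (hint _).const_mul _]
    simp only [integral_const_mul]
  intro B
  obtain ⟨q, rfl⟩ := E.surjective B
  by_cases hq : q.1 = q.2
  · obtain ⟨k, rfl⟩ : ∃ n, q = (n, n) := ⟨q.1, Prod.ext rfl hq.symm⟩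
    set B := blk H hH k with hB'
    have h2 : ∑ n ∈ Finset.Ico (PP H hH B) (PP H hH (B + 1)), UU H hH n k *
        ∫ x, f x * phi H hH E d (n, n) x ∂μ = ∫ x, f x * hB d (E (k, k)) x ∂μ := by
      have h3 : ∀ n ∈ Finset.Ico (PP H hH B) (PP H hH (B + 1)), UU H hH n k *
          ∫ x, f x * phi H hH E d (n, n) x ∂μ =
          ∑ l ∈ Finset.Ico (PP H hH B) (PP H hH (B + 1)), (UU H hH n k * UU H hH n l) *
            ∫ x, f x * hB d (E (l, l)) x ∂μ := by
        intro n hn
        rw [blk_iff] at hn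
        rw [hphi, sum_Sp_diag, hn, Finset.mul_sum]
        refine Finset.sum_congr rfl fun l _ => ?_
        simp only [V, if_true]
        ring
      rw [Finset.sum_congr rfl h3, Finset.sum_comm]
      have h4 : ∀ l ∈ Finset.Ico (PP H hH B) (PP H hH (B + 1)),
          ∑ n ∈ Finset.Ico (PP H hH B) (PP H hH (B + 1)), (UU H hH n k * UU H hH n l) *
            ∫ x, f x * hB d (E (l, l)) x ∂μ =
            if k = l then ∫ x, f x * hB d (E (l, l)) x ∂μ else 0 := by
        intro l hl
        rw [blk_iff] at hl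
        rw [← Finset.sum_mul, UU_cols H hH hB'.symm hl]
        by_cases hkl : k = l
        · rw [if_pos hkl, if_pos hkl, one_mul]
        · rw [if_neg hkl, if_neg hkl, zero_mul]
      rw [Finset.sum_congr rfl h4, Finset.sum_ite_eq, if_pos ((blk_iff H hH).2 hB'.symm)]
    rw [← h2]
    exact Finset.sum_eq_zero fun n _ => by rw [h, mul_zero]
  · have := h q
    rw [hphi, sum_Sp_off H hH hq] at this
    simpa [V, hq] using this

open Classical in
lemma fourM_y : FourM μ (yy H hH E d) := by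
  intro a s
  set Q' := s.biUnion (Sp H hH) with hQ'
  set Q := Q'.filter (fun q => pw (E q)) with hQ
  set γ : ℕ × ℕ → ℝ := fun q => ∑ p ∈ s, a p * V H hH p q with hγ
  set β : ℕ → ℝ := fun j => γ (E.symm (2 ^ j)) with hβ
  set F := Q.image (fun q => Nat.log 2 (E q)) with hF
  have hinj : Set.InjOn (fun q => Nat.log 2 (E q)) Q := by
    intro q hq q' hq' hqq
    rw [Finset.mem_coe, hQ, Finset.mem_filter] at hq hq'
    have h1 : 2 ^ Nat.log 2 (E q) = 2 ^ Nat.log 2 (E q') := congrArg (fun n => 2 ^ n) hqq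
    rw [pw_log hq.2, pw_log hq'.2] at h1
    exact E.injective h1
  have hβγ : ∀ q ∈ Q, β (Nat.log 2 (E q)) = γ q := by
    intro q hq
    rw [hQ, Finset.mem_filter] at hq
    simp only [hβ]
    rw [pw_log hq.2, Equiv.symm_apply_apply]
  have e1 : ∀ x, ∑ p ∈ s, a p * yy H hH E d p x = ∑ j ∈ F, β j * sg (d j x) := by
    intro x
    rw [hF, Finset.sum_image hinj]
    have h2 : ∀ q ∈ Q, β (Nat.log 2 (E q)) * sg (d (Nat.log 2 (E q)) x) =
        ∑ p ∈ s, a p * (V H hH p q * hB d (E q) x) := by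
      intro q hq
      rw [hβγ q hq]
      rw [hQ, Finset.mem_filter] at hq
      have : hB d (E q) x = sg (d (Nat.log 2 (E q)) x) := by
        conv_lhs => rw [← pw_log hq.2]
        rw [hB_pow]
      rw [this, hγ, Finset.sum_mul]
      exact Finset.sum_congr rfl fun p _ => by ring
    rw [Finset.sum_congr rfl h2, Finset.sum_comm]
    refine Finset.sum_congr rfl fun p hp => ?_
    rw [← Finset.mul_sum]
    congr 1
    unfold yy
    rw [hQ, Finset.sum_filter]
    refine Finset.sum_subset (Finset.subset_biUnion_of_mem (Sp H hH) hp) fun q _ hq => ?_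
    rw [V_zero H hH hq, zero_mul, ite_self]
  have e2 : ∑ j ∈ F, β j ^ 2 ≤ ∑ p ∈ s, a p ^ 2 := by
    rw [hF, Finset.sum_image hinj]
    have h2 : ∀ q ∈ Q, β (Nat.log 2 (E q)) ^ 2 = γ q ^ 2 := fun q hq => by rw [hβγ q hq]
    rw [Finset.sum_congr rfl h2]
    refine (Finset.sum_le_sum_of_subset_of_nonneg (Finset.filter_subset _ Q')
      (fun q _ _ => sq_nonneg _)).trans (le_of_eq ?_)
    have h3 : ∀ q, γ q ^ 2 = ∑ p ∈ s, ∑ p' ∈ s, (a p * a p') * (V H hH p q * V H hH p' q) := by
      intro q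
      rw [hγ, sq, Finset.sum_mul_sum]
      exact Finset.sum_congr rfl fun p _ => Finset.sum_congr rfl fun p' _ => by ring
    simp only [h3]
    rw [Finset.sum_comm]
    refine Finset.sum_congr rfl fun p hp => ?_
    rw [Finset.sum_comm]
    have h4 : ∀ p', ∑ q ∈ Q', (a p * a p') * (V H hH p q * V H hH p' q) =
        (a p * a p') * if p = p' then 1 else 0 := by
      intro p'
      rw [← Finset.mul_sum, V_rows H hH p p' Q' (Finset.subset_biUnion_of_mem (Sp H hH) hp)]
    simp only [h4, mul_ite, mul_one, mul_zero, Finset.sum_ite_eq]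
    rw [if_pos hp, sq]
  simp only [e1]
  refine (fourth_enorm hd F β).trans (ENNReal.ofReal_le_ofReal ?_)
  have h0 : 0 ≤ ∑ j ∈ F, β j ^ 2 := Finset.sum_nonneg fun _ _ => sq_nonneg _
  gcongr

omit [MeasurableSpace X] hd in
lemma zz_partial (c : ℕ → ℝ) (N : ℕ) (x : X) :
    (∑ k ∈ Finset.Ico (PP H hH (blk H hH N)) N, c k * zz H hH d k x) ^ 2 ≤
      (∑ k ∈ Finset.Ico (PP H hH (blk H hH N)) (PP H hH (blk H hH N + 1)), c k ^ 2) *
        (hB d (blk H hH N) x * hB d (blk H hH N) x) := by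
  classical
  set B := blk H hH N with hB'
  have hN1 : PP H hH B ≤ N := blk_le H hH N
  have hN2 : N < PP H hH (B + 1) := lt_blk H hH N
  have hsub : Finset.Ico (PP H hH B) N ⊆ Finset.Ico (PP H hH B) (PP H hH (B + 1)) :=
    Finset.Ico_subset_Ico le_rfl hN2.le
  have h0 : 0 ≤ (∑ k ∈ Finset.Ico (PP H hH B) (PP H hH (B + 1)), c k ^ 2) :=
    Finset.sum_nonneg fun _ _ => sq_nonneg _
  by_cases hpw : pw B
  · have : ∑ k ∈ Finset.Ico (PP H hH B) N, c k * zz H hH d k x = 0 := by
      refine Finset.sum_eq_zero fun k hk => ?_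
      have hk' := (blk_iff H hH).1 (hsub hk)
      unfold zz
      rw [hk', if_pos hpw, mul_zero]
    rw [this]
    have := mul_nonneg h0 (mul_self_nonneg (hB d B x))
    simpa using this
  · have h1 : ∑ k ∈ Finset.Ico (PP H hH B) N, c k * zz H hH d k x =
        (∑ k ∈ Finset.Ico (PP H hH B) N, c k * UU H hH k (PP H hH B)) * hB d B x := by
      rw [Finset.sum_mul]
      refine Finset.sum_congr rfl fun k hk => ?_
      have hk' := (blk_iff H hH).1 (hsub hk)
      unfold zz
      rw [hk', if_neg hpw, mul_assoc]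
    rw [h1, mul_pow, sq (hB d B x)]
    refine mul_le_mul_of_nonneg_right ?_ (mul_self_nonneg _)
    refine (Finset.sum_mul_sq_le_sq_mul_sq _ _ _).trans ?_
    have h2 : ∑ k ∈ Finset.Ico (PP H hH B) N, UU H hH k (PP H hH B) ^ 2 ≤ 1 := by
      have h3 := UU_cols H hH (blk_PP H hH B) (blk_PP H hH B)
      rw [if_pos rfl] at h3
      rw [← h3]
      refine (Finset.sum_le_sum_of_subset_of_nonneg hsub (fun _ _ _ => sq_nonneg _)).trans
        (le_of_eq ?_)
      exact Finset.sum_congr rfl fun _ _ => by ring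
    have h4 : ∑ k ∈ Finset.Ico (PP H hH B) N, c k ^ 2 ≤
        ∑ k ∈ Finset.Ico (PP H hH B) (PP H hH (B + 1)), c k ^ 2 :=
      Finset.sum_le_sum_of_subset_of_nonneg hsub (fun _ _ _ => sq_nonneg _)
    have h5 : 0 ≤ ∑ k ∈ Finset.Ico (PP H hH B) N, UU H hH k (PP H hH B) ^ 2 :=
      Finset.sum_nonneg fun _ _ => sq_nonneg _
    have h6 : 0 ≤ ∑ k ∈ Finset.Ico (PP H hH B) N, c k ^ 2 :=
      Finset.sum_nonneg fun _ _ => sq_nonneg _
    nlinarith

lemma zz_converges (c : ℕ → ℝ) (hc : Summable fun k => c k ^ 2) :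
    ∀ᵐ x ∂μ, ∃ s, Tendsto (fun N => ∑ k ∈ Finset.range N, c k * zz H hH d k x) atTop (𝓝 s) := by
  classical
  set C : ℕ → ℝ := fun B => ∑ k ∈ Finset.Ico (PP H hH B) (PP H hH (B + 1)), c k ^ 2 with hC
  set A : ℕ → ℝ := fun B => if pw B then 0 else
    ∑ k ∈ Finset.Ico (PP H hH B) (PP H hH (B + 1)), c k * UU H hH k (PP H hH B) with hA
  have hC0 : ∀ B, 0 ≤ C B := fun B => Finset.sum_nonneg fun _ _ => sq_nonneg _
  have hCs : Summable C := by
    refine summable_of_sum_range_le (c := ∑' k, c k ^ 2) hC0 fun n => ?_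
    rw [hC, ← sum_blocks H hH (fun k => c k ^ 2) n]
    exact hc.sum_le_tsum _ (fun _ _ => sq_nonneg _)
  have hAC : ∀ B, A B ^ 2 ≤ C B := by
    intro B
    simp only [hA]
    split_ifs with hpw
    · simpa using hC0 B
    · refine (Finset.sum_mul_sq_le_sq_mul_sq _ _ _).trans ?_
      have h3 := UU_cols H hH (blk_PP H hH B) (blk_PP H hH B)
      rw [if_pos rfl] at h3
      have h4 : ∑ k ∈ Finset.Ico (PP H hH B) (PP H hH (B + 1)), UU H hH k (PP H hH B) ^ 2 = 1 := by
        rw [← h3]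
        exact Finset.sum_congr rfl fun _ _ => by ring
      rw [h4, mul_one]
  have hAs : Summable fun B => A B ^ 2 :=
    Summable.of_nonneg_of_le (fun B => sq_nonneg _) hAC hCs
  have hZ := tendsto_zero_of_summable (μ := μ) hd
    (Z := fun B x => C B * (hB d B x * hB d B x))
    (fun B x => mul_nonneg (hC0 B) (mul_self_nonneg _))
    (fun B => (hB_mul_int hd B B).const_mul _) C hCs
    (fun B => by rw [integral_const_mul, hB_orth hd, if_pos rfl, mul_one])
  have hblk : Tendsto (blk H hH) atTop atTop := by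
    rw [tendsto_atTop]
    intro B
    filter_upwards [eventually_ge_atTop (PP H hH B)] with N hN
    have h1 := lt_blk H hH N
    have := (PP_strictMono H hH).lt_iff_lt.1 (hN.trans_lt h1)
    omega
  filter_upwards [hB_converges hd A hAs, hZ] with x ⟨s, hs⟩ hz
  refine ⟨s, ?_⟩
  have h1 : ∀ N, ∑ k ∈ Finset.range N, c k * zz H hH d k x =
      ∑ B ∈ Finset.range (blk H hH N), A B * hB d B x +
        ∑ k ∈ Finset.Ico (PP H hH (blk H hH N)) N, c k * zz H hH d k x := by
    intro N
    have h2 : ∑ B ∈ Finset.range (blk H hH N), A B * hB d B x =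
        ∑ k ∈ Finset.range (PP H hH (blk H hH N)), c k * zz H hH d k x := by
      rw [sum_blocks]
      refine Finset.sum_congr rfl fun B _ => ?_
      simp only [hA]
      split_ifs with hpw
      · rw [zero_mul]
        symm
        refine Finset.sum_eq_zero fun k hk => ?_
        rw [blk_iff] at hk
        unfold zz
        rw [hk, if_pos hpw, mul_zero]
      · rw [Finset.sum_mul]
        refine Finset.sum_congr rfl fun k hk => ?_
        rw [blk_iff] at hk
        unfold zz
        rw [hk, if_neg hpw, mul_assoc]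
    rw [h2, Finset.range_eq_Ico, Finset.range_eq_Ico,
      Finset.sum_Ico_consecutive _ (Nat.zero_le _) (blk_le H hH N)]
  simp only [h1]
  rw [← add_zero s]
  refine (hs.comp hblk).add ?_
  have h3 : Tendsto (fun N => √(C (blk H hH N) *
      (hB d (blk H hH N) x * hB d (blk H hH N) x))) atTop (𝓝 0) := by
    have := (hz.comp hblk).sqrt
    simpa using this
  refine squeeze_zero_norm (fun N => ?_) h3
  rw [Real.norm_eq_abs]
  exact Real.abs_le_sqrt (zz_partial H hH c N x)

end fn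

/-! ### Main theorem on a probability space with independent fair bits -/

lemma sum_diag {X : Type*} (a : ℕ × ℕ → ℝ) (z : ℕ → X → ℝ) (m n : ℕ) (x : X) :
    ∑ p ∈ Finset.range m ×ˢ Finset.range n, a p * (if p.1 = p.2 then z p.1 x else 0) =
      ∑ k ∈ Finset.range (min m n), a (k, k) * z k x := by
  rw [Finset.sum_product]
  have h1 : ∀ i ∈ Finset.range m, ∑ k ∈ Finset.range n, a (i, k) * (if i = k then z i x else 0) =
      if i < n then a (i, i) * z i x else 0 := by
    intro i _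
    simp only [mul_ite, mul_zero, Finset.sum_ite_eq, Finset.mem_range]
  simp only at h1 ⊢
  rw [Finset.sum_congr rfl h1, ← Finset.sum_filter]
  refine Finset.sum_congr ?_ fun _ _ => rfl
  ext i
  simp only [Finset.mem_filter, Finset.mem_range, lt_min_iff]

theorem exists_system {X : Type*} [MeasurableSpace X] {μ : Measure X} [IsProbabilityMeasure μ]
    {d : ℕ → X → Bool} (hd : SignSystem μ d)
    (hgen : ∀ f : X → ℝ, MemLp f 2 μ →
      (∀ (J : ℕ) (G : (Fin J → Bool) → ℝ), ∫ x, f x * G (pre d J x) ∂μ = 0) → f =ᵐ[μ] 0) :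
    ∃ φ : ℕ × ℕ → X → ℝ, (∀ p, Measurable (φ p)) ∧ (∀ p x, |φ p x| ≤ 5) ∧
      (∀ p p', ∫ x, φ p x * φ p' x ∂μ = if p = p' then 1 else 0) ∧
      (∀ f : X → ℝ, MemLp f 2 μ → (∀ p, ∫ x, f x * φ p x ∂μ = 0) → f =ᵐ[μ] 0) ∧
      (∀ a : ℕ × ℕ → ℝ, (Summable fun p => a p ^ 2) → ∀ᵐ x ∂μ,
        (∃ s, Tendsto (fun q : ℕ × ℕ => ∑ p ∈ Finset.range q.1 ×ˢ Finset.range q.2,
          a p * φ p x) atTop (𝓝 s)) ∧
        (∀ i, ∃ s, Tendsto (fun n => ∑ k ∈ Finset.range n, a (i, k) * φ (i, k) x) atTop (𝓝 s)) ∧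
        (∀ k, ∃ s, Tendsto (fun m => ∑ i ∈ Finset.range m, a (i, k) * φ (i, k) x)
          atTop (𝓝 s))) := by
  classical
  choose H hH1 hHb using hB_bound hd
  have hH : ∀ B, 0 ≤ H B := fun B => zero_le_one.trans (hH1 B)
  obtain ⟨E, hE1, hE2⟩ := exists_idx H hH
  have hP : ∀ a : ℕ × ℕ → ℝ, (Summable fun p => a p ^ 2) → ∀ᵐ x ∂μ,
      ∃ s, Tendsto (fun q : ℕ × ℕ => ∑ p ∈ Finset.range q.1 ×ˢ Finset.range q.2,
          a p * phi H hH E d p x) atTop (𝓝 s) := by
    intro a ha
    have hc : Summable fun k => (fun k => a (k, k)) k ^ 2 :=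
      ha.comp_injective (i := fun k : ℕ => (k, k)) (fun k l h => by simpa using h)
    filter_upwards [T_converges (yy_meas H hH E hd) (fourM_y H hH E hd) a ha,
      zz_converges H hH hd (fun k => a (k, k)) hc] with x ⟨s, hs⟩ ⟨s', hs'⟩
    refine ⟨s + s', ?_⟩
    have h1 : ∀ q : ℕ × ℕ, ∑ p ∈ Finset.range q.1 ×ˢ Finset.range q.2,
          a p * phi H hH E d p x = T (yy H hH E d) a q.1 q.2 x +
          ∑ k ∈ Finset.range (min q.1 q.2), a (k, k) * zz H hH d k x := by
      intro q
      rw [← sum_diag a (zz H hH d) q.1 q.2 x]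
      unfold T
      rw [← Finset.sum_add_distrib]
      refine Finset.sum_congr rfl fun p _ => ?_
      rw [phi_eq H hH E d hE1 hE2]
      ring
    simp only [h1]
    refine hs.add ?_
    have hmin : Tendsto (fun q : ℕ × ℕ => min q.1 q.2) atTop atTop := by
      rw [tendsto_atTop]
      intro b
      filter_upwards [eventually_ge_atTop (b, b)] with q hq
      exact le_min hq.1 hq.2
    exact hs'.comp hmin
  refine ⟨phi H hH E d, phi_meas H hH E hd, phi_bound H hH E hE1 hE2 hH1 hHb,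
    phi_orth H hH E hd, phi_complete H hH E hd hgen, fun a ha => ?_⟩
  have hrow : ∀ i, ∀ᵐ x ∂μ, ∃ s, Tendsto (fun n => ∑ k ∈ Finset.range n,
      a (i, k) * phi H hH E d (i, k) x) atTop (𝓝 s) := by
    intro i
    have hs : Summable fun p : ℕ × ℕ => (if p.1 = i then a p else 0) ^ 2 := by
      refine Summable.of_nonneg_of_le (fun _ => sq_nonneg _) (fun p => ?_) ha
      split_ifs
      · exact le_rfl
      · simpa using sq_nonneg (a p)
    filter_upwards [hP _ hs] with x ⟨s, hs⟩
    refine ⟨s, ?_⟩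
    have hcomp : Tendsto (fun n : ℕ => (i + 1 + n, n)) atTop atTop := by
      rw [← prod_atTop_atTop_eq]
      exact Tendsto.prodMk (tendsto_atTop_mono (fun n : ℕ => (by omega : n ≤ i + 1 + n))
        tendsto_id) tendsto_id
    refine (hs.comp hcomp).congr fun n => ?_
    simp only [Function.comp]
    rw [Finset.sum_product, Finset.sum_eq_single i]
    · simp
    · intro j _ hj
      refine Finset.sum_eq_zero fun k _ => ?_
      simp [hj]
    · intro h
      rw [Finset.mem_range] at h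
      omega
  have hcol : ∀ k, ∀ᵐ x ∂μ, ∃ s, Tendsto (fun m => ∑ i ∈ Finset.range m,
      a (i, k) * phi H hH E d (i, k) x) atTop (𝓝 s) := by
    intro k
    have hs : Summable fun p : ℕ × ℕ => (if p.2 = k then a p else 0) ^ 2 := by
      refine Summable.of_nonneg_of_le (fun _ => sq_nonneg _) (fun p => ?_) ha
      split_ifs
      · exact le_rfl
      · simpa using sq_nonneg (a p)
    filter_upwards [hP _ hs] with x ⟨s, hs⟩
    refine ⟨s, ?_⟩
    have hcomp : Tendsto (fun n : ℕ => (n, k + 1 + n)) atTop atTop := by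
      rw [← prod_atTop_atTop_eq]
      exact Tendsto.prodMk tendsto_id (tendsto_atTop_mono
        (fun n : ℕ => (by omega : n ≤ k + 1 + n)) tendsto_id)
    refine (hs.comp hcomp).congr fun n => ?_
    simp only [Function.comp]
    rw [Finset.sum_product_right, Finset.sum_eq_single k]
    · simp
    · intro j _ hj
      refine Finset.sum_eq_zero fun i _ => ?_
      simp [hj]
    · intro h
      rw [Finset.mem_range] at h
      omega
  filter_upwards [hP a ha, ae_all_iff.2 hrow, ae_all_iff.2 hcol] with x h1 h2 h3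
  exact ⟨h1, h2, h3⟩

end Pool.Agent.Helper304.Assembly
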