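import Mathlib

open MeasureTheory Filter Topology Set ContinuousLinearMap
open scoped ContDiff Convolution

noncomputable section

namespace Helper304Lap

/-- Euclidean `N`-space. -/
abbrev E (N : ℕ) := EuclideanSpace ℝ (Fin N)

variable {N : ℕ}

/-- smooth compactly supported functions -/
def Tst (φ : E N → ℝ) : Prop := ContDiff ℝ ∞ φ ∧ HasCompactSupport φ

/-- the `i`-th standard basis vector -/
def bv (i : Fin N) : E N := EuclideanSpace.single i (1 : ℝ)

/-- partial derivative -/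
def pd (i : Fin N) (φ : E N → ℝ) (x : E N) : ℝ := fderiv ℝ φ x (bv i)

/-- Laplacian in coordinates -/
def lap (φ : E N → ℝ) (x : E N) : ℝ := ∑ i, pd i (pd i φ) x

lemma norm_bv (i : Fin N) : ‖bv i‖ = 1 := by simp [bv]

lemma Tst.cont {φ : E N → ℝ} (h : Tst φ) : Continuous φ := h.1.continuous

lemma Tst.diff {φ : E N → ℝ} (h : Tst φ) : Differentiable ℝ φ := h.1.differentiable (by simp)

lemma contDiff_pd {φ : E N → ℝ} (h : ContDiff ℝ ∞ φ) (i : Fin N) : ContDiff ℝ ∞ (pd i φ) := by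
  have h1 : ContDiff ℝ ∞ (fderiv ℝ φ) := h.fderiv_right (by simp)
  exact h1.clm_apply contDiff_const

lemma Tst.pd {φ : E N → ℝ} (h : Tst φ) (i : Fin N) : Tst (pd i φ) := by
  refine ⟨contDiff_pd h.1 i, ?_⟩
  have := h.2.fderiv ℝ
  exact this.comp_left (g := fun L : E N →L[ℝ] ℝ => L (bv i)) (by simp)

lemma Tst.integrable {φ : E N → ℝ} (h : Tst φ) : Integrable φ :=
  h.cont.integrable_of_hasCompactSupport h.2

lemma contDiff_lap {φ : E N → ℝ} (h : ContDiff ℝ ∞ φ) : ContDiff ℝ ∞ (lap φ) := by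
  have : lap φ = fun x => ∑ i, Helper304Lap.pd i (Helper304Lap.pd i φ) x := rfl
  rw [this]
  exact ContDiff.sum fun i _ => contDiff_pd (contDiff_pd h i) i

lemma Tst.sum {ι : Type*} {s : Finset ι} {f : ι → E N → ℝ} (h : ∀ i ∈ s, Tst (f i)) :
    Tst (fun x => ∑ i ∈ s, f i x) := by
  classical
  induction s using Finset.induction_on with
  | empty =>
    simp only [Finset.sum_empty]
    exact ⟨contDiff_const, HasCompactSupport.zero⟩
  | insert a s ha ih =>
    simp only [Finset.sum_insert ha]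
    have h1 := h a (Finset.mem_insert_self a s)
    have h2 := ih fun i hi => h i (Finset.mem_insert_of_mem hi)
    exact ⟨h1.1.add h2.1, h1.2.add h2.2⟩

lemma Tst.lap {φ : E N → ℝ} (h : Tst φ) : Tst (lap φ) :=
  Tst.sum fun i _ => (h.pd i).pd i

lemma Tst.mul {φ ψ : E N → ℝ} (h : Tst φ) (h' : Tst ψ) : Tst (fun x => φ x * ψ x) :=
  ⟨h.1.mul h'.1, h.2.mul_right⟩

lemma Tst.mul_smooth {φ ψ : E N → ℝ} (h : Tst φ) (h' : ContDiff ℝ ∞ ψ) :
    Tst (fun x => φ x * ψ x) :=
  ⟨h.1.mul h', h.2.mul_right⟩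

lemma Tst.smooth_mul {φ ψ : E N → ℝ} (h : Tst φ) (h' : ContDiff ℝ ∞ ψ) :
    Tst (fun x => ψ x * φ x) :=
  ⟨h'.mul h.1, h.2.mul_left⟩

lemma Tst.add {φ ψ : E N → ℝ} (h : Tst φ) (h' : Tst ψ) : Tst (fun x => φ x + ψ x) :=
  ⟨h.1.add h'.1, h.2.add h'.2⟩

lemma Tst.neg {φ : E N → ℝ} (h : Tst φ) : Tst (fun x => - φ x) :=
  ⟨h.1.neg, h.2.neg⟩

lemma Tst.sub {φ ψ : E N → ℝ} (h : Tst φ) (h' : Tst ψ) : Tst (fun x => φ x - ψ x) := by
  simpa [sub_eq_add_neg] using h.add h'.neg

lemma Tst.const_mul {φ : E N → ℝ} (h : Tst φ) (c : ℝ) : Tst (fun x => c * φ x) :=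
  h.smooth_mul contDiff_const

lemma Tst.bdd {φ : E N → ℝ} (h : Tst φ) : ∃ C, 0 ≤ C ∧ ∀ x, |φ x| ≤ C := by
  obtain ⟨C, hC⟩ := h.2.exists_bound_of_continuous h.cont
  exact ⟨max C 0, le_max_right _ _, fun x => (hC x).trans (le_max_left _ _)⟩

lemma pd_add {φ ψ : E N → ℝ} (i : Fin N) {x : E N} (h : DifferentiableAt ℝ φ x)
    (h' : DifferentiableAt ℝ ψ x) :
    pd i (fun x => φ x + ψ x) x = pd i φ x + pd i ψ x := by
  unfold pd
  rw [fderiv_fun_add h h']; rfl

lemma pd_sub {φ ψ : E N → ℝ} (i : Fin N) {x : E N} (h : DifferentiableAt ℝ φ x)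
    (h' : DifferentiableAt ℝ ψ x) :
    pd i (fun x => φ x - ψ x) x = pd i φ x - pd i ψ x := by
  unfold pd
  rw [fderiv_fun_sub h h']; rfl

lemma pd_mul {φ ψ : E N → ℝ} (i : Fin N) {x : E N} (h : DifferentiableAt ℝ φ x)
    (h' : DifferentiableAt ℝ ψ x) :
    pd i (fun x => φ x * ψ x) x = pd i φ x * ψ x + φ x * pd i ψ x := by
  unfold pd
  rw [fderiv_fun_mul h h']
  simp [mul_comm, add_comm]

lemma pd_const_mul {φ : E N → ℝ} (i : Fin N) {x : E N} (c : ℝ) (h : DifferentiableAt ℝ φ x) :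
    pd i (fun x => c * φ x) x = c * pd i φ x := by
  unfold pd
  rw [fderiv_const_mul h c]; rfl

lemma pd_comp {φ : E N → ℝ} {g : ℝ → ℝ} (i : Fin N) {x : E N} (h : DifferentiableAt ℝ φ x)
    (hg : DifferentiableAt ℝ g (φ x)) :
    pd i (fun x => g (φ x)) x = deriv g (φ x) * pd i φ x := by
  unfold pd
  have := (hg.hasDerivAt.comp_hasFDerivAt x h.hasFDerivAt).fderiv
  have h2 : (g ∘ φ) = fun x => g (φ x) := rfl
  rw [h2] at this
  rw [this]; simp

/-- integration by parts -/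
lemma ibp {φ ψ : E N → ℝ} (h : Tst φ) (h' : ContDiff ℝ ∞ ψ) (i : Fin N) :
    ∫ x, ψ x * pd i φ x = - ∫ x, pd i ψ x * φ x := by
  unfold pd
  apply integral_mul_fderiv_eq_neg_fderiv_mul_of_integrable
  · exact ((h.smooth_mul (contDiff_pd h' i))).integrable
  · exact ((h.pd i).smooth_mul h').integrable
  · exact (h.smooth_mul h').integrable
  · intro x _; exact h'.differentiable (by simp) x
  · intro x _; exact h.diff x

lemma pd_comm {φ : E N → ℝ} (h : ContDiff ℝ ∞ φ) (i j : Fin N) (x : E N) :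
    pd i (pd j φ) x = pd j (pd i φ) x := by
  have hs : IsSymmSndFDerivAt ℝ φ x :=
    (h.contDiffAt).isSymmSndFDerivAt (by
      simp only [minSmoothness_of_isRCLikeNormedField]
      exact WithTop.coe_le_coe.2 le_top)
  have h1 : DifferentiableAt ℝ (fderiv ℝ φ) x :=
    (h.fderiv_right (m := ∞) (by simp)).differentiable (by simp) x
  have key : ∀ i j, pd i (pd j φ) x = fderiv ℝ (fderiv ℝ φ) x (bv i) (bv j) := by
    intro i j
    unfold pd
    rw [fderiv_clm_apply h1 (by fun_prop)]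
    simp
  rw [key, key]
  exact hs _ _

/-- the coordinate Laplacian agrees with Mathlib's -/
lemma lap_eq {φ : E N → ℝ} (h : ContDiff ℝ ∞ φ) (x : E N) :
    Laplacian.laplacian φ x = lap φ x := by
  rw [InnerProductSpace.laplacian_eq_iteratedFDeriv_orthonormalBasis φ
    (EuclideanSpace.basisFun (Fin N) ℝ)]
  have h1 : DifferentiableAt ℝ (fderiv ℝ φ) x :=
    (h.fderiv_right (m := ∞) (by simp)).differentiable (by simp) x
  unfold lap
  apply Finset.sum_congr rfl
  intro i _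
  unfold pd
  rw [fderiv_clm_apply h1 (by fun_prop), iteratedFDeriv_two_apply]
  simp [bv]

/-- weak partial derivative on the whole space -/
def WD (i : Fin N) (u v : E N → ℝ) : Prop :=
  ∀ φ, Tst φ → ∫ x, u x * pd i φ x = - ∫ x, v x * φ x

/-- distributional Laplacian on the whole space -/
def WL (u f : E N → ℝ) : Prop :=
  ∀ φ, Tst φ → ∫ x, u x * lap φ x = ∫ x, f x * φ x

/-- the mollifier family -/
def bump (n : ℕ) : ContDiffBump (0 : E N) where
  rIn := 1 / (2 * ((n : ℝ) + 1))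
  rOut := 1 / ((n : ℝ) + 1)
  rIn_pos := by positivity
  rIn_lt_rOut := by
    apply one_div_lt_one_div_of_lt (by positivity)
    linarith [(Nat.cast_nonneg n : (0 : ℝ) ≤ n)]

def mol (n : ℕ) : E N → ℝ := (bump (N := N) n).normed volume

def ml (n : ℕ) (u : E N → ℝ) : E N → ℝ := mol n ⋆[lsmul ℝ ℝ, volume] u

lemma mol_tst (n : ℕ) : Tst (mol (N := N) n) :=
  ⟨(bump n).contDiff_normed, (bump n).hasCompactSupport_normed⟩

lemma mol_nonneg (n : ℕ) (x : E N) : 0 ≤ mol n x := (bump n).nonneg_normed x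

lemma mol_int (n : ℕ) : ∫ x, mol (N := N) n x = 1 := (bump n).integral_normed

lemma ml_eq (n : ℕ) (u : E N → ℝ) (x : E N) : ml n u x = ∫ t, mol n (x - t) * u t := by
  unfold ml
  rw [convolution_lsmul_swap]
  simp

lemma ml_eq' (n : ℕ) (u : E N → ℝ) (x : E N) : ml n u x = ∫ t, mol n t * u (x - t) := by
  unfold ml
  rw [convolution_lsmul]
  simp

lemma ml_contDiff (n : ℕ) {u : E N → ℝ} (hu : LocallyIntegrable u) : ContDiff ℝ ∞ (ml n u) :=
  (mol_tst n).2.contDiff_convolution_left _ (mol_tst n).1 hu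

lemma ml_supp (n : ℕ) {u : E N → ℝ} (hu : HasCompactSupport u) : HasCompactSupport (ml n u) :=
  (mol_tst n).2.convolution _ hu

lemma ml_tst (n : ℕ) {u : E N → ℝ} (hu : Integrable u) (h : HasCompactSupport u) :
    Tst (ml n u) := ⟨ml_contDiff n hu.locallyIntegrable, ml_supp n h⟩

lemma ml_integrable (n : ℕ) {u : E N → ℝ} (hu : Integrable u) : Integrable (ml n u) :=
  (mol_tst n).integrable.integrable_convolution (lsmul ℝ ℝ) hu

lemma ml_L1_le (n : ℕ) {u : E N → ℝ} (hu : Integrable u) : ∫ x, |ml n u x| ≤ ∫ x, |u x| := by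
  have h1 : ∀ x, |ml n u x| ≤ ml n (fun x => |u x|) x := by
    intro x
    rw [ml_eq, ml_eq, ← Real.norm_eq_abs]
    refine (norm_integral_le_integral_norm _).trans (le_of_eq ?_)
    refine integral_congr_ae (Eventually.of_forall fun t => ?_)
    simp only [Real.norm_eq_abs, abs_mul, abs_of_nonneg (mol_nonneg _ _)]
  calc ∫ x, |ml n u x| ≤ ∫ x, ml n (fun x => |u x|) x :=
        integral_mono (ml_integrable n hu).abs (ml_integrable n hu.abs) h1
    _ = ∫ x, |u x| := by
        unfold ml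
        rw [integral_convolution (lsmul ℝ ℝ) (mol_tst n).integrable hu.abs]
        simp [mol_int]

lemma ml_ae (u : E N → ℝ) (hu : LocallyIntegrable u) :
    ∀ᵐ x, Tendsto (fun n => ml n u x) atTop (𝓝 (u x)) := by
  apply ContDiffBump.ae_convolution_tendsto_right_of_locallyIntegrable (K := 2) _ _ hu
  · exact tendsto_one_div_add_atTop_nhds_zero_nat
  · refine Eventually.of_forall fun n => ?_
    change 1 / ((n : ℝ) + 1) ≤ 2 * (1 / (2 * ((n : ℝ) + 1)))
    have : (0 : ℝ) < (n : ℝ) + 1 := by positivity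
    apply le_of_eq
    field_simp

/-- Riesz–Scheffé -/
lemma riesz_scheffe {α : Type*} [MeasurableSpace α] {μ : Measure α} {F : ℕ → α → ℝ} {f : α → ℝ}
    (hF : ∀ n, Integrable (F n) μ) (hf : Integrable f μ)
    (hae : ∀ᵐ x ∂μ, Tendsto (fun n => F n x) atTop (𝓝 (f x)))
    (hle : ∀ n, ∫ x, |F n x| ∂μ ≤ ∫ x, |f x| ∂μ) :
    Tendsto (fun n => ∫ x, |F n x - f x| ∂μ) atTop (𝓝 0) := by
  have h1 : Tendsto (fun n => ∫ x, (|F n x| + |f x| - |F n x - f x|) ∂μ) atTop
      (𝓝 (∫ x, (2 * |f x|) ∂μ)) := by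
    apply tendsto_integral_of_dominated_convergence (fun x => 2 * |f x|)
    · intro n
      exact (((hF n).abs.add hf.abs).sub ((hF n).sub hf).abs).aestronglyMeasurable
    · exact hf.abs.const_mul 2
    · intro n
      refine Eventually.of_forall fun x => ?_
      rw [Real.norm_eq_abs, abs_le]
      have h2 : |F n x| ≤ |F n x - f x| + |f x| := by
        calc |F n x| = |(F n x - f x) + f x| := by ring_nf
          _ ≤ _ := abs_add_le _ _
      have h3 : |F n x - f x| ≤ |F n x| + |f x| := abs_sub _ _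
      constructor <;> linarith [abs_nonneg (f x)]
    · filter_upwards [hae] with x hx
      have h2 : Tendsto (fun n => |F n x| + |f x| - |F n x - f x|) atTop
          (𝓝 (|f x| + |f x| - |f x - f x|)) :=
        ((hx.abs.add tendsto_const_nhds).sub (hx.sub tendsto_const_nhds).abs)
      simpa [two_mul] using h2
  have h4 : ∀ n, ∫ x, |F n x - f x| ∂μ ≤
      ∫ x, (2 * |f x|) ∂μ - ∫ x, (|F n x| + |f x| - |F n x - f x|) ∂μ := by
    intro n
    have e1 : ∫ x, (|F n x| + |f x| - |F n x - f x|) ∂μ =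
        ∫ x, |F n x| ∂μ + ∫ x, |f x| ∂μ - ∫ x, |F n x - f x| ∂μ := by
      rw [← integral_add (hF n).abs hf.abs]
      exact integral_sub ((hF n).abs.add hf.abs) ((hF n).sub hf).abs
    rw [e1, integral_const_mul]
    linarith [hle n]
  have h5 : Tendsto (fun n => ∫ x, (2 * |f x|) ∂μ -
      ∫ x, (|F n x| + |f x| - |F n x - f x|) ∂μ) atTop (𝓝 0) := by
    simpa using (tendsto_const_nhds (x := ∫ x, (2 * |f x|) ∂μ)).sub h1
  exact squeeze_zero (fun n => integral_nonneg fun x => abs_nonneg _) h4 h5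

lemma ml_L1 {u : E N → ℝ} (hu : Integrable u) :
    Tendsto (fun n => ∫ x, |ml n u x - u x|) atTop (𝓝 0) :=
  riesz_scheffe (fun n => ml_integrable n hu) hu (ml_ae u hu.locallyIntegrable)
    (fun n => ml_L1_le n hu)

lemma ml_bdd (n : ℕ) {u : E N → ℝ} {M : ℝ} (hM : ∀ᵐ x, |u x| ≤ M) (x : E N) :
    |ml n u x| ≤ M := by
  rw [ml_eq]
  have hi : Integrable (fun t => mol n (x - t)) := by
    have := (mol_tst (N := N) n).integrable.comp_sub_left x
    exact this
  calc |∫ t, mol n (x - t) * u t| ≤ ∫ t, ‖mol n (x - t) * u t‖ := by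
        rw [← Real.norm_eq_abs]; exact norm_integral_le_integral_norm _
    _ ≤ ∫ t, mol n (x - t) * M := by
        apply integral_mono_of_nonneg
        · exact Eventually.of_forall fun t => norm_nonneg _
        · exact hi.mul_const M
        · filter_upwards [hM] with t ht
          change ‖_‖ ≤ _
          rw [Real.norm_eq_abs, abs_mul, abs_of_nonneg (mol_nonneg _ _)]
          exact mul_le_mul_of_nonneg_left ht (mol_nonneg _ _)
    _ = M := by
        rw [integral_mul_const, integral_sub_left_eq_self, mol_int, one_mul]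

lemma pd_reflect {φ : E N → ℝ} (h : ContDiff ℝ ∞ φ) (i : Fin N) (x t : E N) :
    pd i (fun t => φ (x - t)) t = - pd i φ (x - t) := by
  unfold pd
  have h1 : HasFDerivAt (fun t : E N => x - t) (-(ContinuousLinearMap.id ℝ (E N))) t := by
    simpa using (hasFDerivAt_id t).const_sub x
  have h2 : HasFDerivAt φ (fderiv ℝ φ (x - t)) (x - t) :=
    (h.differentiable (by simp) _).hasFDerivAt
  have h3 := (h2.comp t h1).fderiv
  have h4 : (φ ∘ fun t : E N => x - t) = fun t => φ (x - t) := rfl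
  rw [h4] at h3
  rw [h3]; simp

lemma tst_reflect {φ : E N → ℝ} (h : Tst φ) (x : E N) : Tst (fun t => φ (x - t)) := by
  refine ⟨h.1.comp (contDiff_const.sub contDiff_id), ?_⟩
  exact h.2.comp_homeomorph (Homeomorph.subLeft x)

/-- derivative of a convolution with a test function -/
lemma pd_conv {ρ u : E N → ℝ} (hρ : Tst ρ) (hu : LocallyIntegrable u) (i : Fin N) (x : E N) :
    pd i (ρ ⋆[lsmul ℝ ℝ, volume] u) x = (pd i ρ ⋆[lsmul ℝ ℝ, volume] u) x := by
  unfold pd
  have e1 : (ρ ⋆[lsmul ℝ ℝ, volume] u) = (u ⋆[(lsmul ℝ ℝ).flip, volume] ρ) :=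
    (convolution_flip (lsmul ℝ ℝ)).symm
  have e2 : ((fun x => (fderiv ℝ ρ x) (bv i)) ⋆[lsmul ℝ ℝ, volume] u) =
      (u ⋆[(lsmul ℝ ℝ).flip, volume] (fun x => (fderiv ℝ ρ x) (bv i))) :=
    (convolution_flip (lsmul ℝ ℝ)).symm
  rw [e1, e2,
    (hρ.2.hasFDerivAt_convolution_right (lsmul ℝ ℝ).flip hu (hρ.1.of_le (by simp)) x).fderiv,
    convolution_precompR_apply _ hu (hρ.2.fderiv ℝ) (hρ.1.continuous_fderiv (by simp))]

lemma ml_pd (n : ℕ) {u v : E N → ℝ} (hu : LocallyIntegrable u) {i : Fin N} (h : WD i u v) (x : E N) :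
    pd i (ml n u) x = ml n v x := by
  unfold ml
  rw [pd_conv (mol_tst n) hu, convolution_lsmul_swap, convolution_lsmul_swap]
  have := h (fun t => mol n (x - t)) (tst_reflect (mol_tst n) x)
  simp only [pd_reflect (mol_tst n).1] at this
  simp only [smul_eq_mul]
  have e1 : ∫ t, u t * -pd i (mol n) (x - t) = - ∫ t, pd i (mol n) (x - t) * u t := by
    rw [← integral_neg]; congr 1; ext t; ring
  rw [e1, neg_inj] at this
  rw [this]; congr 1; ext t; ring

lemma ml_pd2 (n : ℕ) {u : E N → ℝ} (hu : LocallyIntegrable u) (i j : Fin N) (x : E N) :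
    pd j (pd i (ml n u)) x = (pd j (pd i (mol n)) ⋆[lsmul ℝ ℝ, volume] u) x := by
  have : pd i (ml n u) = (pd i (mol n) ⋆[lsmul ℝ ℝ, volume] u) := by
    ext y; exact pd_conv (mol_tst n) hu i y
  rw [this, pd_conv ((mol_tst n).pd i) hu]

lemma lap_reflect {φ : E N → ℝ} (h : ContDiff ℝ ∞ φ) (x t : E N) :
    lap (fun t => φ (x - t)) t = lap φ (x - t) := by
  unfold lap
  apply Finset.sum_congr rfl
  intro i _
  have : pd i (fun t => φ (x - t)) = fun t => (fun y => - pd i φ y) (x - t) := by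
    ext t; exact pd_reflect h i x t
  rw [this, pd_reflect (contDiff_pd h i).neg]
  unfold pd
  rw [fderiv_fun_neg]; simp

lemma ml_lap (n : ℕ) {u f : E N → ℝ} (hu : LocallyIntegrable u) (h : WL u f) (x : E N) :
    lap (ml n u) x = ml n f x := by
  have h1 := h (fun t => mol n (x - t)) (tst_reflect (mol_tst n) x)
  simp only [lap_reflect (mol_tst n).1] at h1
  have h2 : lap (ml n u) x = ∫ t, lap (mol n) (x - t) * u t := by
    unfold lap
    simp only [ml_pd2 n hu, convolution_lsmul_swap, smul_eq_mul, Finset.sum_mul]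
    rw [integral_finsetSum]
    intro i _
    have := ((((mol_tst (N := N) n).pd i).pd i).2.convolutionExists_left (lsmul ℝ ℝ)
      (((mol_tst (N := N) n).pd i).pd i).cont hu x).integrable_swap
    simpa using this
  rw [h2, ml_eq]
  have e1 : ∫ t, lap (mol n) (x - t) * u t = ∫ t, u t * lap (mol n) (x - t) := by
    congr 1; ext t; ring
  rw [e1, h1]; congr 1; ext t; ring

end Helper304Lap
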