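import Pool.Agent.Helper304.LapBasic

open MeasureTheory Filter Topology Set ContinuousLinearMap
open scoped ContDiff Convolution

noncomputable section

namespace Helper304Lap

variable {N : ℕ}

lemma tendsto_mul_L1 {α : Type*} [MeasurableSpace α] {μ : Measure α} {a : ℕ → α → ℝ}
    {a' : α → ℝ} {w : ℕ → α → ℝ} {w' : α → ℝ} {M : ℝ}
    (ha : ∀ n, AEStronglyMeasurable (a n) μ) (hM : ∀ n, ∀ᵐ x ∂μ, |a n x| ≤ M)
    (hae : ∀ᵐ x ∂μ, Tendsto (fun n => a n x) atTop (𝓝 (a' x)))
    (hw : ∀ n, Integrable (w n) μ) (hw' : Integrable w' μ)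
    (hL : Tendsto (fun n => ∫ x, |w n x - w' x| ∂μ) atTop (𝓝 0)) :
    Tendsto (fun n => ∫ x, a n x * w n x ∂μ) atTop (𝓝 (∫ x, a' x * w' x ∂μ)) := by
  have hM' : ∀ᵐ x ∂μ, ∀ n, |a n x| ≤ M := ae_all_iff.2 hM
  have h1 : Tendsto (fun n => ∫ x, a n x * w' x ∂μ) atTop (𝓝 (∫ x, a' x * w' x ∂μ)) := by
    apply tendsto_integral_of_dominated_convergence (fun x => M * |w' x|)
    · intro n; exact (ha n).mul hw'.aestronglyMeasurable
    · exact hw'.abs.const_mul M
    · intro n
      filter_upwards [hM n] with x hx
      rw [Real.norm_eq_abs, abs_mul]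
      exact mul_le_mul_of_nonneg_right hx (abs_nonneg _)
    · filter_upwards [hae] with x hx
      exact hx.mul_const _
  have hiw : ∀ n, Integrable (fun x => a n x * w' x) μ := fun n =>
    hw'.bdd_mul (ha n) (by filter_upwards [hM n] with x hx; exact hx)
  have hiwn : ∀ n, Integrable (fun x => a n x * w n x) μ := fun n =>
    (hw n).bdd_mul (ha n) (by filter_upwards [hM n] with x hx; exact hx)
  have h2 : Tendsto (fun n => ∫ x, a n x * w n x ∂μ - ∫ x, a n x * w' x ∂μ) atTop (𝓝 0) := by
    apply squeeze_zero_norm (a := fun n => |M| * ∫ x, |w n x - w' x| ∂μ)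
    · intro n
      rw [← integral_sub (hiwn n) (hiw n), ← integral_const_mul]
      refine (norm_integral_le_integral_norm _).trans ?_
      apply integral_mono_of_nonneg (Eventually.of_forall fun x => norm_nonneg _)
        (((hw n).sub hw').abs.const_mul _)
      filter_upwards [hM n] with x hx
      simp only [Real.norm_eq_abs]
      rw [← mul_sub, abs_mul]
      exact mul_le_mul_of_nonneg_right (hx.trans (le_abs_self M)) (abs_nonneg _)
    · simpa using hL.const_mul |M|
  have h3 := h2.add h1
  simpa using h3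

lemma ibp1 {φ ψ : E N → ℝ} (h : Tst φ) (h' : ContDiff ℝ 1 ψ) (i : Fin N) :
    ∫ x, ψ x * pd i φ x = - ∫ x, pd i ψ x * φ x := by
  have hc : Continuous (pd i ψ) := by
    unfold pd; exact (h'.continuous_fderiv (by simp)).clm_apply continuous_const
  have hi : ∀ {f g : E N → ℝ}, Continuous f → Tst g → Integrable (fun x => f x * g x) := by
    intro f g hf hg
    exact (hf.mul hg.cont).integrable_of_hasCompactSupport hg.2.mul_left
  unfold pd at hc ⊢
  apply integral_mul_fderiv_eq_neg_fderiv_mul_of_integrable
  · exact hi hc h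
  · exact hi h'.continuous (h.pd i)
  · exact hi h'.continuous h
  · intro x _; exact h'.differentiable (by simp) x
  · intro x _; exact h.diff x

/-- primitive -/
def prim (θ : ℝ → ℝ) (t : ℝ) : ℝ := ∫ s in (0 : ℝ)..t, θ s

lemma prim_ii {θ : ℝ → ℝ} (hθ : Measurable θ) {M : ℝ} (hM : ∀ s, |θ s| ≤ M) (a b : ℝ) :
    IntervalIntegrable θ volume a b := by
  rw [intervalIntegrable_iff]
  apply Measure.integrableOn_of_bounded (M := M)
  · simp
  · exact hθ.aestronglyMeasurable
  · exact Eventually.of_forall fun s => hM s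

lemma prim_sub {θ : ℝ → ℝ} (hθ : Measurable θ) {M : ℝ} (hM : ∀ s, |θ s| ≤ M) (a b : ℝ) :
    prim θ a - prim θ b = ∫ s in b..a, θ s := by
  unfold prim
  rw [intervalIntegral.integral_interval_sub_left (prim_ii hθ hM _ _) (prim_ii hθ hM _ _)]

lemma prim_lip {θ : ℝ → ℝ} (hθ : Measurable θ) {M : ℝ} (hM : ∀ s, |θ s| ≤ M) (a b : ℝ) :
    |prim θ a - prim θ b| ≤ M * |a - b| := by
  rw [prim_sub hθ hM]
  exact intervalIntegral.norm_integral_le_of_norm_le_const (f := θ) (C := M) (a := b) (b := a)
    fun s _ => hM s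

@[simp] lemma prim_zero (θ : ℝ → ℝ) : prim θ 0 = 0 := by simp [prim]

lemma prim_bd {θ : ℝ → ℝ} (hθ : Measurable θ) {M : ℝ} (hM : ∀ s, |θ s| ≤ M) (a : ℝ) :
    |prim θ a| ≤ M * |a| := by
  simpa using prim_lip hθ hM a 0

lemma prim_cont {θ : ℝ → ℝ} (hθ : Measurable θ) {M : ℝ} (hM : ∀ s, |θ s| ≤ M) :
    Continuous (prim θ) := by
  have hM0 : 0 ≤ M := (abs_nonneg _).trans (hM 0)
  have : LipschitzWith ⟨M, hM0⟩ (prim θ) :=
    LipschitzWith.of_dist_le_mul fun a b => by
      rw [Real.dist_eq, Real.dist_eq]; exact prim_lip hθ hM a b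
  exact this.continuous

lemma prim_contDiff {θ : ℝ → ℝ} (hθ : Continuous θ) :
    ContDiff ℝ 1 (prim θ) := by
  have h1 : ∀ t, HasDerivAt (prim θ) (θ t) t := fun t =>
    intervalIntegral.integral_hasDerivAt_right (hθ.intervalIntegrable _ _)
      (hθ.stronglyMeasurableAtFilter _ _) hθ.continuousAt
  rw [contDiff_one_iff_deriv]
  refine ⟨fun t => (h1 t).differentiableAt, ?_⟩
  have : deriv (prim θ) = θ := funext fun t => (h1 t).deriv
  rw [this]; exact hθ

lemma prim_deriv {θ : ℝ → ℝ} (hθ : Continuous θ) (t : ℝ) : HasDerivAt (prim θ) (θ t) t :=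
    intervalIntegral.integral_hasDerivAt_right (hθ.intervalIntegrable _ _)
      (hθ.stronglyMeasurableAtFilter _ _) hθ.continuousAt

lemma prim_tendsto {θ : ℕ → ℝ → ℝ} {θ' : ℝ → ℝ} (hθ : ∀ n, Measurable (θ n)) {M : ℝ}
    (hM : ∀ n s, |θ n s| ≤ M)
    (hae : ∀ᵐ s, Tendsto (fun n => θ n s) atTop (𝓝 (θ' s))) (t : ℝ) :
    Tendsto (fun n => prim (θ n) t) atTop (𝓝 (prim θ' t)) := by
  unfold prim
  apply intervalIntegral.tendsto_integral_filter_of_dominated_convergence (fun _ => M)
  · exact Eventually.of_forall fun n => (hθ n).aestronglyMeasurable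
  · exact Eventually.of_forall fun n => Eventually.of_forall fun s _ => hM n s
  · exact intervalIntegrable_const
  · filter_upwards [hae] with s hs _ using hs

lemma prim_comp_integrable {α : Type*} [MeasurableSpace α] {μ : Measure α} {u : α → ℝ}
    (hu : Integrable u μ) {θ : ℝ → ℝ} (hθ : Measurable θ) {M : ℝ} (hM : ∀ s, |θ s| ≤ M) :
    Integrable (fun x => prim θ (u x)) μ := by
  apply (hu.const_mul M).mono
  · exact (prim_cont hθ hM).comp_aestronglyMeasurable hu.aestronglyMeasurable
  · refine Eventually.of_forall fun x => ?_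
    have hM0 : 0 ≤ M := (abs_nonneg _).trans (hM 0)
    simp only [Real.norm_eq_abs, abs_mul, abs_of_nonneg hM0]
    exact prim_bd hθ hM _

/-- Chain rule, continuous derivative. -/
lemma chain_cont {u V : E N → ℝ} {i : Fin N} (hu : Integrable u) (hV : Integrable V)
    (h : WD i u V) {θ : ℝ → ℝ} (hθ : Continuous θ) {M : ℝ} (hM : ∀ s, |θ s| ≤ M) :
    WD i (fun x => prim θ (u x)) (fun x => θ (u x) * V x) := by
  intro φ hφ
  have hM0 : 0 ≤ M := (abs_nonneg _).trans (hM 0)
  obtain ⟨C, hC0, hC⟩ := (hφ.pd i).bdd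
  obtain ⟨D, hD0, hD⟩ := hφ.bdd
  have h1 : ∀ n, ∫ x, prim θ (ml n u x) * pd i φ x =
      - ∫ x, (θ (ml n u x) * φ x) * ml n V x := by
    intro n
    have hs := ml_contDiff n hu.locallyIntegrable
    have h2 := ibp1 (ψ := fun x => prim θ (ml n u x)) hφ
      ((prim_contDiff hθ).comp (hs.of_le (by simp))) i
    rw [h2]
    congr 1
    refine integral_congr_ae (Eventually.of_forall fun x => ?_)
    simp only
    rw [pd_comp i (hs.differentiable (by simp) x) (prim_deriv hθ _).differentiableAt,
      (prim_deriv hθ _).deriv, ml_pd n hu.locallyIntegrable h]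
    ring
  have h3 : Tendsto (fun n => ∫ x, prim θ (ml n u x) * pd i φ x) atTop
      (𝓝 (∫ x, prim θ (u x) * pd i φ x)) := by
    have := tendsto_mul_L1 (μ := (volume : Measure (E N))) (a := fun _ => pd i φ) (a' := pd i φ)
      (w := fun n x => prim θ (ml n u x)) (w' := fun x => prim θ (u x)) (M := C)
      (fun n => (hφ.pd i).cont.aestronglyMeasurable)
      (fun n => Eventually.of_forall hC) (Eventually.of_forall fun x => tendsto_const_nhds)
      (fun n => prim_comp_integrable (ml_integrable n hu) hθ.measurable hM)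
      (prim_comp_integrable hu hθ.measurable hM) ?_
    · simpa only [mul_comm] using this
    · apply squeeze_zero (g := fun n => M * ∫ x, |ml n u x - u x|)
        (fun n => integral_nonneg fun x => abs_nonneg _)
      · intro n
        rw [← integral_const_mul]
        apply integral_mono_of_nonneg (Eventually.of_forall fun x => abs_nonneg _)
          (((ml_integrable n hu).sub hu).abs.const_mul _)
        exact Eventually.of_forall fun x => prim_lip hθ.measurable hM _ _
      · simpa using (ml_L1 hu).const_mul M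
  have h4 : Tendsto (fun n => ∫ x, (θ (ml n u x) * φ x) * ml n V x) atTop
      (𝓝 (∫ x, (θ (u x) * φ x) * V x)) := by
    apply tendsto_mul_L1 (M := M * D)
    · intro n
      exact ((hθ.comp (ml_contDiff n hu.locallyIntegrable).continuous).mul
        hφ.cont).aestronglyMeasurable
    · intro n
      refine Eventually.of_forall fun x => ?_
      rw [abs_mul]
      exact mul_le_mul (hM _) (hD _) (abs_nonneg _) hM0
    · filter_upwards [ml_ae u hu.locallyIntegrable] with x hx
      exact ((hθ.tendsto _).comp hx).mul_const _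
    · exact fun n => ml_integrable n hV
    · exact hV
    · exact ml_L1 hV
  have h5 := tendsto_nhds_unique (h3.congr h1) h4.neg
  rw [h5]; congr 1
  refine integral_congr_ae (Eventually.of_forall fun x => ?_)
  simp only; ring

lemma WD_test_zero {W : E N → ℝ} (hW : LocallyIntegrable W)
    (h : ∀ φ, Tst φ → ∫ x, W x * φ x = 0) : ∀ᵐ x, W x = 0 := by
  apply ae_eq_zero_of_integral_contDiff_smul_eq_zero hW
  intro g hg hg'
  rw [← h g ⟨hg, hg'⟩]
  refine integral_congr_ae (Eventually.of_forall fun x => ?_)
  simp only [smul_eq_mul]; ring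

/-- chain rule for indicator of an open set -/
lemma chain_open {u V : E N → ℝ} {i : Fin N} (hu : Integrable u) (hV : Integrable V)
    (h : WD i u V) {O : Set ℝ} (hO : IsOpen O) (hne : Oᶜ.Nonempty) {φ : E N → ℝ} (hφ : Tst φ) :
    ∫ x, prim (O.indicator 1) (u x) * pd i φ x
      = - ∫ x, (O.indicator 1 (u x) * V x) * φ x := by
  obtain ⟨C, hC0, hC⟩ := (hφ.pd i).bdd
  obtain ⟨D, hD0, hD⟩ := hφ.bdd
  set θ : ℕ → ℝ → ℝ := fun k s => min 1 ((k : ℝ) * Metric.infDist s Oᶜ) with hθ
  have hc : ∀ k, Continuous (θ k) := fun k =>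
    continuous_const.min (continuous_const.mul (Metric.continuous_infDist_pt _))
  have h0 : ∀ k s, 0 ≤ θ k s := fun k s =>
    le_min zero_le_one (mul_nonneg (Nat.cast_nonneg _) Metric.infDist_nonneg)
  have hb : ∀ k s, |θ k s| ≤ 1 := fun k s => by
    rw [abs_of_nonneg (h0 k s)]; exact min_le_left _ _
  have hlim : ∀ s, Tendsto (fun k => θ k s) atTop (𝓝 (O.indicator 1 s)) := by
    intro s
    by_cases hs : s ∈ O
    · rw [indicator_of_mem hs]
      have hpos : 0 < Metric.infDist s Oᶜ := by
        rw [← hO.isClosed_compl.notMem_iff_infDist_pos hne]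
        simpa using hs
      apply tendsto_const_nhds.congr'
      obtain ⟨k0, hk0⟩ := exists_nat_gt (1 / Metric.infDist s Oᶜ)
      filter_upwards [eventually_ge_atTop k0] with k hk
      simp only [hθ, Pi.one_apply]
      rw [min_eq_left]
      rw [div_lt_iff₀ hpos] at hk0
      have : (k0 : ℝ) ≤ k := Nat.cast_le.2 hk
      nlinarith
    · rw [indicator_of_notMem hs]
      have : Metric.infDist s Oᶜ = 0 := Metric.infDist_zero_of_mem (by simpa using hs)
      simp [hθ, this]
  have hm : Measurable (O.indicator (1 : ℝ → ℝ)) := measurable_const.indicator hO.measurableSet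
  have hb' : ∀ s, |O.indicator (1 : ℝ → ℝ) s| ≤ 1 := by
    intro s
    by_cases hs : s ∈ O <;> simp [hs]
  have h1 : ∀ k, ∫ x, prim (θ k) (u x) * pd i φ x = - ∫ x, (θ k (u x) * V x) * φ x :=
    fun k => chain_cont hu hV h (hc k) (hb k) φ hφ
  have h2 : Tendsto (fun k => ∫ x, prim (θ k) (u x) * pd i φ x) atTop
      (𝓝 (∫ x, prim (O.indicator 1) (u x) * pd i φ x)) := by
    apply tendsto_integral_of_dominated_convergence (fun x => C * |u x|)
    · intro k
      exact ((prim_cont (hc k).measurable (hb k)).comp_aestronglyMeasurable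
        hu.aestronglyMeasurable).mul (hφ.pd i).cont.aestronglyMeasurable
    · exact hu.abs.const_mul C
    · intro k
      refine Eventually.of_forall fun x => ?_
      rw [Real.norm_eq_abs, abs_mul]
      have := prim_bd (hc k).measurable (hb k) (u x)
      calc _ ≤ (1 * |u x|) * C := mul_le_mul this (hC x) (abs_nonneg _) (by positivity)
        _ = _ := by ring
    · refine Eventually.of_forall fun x => ?_
      exact (prim_tendsto (fun k => (hc k).measurable) hb
        (Eventually.of_forall hlim) (u x)).mul_const _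
  have h3 : Tendsto (fun k => ∫ x, (θ k (u x) * V x) * φ x) atTop
      (𝓝 (∫ x, (O.indicator 1 (u x) * V x) * φ x)) := by
    apply tendsto_integral_of_dominated_convergence (fun x => D * |V x|)
    · intro k
      exact (((hc k).comp_aestronglyMeasurable hu.aestronglyMeasurable).mul
        hV.aestronglyMeasurable).mul hφ.cont.aestronglyMeasurable
    · exact hV.abs.const_mul D
    · intro k
      refine Eventually.of_forall fun x => ?_
      rw [Real.norm_eq_abs, abs_mul, abs_mul]
      calc _ ≤ (1 * |V x|) * D :=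
            mul_le_mul (mul_le_mul_of_nonneg_right (hb k _) (abs_nonneg _)) (hD x)
              (abs_nonneg _) (by positivity)
        _ = _ := by ring
    · refine Eventually.of_forall fun x => ?_
      exact ((hlim (u x)).mul_const _).mul_const _
  exact tendsto_nhds_unique (h2.congr h1) h3.neg

/-- **Stampacchia**: the weak derivative vanishes on preimages of null sets. -/
lemma stampacchia {u V : E N → ℝ} {i : Fin N} (hu : Integrable u) (hV : Integrable V)
    (h : WD i u V) {Z : Set ℝ} (hZ : volume Z = 0) : ∀ᵐ x, u x ∈ Z → V x = 0 := by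
  -- open neighbourhoods
  have hex : ∀ n : ℕ, ∃ O : Set ℝ, Z ⊆ O ∧ IsOpen O ∧ volume O < ENNReal.ofReal (1 / ((n : ℝ) + 1)) := by
    intro n
    have := Z.exists_isOpen_lt_of_lt (μ := volume) (ENNReal.ofReal (1 / ((n : ℝ) + 1)))
      (by rw [hZ]; simp; positivity)
    exact this
  choose O hZO hO hOv using hex
  set G : ℕ → Set ℝ := fun n => ⋂ k ∈ Finset.range (n + 1), O k with hG
  have hGo : ∀ n, IsOpen (G n) := fun n => isOpen_biInter_finset fun k _ => hO k
  have hGv : ∀ n, volume (G n) < ENNReal.ofReal (1 / ((n : ℝ) + 1)) := fun n =>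
    (measure_mono (biInter_subset_of_mem (by simp))).trans_lt (hOv n)
  have hGanti : Antitone G := by
    intro m n hmn
    apply biInter_subset_biInter_left
    intro k hk
    simp only [Finset.coe_range, mem_Iio] at hk ⊢
    omega
  have hZG : ∀ n, Z ⊆ G n := fun n => subset_iInter₂ fun k _ => hZO k
  have hne : ∀ n, (G n)ᶜ.Nonempty := by
    intro n
    rw [nonempty_compl]
    intro heq
    have := hGv n
    rw [heq] at this
    simp at this
  set H : Set ℝ := ⋂ n, G n with hH
  have hHm : MeasurableSet H := MeasurableSet.iInter fun n => (hGo n).measurableSet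
  have hprim : ∀ n t, |prim ((G n).indicator 1) t| ≤ 1 / ((n : ℝ) + 1) := by
    intro n t
    unfold prim
    have h1 : |∫ s in (0 : ℝ)..t, (G n).indicator (1 : ℝ → ℝ) s| ≤
        ∫ s in Set.uIoc 0 t, |(G n).indicator (1 : ℝ → ℝ) s| := by
      have := intervalIntegral.norm_integral_le_integral_norm_uIoc (f := (G n).indicator (1 : ℝ → ℝ))
        (a := 0) (b := t) (μ := volume)
      simpa using this
    have h2 : ∫ s in Set.uIoc 0 t, |(G n).indicator (1 : ℝ → ℝ) s| =
        (volume (G n ∩ Set.uIoc 0 t)).toReal := by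
      have : (fun s => |(G n).indicator (1 : ℝ → ℝ) s|) = (G n).indicator 1 := by
        ext s
        by_cases hs : s ∈ G n <;> simp [hs]
      rw [this, integral_indicator_one (hGo n).measurableSet, Measure.real,
        Measure.restrict_apply (hGo n).measurableSet]
    rw [h2] at h1
    refine h1.trans ?_
    have h3 : (volume (G n ∩ Set.uIoc 0 t)) ≤ ENNReal.ofReal (1 / ((n : ℝ) + 1)) :=
      (measure_mono inter_subset_left).trans (hGv n).le
    exact ENNReal.toReal_le_of_le_ofReal (by positivity) h3
  have key : ∀ φ, Tst φ → ∫ x, (H.indicator 1 (u x) * V x) * φ x = 0 := by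
    intro φ hφ
    obtain ⟨D, hD0, hD⟩ := hφ.bdd
    have h1 : ∀ n, ∫ x, prim ((G n).indicator 1) (u x) * pd i φ x
      = - ∫ x, ((G n).indicator 1 (u x) * V x) * φ x := fun n =>
      chain_open hu hV h (hGo n) (hne n) hφ
    have h2 : Tendsto (fun n => ∫ x, prim ((G n).indicator 1) (u x) * pd i φ x) atTop (𝓝 0) := by
      apply squeeze_zero_norm (a := fun n : ℕ => (1 / ((n : ℝ) + 1)) * ∫ x, |pd i φ x|)
      · intro n
        rw [← integral_const_mul]
        refine (norm_integral_le_integral_norm _).trans ?_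
        apply integral_mono_of_nonneg (Eventually.of_forall fun x => norm_nonneg _)
          ((hφ.pd i).integrable.abs.const_mul _)
        refine Eventually.of_forall fun x => ?_
        simp only [Real.norm_eq_abs, abs_mul]
        exact mul_le_mul_of_nonneg_right (hprim n _) (abs_nonneg _)
      · simpa using tendsto_one_div_add_atTop_nhds_zero_nat.mul_const (∫ x, |pd i φ x|)
    have h3 : Tendsto (fun n => ∫ x, ((G n).indicator 1 (u x) * V x) * φ x) atTop
        (𝓝 (∫ x, (H.indicator 1 (u x) * V x) * φ x)) := by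
      apply tendsto_integral_of_dominated_convergence (fun x => D * |V x|)
      · intro k
        have hm : Measurable ((G k).indicator (1 : ℝ → ℝ)) :=
          measurable_const.indicator (hGo k).measurableSet
        exact ((hm.comp_aemeasurable hu.aestronglyMeasurable.aemeasurable).aestronglyMeasurable.mul
          hV.aestronglyMeasurable).mul hφ.cont.aestronglyMeasurable
      · exact hV.abs.const_mul D
      · intro k
        refine Eventually.of_forall fun x => ?_
        rw [Real.norm_eq_abs, abs_mul, abs_mul]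
        have hb' : |(G k).indicator (1 : ℝ → ℝ) (u x)| ≤ 1 := by
          by_cases hs : u x ∈ G k <;> simp [hs]
        calc _ ≤ (1 * |V x|) * D :=
              mul_le_mul (mul_le_mul_of_nonneg_right hb' (abs_nonneg _)) (hD x)
                (abs_nonneg _) (by positivity)
          _ = _ := by ring
      · refine Eventually.of_forall fun x => ?_
        have : Tendsto (fun n => (G n).indicator (1 : ℝ → ℝ) (u x)) atTop
            (𝓝 (H.indicator 1 (u x))) := by
          have := Antitone.tendsto_indicator G hGanti (fun _ => (1 : ℝ)) (u x)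
          exact this.mono_right (pure_le_nhds _)
        exact (this.mul_const _).mul_const _
    have h4 := tendsto_nhds_unique (h2.congr h1) h3.neg
    linarith
  have hW : Integrable (fun x => H.indicator (1 : ℝ → ℝ) (u x) * V x) := by
    have hm : Measurable (H.indicator (1 : ℝ → ℝ)) := measurable_const.indicator hHm
    apply hV.bdd_mul (c := 1)
      (hm.comp_aemeasurable hu.aestronglyMeasurable.aemeasurable).aestronglyMeasurable
    refine Eventually.of_forall fun x => ?_
    rw [Real.norm_eq_abs]
    by_cases hs : u x ∈ H <;> simp [hs]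
  filter_upwards [WD_test_zero hW.locallyIntegrable key] with x hx hxZ
  have hxH : u x ∈ H := mem_iInter.2 fun n => hZG n hxZ
  simpa [hxH] using hx

end Helper304Lap
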