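import Pool.Agent.Helper304.LapKato

open MeasureTheory Filter Topology Set ContinuousLinearMap
open scoped ContDiff Convolution

noncomputable section

namespace Helper304Lap

variable {N : ℕ}

lemma lap_add {φ ψ : E N → ℝ} (h : ContDiff ℝ ∞ φ) (h' : ContDiff ℝ ∞ ψ) (x : E N) :
    lap (fun x => φ x + ψ x) x = lap φ x + lap ψ x := by
  unfold lap
  have hd : ∀ {g : E N → ℝ}, ContDiff ℝ ∞ g → Differentiable ℝ g := fun hg =>
    hg.differentiable (by simp)
  have h1 : ∀ i, pd i (fun x => φ x + ψ x) = fun x => pd i φ x + pd i ψ x := fun i =>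
    funext fun x => pd_add i (hd h x) (hd h' x)
  rw [← Finset.sum_add_distrib]
  apply Finset.sum_congr rfl
  intro i _
  rw [h1, pd_add i (hd (contDiff_pd h i) x) (hd (contDiff_pd h' i) x)]

lemma lap_const_mul {φ : E N → ℝ} (h : ContDiff ℝ ∞ φ) (c : ℝ) (x : E N) :
    lap (fun x => c * φ x) x = c * lap φ x := by
  unfold lap
  have hd : ∀ {g : E N → ℝ}, ContDiff ℝ ∞ g → Differentiable ℝ g := fun hg =>
    hg.differentiable (by simp)
  have h1 : ∀ i, pd i (fun x => c * φ x) = fun x => c * pd i φ x := fun i =>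
    funext fun x => pd_const_mul i c (hd h x)
  rw [Finset.mul_sum]
  apply Finset.sum_congr rfl
  intro i _
  rw [h1, pd_const_mul i c (hd (contDiff_pd h i) x)]

lemma tsupport_add' {φ ψ : E N → ℝ} {Ω : Set (E N)} (h : tsupport φ ⊆ Ω) (h' : tsupport ψ ⊆ Ω) :
    tsupport (fun x => φ x + ψ x) ⊆ Ω :=
  (tsupport_add φ ψ).trans (union_subset h h')

lemma tsupport_const_mul' {φ : E N → ℝ} {Ω : Set (E N)} (h : tsupport φ ⊆ Ω) (c : ℝ) :
    tsupport (fun x => c * φ x) ⊆ Ω :=
  (tsupport_mul_right' (φ := fun _ => c)).trans h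

/-- distribution of the form `Δa - b` -/
def Tf (a b φ : E N → ℝ) : ℝ := (∫ x, a x * lap φ x) - ∫ x, b x * φ x

section

variable {Ω : Set (E N)} {a b : E N → ℝ}

lemma Tf_add (ha : LocallyIntegrableOn a Ω) (hb : LocallyIntegrableOn b Ω) {φ ψ : E N → ℝ}
    (hφ : Tst φ) (hs : tsupport φ ⊆ Ω) (hψ : Tst ψ) (hs' : tsupport ψ ⊆ Ω) :
    Tf a b (fun x => φ x + ψ x) = Tf a b φ + Tf a b ψ := by
  unfold Tf
  have e1 : ∫ x, a x * lap (fun x => φ x + ψ x) x = (∫ x, a x * lap φ x) + ∫ x, a x * lap ψ x := by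
    rw [← integral_add (int_mul ha hφ.lap (tsupport_lap.trans hs))
      (int_mul ha hψ.lap (tsupport_lap.trans hs'))]
    refine integral_congr_ae (Eventually.of_forall fun x => ?_)
    simp only [lap_add hφ.1 hψ.1]; ring
  have e2 : ∫ x, b x * (φ x + ψ x) = (∫ x, b x * φ x) + ∫ x, b x * ψ x := by
    rw [← integral_add (int_mul hb hφ hs) (int_mul hb hψ hs')]
    refine integral_congr_ae (Eventually.of_forall fun x => ?_)
    simp only; ring
  rw [e1, e2]; ring

lemma Tf_smul {φ : E N → ℝ} (hφ : Tst φ) (c : ℝ) :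
    Tf a b (fun x => c * φ x) = c * Tf a b φ := by
  unfold Tf
  have e1 : ∫ x, a x * lap (fun x => c * φ x) x = c * ∫ x, a x * lap φ x := by
    rw [← integral_const_mul]
    refine integral_congr_ae (Eventually.of_forall fun x => ?_)
    simp only [lap_const_mul hφ.1]; ring
  have e2 : ∫ x, b x * (c * φ x) = c * ∫ x, b x * φ x := by
    rw [← integral_const_mul]
    refine integral_congr_ae (Eventually.of_forall fun x => ?_)
    simp only; ring
  rw [e1, e2]; ring

/-- the space of test functions in `B` -/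
def testSpace (B : Set (E N)) : Submodule ℝ (E N → ℝ) where
  carrier := {φ | Tst φ ∧ tsupport φ ⊆ B}
  add_mem' := by
    rintro φ ψ ⟨h1, h2⟩ ⟨h3, h4⟩
    exact ⟨h1.add h3, tsupport_add' h2 h4⟩
  zero_mem' := by
    refine ⟨⟨contDiff_const, HasCompactSupport.zero⟩, ?_⟩
    simp [tsupport]
  smul_mem' := by
    rintro c φ ⟨h1, h2⟩
    exact ⟨h1.const_mul c, tsupport_const_mul' h2 c⟩

/-- **Domination lemma**: a nonnegative distribution dominated by an `L¹_loc` function is an
`L¹_loc` function. -/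
theorem domination {B : Set (E N)} {h χ : E N → ℝ} (hB : IsOpen B) (hχ : Tst χ)
    (hs : tsupport χ ⊆ Ω) (h1 : ∀ x ∈ B, χ x = 1) (ha : LocallyIntegrableOn a Ω)
    (hb : LocallyIntegrableOn b Ω) (hh : LocallyIntegrableOn h Ω)
    (hT0 : ∀ φ, Tst φ → tsupport φ ⊆ Ω → (∀ x, 0 ≤ φ x) → 0 ≤ Tf a b φ)
    (hT1 : ∀ φ, Tst φ → tsupport φ ⊆ Ω → (∀ x, 0 ≤ φ x) → Tf a b φ ≤ ∫ x, h x * φ x) :
    ∃ k : E N → ℝ, LocallyIntegrableOn k B ∧
      ∀ φ, Tst φ → tsupport φ ⊆ B → Tf a b φ = ∫ x, k x * φ x := by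
  have hBχ : B ⊆ tsupport χ := fun x hx => subset_tsupport _ (by
    rw [Function.mem_support, h1 x hx]; exact one_ne_zero)
  have hBΩ : B ⊆ Ω := hBχ.trans hs
  have hBm : MeasurableSet B := hB.measurableSet
  have hhB : IntegrableOn h B := (hh.integrableOn_compact_subset hs hχ.2).mono_set hBχ
  -- the weighted measure
  set w : E N → ENNReal := fun x => ENNReal.ofReal |h x| with hw
  have hwm : AEMeasurable w (volume.restrict B) :=
    hhB.abs.aestronglyMeasurable.aemeasurable.ennreal_ofReal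
  have hwlt : ∀ᵐ x ∂(volume.restrict B), w x < ⊤ := Eventually.of_forall fun x => ENNReal.ofReal_lt_top
  set m : Measure (E N) := (volume.restrict B).withDensity w with hm
  have : IsFiniteMeasure m := by
    apply isFiniteMeasure_withDensity
    have := hhB.abs.hasFiniteIntegral
    rw [hasFiniteIntegral_iff_ofReal (Eventually.of_forall fun x => abs_nonneg _)] at this
    exact this.ne
  have hmint : ∀ F : E N → ℝ, ∫ x, F x ∂m = ∫ x in B, |h x| * F x := by
    intro F
    rw [hm, integral_withDensity_eq_integral_toReal_smul₀ hwm hwlt]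
    refine integral_congr_ae (Eventually.of_forall fun x => ?_)
    simp only [hw, ENNReal.toReal_ofReal (abs_nonneg _), smul_eq_mul]
  -- embedding into `L²(m)`
  have hmem : ∀ φ : testSpace B, MemLp (φ : E N → ℝ) 2 m := by
    intro φ
    obtain ⟨C, hC0, hC⟩ := φ.2.1.bdd
    exact MemLp.of_bound φ.2.1.cont.aestronglyMeasurable C (Eventually.of_forall hC)
  set j : testSpace B →ₗ[ℝ] Lp ℝ 2 m :=
    { toFun := fun φ => (hmem φ).toLp
      map_add' := fun φ ψ => by
        rw [← MemLp.toLp_add]; rfl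
      map_smul' := fun c φ => by
        simp only [RingHom.id_apply]
        rw [← MemLp.toLp_const_smul]; rfl } with hj
  set T : testSpace B →ₗ[ℝ] ℝ :=
    { toFun := fun φ => Tf a b φ
      map_add' := fun φ ψ => Tf_add ha hb φ.2.1 (φ.2.2.trans hBΩ) ψ.2.1 (ψ.2.2.trans hBΩ)
      map_smul' := fun c φ => Tf_smul φ.2.1 c } with hTdef
  -- bound
  have hnorm : ∀ φ : testSpace B, ‖j φ‖ ^ 2 = ∫ x, (φ : E N → ℝ) x * (φ : E N → ℝ) x ∂m := by
    intro φ
    rw [← real_inner_self_eq_norm_sq, L2.inner_def]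
    apply integral_congr_ae
    filter_upwards [(hmem φ).coeFn_toLp] with x hx
    change inner ℝ ((MemLp.toLp (φ : E N → ℝ) (hmem φ) : E N → ℝ) x)
      ((MemLp.toLp (φ : E N → ℝ) (hmem φ) : E N → ℝ) x) = _
    rw [hx]; simp; ring
  set A : ℝ := Tf a b (fun x => χ x * χ x) with hA
  have hχχ : Tst (fun x => χ x * χ x) := hχ.mul hχ
  have hsχχ : tsupport (fun x => χ x * χ x) ⊆ Ω := tsupport_mul_left'.trans hs
  have hA0 : 0 ≤ A := hT0 _ hχχ hsχχ fun x => mul_self_nonneg _
  have hCS : ∀ φ : testSpace B, (T φ) ^ 2 ≤ A * ‖j φ‖ ^ 2 := by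
    intro φ
    obtain ⟨hφ, hsφ⟩ := φ.2
    set f : E N → ℝ := (φ : E N → ℝ) with hf
    have hsΩ : tsupport f ⊆ Ω := hsφ.trans hBΩ
    have hff : Tst (fun x => f x * f x) := hφ.mul hφ
    have hsff : tsupport (fun x => f x * f x) ⊆ Ω := tsupport_mul_left'.trans hsΩ
    have hfχ : ∀ x, f x * χ x = f x := by
      intro x
      by_cases hx : x ∈ tsupport f
      · rw [h1 x (hsφ hx), mul_one]
      · rw [image_eq_zero_of_notMem_tsupport hx, zero_mul]
    have hquad : ∀ l : ℝ, 0 ≤ A * (l * l) + (-2 * Tf a b f) * l + Tf a b (fun x => f x * f x) := by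
      intro l
      have hg : Tst (fun x => (f x - l * χ x) * (f x - l * χ x)) :=
        (hφ.sub (hχ.const_mul l)).mul (hφ.sub (hχ.const_mul l))
      have e1 : (fun x => (f x - l * χ x) * (f x - l * χ x)) =
          fun x => (f x * f x + (-2 * l) * f x) + (l * l) * (χ x * χ x) := by
        funext x
        have := hfχ x
        linear_combination (-2 * l) * this
      have hsg : tsupport (fun x => (f x - l * χ x) * (f x - l * χ x)) ⊆ Ω := by
        rw [e1]
        exact tsupport_add' (tsupport_add' hsff (tsupport_const_mul' hsΩ _))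
          (tsupport_const_mul' hsχχ _)
      have h2 := hT0 _ hg hsg fun x => mul_self_nonneg _
      rw [e1, Tf_add ha hb (hff.add (hφ.const_mul _))
        (tsupport_add' hsff (tsupport_const_mul' hsΩ _)) (hχχ.const_mul _)
        (tsupport_const_mul' hsχχ _), Tf_add ha hb hff hsff (hφ.const_mul _)
        (tsupport_const_mul' hsΩ _), Tf_smul hφ, Tf_smul hχχ] at h2
      linarith
    have hdisc := discrim_le_zero hquad
    rw [discrim] at hdisc
    have h3 : Tf a b (fun x => f x * f x) ≤ ‖j φ‖ ^ 2 := by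
      rw [hnorm, hmint]
      refine (hT1 _ hff hsff fun x => mul_self_nonneg _).trans ?_
      have h4 : ∫ x, h x * (f x * f x) = ∫ x in B, h x * (f x * f x) := by
        symm
        apply setIntegral_eq_integral_of_forall_compl_eq_zero
        intro x hx
        have : f x = 0 := image_eq_zero_of_notMem_tsupport fun h' => hx (hsφ h')
        simp [this]
      rw [h4]
      have hint := int_mul hh hff hsff
      apply integral_mono_ae hint.integrableOn
      · have := hint.abs.integrableOn (s := B)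
        refine this.congr (Eventually.of_forall fun x => ?_)
        simp only [abs_mul, abs_mul_abs_self]
        rfl
      · refine Eventually.of_forall fun x => ?_
        exact mul_le_mul_of_nonneg_right (le_abs_self _) (mul_self_nonneg _)
    change (Tf a b f) ^ 2 ≤ _
    nlinarith [mul_le_mul_of_nonneg_left h3 hA0]
  have hbound : ∃ C : ℝ, ∀ φ : testSpace B, ‖T φ‖ ≤ C * ‖j φ‖ := by
    refine ⟨Real.sqrt A, fun φ => ?_⟩
    rw [Real.norm_eq_abs]
    apply abs_le_of_sq_le_sq' _ (by positivity) |> abs_le.2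
    rw [mul_pow, Real.sq_sqrt hA0]
    exact hCS φ
  -- extension and Riesz representation
  obtain ⟨g, hg, _⟩ := exists_extension_norm_eq (LinearMap.range j) (T.compLeftInverse j)
  set k' := (InnerProductSpace.toDual ℝ (Lp ℝ 2 m)).symm g with hk'
  have hrep : ∀ φ : testSpace B, T φ = ∫ x, k' x * (φ : E N → ℝ) x ∂m := by
    intro φ
    have e1 : g (j φ) = T φ := by
      have := hg ⟨j φ, ⟨φ, rfl⟩⟩
      rw [LinearMap.compLeftInverse_apply_of_bdd T j hbound φ (j φ) rfl] at this
      exact this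
    rw [← e1, ← InnerProductSpace.toDual_symm_apply, L2.inner_def]
    apply integral_congr_ae
    filter_upwards [(hmem φ).coeFn_toLp] with x hx
    change inner ℝ (k' x) ((MemLp.toLp (φ : E N → ℝ) (hmem φ) : E N → ℝ) x) = _
    rw [hx]; simp [mul_comm]
  have hk'i : Integrable k' m := (Lp.memLp k').integrable one_le_two
  have hk'B : IntegrableOn (fun x => |h x| * k' x) B := by
    have h6 := (integrable_withDensity_iff_integrable_smul₀' hwm hwlt).1 hk'i
    refine h6.congr (Eventually.of_forall fun x => ?_)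
    simp only [hw, ENNReal.toReal_ofReal (abs_nonneg _), smul_eq_mul]
  refine ⟨fun x => |h x| * k' x, hk'B.locallyIntegrableOn, fun φ hφ hsφ => ?_⟩
  have := hrep ⟨φ, hφ, hsφ⟩
  rw [hmint] at this
  change Tf a b φ = _ at this
  rw [this]
  have h5 : ∫ x, |h x| * k' x * φ x = ∫ x in B, |h x| * k' x * φ x := by
    symm
    apply setIntegral_eq_integral_of_forall_compl_eq_zero
    intro x hx
    have : φ x = 0 := image_eq_zero_of_notMem_tsupport fun h' => hx (hsφ h')
    simp [this]
  rw [h5]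
  refine integral_congr_ae (Eventually.of_forall fun x => ?_)
  simp only; ring

end

end Helper304Lap
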