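import Pool.Agent.Helper304.LapFinal

open MeasureTheory Filter Topology Set ContinuousLinearMap
open scoped ContDiff Convolution

noncomputable section

namespace Helper304Lap

variable {N : ℕ}

/-- the smoothing operator `K φ (y) = ∫₀ᴸ t ∫ ψ(z) φ(y + t z) dz dt` -/
def Kop (L : ℝ) (ψ φ : E N → ℝ) (y : E N) : ℝ :=
  ∫ t in Ioo (0 : ℝ) L, t * ∫ z, ψ z * φ (y + t • z)

section

variable {L : ℝ} {ψ : E N → ℝ}

/-- weight with explicit cutoff -/
def cwt (L t : ℝ) : ℝ := if 0 < t ∧ t < L then t else 0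

lemma cwt_meas (L : ℝ) : Measurable (cwt L) := by
  unfold cwt
  exact Measurable.ite ((measurableSet_lt measurable_const measurable_id).inter
    (measurableSet_lt measurable_id measurable_const)) measurable_id measurable_const

lemma cwt_eq (L : ℝ) : cwt L = (Ioo (0 : ℝ) L).indicator (fun t => t) := by
  funext t
  by_cases h : 0 < t ∧ t < L
  · rw [indicator_of_mem (show t ∈ Ioo 0 L from h)]; simp [cwt, h]
  · rw [indicator_of_notMem (show t ∉ Ioo 0 L from h)]
    unfold cwt; rw [if_neg h]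

lemma cwt_int (L : ℝ) : Integrable (cwt L) := by
  rw [cwt_eq, integrable_indicator_iff measurableSet_Ioo]
  have : IntegrableOn (fun t : ℝ => t) (Icc 0 L) := continuous_id.integrableOn_Icc
  exact this.mono_set Ioo_subset_Icc_self

lemma cwt_pos (t : ℝ) (h : cwt L t ≠ 0) : 0 < t := by
  by_contra h'
  apply h
  unfold cwt
  rw [if_neg]; tauto

/-- the kernel -/
def kp (L : ℝ) (ψ : E N → ℝ) : E N → ℝ :=
  Sp (volume : Measure ℝ) (cwt L) (fun t => t) (fun _ => (0 : E N)) ψ

lemma kp_int (hL : 0 < L) (hψ : Tst ψ) : Integrable (kp L ψ) :=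
  Sp_integrable (cwt_meas L) (cwt_int L) measurable_id measurable_const cwt_pos hψ.cont
    hψ.integrable

lemma Kop_eq (hL : 0 < L) (hψ : Tst ψ) {φ : E N → ℝ} (hφ : Continuous φ) {M : ℝ}
    (hM : ∀ x, |φ x| ≤ M) (y : E N) :
    Kop L ψ φ y = ∫ w, kp L ψ w * φ (y + w) := by
  have h1 := Sp_mul_integral (cwt_meas L) (cwt_int L) measurable_id
    (measurable_const (a := (0 : E N))) cwt_pos hψ.cont hψ.integrable
    (g := fun w => φ (y + w)) (hφ.comp (by fun_prop)) (fun x => hM _)
  have h2 : ∫ w, kp L ψ w * φ (y + w) =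
      ∫ t, cwt L t * (∫ z, ψ z * φ (y + t • z)) := by
    simp only [zero_add, id] at h1
    exact h1
  rw [h2]
  unfold Kop
  rw [← integral_indicator measurableSet_Ioo]
  refine integral_congr_ae (Eventually.of_forall fun t => ?_)
  simp only [cwt, indicator, mem_Ioo]
  split_ifs <;> ring

lemma Kop_conv (hL : 0 < L) (hψ : Tst ψ) {φ : E N → ℝ} (hφ : Tst φ) :
    Kop L ψ φ = ((fun w => kp L ψ (-w)) ⋆[lsmul ℝ ℝ, volume] φ) := by
  obtain ⟨M, _, hM⟩ := hφ.bdd
  funext y
  rw [Kop_eq hL hψ hφ.cont hM, convolution_lsmul]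
  rw [← integral_neg_eq_self]
  refine integral_congr_ae (Eventually.of_forall fun w => ?_)
  simp [sub_eq_add_neg]

lemma Kop_contDiff (hL : 0 < L) (hψ : Tst ψ) {φ : E N → ℝ} (hφ : Tst φ) :
    ContDiff ℝ ∞ (Kop L ψ φ) := by
  rw [Kop_conv hL hψ hφ]
  exact hφ.2.contDiff_convolution_right _ ((kp_int hL hψ).comp_neg).locallyIntegrable hφ.1

lemma Kop_pd (hL : 0 < L) (hψ : Tst ψ) {φ : E N → ℝ} (hφ : Tst φ) (i : Fin N) :
    pd i (Kop L ψ φ) = Kop L ψ (pd i φ) := by
  have hloc : LocallyIntegrable (fun w => kp L ψ (-w)) :=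
    ((kp_int hL hψ).comp_neg).locallyIntegrable
  rw [Kop_conv hL hψ hφ, Kop_conv hL hψ (hφ.pd i)]
  funext y
  unfold pd
  rw [(hφ.2.hasFDerivAt_convolution_right (lsmul ℝ ℝ) hloc (hφ.1.of_le (by simp)) y).fderiv,
    convolution_precompR_apply _ hloc (hφ.2.fderiv ℝ) (hφ.1.continuous_fderiv (by simp))]

lemma Kop_support (hψz : ∀ z, 1 ≤ ‖z‖ → ψ z = 0) {φ : E N → ℝ} {y : E N}
    (h : Kop L ψ φ y ≠ 0) : ∃ x ∈ tsupport φ, ‖x - y‖ < L := by
  by_contra hcon
  push Not at hcon
  apply h
  unfold Kop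
  apply setIntegral_eq_zero_of_forall_eq_zero
  intro t ht
  have : ∀ z, ψ z * φ (y + t • z) = 0 := by
    intro z
    by_cases hz : 1 ≤ ‖z‖
    · rw [hψz z hz, zero_mul]
    · rw [image_eq_zero_of_notMem_tsupport (f := φ), mul_zero]
      intro hmem
      have h1 := hcon _ hmem
      rw [add_sub_cancel_left, norm_smul, Real.norm_eq_abs, abs_of_pos ht.1] at h1
      push Not at hz
      have h2 : t * ‖z‖ ≤ t * 1 := mul_le_mul_of_nonneg_left hz.le ht.1.le
      have := ht.2
      linarith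
  simp [this]

lemma Kop_tst (hL : 0 < L) (hψ : Tst ψ) (hψz : ∀ z, 1 ≤ ‖z‖ → ψ z = 0) {φ : E N → ℝ}
    (hφ : Tst φ) : Tst (Kop L ψ φ) := by
  refine ⟨Kop_contDiff hL hψ hφ, ?_⟩
  obtain ⟨R, hR⟩ := hφ.2.isCompact.isBounded.subset_closedBall 0
  apply HasCompactSupport.intro (isCompact_closedBall (0 : E N) (R + L))
  intro y hy
  by_contra h
  obtain ⟨x, hx, hxy⟩ := Kop_support hψz h
  have h1 := hR hx
  rw [Metric.mem_closedBall, dist_zero_right] at h1 hy
  push Not at hy
  have : ‖y‖ ≤ ‖x‖ + ‖x - y‖ := by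
    calc ‖y‖ = ‖x - (x - y)‖ := by rw [sub_sub_cancel]
      _ ≤ _ := norm_sub_le _ _
  linarith

lemma Kop_lap (hL : 0 < L) (hψ : Tst ψ) {φ : E N → ℝ} (hφ : Tst φ) (y : E N) :
    lap (Kop L ψ φ) y = Kop L ψ (lap φ) y := by
  have h1 : ∀ i, pd i (pd i (Kop L ψ φ)) = Kop L ψ (pd i (pd i φ)) := by
    intro i
    rw [Kop_pd hL hψ hφ, Kop_pd hL hψ (hφ.pd i)]
  obtain ⟨M, _, hM⟩ := hφ.lap.bdd
  rw [Kop_eq hL hψ hφ.lap.cont hM]
  unfold lap
  have hb := fun i => ((hφ.pd i).pd i).bdd
  simp only [h1]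
  have h2 : ∀ i, Kop L ψ (pd i (pd i φ)) y = ∫ w, kp L ψ w * pd i (pd i φ) (y + w) := by
    intro i
    obtain ⟨M, _, hM⟩ := ((hφ.pd i).pd i).bdd
    exact Kop_eq hL hψ ((hφ.pd i).pd i).cont hM y
  simp only [h2, Finset.mul_sum]
  rw [integral_finsetSum]
  intro i _
  obtain ⟨M, _, hM⟩ := ((hφ.pd i).pd i).bdd
  have := (kp_int hL hψ).bdd_mul (c := M) (f := fun w => pd i (pd i φ) (y + w))
    (((hφ.pd i).pd i).cont.comp (by fun_prop)).aestronglyMeasurable
    (Eventually.of_forall fun w => hM _)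
  refine this.congr (Eventually.of_forall fun w => ?_)
  simp only; ring

end

/-- local existence of the weak gradient, near a compact set -/
theorem local_grad (hN : 0 < N) {Ω : Set (E N)} {u f : E N → ℝ} (hO : IsOpen Ω)
    (hu : LocallyIntegrableOn u Ω) (hf : LocallyIntegrableOn f Ω)
    (hum : Measurable u) (hfm : Measurable f)
    (hWL : ∀ φ, Tst φ → tsupport φ ⊆ Ω → ∫ x, u x * lap φ x = ∫ x, f x * φ x)
    {K : Set (E N)} (hK : IsCompact K) (hKΩ : K ⊆ Ω) :
    ∃ (B : Set (E N)) (V : Fin N → E N → ℝ), IsOpen B ∧ K ⊆ B ∧ B ⊆ Ω ∧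
      (∀ i, Integrable (V i)) ∧
      ∀ i φ, Tst φ → tsupport φ ⊆ B → ∫ x, u x * pd i φ x = - ∫ x, V i x * φ x := by
  obtain ⟨ψ, ρ, hψ, hρ, hψz, hρz, hpd, hint⟩ := exists_kernel hN
  obtain ⟨δ, hδ, hδΩ⟩ := hK.exists_cthickening_subset_open hO hKΩ
  have hK2 : IsCompact (Metric.cthickening δ K) := hK.cthickening
  obtain ⟨χ, hχ, _, hsχ, h1⟩ := exists_cutoff hK2 hO hδΩ
  set B := Metric.thickening (δ / 2) K with hB
  set L := min (δ / 2) 1 with hL
  have hLp : 0 < L := lt_min (by linarith) one_pos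
  have hL1 : L ≤ 1 := min_le_right _ _
  have hLδ : L ≤ δ / 2 := min_le_left _ _
  have hBO : IsOpen B := Metric.isOpen_thickening
  have hKB : K ⊆ B := Metric.self_subset_thickening (by linarith) K
  have hBδ : B ⊆ Metric.cthickening δ K :=
    (Metric.thickening_mono (by linarith) K).trans (Metric.thickening_subset_cthickening _ _)
  have hBΩ : B ⊆ Ω := hBδ.trans hδΩ
  set ut : E N → ℝ := fun x => u x * χ x with hut
  set F : E N → ℝ := fun x => f x * χ x with hF
  have huti : Integrable ut := int_mul hu hχ hsχ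
  have hFi : Integrable F := int_mul hf hχ hsχ
  have hutm : Measurable ut := hum.mul hχ.cont.measurable
  have hFm : Measurable F := hfm.mul hχ.cont.measurable
  have hρi : ∀ i, Tst (pd i ρ) := fun i => hρ.pd i
  -- smooth part and singular part
  set A : (E N → ℝ) → E N → ℝ := fun θ =>
    Sp (volume : Measure (E N)) ut (fun _ => L) (fun y => y) θ with hA
  have hLpos : ∀ p : E N, ut p ≠ 0 → 0 < (fun _ : E N => L) p := fun _ _ => hLp
  have hℓc : Continuous (fun _ : E N => L) := continuous_const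
  refine ⟨B, fun i x => L⁻¹ * A (pd i ρ) x - Kg (fun _ => L) F (pd i ψ) x, hBO, hKB, hBΩ,
    fun i => ?_, fun i φ hφ hs => ?_⟩
  · exact ((Sp_integrable hutm huti measurable_const measurable_id hLpos (hρi i).cont
      (hρi i).integrable).const_mul _).sub (Kg_integrable hFm hFi hℓc (fun _ => hL1) (hψ.pd i))
  -- test with `φ' = pd i φ`
  have hmain : ∀ φ, Tst φ → tsupport φ ⊆ B →
      ∫ x, u x * φ x = (∫ y, ut y * ∫ z, ρ z * φ (y + L • z)) - ∫ x, Kc (fun _ => L) F ψ x * φ x := by
    intro φ hφ hs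
    obtain ⟨M, _, hM⟩ := hφ.bdd
    have hKT := Kop_tst hLp hψ hψz hφ
    have hKs : ∀ y, Kop L ψ φ y ≠ 0 → y ∈ Metric.cthickening δ K := by
      intro y hy
      obtain ⟨x, hx, hxy⟩ := Kop_support hψz hy
      have hxB := hs hx
      rw [hB, Metric.mem_thickening_iff] at hxB
      obtain ⟨k, hk, hxk⟩ := hxB
      apply Metric.thickening_subset_cthickening
      rw [Metric.mem_thickening_iff]
      refine ⟨k, hk, ?_⟩
      have : dist y k ≤ dist y x + dist x k := dist_triangle _ _ _
      have e : dist y x = ‖x - y‖ := by rw [dist_comm, dist_eq_norm]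
      linarith
    have hKsupp : tsupport (Kop L ψ φ) ⊆ Metric.cthickening δ K :=
      closure_minimal (fun y hy => hKs y hy) Metric.isClosed_cthickening
    have e1 := hWL _ hKT (hKsupp.trans hδΩ)
    -- on the support, `χ = 1`
    have e2 : ∫ x, u x * lap (Kop L ψ φ) x = ∫ x, ut x * lap (Kop L ψ φ) x := by
      refine integral_congr_ae (Eventually.of_forall fun x => ?_)
      by_cases hx : x ∈ tsupport (Kop L ψ φ)
      · simp only [hut, (h1 x (hKsupp hx)).self_of_nhds, mul_one]
      · have : lap (Kop L ψ φ) x = 0 := image_eq_zero_of_notMem_tsupport fun h' =>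
          hx (tsupport_lap h')
        simp [this]
    have e3 : ∫ x, f x * Kop L ψ φ x = ∫ x, F x * Kop L ψ φ x := by
      refine integral_congr_ae (Eventually.of_forall fun x => ?_)
      by_cases hx : x ∈ tsupport (Kop L ψ φ)
      · simp only [hF, (h1 x (hKsupp hx)).self_of_nhds, mul_one]
      · simp [image_eq_zero_of_notMem_tsupport hx]
    have e4 : ∀ y, lap (Kop L ψ φ) y = (∫ z, ρ z * φ (y + L • z)) - φ y := by
      intro y
      rw [Kop_lap hLp hψ hφ]
      exact ftc_lap hψ hρ hρz hpd hint hφ y hLp.le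
    rw [e2, e3] at e1
    simp only [e4] at e1
    have i1 : Integrable (fun y => ut y * ∫ z, ρ z * φ (y + L • z)) := by
      have hc : Continuous fun y : E N => ∫ z, ρ z * φ (y + L • z) :=
        (param_cont hρ hφ.cont hM).comp (by fun_prop : Continuous fun y : E N => (y, L))
      have := huti.bdd_mul (c := (∫ z, |ρ z|) * M) hc.aestronglyMeasurable
        (Eventually.of_forall fun p => param_bdd hρ hM p L)
      refine this.congr (Eventually.of_forall fun p => ?_)
      simp only; ring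
    have i2 : Integrable (fun y => ut y * φ y) := by
      have := huti.bdd_mul (c := M) hφ.cont.aestronglyMeasurable
        (Eventually.of_forall fun p => hM p)
      refine this.congr (Eventually.of_forall fun p => ?_)
      simp only; ring
    have e5 : ∫ y, ut y * ((∫ z, ρ z * φ (y + L • z)) - φ y) =
        (∫ y, ut y * ∫ z, ρ z * φ (y + L • z)) - ∫ y, ut y * φ y := by
      rw [← integral_sub i1 i2]
      refine integral_congr_ae (Eventually.of_forall fun x => ?_)
      simp only; ring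
    have e6 : ∫ y, ut y * φ y = ∫ y, u y * φ y := by
      refine integral_congr_ae (Eventually.of_forall fun x => ?_)
      by_cases hx : x ∈ tsupport φ
      · simp only [hut, (h1 x (hBδ (hs hx))).self_of_nhds, mul_one]
      · simp [image_eq_zero_of_notMem_tsupport hx]
    -- the singular part
    have e7 : ∫ x, Kc (fun _ => L) F ψ x * φ x = ∫ x, F x * Kop L ψ φ x := by
      unfold Kc
      rw [Sp_mul_integral (cw_meas 1 hFm hℓc) (cw_integrable 1 hFm hFi hℓc (fun _ => hL1))
        measurable_snd measurable_fst (cw_pos 1) hψ.cont hψ.integrable hφ.cont hM]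
      have hI : Integrable (fun p : E N × ℝ => cw 1 (fun _ => L) F p *
          ∫ z, ψ z * φ (p.1 + p.2 • z)) := by
        have := (cw_integrable 1 hFm hFi hℓc (fun _ => hL1)).bdd_mul (c := (∫ z, |ψ z|) * M)
          (param_cont hψ hφ.cont hM).aestronglyMeasurable
          (Eventually.of_forall fun p => param_bdd hψ hM p.1 p.2)
        refine this.congr (Eventually.of_forall fun p => ?_)
        simp only; ring
      rw [show (volume : Measure (E N × ℝ)) = (volume : Measure (E N)).prod volume from rfl,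
        integral_prod _ hI]
      refine integral_congr_ae (Eventually.of_forall fun y => ?_)
      simp only
      unfold Kop
      rw [← integral_const_mul, ← integral_indicator measurableSet_Ioo]
      refine integral_congr_ae (Eventually.of_forall fun t => ?_)
      simp only [cw, indicator, mem_Ioo, pow_one]
      split_ifs <;> ring
    rw [e5, e6, ← e7] at e1
    linarith
  have h2 := hmain (pd i φ) (hφ.pd i) ((tsupport_pd i).trans hs)
  obtain ⟨M, _, hM⟩ := hφ.bdd
  -- integrate by parts in `z`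
  have h3 : ∀ y, ∫ z, ρ z * pd i φ (y + L • z) = - (L⁻¹ * ∫ z, pd i ρ z * φ (y + L • z)) := by
    intro y
    have h4 := ibp hρ (affine_contDiff hφ.1 y L) i
    simp only [pd_affine hφ.1] at h4
    have e3 : ∫ z, pd i ρ z * φ (y + L • z) = ∫ z, φ (y + L • z) * pd i ρ z := by
      congr 1; ext z; ring
    have e4 : ∫ z, L * pd i φ (y + L • z) * ρ z = L * ∫ z, ρ z * pd i φ (y + L • z) := by
      rw [← integral_const_mul]; congr 1; ext z; ring
    rw [e3, h4, e4]
    field_simp
  have h5 : ∫ x, A (pd i ρ) x * φ x = ∫ y, ut y * ∫ z, pd i ρ z * φ (y + L • z) := by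
    exact Sp_mul_integral hutm huti measurable_const measurable_id' hLpos (hρi i).cont
      (hρi i).integrable hφ.cont hM
  have h6 := Kc_WD hFm hFi hℓc (fun _ => hL1) hψ i φ hφ
  have hmul : ∀ {g : E N → ℝ}, Integrable g → Integrable (fun y => g y * φ y) := by
    intro g hg
    have := hg.bdd_mul (c := M) hφ.cont.aestronglyMeasurable (Eventually.of_forall fun p => hM p)
    refine this.congr (Eventually.of_forall fun p => ?_)
    simp only; ring
  have j1 := hmul (Sp_integrable hutm huti (measurable_const (a := L)) measurable_id' hLpos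
    (hρi i).cont (hρi i).integrable)
  have j2 := hmul (Kg_integrable hFm hFi hℓc (fun _ => hL1) (hψ.pd i))
  have h7 : ∫ x, (L⁻¹ * A (pd i ρ) x - Kg (fun _ => L) F (pd i ψ) x) * φ x =
      L⁻¹ * (∫ x, A (pd i ρ) x * φ x) - ∫ x, Kg (fun _ => L) F (pd i ψ) x * φ x := by
    rw [← integral_const_mul, ← integral_sub (j1.const_mul _) j2]
    refine integral_congr_ae (Eventually.of_forall fun x => ?_)
    simp only [hA]; ring
  rw [h2, h7, h6, h5]
  simp only [h3]
  have h8 : ∫ y, ut y * -(L⁻¹ * ∫ z, pd i ρ z * φ (y + L • z)) =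
      - (L⁻¹ * ∫ y, ut y * ∫ z, pd i ρ z * φ (y + L • z)) := by
    rw [← integral_const_mul, ← integral_neg]
    congr 1; ext y; ring
  rw [h8]; ring

end Helper304Lap
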