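import Pool.Agent.Helper304.LapJ

open MeasureTheory Filter Topology Set ContinuousLinearMap
open scoped ContDiff Convolution

noncomputable section

namespace Helper304Lap

variable {N : ℕ}

/-- Structure of the absolutely continuous part. -/
lemma ac_part (μ : Measure ℝ) [IsFiniteMeasure μ] : ∃ S : Set ℝ, MeasurableSet S ∧
    volume Sᶜ = 0 ∧ ∀ c : ℕ, ∃ m : ℝ → ℝ, Measurable m ∧ Integrable m ∧ (∀ s, |m s| ≤ c) ∧
      (∀ s, m s = (S ∩ {s | μ.rnDeriv volume s ≤ c}).indicator
        (fun s => (μ.rnDeriv volume s).toReal) s) ∧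
      MeasurableSet (S ∩ {s | μ.rnDeriv volume s ≤ c}) ∧
      ∃ c0 : ℝ, ∀ t, th (μ.restrict (S ∩ {s | μ.rnDeriv volume s ≤ c})) t = c0 + prim m t := by
  obtain ⟨S, hS, hS1, hS2⟩ := Measure.mutuallySingular_singularPart μ volume
  refine ⟨S, hS, hS2, fun c => ?_⟩
  have hrm : Measurable (μ.rnDeriv volume) := Measure.measurable_rnDeriv μ volume
  set A := S ∩ {s | μ.rnDeriv volume s ≤ c} with hA
  have hAm : MeasurableSet A := hS.inter (measurableSet_le hrm measurable_const)
  set m : ℝ → ℝ := fun s => A.indicator (fun s => (μ.rnDeriv volume s).toReal) s with hm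
  have hmm : Measurable m := hrm.ennreal_toReal.indicator hAm
  have hm0 : ∀ s, 0 ≤ m s := fun s => indicator_nonneg (fun _ _ => ENNReal.toReal_nonneg) _
  have hmc : ∀ s, |m s| ≤ c := by
    intro s
    rw [abs_of_nonneg (hm0 s)]
    by_cases hs : s ∈ A
    · simp only [hm, indicator_of_mem hs]
      have h1 : μ.rnDeriv volume s ≤ c := hs.2
      have h2 := ENNReal.toReal_mono (by simp) h1
      simpa using h2
    · simp only [hm, indicator_of_notMem hs]
      exact Nat.cast_nonneg c
  have hmi : Integrable m := (Measure.integrable_toReal_rnDeriv (μ := μ) (ν := volume)).indicator hAm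
  refine ⟨m, hmm, hmi, hmc, fun s => rfl, hAm, ∫ s in Iic 0, m s, fun t => ?_⟩
  have h1 : (μ.restrict A) (Iic t) = ENNReal.ofReal (∫ s in Iic t, m s) := by
    rw [Measure.restrict_apply measurableSet_Iic]
    have h2 : μ (Iic t ∩ A) = (volume.withDensity (μ.rnDeriv volume)) (Iic t ∩ A) := by
      conv_lhs => rw [Measure.haveLebesgueDecomposition_add μ volume]
      rw [Measure.add_apply]
      have : μ.singularPart volume (Iic t ∩ A) = 0 :=
        measure_mono_null (inter_subset_right.trans inter_subset_left) hS1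
      rw [this, zero_add]
    rw [h2, withDensity_apply _ (measurableSet_Iic.inter hAm),
      ofReal_integral_eq_lintegral_ofReal hmi.integrableOn (Eventually.of_forall hm0)]
    rw [← lintegral_indicator (measurableSet_Iic.inter hAm), ← lintegral_indicator measurableSet_Iic]
    refine lintegral_congr fun s => ?_
    by_cases hs1 : s ∈ Iic t
    · by_cases hs2 : s ∈ A
      · rw [indicator_of_mem (show s ∈ Iic t ∩ A from ⟨hs1, hs2⟩), indicator_of_mem hs1]
        simp only [hm, indicator_of_mem hs2]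
        rw [ENNReal.ofReal_toReal]
        exact ne_top_of_le_ne_top (by simp) hs2.2
      · rw [indicator_of_notMem (fun h => hs2 h.2), indicator_of_mem hs1]
        simp [hm, hs2]
    · rw [indicator_of_notMem (fun h => hs1 h.1), indicator_of_notMem hs1]
  have h3 : 0 ≤ ∫ s in Iic t, m s := integral_nonneg fun s => hm0 s
  have h4 : th (μ.restrict A) t = ∫ s in Iic t, m s := by
    unfold th
    rw [measureReal_def, h1, ENNReal.toReal_ofReal h3]
  rw [h4]
  unfold prim
  rw [← intervalIntegral.integral_Iic_sub_Iic hmi.integrableOn hmi.integrableOn]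
  ring

section

variable {Ω B : Set (E N)} {u f k h : E N → ℝ} {V : Fin N → E N → ℝ}

lemma Dat.sub {u1 f1 u2 f2 : E N → ℝ} {V1 V2 : Fin N → E N → ℝ} (D1 : Dat B u1 f1 V1)
    (D2 : Dat B u2 f2 V2) : Dat B (fun x => u1 x - u2 x) (fun x => f1 x - f2 x)
      (fun i x => V1 i x - V2 i x) where
  hO := D1.hO
  hu := D1.hu.sub D2.hu
  hV := fun i => (D1.hV i).sub (D2.hV i)
  hf := D1.hf.sub D2.hf
  wd := fun i φ hφ hs => by
    have hsi := (tsupport_pd (φ := φ) i).trans hs
    have e1 : ∫ x, (u1 x - u2 x) * pd i φ x =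
        (∫ x, u1 x * pd i φ x) - ∫ x, u2 x * pd i φ x := by
      rw [← integral_sub (int_mul D1.hu (hφ.pd i) hsi) (int_mul D2.hu (hφ.pd i) hsi)]
      refine integral_congr_ae (Eventually.of_forall fun x => ?_)
      simp only; ring
    have e2 : ∫ x, (V1 i x - V2 i x) * φ x = (∫ x, V1 i x * φ x) - ∫ x, V2 i x * φ x := by
      rw [← integral_sub (int_mul (D1.hV i) hφ hs) (int_mul (D2.hV i) hφ hs)]
      refine integral_congr_ae (Eventually.of_forall fun x => ?_)
      simp only; ring
    rw [e1, e2, D1.wd i φ hφ hs, D2.wd i φ hφ hs]; ring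
  wl := fun φ hφ hs => by
    have hsi := (tsupport_lap (φ := φ)).trans hs
    have e1 : ∫ x, (u1 x - u2 x) * lap φ x =
        (∫ x, u1 x * lap φ x) - ∫ x, u2 x * lap φ x := by
      rw [← integral_sub (int_mul D1.hu hφ.lap hsi) (int_mul D2.hu hφ.lap hsi)]
      refine integral_congr_ae (Eventually.of_forall fun x => ?_)
      simp only; ring
    have e2 : ∫ x, (f1 x - f2 x) * φ x = (∫ x, f1 x * φ x) - ∫ x, f2 x * φ x := by
      rw [← integral_sub (int_mul D1.hf hφ hs) (int_mul D2.hf hφ hs)]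
      refine integral_congr_ae (Eventually.of_forall fun x => ?_)
      simp only; ring
    rw [e1, e2, D1.wl φ hφ hs, D2.wl φ hφ hs]

/-- The a.c. part of `h` is `φ(u)|∇u|²`. -/
theorem ac_identity (hN : 0 < N) (D : Dat Ω u f V) (hum : Measurable u) (hfm : Measurable f)
    (μ : Measure ℝ) [IsFiniteMeasure μ] (hh : LocallyIntegrableOn h Ω)
    (hrep : ∀ ψ, Tst ψ → tsupport ψ ⊆ Ω → ∫ x, h x * ψ x = ∫ s, Lf u f ψ s ∂μ)
    {S : Set ℝ} {c : ℕ} {m : ℝ → ℝ} (hm : Measurable m) (hmi : Integrable m)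
    (hmc : ∀ s, |m s| ≤ c) (hmeq : ∀ s, m s = (S ∩ {s | μ.rnDeriv volume s ≤ c}).indicator
        (fun s => (μ.rnDeriv volume s).toReal) s)
    (hAm : MeasurableSet (S ∩ {s | μ.rnDeriv volume s ≤ c})) {c0 : ℝ}
    (hc0 : ∀ t, th (μ.restrict (S ∩ {s | μ.rnDeriv volume s ≤ c})) t = c0 + prim m t) :
    ∀ᵐ x, x ∈ Ω → u x ∈ S → μ.rnDeriv volume (u x) ≤ c →
      h x = (μ.rnDeriv volume (u x)).toReal * ∑ i, V i x * V i x := by
  set A := S ∩ {s | μ.rnDeriv volume s ≤ c} with hA
  set θ : ℝ → ℝ := fun t => c0 + prim m t with hθ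
  have hθeq : th (μ.restrict A) = θ := funext hc0
  have hθm : Measurable θ := by rw [← hθeq]; exact (th_mono _).measurable
  have hθb : ∀ s, |θ s| ≤ (μ.restrict A).real univ := by rw [← hθeq]; exact th_bd _
  have hA1 : Measurable (A.indicator (1 : ℝ → ℝ)) := measurable_const.indicator hAm
  have hA1b : ∀ s, |A.indicator (1 : ℝ → ℝ) s| ≤ 1 := fun s => by
    by_cases hs : s ∈ A <;> simp [hs]
  have hAh : LocallyIntegrableOn (fun x => A.indicator 1 (u x) * h x) Ω :=
    locInt_bdd_mul hum hh D.hO hA1 hA1b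
  have hT : ∀ ψ, Tst ψ → tsupport ψ ⊆ Ω →
      Tf (fun x => prim θ (u x)) (fun x => θ (u x) * f x) ψ =
        ∫ x, (A.indicator 1 (u x) * h x) * ψ x := by
    intro ψ hψ hsψ
    rw [← hθeq, (fub D hum hfm (μ.restrict A) hψ hsψ).2]
    exact stK hN D hum hfm μ hh hrep hψ hsψ hAm
  have D1 := D.comp hum D.hO le_rfl hθm hθb hAh hT
  apply loc_ae D.hO
  intro χ hχ hs
  set B : Set (E N) := {x | ∀ᶠ y in 𝓝 x, χ y = 1} with hBdef
  have hB : IsOpen B := isOpen_setOfPred_eventually_nhds
  have hχB : ∀ x ∈ B, χ x = 1 := fun x hx => hx.self_of_nhds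
  have hBΩ : B ⊆ Ω := fun x hx => hs (subset_tsupport _ (by
    rw [Function.mem_support, hχB x hx]; exact one_ne_zero))
  -- global localised data with measurable Laplacian
  have hft := D.cut_f hχ hs
  set F : E N → ℝ := (tsupport (cf χ u f V)).indicator (hft.aestronglyMeasurable.mk _) with hF
  have hFm : Measurable F :=
    (hft.aestronglyMeasurable.stronglyMeasurable_mk.measurable).indicator
      (isClosed_tsupport _).measurableSet
  have hFae : cf χ u f V =ᵐ[volume] F := by
    filter_upwards [hft.aestronglyMeasurable.ae_eq_mk] with x hx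
    by_cases hxs : x ∈ tsupport (cf χ u f V)
    · rw [hF, indicator_of_mem hxs]; exact hx
    · rw [hF, indicator_of_notMem hxs, image_eq_zero_of_notMem_tsupport hxs]
  have hFi : Integrable F := hft.congr hFae
  have hFs : HasCompactSupport F := by
    apply HasCompactSupport.intro (cut_f_supp (u := u) (f := f) (V := V) hχ).isCompact
    intro x hx
    rw [hF, indicator_of_notMem hx]
  have hFWL : WL (cu χ u) F := by
    intro φ hφ
    rw [D.cut_WL hχ hs φ hφ]
    apply integral_congr_ae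
    filter_upwards [hFae] with x hx
    rw [hx]
  have hmain : ∀ n : ℕ, ∀ᵐ x, x ∈ goodSet F n → x ∈ B →
      A.indicator 1 (u x) * h x = m (u x) * ∑ i, V i x * V i x := by
    intro n
    by_cases hne : (goodSet F (n : ℝ)).Nonempty
    swap
    · exact Eventually.of_forall fun x hx => absurd ⟨x, hx⟩ hne
    obtain ⟨U, G, Y, M, hU, hUs, hY, hUY, hG, hM, hUG, hC⟩ :=
      good_part hN (D.cut_u hχ hs) (cut_u_supp hχ) (fun i => D.cut_V hχ hs i)
        (fun i => D.cut_WD hχ hs i) hFi hFm hFs hFWL (Nat.cast_nonneg n) hne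
    have hY2 := fun i => grad_L2 hU hUs hY hUY hM hUG i
    have hSi : Integrable (fun x => ∑ i, Y i x * Y i x) :=
      integrable_finsetSum _ fun i _ => hY2 i
    have hθU : AEStronglyMeasurable (fun x => θ (U x)) volume :=
      (hθm.comp_aemeasurable hU.aestronglyMeasurable.aemeasurable).aestronglyMeasurable
    have hmU : AEStronglyMeasurable (fun x => m (U x)) volume :=
      (hm.comp_aemeasurable hU.aestronglyMeasurable.aemeasurable).aestronglyMeasurable
    have i1 : Integrable (fun x => θ (U x) * G x) :=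
      hG.bdd_mul hθU (Eventually.of_forall fun x => hθb _)
    have i2 : Integrable (fun x => m (U x) * ∑ i, Y i x * Y i x) :=
      hSi.bdd_mul hmU (Eventually.of_forall fun x => hmc _)
    have D2 : Dat B (fun x => prim θ (U x))
        (fun x => θ (U x) * G x + m (U x) * ∑ i, Y i x * Y i x)
        (fun i x => θ (U x) * Y i x) :=
      { hO := hB
        hu := (prim_comp_integrable hU hθm hθb).locallyIntegrable.locallyIntegrableOn _
        hV := fun i => ((hY i).bdd_mul hθU
          (Eventually.of_forall fun x => hθb _)).locallyIntegrable.locallyIntegrableOn _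
        hf := (i1.add i2).locallyIntegrable.locallyIntegrableOn _
        wd := fun i φ hφ _ => chain_meas hU (hY i) (hUY i) hθm hθb φ hφ
        wl := fun φ hφ _ => good_chain hU hUs hY hUY hG hM hUG hm hmi hmc c0 hφ }
    have D3 := (D1.mono hB hBΩ).sub D2
    filter_upwards [D3.vanish hN, hFae] with x hx hFx hxg hxB
    obtain ⟨e1, e2, e3⟩ := hC x hxg
    obtain ⟨e4, e5, e6⟩ := cut_eq (u := u) (V := V) (f := f) hxB
    have h1 := hx hxB (fun i => by
      rw [e1, e2 i, e4, e5 i, sub_self])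
    simp only [e2] at h1
    rw [e1, e3, ← hFx, e4, e6] at h1
    simp only [e5] at h1
    linarith
  filter_upwards [ae_all_iff.2 hmain, ae_mem_goodSet hFi] with x hx ⟨n, hn⟩ hxB huS huc
  have h1 := hx n hn hxB
  have huA : u x ∈ A := ⟨huS, huc⟩
  rw [hmeq, indicator_of_mem huA, indicator_of_mem huA] at h1
  simpa using h1

/-- The representation of `h` by a finite measure forces the chain rule. -/
theorem rep_identity (hN : 0 < N) (D : Dat Ω u f V) (hum : Measurable u) (hfm : Measurable f)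
    (μ : Measure ℝ) [IsFiniteMeasure μ] (hh : LocallyIntegrableOn h Ω)
    (hrep : ∀ ψ, Tst ψ → tsupport ψ ⊆ Ω → ∫ x, h x * ψ x = ∫ s, Lf u f ψ s ∂μ) :
    ∀ᵐ x, x ∈ Ω → (∃ i, V i x ≠ 0) →
      h x = (μ.rnDeriv volume (u x)).toReal * ∑ i, V i x * V i x := by
  obtain ⟨S, hS, hSv, hc⟩ := ac_part μ
  have h1 : ∀ c : ℕ, ∀ᵐ x, x ∈ Ω → u x ∈ S → μ.rnDeriv volume (u x) ≤ c →
      h x = (μ.rnDeriv volume (u x)).toReal * ∑ i, V i x * V i x := by
    intro c
    obtain ⟨m, hm, hmi, hmc, hmeq, hAm, c0, hc0⟩ := hc c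
    exact ac_identity hN D hum hfm μ hh hrep hm hmi hmc hmeq hAm hc0
  have hZ : volume {s | ¬ μ.rnDeriv volume s < ⊤} = 0 := Measure.rnDeriv_lt_top μ volume
  filter_upwards [ae_all_iff.2 h1, D.stampacchia hSv, D.stampacchia hZ] with x hx hx1 hx2 hxΩ ⟨i, hi⟩
  have huS : u x ∈ S := by
    by_contra h'
    exact hi (hx1 hxΩ h' i)
  have hfin : μ.rnDeriv volume (u x) < ⊤ := by
    by_contra h'
    exact hi (hx2 hxΩ h' i)
  obtain ⟨c, hc⟩ := ENNReal.exists_nat_gt hfin.ne
  exact hx c hxΩ huS hc.le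

end

end Helper304Lap
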