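import Pool.Agent.Helper304.LapKernel

open MeasureTheory Filter Topology Set ContinuousLinearMap
open scoped ContDiff Convolution

noncomputable section

namespace Helper304Lap

variable {N : ℕ}

lemma clm_expand (L : E N →L[ℝ] ℝ) (z : E N) : L z = ∑ i, z i * L (bv i) := by
  have h := (EuclideanSpace.basisFun (Fin N) ℝ).sum_repr z
  conv_lhs => rw [← h]
  rw [map_sum]
  apply Finset.sum_congr rfl
  intro i _
  rw [map_smul]
  simp [bv]

lemma pd_affine {h : E N → ℝ} (hh : ContDiff ℝ ∞ h) (i : Fin N) (y : E N) (t : ℝ) (z : E N) :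
    pd i (fun z => h (y + t • z)) z = t * pd i h (y + t • z) := by
  unfold pd
  have h1 : HasFDerivAt (fun z : E N => y + t • z) (t • ContinuousLinearMap.id ℝ (E N)) z :=
    ((hasFDerivAt_id z).const_smul t).const_add y
  have h2 : HasFDerivAt h (fderiv ℝ h (y + t • z)) (y + t • z) :=
    (hh.differentiable (by simp) _).hasFDerivAt
  have h3 := (h2.comp z h1).fderiv
  have h4 : (h ∘ fun z : E N => y + t • z) = fun z => h (y + t • z) := rfl
  rw [h4] at h3
  rw [h3]; simp

lemma affine_contDiff {h : E N → ℝ} (hh : ContDiff ℝ ∞ h) (y : E N) (t : ℝ) :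
    ContDiff ℝ ∞ (fun z => h (y + t • z)) :=
  hh.comp (contDiff_const.add (contDiff_id.const_smul t))

/-- continuity of parametric integrals -/
lemma param_cont {θ g : E N → ℝ} (hθ : Tst θ) (hg : Continuous g) {M : ℝ} (hM : ∀ x, |g x| ≤ M) :
    Continuous (fun p : E N × ℝ => ∫ z, θ z * g (p.1 + p.2 • z)) := by
  apply continuous_of_dominated (bound := fun z => |θ z| * M)
  · intro p
    exact (hθ.cont.mul (hg.comp (by fun_prop))).aestronglyMeasurable
  · intro p
    refine Eventually.of_forall fun z => ?_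
    rw [Real.norm_eq_abs, abs_mul]
    exact mul_le_mul_of_nonneg_left (hM _) (abs_nonneg _)
  · exact hθ.integrable.abs.mul_const M
  · refine Eventually.of_forall fun z => ?_
    exact continuous_const.mul (hg.comp (by fun_prop))

lemma param_bdd {θ g : E N → ℝ} (hθ : Tst θ) {M : ℝ} (hM : ∀ x, |g x| ≤ M)
    (y : E N) (t : ℝ) : |∫ z, θ z * g (y + t • z)| ≤ (∫ z, |θ z|) * M := by
  rw [← integral_mul_const, ← Real.norm_eq_abs]
  refine (norm_integral_le_integral_norm _).trans ?_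
  apply integral_mono_of_nonneg (Eventually.of_forall fun x => norm_nonneg _)
    (hθ.integrable.abs.mul_const _)
  refine Eventually.of_forall fun z => ?_
  simp only [Real.norm_eq_abs, abs_mul]
  exact mul_le_mul_of_nonneg_left (hM _) (abs_nonneg _)

lemma ftc_hasDeriv {ψ ρ : E N → ℝ} (hψ : Tst ψ) (hρ : Tst ρ)
    (hρz : ∀ z, 1 ≤ ‖z‖ → ρ z = 0) (hpd : ∀ i z, pd i ψ z = - (z i * ρ z))
    {φ : E N → ℝ} (hφ : Tst φ) (y : E N) (t : ℝ) :
    HasDerivAt (fun t : ℝ => ∫ z, ρ z * φ (y + t • z)) (t * ∫ z, ψ z * lap φ (y + t • z)) t := by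
  obtain ⟨C, hC⟩ := (hφ.2.fderiv ℝ).exists_bound_of_continuous
    (hφ.1.continuous_fderiv (by simp))
  have hC0 : 0 ≤ C := (norm_nonneg _).trans (hC 0)
  obtain ⟨D, hD0, hD⟩ := hφ.bdd
  have h1 : HasDerivAt (fun t : ℝ => ∫ z, ρ z * φ (y + t • z))
      (∫ z, ρ z * (fderiv ℝ φ (y + t • z) z)) t := by
    have := hasDerivAt_integral_of_dominated_loc_of_deriv_le (μ := (volume : Measure (E N)))
      (F := fun (t : ℝ) z => ρ z * φ (y + t • z))
      (F' := fun (t : ℝ) z => ρ z * (fderiv ℝ φ (y + t • z) z)) (x₀ := t) (s := univ)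
      (bound := fun z => |ρ z| * C) univ_mem ?_ ?_ ?_ ?_ ?_ ?_
    · exact this.2
    · exact Eventually.of_forall fun t => (hρ.cont.mul (hφ.cont.comp (by fun_prop))).aestronglyMeasurable
    · apply (hρ.integrable.mul_const D).mono
      · exact (hρ.cont.mul (hφ.cont.comp (by fun_prop))).aestronglyMeasurable
      · refine Eventually.of_forall fun z => ?_
        rw [norm_mul, norm_mul, Real.norm_eq_abs, Real.norm_eq_abs, Real.norm_eq_abs,
          abs_of_nonneg hD0]
        exact mul_le_mul_of_nonneg_left (hD _) (abs_nonneg _)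
    · apply Continuous.aestronglyMeasurable
      have hc : Continuous fun z : E N => fderiv ℝ φ (y + t • z) :=
        (hφ.1.continuous_fderiv (by simp)).comp (by fun_prop)
      exact hρ.cont.mul (hc.clm_apply continuous_id)
    · refine Eventually.of_forall fun z t _ => ?_
      rw [norm_mul, Real.norm_eq_abs]
      by_cases hz : 1 ≤ ‖z‖
      · simp [hρz z hz]
      · apply mul_le_mul_of_nonneg_left _ (abs_nonneg _)
        push Not at hz
        calc ‖fderiv ℝ φ (y + t • z) z‖ ≤ ‖fderiv ℝ φ (y + t • z)‖ * ‖z‖ :=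
              ContinuousLinearMap.le_opNorm _ _
          _ ≤ C * 1 := mul_le_mul (hC _) hz.le (norm_nonneg _) hC0
          _ = C := mul_one C
    · exact hρ.integrable.abs.mul_const C
    · refine Eventually.of_forall fun z t _ => ?_
      apply HasDerivAt.const_mul
      have h2 : HasDerivAt (fun t : ℝ => y + t • z) z t := by
        simpa using ((hasDerivAt_id t).smul_const z).const_add y
      exact (hφ.diff (y + t • z)).hasFDerivAt.comp_hasDerivAt t h2
  have h2 : ∫ z, ρ z * (fderiv ℝ φ (y + t • z) z) = t * ∫ z, ψ z * lap φ (y + t • z) := by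
    have e1 : ∀ z, ρ z * (fderiv ℝ φ (y + t • z) z) =
        ∑ i, - (pd i ψ z * pd i φ (y + t • z)) := by
      intro z
      rw [clm_expand, Finset.mul_sum]
      apply Finset.sum_congr rfl
      intro i _
      rw [hpd]; unfold pd; ring
    simp only [e1]
    have hint : ∀ i ∈ (Finset.univ : Finset (Fin N)),
        Integrable (fun z => - (pd i ψ z * pd i φ (y + t • z))) := fun i _ =>
      ((hψ.pd i).mul_smooth (affine_contDiff (hφ.pd i).1 y t)).integrable.neg
    rw [integral_finsetSum _ hint]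
    have e2 : ∀ i, ∫ z, - (pd i ψ z * pd i φ (y + t • z)) =
        t * ∫ z, ψ z * pd i (pd i φ) (y + t • z) := by
      intro i
      rw [integral_neg]
      have := ibp hψ (affine_contDiff (hφ.pd i).1 y t) i
      have e3 : ∫ z, pd i ψ z * pd i φ (y + t • z) = ∫ z, pd i φ (y + t • z) * pd i ψ z := by
        congr 1; ext z; ring
      rw [e3, this, neg_neg, ← integral_const_mul]
      congr 1; ext z
      rw [pd_affine (hφ.pd i).1]; ring
    simp only [e2]
    rw [← Finset.mul_sum, ← integral_finsetSum]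
    · congr 1
      congr 1; ext z
      rw [lap, Finset.mul_sum]
    · intro i _
      exact (hψ.mul_smooth (affine_contDiff ((hφ.pd i).pd i).1 y t)).integrable
  rw [h2] at h1
  exact h1

lemma ftc_lap {ψ ρ : E N → ℝ} (hψ : Tst ψ) (hρ : Tst ρ)
    (hρz : ∀ z, 1 ≤ ‖z‖ → ρ z = 0) (hpd : ∀ i z, pd i ψ z = - (z i * ρ z)) (hint : ∫ z, ρ z = 1)
    {φ : E N → ℝ} (hφ : Tst φ) (y : E N) {L : ℝ} (hL : 0 ≤ L) :
    ∫ t in Ioo (0 : ℝ) L, t * ∫ z, ψ z * lap φ (y + t • z) =
      (∫ z, ρ z * φ (y + L • z)) - φ y := by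
  rw [← integral_Ioc_eq_integral_Ioo, ← intervalIntegral.integral_of_le hL]
  rw [intervalIntegral.integral_eq_sub_of_hasDerivAt
    (fun t _ => ftc_hasDeriv hψ hρ hρz hpd hφ y t)]
  · simp only [zero_smul, add_zero]
    rw [integral_mul_const, hint, one_mul]
  · obtain ⟨D, hD0, hD⟩ := hφ.lap.bdd
    have := param_cont hψ hφ.lap.cont hD
    exact (continuous_id.mul (this.comp (by fun_prop : Continuous fun t : ℝ => (y, t)))).intervalIntegrable _ _

section Bad

variable {f : E N → ℝ} {ℓ : E N → ℝ} {ψ ρ : E N → ℝ}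

/-- weight for the correction and its gradient -/
def cw (j : ℕ) (ℓ f : E N → ℝ) (p : E N × ℝ) : ℝ :=
  if 0 < p.2 ∧ p.2 < ℓ p.1 then p.2 ^ j * f p.1 else 0

lemma cw_meas (j : ℕ) (hf : Measurable f) (hℓ : Continuous ℓ) : Measurable (cw j ℓ f) := by
  unfold cw
  apply Measurable.ite
  · exact (measurableSet_lt measurable_const measurable_snd).inter
      (measurableSet_lt measurable_snd (hℓ.measurable.comp measurable_fst))
  · exact (measurable_snd.pow_const j).mul (hf.comp measurable_fst)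
  · exact measurable_const

lemma cw_integrable (j : ℕ) (hf : Measurable f) (hfi : Integrable f) (hℓ : Continuous ℓ)
    (hℓ1 : ∀ y, ℓ y ≤ 1) : Integrable (cw j ℓ f) := by
  have h1 : Integrable (fun p : E N × ℝ => f p.1 * (Ioo (0 : ℝ) 1).indicator (1 : ℝ → ℝ) p.2) := by
    apply hfi.mul_prod (g := (Ioo (0 : ℝ) 1).indicator (1 : ℝ → ℝ))
    rw [integrable_indicator_iff measurableSet_Ioo]
    exact integrableOn_const (by simp)
  apply h1.mono (cw_meas j hf hℓ).aestronglyMeasurable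
  refine Eventually.of_forall fun p => ?_
  unfold cw
  by_cases hp : 0 < p.2 ∧ p.2 < ℓ p.1
  · have h2 : p.2 ∈ Ioo (0 : ℝ) 1 := ⟨hp.1, hp.2.trans_le (hℓ1 _)⟩
    rw [if_pos hp, indicator_of_mem h2]
    simp only [Pi.one_apply, mul_one, norm_mul, norm_pow, Real.norm_eq_abs, abs_of_pos hp.1]
    have : p.2 ^ j ≤ 1 := pow_le_one₀ hp.1.le h2.2.le
    nlinarith [abs_nonneg (f p.1)]
  · rw [if_neg hp]; simp; positivity

lemma cw_pos (j : ℕ) (p : E N × ℝ) (hp : cw j ℓ f p ≠ 0) : 0 < p.2 := by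
  unfold cw at hp
  by_contra h
  apply hp
  rw [if_neg]
  tauto

lemma cw_lt (j : ℕ) (p : E N × ℝ) (hp : cw j ℓ f p ≠ 0) : p.2 < ℓ p.1 ∧ f p.1 ≠ 0 := by
  unfold cw at hp
  split_ifs at hp with h
  · exact ⟨h.2, right_ne_zero_of_mul hp⟩
  · exact absurd rfl hp

/-- the correction `K = - w_bad` -/
def Kc (ℓ f ψ : E N → ℝ) : E N → ℝ :=
  Sp volume (cw 1 ℓ f) (fun p : E N × ℝ => p.2) (fun p => p.1) ψ

def Kg (ℓ f θ : E N → ℝ) : E N → ℝ :=
  Sp volume (cw 0 ℓ f) (fun p : E N × ℝ => p.2) (fun p => p.1) θ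

def Jg (ℓ f ρ : E N → ℝ) : E N → ℝ :=
  Sp volume (fun y => if 0 < ℓ y then f y else 0) ℓ (fun y => y) ρ

lemma cg_meas (hf : Measurable f) (hℓ : Continuous ℓ) :
    Measurable (fun y => if 0 < ℓ y then f y else 0) :=
  Measurable.ite (measurableSet_lt measurable_const hℓ.measurable) hf measurable_const

lemma cg_integrable (hf : Measurable f) (hfi : Integrable f) (hℓ : Continuous ℓ) :
    Integrable (fun y => if 0 < ℓ y then f y else 0) := by
  apply hfi.mono (cg_meas hf hℓ).aestronglyMeasurable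
  refine Eventually.of_forall fun y => ?_
  split_ifs <;> simp

lemma Kc_integrable (hf : Measurable f) (hfi : Integrable f) (hℓ : Continuous ℓ)
    (hℓ1 : ∀ y, ℓ y ≤ 1) (hψ : Tst ψ) : Integrable (Kc ℓ f ψ) :=
  Sp_integrable (cw_meas 1 hf hℓ) (cw_integrable 1 hf hfi hℓ hℓ1) measurable_snd
    measurable_fst (cw_pos 1) hψ.cont hψ.integrable

lemma Kg_integrable (hf : Measurable f) (hfi : Integrable f) (hℓ : Continuous ℓ)
    (hℓ1 : ∀ y, ℓ y ≤ 1) (hψ : Tst ψ) : Integrable (Kg ℓ f ψ) :=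
  Sp_integrable (cw_meas 0 hf hℓ) (cw_integrable 0 hf hfi hℓ hℓ1) measurable_snd
    measurable_fst (cw_pos 0) hψ.cont hψ.integrable

lemma Jg_integrable (hf : Measurable f) (hfi : Integrable f) (hℓ : Continuous ℓ)
    (hρ : Tst ρ) : Integrable (Jg ℓ f ρ) :=
  Sp_integrable (cg_meas hf hℓ) (cg_integrable hf hfi hℓ) hℓ.measurable
    measurable_id (fun y hy => by
      by_contra h
      apply hy
      simp [h]) hρ.cont hρ.integrable

lemma Kc_WD (hf : Measurable f) (hfi : Integrable f) (hℓ : Continuous ℓ)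
    (hℓ1 : ∀ y, ℓ y ≤ 1) (hψ : Tst ψ) (i : Fin N) : WD i (Kc ℓ f ψ) (Kg ℓ f (pd i ψ)) := by
  intro φ hφ
  obtain ⟨C, hC0, hC⟩ := (hφ.pd i).bdd
  obtain ⟨D, hD0, hD⟩ := hφ.bdd
  unfold Kc Kg
  rw [Sp_mul_integral (cw_meas 1 hf hℓ) (cw_integrable 1 hf hfi hℓ hℓ1) measurable_snd
    measurable_fst (cw_pos 1) hψ.cont hψ.integrable (hφ.pd i).cont hC,
    Sp_mul_integral (cw_meas 0 hf hℓ) (cw_integrable 0 hf hfi hℓ hℓ1) measurable_snd
    measurable_fst (cw_pos 0) (hψ.pd i).cont (hψ.pd i).integrable hφ.cont hD, ← integral_neg]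
  refine integral_congr_ae (Eventually.of_forall fun p => ?_)
  simp only
  have h1 := ibp hψ (affine_contDiff hφ.1 p.1 p.2) i
  simp only [pd_affine hφ.1] at h1
  have h2 : ∫ z, pd i ψ z * φ (p.1 + p.2 • z) = - (p.2 * ∫ z, ψ z * pd i φ (p.1 + p.2 • z)) := by
    have e3 : ∫ z, pd i ψ z * φ (p.1 + p.2 • z) = ∫ z, φ (p.1 + p.2 • z) * pd i ψ z := by
      congr 1; ext z; ring
    rw [e3, h1, ← integral_const_mul]
    congr 2; ext z; ring
  rw [h2]
  have h3 : cw 1 ℓ f p = cw 0 ℓ f p * p.2 := by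
    unfold cw
    split_ifs <;> ring
  rw [h3]; ring

lemma Kc_WL (hf : Measurable f) (hfi : Integrable f) (hℓ : Continuous ℓ) (hℓ0 : ∀ y, 0 ≤ ℓ y)
    (hℓ1 : ∀ y, ℓ y ≤ 1) (hψ : Tst ψ) (hρ : Tst ρ)
    (hρz : ∀ z, 1 ≤ ‖z‖ → ρ z = 0) (hpd : ∀ i z, pd i ψ z = - (z i * ρ z)) (hint : ∫ z, ρ z = 1) :
    WL (Kc ℓ f ψ) (fun x => (if 0 < ℓ x then 0 else f x) + Jg ℓ f ρ x - f x) := by
  intro φ hφ
  obtain ⟨C, hC0, hC⟩ := hφ.lap.bdd
  obtain ⟨D, hD0, hD⟩ := hφ.bdd
  unfold Kc
  rw [Sp_mul_integral (cw_meas 1 hf hℓ) (cw_integrable 1 hf hfi hℓ hℓ1) measurable_snd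
    measurable_fst (cw_pos 1) hψ.cont hψ.integrable hφ.lap.cont hC]
  have hI : Integrable (fun p : E N × ℝ => cw 1 ℓ f p * ∫ z, ψ z * lap φ (p.1 + p.2 • z)) := by
    have := (cw_integrable 1 hf hfi hℓ hℓ1).bdd_mul (c := (∫ z, |ψ z|) * C)
      (param_cont hψ hφ.lap.cont hC).aestronglyMeasurable
      (Eventually.of_forall fun p => param_bdd hψ hC p.1 p.2)
    refine this.congr (Eventually.of_forall fun p => ?_)
    simp only; ring
  rw [show (volume : Measure (E N × ℝ)) = (volume : Measure (E N)).prod volume from rfl,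
    integral_prod _ hI]
  have h1 : ∀ y, ∫ t, cw 1 ℓ f (y, t) * ∫ z, ψ z * lap φ (y + t • z) =
      f y * ((∫ z, ρ z * φ (y + ℓ y • z)) - φ y) := by
    intro y
    rw [← ftc_lap hψ hρ hρz hpd hint hφ y (hℓ0 y), ← integral_const_mul,
      ← integral_indicator measurableSet_Ioo]
    refine integral_congr_ae (Eventually.of_forall fun t => ?_)
    simp only [cw, indicator, mem_Ioo, pow_one]
    split_ifs <;> ring
  simp only [h1]
  -- the right-hand side
  have hA : Integrable (fun y => f y * ∫ z, ρ z * φ (y + ℓ y • z)) := by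
    have hc : Continuous fun y : E N => ∫ z, ρ z * φ (y + ℓ y • z) :=
      (param_cont hρ hφ.cont hD).comp (by fun_prop : Continuous fun y : E N => (y, ℓ y))
    have := hfi.bdd_mul (c := (∫ z, |ρ z|) * D) hc.aestronglyMeasurable
      (Eventually.of_forall fun p => param_bdd hρ hD p (ℓ p))
    refine this.congr (Eventually.of_forall fun p => ?_)
    simp only; ring
  have hfφ : ∀ {g : E N → ℝ}, Integrable g → Integrable (fun y => g y * φ y) := by
    intro g hg
    have := hg.bdd_mul (c := D) hφ.cont.aestronglyMeasurable (Eventually.of_forall fun p => hD p)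
    refine this.congr (Eventually.of_forall fun p => ?_)
    simp only; ring
  have hf0 : Integrable (fun y => if 0 < ℓ y then 0 else f y) := by
    apply hfi.mono
    · exact (Measurable.ite (measurableSet_lt measurable_const hℓ.measurable) measurable_const
        hf).aestronglyMeasurable
    · refine Eventually.of_forall fun y => ?_
      split_ifs <;> simp
  have e1 : ∫ y, f y * ((∫ z, ρ z * φ (y + ℓ y • z)) - φ y) =
      (∫ y, f y * (∫ z, ρ z * φ (y + ℓ y • z))) - ∫ y, f y * φ y := by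
    rw [← integral_sub hA (hfφ hfi)]
    congr 1; ext y; ring
  have e2 : ∫ y, ((if 0 < ℓ y then 0 else f y) + Jg ℓ f ρ y - f y) * φ y =
      ((∫ y, (if 0 < ℓ y then 0 else f y) * φ y) + ∫ y, Jg ℓ f ρ y * φ y) - ∫ y, f y * φ y := by
    rw [← integral_add (hfφ hf0) (hfφ (Jg_integrable hf hfi hℓ hρ)), ← integral_sub _ (hfφ hfi)]
    · congr 1; ext y; ring
    · exact (hfφ hf0).add (hfφ (Jg_integrable hf hfi hℓ hρ))
  rw [e1, e2]
  congr 1
  unfold Jg
  have hposg : ∀ y, (fun y => if 0 < ℓ y then f y else 0) y ≠ 0 → 0 < ℓ y := fun y hy => by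
      by_contra h
      apply hy
      simp [h]
  rw [Sp_mul_integral (cg_meas hf hℓ) (cg_integrable hf hfi hℓ) hℓ.measurable
    measurable_id' hposg hρ.cont hρ.integrable hφ.cont hD, ← integral_add (hfφ hf0)]
  · refine integral_congr_ae (Eventually.of_forall fun y => ?_)
    simp only
    split_ifs with h
    · ring
    · have h0 : ℓ y = 0 := le_antisymm (not_lt.1 h) (hℓ0 y)
      simp only [h0, zero_smul, add_zero]
      rw [integral_mul_const, hint]; ring
  · have := hA.mono (f := fun y => (if 0 < ℓ y then f y else 0) * ∫ z, ρ z * φ (y + ℓ y • z)) ?_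
      (Eventually.of_forall fun y => ?_)
    · exact this
    · have hc : Continuous fun y : E N => ∫ z, ρ z * φ (y + ℓ y • z) :=
        (param_cont hρ hφ.cont hD).comp (by fun_prop : Continuous fun y : E N => (y, ℓ y))
      exact ((cg_meas hf hℓ).mul hc.measurable).aestronglyMeasurable
    · split_ifs
      · exact le_rfl
      · simp only [zero_mul, norm_zero]; exact norm_nonneg _

end Bad

end Helper304Lap
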