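import Pool.Agent.Helper304.LapMeas

open MeasureTheory Filter Topology Set ContinuousLinearMap
open scoped ContDiff Convolution

noncomputable section

namespace Helper304Lap

variable {N : ℕ}

lemma ae_nonneg_of_test {Ω : Set (E N)} {h : E N → ℝ} (hO : IsOpen Ω)
    (hh : LocallyIntegrableOn h Ω)
    (hpos : ∀ ψ, Tst ψ → tsupport ψ ⊆ Ω → (∀ x, 0 ≤ ψ x) → 0 ≤ ∫ x, h x * ψ x) :
    ∀ᵐ x, x ∈ Ω → 0 ≤ h x := by
  apply loc_ae hO
  intro χ hχ hs
  have hχχ : Tst (fun x => χ x * χ x) := hχ.mul hχ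
  have hsχχ : tsupport (fun x => χ x * χ x) ⊆ Ω := tsupport_mul_left'.trans hs
  have hi : Integrable (fun x => h x * (χ x * χ x)) := int_mul hh hχχ hsχχ
  filter_upwards [ml_ae _ hi.locallyIntegrable] with x hx h1
  have h2 : 0 ≤ h x * (χ x * χ x) := by
    apply ge_of_tendsto' hx
    intro n
    rw [ml_eq]
    have h3 := hpos (fun t => (χ t * χ t) * mol n (x - t))
      (hχχ.mul (tst_reflect (mol_tst n) x)) (tsupport_mul_left'.trans hsχχ)
      (fun t => mul_nonneg (mul_self_nonneg _) (mol_nonneg _ _))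
    refine h3.trans (le_of_eq ?_)
    refine integral_congr_ae (Eventually.of_forall fun t => ?_)
    simp only; ring
  rw [h1.self_of_nhds] at h2
  simpa using h2

section

variable {Ω B : Set (E N)} {u f k h : E N → ℝ} {V : Fin N → E N → ℝ}

lemma Dat.mono (D : Dat Ω u f V) (hB : IsOpen B) (hBΩ : B ⊆ Ω) : Dat B u f V where
  hO := hB
  hu := D.hu.mono_set hBΩ
  hV := fun i => (D.hV i).mono_set hBΩ
  hf := D.hf.mono_set hBΩ
  wd := fun i φ hφ hs => D.wd i φ hφ (hs.trans hBΩ)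
  wl := fun φ hφ hs => D.wl φ hφ (hs.trans hBΩ)

lemma locInt_add {a b : E N → ℝ} (ha : LocallyIntegrableOn a Ω) (hb : LocallyIntegrableOn b Ω) :
    LocallyIntegrableOn (fun x => a x + b x) Ω := ha.add hb

lemma locInt_sub {a b : E N → ℝ} (ha : LocallyIntegrableOn a Ω) (hb : LocallyIntegrableOn b Ω) :
    LocallyIntegrableOn (fun x => a x - b x) Ω := ha.sub hb

/-- composition data -/
lemma Dat.comp (D : Dat Ω u f V) (hum : Measurable u) (hB : IsOpen B) (hBΩ : B ⊆ Ω)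
    {θ : ℝ → ℝ} (hθ : Measurable θ) {M : ℝ} (hM : ∀ s, |θ s| ≤ M) (hk : LocallyIntegrableOn k B)
    (hT : ∀ ψ, Tst ψ → tsupport ψ ⊆ B →
      Tf (fun x => prim θ (u x)) (fun x => θ (u x) * f x) ψ = ∫ x, k x * ψ x) :
    Dat B (fun x => prim θ (u x)) (fun x => θ (u x) * f x + k x) (fun i x => θ (u x) * V i x) := by
  have DB := D.mono hB hBΩ
  have hθf : LocallyIntegrableOn (fun x => θ (u x) * f x) B := locInt_bdd_mul hum DB.hf hB hθ hM
  refine ⟨hB, locInt_prim DB.hu hB hθ hM, fun i => locInt_bdd_mul hum (DB.hV i) hB hθ hM,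
    locInt_add hθf hk, fun i φ hφ hs => DB.chain hθ hM i φ hφ hs, fun φ hφ hs => ?_⟩
  have h1 := hT φ hφ hs
  unfold Tf at h1
  have e1 : ∫ x, (θ (u x) * f x + k x) * φ x =
      (∫ x, (θ (u x) * f x) * φ x) + ∫ x, k x * φ x := by
    rw [← integral_add (int_mul hθf hφ hs) (int_mul hk hφ hs)]
    refine integral_congr_ae (Eventually.of_forall fun x => ?_)
    simp only; ring
  rw [e1]
  linarith

lemma prim_sub_const {θ : ℝ → ℝ} (hθ : Measurable θ) {M : ℝ} (hM : ∀ s, |θ s| ≤ M) (c t : ℝ) :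
    prim (fun s => θ s - c) t = prim θ t - c * t := by
  unfold prim
  rw [intervalIntegral.integral_sub (prim_ii hθ hM _ _) intervalIntegrable_const]
  simp [mul_comm]

/-- subtracting a constant from `θ` does not change the distribution -/
lemma Tf_sub_const (D : Dat Ω u f V) (hum : Measurable u) {θ : ℝ → ℝ} (hθ : Measurable θ) {M : ℝ}
    (hM : ∀ s, |θ s| ≤ M) (c : ℝ) {ψ : E N → ℝ} (hψ : Tst ψ) (hs : tsupport ψ ⊆ Ω) :
    Tf (fun x => prim (fun s => θ s - c) (u x)) (fun x => (θ (u x) - c) * f x) ψ =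
      Tf (fun x => prim θ (u x)) (fun x => θ (u x) * f x) ψ := by
  unfold Tf
  have h1 := D.wl ψ hψ hs
  have i1 := int_mul (locInt_prim D.hu D.hO hθ hM) hψ.lap (tsupport_lap.trans hs)
  have i2 := int_mul D.hu hψ.lap (tsupport_lap.trans hs)
  have i3 := int_mul (locInt_bdd_mul hum D.hf D.hO hθ hM) hψ hs
  have i4 := int_mul D.hf hψ hs
  have e1 : ∫ x, prim (fun s => θ s - c) (u x) * lap ψ x =
      (∫ x, prim θ (u x) * lap ψ x) - c * ∫ x, u x * lap ψ x := by
    rw [← integral_const_mul, ← integral_sub i1 (i2.const_mul c)]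
    refine integral_congr_ae (Eventually.of_forall fun x => ?_)
    simp only
    rw [prim_sub_const hθ hM]; ring
  have e2 : ∫ x, ((θ (u x) - c) * f x) * ψ x =
      (∫ x, (θ (u x) * f x) * ψ x) - c * ∫ x, f x * ψ x := by
    rw [← integral_const_mul, ← integral_sub i3 (i4.const_mul c)]
    refine integral_congr_ae (Eventually.of_forall fun x => ?_)
    simp only; ring
  rw [e1, e2, h1]; ring

/-- key locality consequence of Theorem B -/
lemma Dat.key (hN : 0 < N) (D : Dat Ω u f V) (hum : Measurable u) (hB : IsOpen B) (hBΩ : B ⊆ Ω)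
    {θ : ℝ → ℝ} (hθ : Measurable θ) {M : ℝ} (hM : ∀ s, |θ s| ≤ M) (hk : LocallyIntegrableOn k B)
    (hT : ∀ ψ, Tst ψ → tsupport ψ ⊆ B →
      Tf (fun x => prim θ (u x)) (fun x => θ (u x) * f x) ψ = ∫ x, k x * ψ x) (c : ℝ) :
    ∀ᵐ x, x ∈ B → θ (u x) = c → k x = 0 := by
  have hθc : Measurable (fun s => θ s - c) := hθ.sub_const c
  have hMc : ∀ s, |θ s - c| ≤ M + |c| := fun s => (abs_sub _ _).trans (add_le_add (hM s) le_rfl)
  have D1 := D.comp hum hB hBΩ hθc hMc hk (fun ψ hψ hs => by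
    rw [← hT ψ hψ hs]
    exact Tf_sub_const D hum hθ hM c hψ (hs.trans hBΩ))
  filter_upwards [D1.vanish hN] with x hx hxB hc
  have := hx hxB (fun i => by simp [hc])
  simpa [hc] using this

/-- statement (J) -/
theorem stJ (hN : 0 < N) (D : Dat Ω u f V) (hum : Measurable u) (hfm : Measurable f)
    (μ : Measure ℝ) [IsFiniteMeasure μ] (hh : LocallyIntegrableOn h Ω)
    (hrep : ∀ ψ, Tst ψ → tsupport ψ ⊆ Ω → ∫ x, h x * ψ x = ∫ s, Lf u f ψ s ∂μ)
    {φ : E N → ℝ} (hφ : Tst φ) (hs : tsupport φ ⊆ Ω) (a : ℝ) :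
    ∫ s in Iic a, Lf u f φ s ∂μ = ∫ x, (if u x ≤ a then h x else 0) * φ x := by
  obtain ⟨χ, hχ, _, hsχ, h1⟩ := exists_cutoff hφ.2.isCompact D.hO hs
  set B : Set (E N) := {x | ∀ᶠ y in 𝓝 x, χ y = 1} with hBdef
  have hB : IsOpen B := isOpen_setOfPred_eventually_nhds
  have hχB : ∀ x ∈ B, χ x = 1 := fun x hx => hx.self_of_nhds
  have hφB : tsupport φ ⊆ B := fun x hx => h1 x hx
  have hBΩ : B ⊆ Ω := fun x hx => hsχ (subset_tsupport _ (by
    rw [Function.mem_support, hχB x hx]; exact one_ne_zero))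
  set μ1 := μ.restrict (Iic a) with hμ1
  set μ2 := μ.restrict (Ioi a) with hμ2
  have hT1 : ∀ ψ, Tst ψ → tsupport ψ ⊆ Ω →
      Tf (fun x => prim (th μ1) (u x)) (fun x => th μ1 (u x) * f x) ψ =
        ∫ s in Iic a, Lf u f ψ s ∂μ := fun ψ hψ hsψ => (fub D hum hfm μ1 hψ hsψ).2
  have hT2 : ∀ ψ, Tst ψ → tsupport ψ ⊆ Ω →
      Tf (fun x => prim (th μ2) (u x)) (fun x => th μ2 (u x) * f x) ψ =
        ∫ s in Ioi a, Lf u f ψ s ∂μ := fun ψ hψ hsψ => (fub D hum hfm μ2 hψ hsψ).2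
  have hsum : ∀ ψ, Tst ψ → tsupport ψ ⊆ Ω →
      (∫ s in Iic a, Lf u f ψ s ∂μ) + ∫ s in Ioi a, Lf u f ψ s ∂μ = ∫ x, h x * ψ x := by
    intro ψ hψ hsψ
    rw [hrep ψ hψ hsψ]
    have hi := (fub D hum hfm μ hψ hsψ).1
    have := integral_add_compl (measurableSet_Iic (a := a)) hi
    rwa [compl_Iic] at this
  have hθ1 : Measurable (th μ1) := (th_mono μ1).measurable
  have hθ2 : Measurable (th μ2) := (th_mono μ2).measurable
  obtain ⟨k, hk, hkT⟩ := domination (Ω := Ω) (a := fun x => prim (th μ1) (u x))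
    (b := fun x => th μ1 (u x) * f x) (h := h) hB hχ hsχ hχB
    (locInt_prim D.hu D.hO hθ1 (th_bd μ1)) (locInt_bdd_mul hum D.hf D.hO hθ1 (th_bd μ1)) hh
    (fun ψ hψ hsψ h0 => by
      rw [hT1 ψ hψ hsψ]
      exact integral_nonneg fun s => Lf_nonneg hN D hψ hsψ h0 s)
    (fun ψ hψ hsψ h0 => by
      rw [hT1 ψ hψ hsψ, ← hsum ψ hψ hsψ]
      have : 0 ≤ ∫ s in Ioi a, Lf u f ψ s ∂μ :=
        integral_nonneg fun s => Lf_nonneg hN D hψ hsψ h0 s
      linarith)
  have hhB : LocallyIntegrableOn h B := hh.mono_set hBΩ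
  have hk2 : LocallyIntegrableOn (fun x => h x - k x) B := locInt_sub hhB hk
  have hkT2 : ∀ ψ, Tst ψ → tsupport ψ ⊆ B →
      Tf (fun x => prim (th μ2) (u x)) (fun x => th μ2 (u x) * f x) ψ =
        ∫ x, (h x - k x) * ψ x := by
    intro ψ hψ hsψ
    have e1 : ∫ x, (h x - k x) * ψ x = (∫ x, h x * ψ x) - ∫ x, k x * ψ x := by
      rw [← integral_sub (int_mul hhB hψ hsψ) (int_mul hk hψ hsψ)]
      refine integral_congr_ae (Eventually.of_forall fun x => ?_)
      simp only; ring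
    rw [e1, ← hkT ψ hψ hsψ, hT2 ψ hψ (hsψ.trans hBΩ), hT1 ψ hψ (hsψ.trans hBΩ),
      ← hsum ψ hψ (hsψ.trans hBΩ)]
    ring
  have c1 := D.key hN hum hB hBΩ hθ1 (th_bd μ1) hk hkT (μ.real (Iic a))
  have c2 := D.key hN hum hB hBΩ hθ2 (th_bd μ2) hk2 hkT2 0
  rw [← hT1 φ hφ hs, hkT φ hφ hφB]
  apply integral_congr_ae
  filter_upwards [c1, c2] with x hx1 hx2
  by_cases hxs : x ∈ tsupport φ
  · have hxB := hφB hxs
    congr 1
    split_ifs with hux
    · have : th μ2 (u x) = 0 := by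
        unfold th
        rw [hμ2, measureReal_restrict_apply measurableSet_Iic]
        have : Iic (u x) ∩ Ioi a = ∅ := by
          ext s; simp only [mem_inter_iff, mem_Iic, mem_Ioi, mem_empty_iff_false, iff_false]
          rintro ⟨h1, h2⟩; linarith
        rw [this]; simp
      have := hx2 hxB this
      linarith
    · apply hx1 hxB
      unfold th
      rw [hμ1, measureReal_restrict_apply measurableSet_Iic]
      congr 1
      ext s
      simp only [mem_inter_iff, mem_Iic, and_iff_right_iff_imp]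
      intro h1; push Not at hux; linarith
  · simp [image_eq_zero_of_notMem_tsupport hxs]

/-- statement (K) for nonnegative test functions -/
theorem stK_nonneg (hN : 0 < N) (D : Dat Ω u f V) (hum : Measurable u) (hfm : Measurable f)
    (μ : Measure ℝ) [IsFiniteMeasure μ] (hh : LocallyIntegrableOn h Ω)
    (hrep : ∀ ψ, Tst ψ → tsupport ψ ⊆ Ω → ∫ x, h x * ψ x = ∫ s, Lf u f ψ s ∂μ)
    {φ : E N → ℝ} (hφ : Tst φ) (hs : tsupport φ ⊆ Ω) (h0 : ∀ x, 0 ≤ φ x) {A : Set ℝ}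
    (hA : MeasurableSet A) :
    ∫ s in A, Lf u f φ s ∂μ = ∫ x, (A.indicator 1 (u x) * h x) * φ x := by
  have hL0 : ∀ s, 0 ≤ Lf u f φ s := fun s => Lf_nonneg hN D hφ hs h0 s
  have hLi := (fub D hum hfm μ hφ hs).1
  have hpos := ae_nonneg_of_test D.hO hh (fun ψ hψ hsψ hψ0 => by
    rw [hrep ψ hψ hsψ]
    exact integral_nonneg fun s => Lf_nonneg hN D hψ hsψ hψ0 s)
  have hh0 : ∀ᵐ x, 0 ≤ h x * φ x := by
    filter_upwards [hpos] with x hx
    by_cases hxs : x ∈ tsupport φ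
    · exact mul_nonneg (hx (hs hxs)) (h0 x)
    · simp [image_eq_zero_of_notMem_tsupport hxs]
  have hhi : Integrable (fun x => h x * φ x) := int_mul hh hφ hs
  set F1 : Measure ℝ := μ.withDensity fun s => ENNReal.ofReal (Lf u f φ s) with hF1
  set F2 : Measure ℝ := Measure.map u (volume.withDensity fun x => ENNReal.ofReal (h x * φ x))
    with hF2
  have v1 : ∀ A, MeasurableSet A → F1 A = ENNReal.ofReal (∫ s in A, Lf u f φ s ∂μ) := by
    intro A hA
    rw [hF1, withDensity_apply _ hA, ofReal_integral_eq_lintegral_ofReal hLi.integrableOn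
      (Eventually.of_forall hL0)]
  have v2 : ∀ A, MeasurableSet A →
      F2 A = ENNReal.ofReal (∫ x, (A.indicator 1 (u x) * h x) * φ x) := by
    intro A hA
    rw [hF2, Measure.map_apply hum hA, withDensity_apply _ (hum hA)]
    have e1 : ∫ x, (A.indicator 1 (u x) * h x) * φ x = ∫ x in u ⁻¹' A, h x * φ x := by
      rw [← integral_indicator (hum hA)]
      refine integral_congr_ae (Eventually.of_forall fun x => ?_)
      by_cases hx : u x ∈ A
      · have : x ∈ u ⁻¹' A := hx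
        simp [hx, this]
      · have : x ∉ u ⁻¹' A := hx
        simp [hx, this]
    rw [e1, ofReal_integral_eq_lintegral_ofReal hhi.integrableOn (ae_restrict_of_ae hh0)]
  have hfin : IsFiniteMeasure F1 := ⟨by
    rw [v1 univ MeasurableSet.univ]; exact ENNReal.ofReal_lt_top⟩
  have heq : F1 = F2 := by
    apply Measure.ext_of_Iic
    intro a
    rw [v1 _ measurableSet_Iic, v2 _ measurableSet_Iic,
      stJ hN D hum hfm μ hh hrep hφ hs a]
    congr 1
    refine integral_congr_ae (Eventually.of_forall fun x => ?_)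
    by_cases hx : u x ≤ a
    · simp [hx]
    · simp [hx]
  have h3 := v1 A hA
  rw [heq, v2 A hA] at h3
  have n1 : 0 ≤ ∫ s in A, Lf u f φ s ∂μ := integral_nonneg fun s => hL0 s
  have n2 : 0 ≤ ∫ x, (A.indicator 1 (u x) * h x) * φ x := by
    apply integral_nonneg_of_ae
    filter_upwards [hh0] with x hx
    by_cases hxA : u x ∈ A
    · simpa [hxA] using hx
    · simp [hxA]
  exact ((ENNReal.ofReal_eq_ofReal_iff n2 n1).1 h3).symm

lemma Lf_add (D : Dat Ω u f V) (hum : Measurable u) {φ ψ : E N → ℝ}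
    (hφ : Tst φ) (hs : tsupport φ ⊆ Ω) (hψ : Tst ψ) (hs' : tsupport ψ ⊆ Ω) (s : ℝ) :
    Lf u f (fun x => φ x + ψ x) s = Lf u f φ s + Lf u f ψ s :=
  Tf_add (locInt_prim D.hu D.hO (hv_mono s).measurable (hv_bd s))
    (locInt_bdd_mul hum D.hf D.hO (hv_mono s).measurable (hv_bd s)) hφ hs hψ hs'

/-- statement (K) -/
theorem stK (hN : 0 < N) (D : Dat Ω u f V) (hum : Measurable u) (hfm : Measurable f)
    (μ : Measure ℝ) [IsFiniteMeasure μ] (hh : LocallyIntegrableOn h Ω)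
    (hrep : ∀ ψ, Tst ψ → tsupport ψ ⊆ Ω → ∫ x, h x * ψ x = ∫ s, Lf u f ψ s ∂μ)
    {φ : E N → ℝ} (hφ : Tst φ) (hs : tsupport φ ⊆ Ω) {A : Set ℝ}
    (hA : MeasurableSet A) :
    ∫ s in A, Lf u f φ s ∂μ = ∫ x, (A.indicator 1 (u x) * h x) * φ x := by
  obtain ⟨χ, hχ, hχ01, hsχ, h1⟩ := exists_cutoff hφ.2.isCompact D.hO hs
  obtain ⟨C, hC0, hC⟩ := hφ.bdd
  set ψ1 : E N → ℝ := fun x => C * χ x with hψ1
  have hψ1T : Tst ψ1 := hχ.const_mul C
  have hψ1s : tsupport ψ1 ⊆ Ω := tsupport_const_mul' hsχ C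
  have hψ10 : ∀ x, 0 ≤ ψ1 x := fun x => mul_nonneg hC0 (hχ01 x).1
  set ψ2 : E N → ℝ := fun x => φ x + ψ1 x with hψ2
  have hψ2T : Tst ψ2 := hφ.add hψ1T
  have hψ2s : tsupport ψ2 ⊆ Ω := tsupport_add' hs hψ1s
  have hψ20 : ∀ x, 0 ≤ ψ2 x := by
    intro x
    by_cases hx : x ∈ tsupport φ
    · simp only [hψ2, hψ1, (h1 x hx).self_of_nhds]
      have := neg_abs_le (φ x)
      have := hC x
      linarith
    · simp only [hψ2, image_eq_zero_of_notMem_tsupport hx, zero_add]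
      exact hψ10 x
  have e1 := stK_nonneg hN D hum hfm μ hh hrep hψ1T hψ1s hψ10 hA
  have e2 := stK_nonneg hN D hum hfm μ hh hrep hψ2T hψ2s hψ20 hA
  have e3 : ∀ s, Lf u f ψ2 s = Lf u f φ s + Lf u f ψ1 s := fun s =>
    Lf_add D hum hφ hs hψ1T hψ1s s
  have e4 : ∫ s in A, Lf u f ψ2 s ∂μ =
      (∫ s in A, Lf u f φ s ∂μ) + ∫ s in A, Lf u f ψ1 s ∂μ := by
    simp only [e3]
    exact integral_add (fub D hum hfm μ hφ hs).1.integrableOn
      (fub D hum hfm μ hψ1T hψ1s).1.integrableOn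
  have hAm : Measurable (A.indicator (1 : ℝ → ℝ)) := measurable_const.indicator hA
  have hAb : ∀ s, |A.indicator (1 : ℝ → ℝ) s| ≤ 1 := fun s => by
    by_cases hs : s ∈ A <;> simp [hs]
  have hAh : LocallyIntegrableOn (fun x => A.indicator 1 (u x) * h x) Ω :=
    locInt_bdd_mul hum hh D.hO hAm hAb
  have e5 : ∫ x, (A.indicator 1 (u x) * h x) * ψ2 x =
      (∫ x, (A.indicator 1 (u x) * h x) * φ x) + ∫ x, (A.indicator 1 (u x) * h x) * ψ1 x := by
    rw [← integral_add (int_mul hAh hφ hs) (int_mul hAh hψ1T hψ1s)]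
    refine integral_congr_ae (Eventually.of_forall fun x => ?_)
    simp only [hψ2]; ring
  linarith

end

end Helper304Lap
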