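import Pool.Agent.Helper304.LapLocal

open MeasureTheory Filter Topology Set ContinuousLinearMap
open scoped ContDiff Convolution

noncomputable section

namespace Helper304Lap

variable {N : ℕ}

lemma prim_smooth {θ : ℝ → ℝ} (hθ : ContDiff ℝ ∞ θ) : ContDiff ℝ ∞ (prim θ) := by
  have h1 : ∀ t, HasDerivAt (prim θ) (θ t) t := prim_deriv hθ.continuous
  rw [contDiff_infty_iff_deriv]
  refine ⟨fun t => (h1 t).differentiableAt, ?_⟩
  have : deriv (prim θ) = θ := funext fun t => (h1 t).deriv
  rw [this]; exact hθ

/-- second order identity for smooth functions -/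
lemma smooth_second {φ W : E N → ℝ} (hφ : Tst φ) (hW : ContDiff ℝ ∞ W) {θ : ℝ → ℝ}
    (hθ : ContDiff ℝ ∞ θ) :
    ∫ x, prim θ (W x) * lap φ x =
      ∫ x, (θ (W x) * lap W x + deriv θ (W x) * ∑ i, pd i W x * pd i W x) * φ x := by
  have hd : ∀ {g : E N → ℝ}, ContDiff ℝ ∞ g → Differentiable ℝ g := fun hg =>
    hg.differentiable (by simp)
  have hg : ContDiff ℝ ∞ (fun x => prim θ (W x)) := (prim_smooth hθ).comp hW
  have h1 : ∀ i, pd i (fun x => prim θ (W x)) = fun x => θ (W x) * pd i W x := by
    intro i; funext x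
    rw [pd_comp i (hd hW x) (prim_deriv hθ.continuous _).differentiableAt,
      (prim_deriv hθ.continuous _).deriv]
  have hθW : ContDiff ℝ ∞ (fun x => θ (W x)) := hθ.comp hW
  have h2 : ∀ i x, pd i (pd i (fun x => prim θ (W x))) x =
      θ (W x) * pd i (pd i W) x + deriv θ (W x) * (pd i W x * pd i W x) := by
    intro i x
    rw [h1, pd_mul i (hd hθW x) (hd (contDiff_pd hW i) x),
      pd_comp i (hd hW x) (hθ.differentiable (by simp) _)]
    ring
  have h3 : ∀ i, ∫ x, prim θ (W x) * pd i (pd i φ) x =
      ∫ x, pd i (pd i (fun x => prim θ (W x))) x * φ x := by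
    intro i
    rw [ibp (hφ.pd i) hg i, ibp hφ (contDiff_pd hg i) i, neg_neg]
  have h4 : ∫ x, prim θ (W x) * lap φ x = ∑ i, ∫ x, prim θ (W x) * pd i (pd i φ) x := by
    rw [← integral_finsetSum _ fun i _ => (((hφ.pd i).pd i).smooth_mul hg).integrable]
    refine integral_congr_ae (Eventually.of_forall fun x => ?_)
    simp only [lap, Finset.mul_sum]
  rw [h4]
  simp only [h3]
  rw [← integral_finsetSum _ fun i _ =>
    (hφ.smooth_mul (contDiff_pd (contDiff_pd hg i) i)).integrable]
  refine integral_congr_ae (Eventually.of_forall fun x => ?_)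
  simp only [h2, lap, Finset.mul_sum, ← Finset.sum_add_distrib, Finset.sum_mul]

lemma Dat.int_comp {Ω : Set (E N)} {u f : E N → ℝ} {V : Fin N → E N → ℝ}
    (D : Dat Ω u f V) {θ : ℝ → ℝ} (hθ : Measurable θ) {M : ℝ} (hM : ∀ s, |θ s| ≤ M)
    {w φ : E N → ℝ} (hw : LocallyIntegrableOn w Ω) (hφ : Tst φ) (hs : tsupport φ ⊆ Ω) :
    Integrable (fun x => θ (u x) * w x * φ x) := by
  have h1 : Integrable (fun x => w x * φ x) := int_mul hw hφ hs
  have h2 : IntegrableOn u (tsupport φ) := D.hu.integrableOn_compact_subset hs hφ.2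
  have h3 : Integrable ((tsupport φ).indicator u) := by
    rwa [integrable_indicator_iff (isClosed_tsupport φ).measurableSet]
  have := h1.bdd_mul (c := M) (f := fun x => θ ((tsupport φ).indicator u x))
    (hθ.comp_aemeasurable h3.aestronglyMeasurable.aemeasurable).aestronglyMeasurable
    (Eventually.of_forall fun x => hM _)
  refine this.congr (Eventually.of_forall fun x => ?_)
  by_cases hx : x ∈ tsupport φ
  · simp only [indicator_of_mem hx]; ring
  · simp [image_eq_zero_of_notMem_tsupport hx]

lemma prim_sub_tendsto {u : E N → ℝ} (hu : Integrable u) {φ : E N → ℝ} (hφ : Tst φ) {θ : ℝ → ℝ}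
    (hθ : Measurable θ) {M : ℝ} (hM : ∀ s, |θ s| ≤ M) :
    Tendsto (fun n => ∫ x, prim θ (ml n u x) * φ x) atTop (𝓝 (∫ x, prim θ (u x) * φ x)) := by
  obtain ⟨C, hC0, hC⟩ := hφ.bdd
  have := tendsto_mul_L1 (μ := (volume : Measure (E N))) (a := fun _ => φ) (a' := φ)
    (w := fun n x => prim θ (ml n u x)) (w' := fun x => prim θ (u x)) (M := C)
    (fun n => hφ.cont.aestronglyMeasurable)
    (fun n => Eventually.of_forall hC) (Eventually.of_forall fun x => tendsto_const_nhds)
    (fun n => prim_comp_integrable (ml_integrable n hu) hθ hM)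
    (prim_comp_integrable hu hθ hM) ?_
  · simpa only [mul_comm] using this
  · apply squeeze_zero (g := fun n => M * ∫ x, |ml n u x - u x|)
      (fun n => integral_nonneg fun x => abs_nonneg _)
    · intro n
      rw [← integral_const_mul]
      apply integral_mono_of_nonneg (Eventually.of_forall fun x => abs_nonneg _)
        (((ml_integrable n hu).sub hu).abs.const_mul _)
      exact Eventually.of_forall fun x => prim_lip hθ hM _ _
    · simpa using (ml_L1 hu).const_mul M

/-- Kato's inequality, smooth monotone `θ`, global -/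
lemma kato_smooth {u f : E N → ℝ} (hu : Integrable u) (hf : Integrable f)
    (hWL : WL u f) {θ : ℝ → ℝ} (hθ : ContDiff ℝ ∞ θ) (hmono : Monotone θ) {M : ℝ}
    (hM : ∀ s, |θ s| ≤ M) {φ : E N → ℝ} (hφ : Tst φ) (hφ0 : ∀ x, 0 ≤ φ x) :
    ∫ x, θ (u x) * f x * φ x ≤ ∫ x, prim θ (u x) * lap φ x := by
  obtain ⟨C, hC0, hC⟩ := hφ.bdd
  have hM0 : 0 ≤ M := (abs_nonneg _).trans (hM 0)
  have h1 : ∀ n, ∫ x, (θ (ml n u x) * φ x) * ml n f x ≤ ∫ x, prim θ (ml n u x) * lap φ x := by
    intro n
    have hs := ml_contDiff n hu.locallyIntegrable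
    rw [smooth_second hφ hs hθ]
    have hfc := ml_contDiff n hf.locallyIntegrable
    apply integral_mono
    · have : Tst (fun x => (θ (ml n u x) * ml n f x) * φ x) :=
        hφ.smooth_mul ((hθ.comp hs).mul hfc)
      refine this.integrable.congr (Eventually.of_forall fun x => ?_)
      simp only; ring
    · apply Tst.integrable
      apply hφ.smooth_mul
      apply ContDiff.add
      · exact (hθ.comp hs).mul (contDiff_lap hs)
      · apply ContDiff.mul
        · have hd : ContDiff ℝ ∞ (deriv θ) := by
            rw [contDiff_infty_iff_deriv] at hθ; exact hθ.2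
          exact hd.comp hs
        · exact ContDiff.sum fun i _ => (contDiff_pd hs i).mul (contDiff_pd hs i)
    · intro x
      simp only
      rw [ml_lap n hu.locallyIntegrable hWL x]
      have h2 : 0 ≤ deriv θ (ml n u x) * ∑ i, pd i (ml n u) x * pd i (ml n u) x :=
        mul_nonneg hmono.deriv_nonneg (Finset.sum_nonneg fun i _ => mul_self_nonneg _)
      nlinarith [mul_nonneg h2 (hφ0 x)]
  have h3 := prim_sub_tendsto hu hφ.lap hθ.continuous.measurable hM
  have h4 : Tendsto (fun n => ∫ x, (θ (ml n u x) * φ x) * ml n f x) atTop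
      (𝓝 (∫ x, (θ (u x) * φ x) * f x)) := by
    apply tendsto_mul_L1 (M := M * C)
    · intro n
      exact ((hθ.continuous.comp (ml_contDiff n hu.locallyIntegrable).continuous).mul
        hφ.cont).aestronglyMeasurable
    · intro n
      refine Eventually.of_forall fun x => ?_
      rw [abs_mul]
      exact mul_le_mul (hM _) (hC _) (abs_nonneg _) hM0
    · filter_upwards [ml_ae u hu.locallyIntegrable] with x hx
      exact ((hθ.continuous.tendsto _).comp hx).mul_const _
    · exact fun n => ml_integrable n hf
    · exact hf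
    · exact ml_L1 hf
  have h5 := le_of_tendsto_of_tendsto h4 h3 (Eventually.of_forall h1)
  refine le_trans (le_of_eq ?_) h5
  refine integral_congr_ae (Eventually.of_forall fun x => ?_)
  simp only; ring

/-- Kato's inequality, local, arbitrary bounded monotone `θ`. -/
theorem Dat.kato (hN : 0 < N) {Ω : Set (E N)} {u f : E N → ℝ} {V : Fin N → E N → ℝ}
    (D : Dat Ω u f V) {θ : ℝ → ℝ} (hmono : Monotone θ) {M : ℝ} (hM : ∀ s, |θ s| ≤ M)
    {φ : E N → ℝ} (hφ : Tst φ) (hs : tsupport φ ⊆ Ω) (hφ0 : ∀ x, 0 ≤ φ x) :
    ∫ x, θ (u x) * f x * φ x ≤ ∫ x, prim θ (u x) * lap φ x := by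
  obtain ⟨χ, hχ, _, hsχ, h1⟩ := exists_cutoff hφ.2.isCompact D.hO hs
  have hloc := bdd_locInt hmono.measurable hM
  have hk : ∀ k, ∫ x, m1 k θ (u x) * f x * φ x ≤ ∫ x, prim (m1 k θ) (u x) * lap φ x := by
    intro k
    have h := kato_smooth (D.cut_u hχ hsχ) (D.cut_f hχ hsχ) (D.cut_WL hχ hsχ)
      (m1_contDiff k hloc) (m1_mono k hmono hM) (fun s => m1_bdd k hM s) hφ hφ0
    have e1 : ∫ x, m1 k θ (u x) * f x * φ x = ∫ x, m1 k θ (cu χ u x) * cf χ u f V x * φ x := by
      refine integral_congr_ae (Eventually.of_forall fun x => ?_)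
      by_cases hx : x ∈ tsupport φ
      · obtain ⟨e1, _, e2⟩ := cut_eq (u := u) (V := V) (f := f) (h1 x hx)
        simp only [e1, e2]
      · simp [image_eq_zero_of_notMem_tsupport hx]
    have e2 : ∫ x, prim (m1 k θ) (u x) * lap φ x = ∫ x, prim (m1 k θ) (cu χ u x) * lap φ x := by
      refine integral_congr_ae (Eventually.of_forall fun x => ?_)
      by_cases hx : x ∈ tsupport φ
      · simp only [(cut_eq (u := u) (V := V) (f := f) (h1 x hx)).1]
      · have : lap φ x = 0 := image_eq_zero_of_notMem_tsupport fun h' => hx (tsupport_lap h')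
        simp [this]
    rw [e1, e2]; exact h
  have hZ : volume {s | ¬ Tendsto (fun k => m1 k θ s) atTop (𝓝 (θ s))} = 0 := m1_ae hloc
  have hM0 : 0 ≤ M := (abs_nonneg _).trans (hM 0)
  have hmk : ∀ k, Measurable (m1 k θ) := fun k => (m1_contDiff k hloc).continuous.measurable
  have t1 : Tendsto (fun k => ∫ x, m1 k θ (u x) * f x * φ x) atTop
      (𝓝 (∫ x, θ (u x) * f x * φ x)) := by
    have hi := int_mul D.hf hφ hs
    apply tendsto_integral_of_dominated_convergence (fun x => M * |f x * φ x|)
    · intro k
      exact (D.int_comp (hmk k) (fun s => m1_bdd k hM s) D.hf hφ hs).aestronglyMeasurable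
    · exact hi.abs.const_mul M
    · intro k
      refine Eventually.of_forall fun x => ?_
      rw [Real.norm_eq_abs, mul_assoc, abs_mul]
      exact mul_le_mul_of_nonneg_right (m1_bdd k hM _) (abs_nonneg _)
    · filter_upwards [D.stampacchia hZ, D.vanish hN] with x hx1 hx2
      by_cases hxs : x ∈ tsupport φ
      · by_cases hux : Tendsto (fun k => m1 k θ (u x)) atTop (𝓝 (θ (u x)))
        · exact (hux.mul_const _).mul_const _
        · have : f x = 0 := hx2 (hs hxs) (hx1 (hs hxs) hux)
          simp [this]
      · simp [image_eq_zero_of_notMem_tsupport hxs]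
  have t2 : Tendsto (fun k => ∫ x, prim (m1 k θ) (u x) * lap φ x) atTop
      (𝓝 (∫ x, prim θ (u x) * lap φ x)) := by
    have hi := int_mul D.hu hφ.lap (tsupport_lap.trans hs)
    have hsl : tsupport (lap φ) ⊆ Ω := tsupport_lap.trans hs
    apply tendsto_integral_of_dominated_convergence (fun x => M * |u x * lap φ x|)
    · intro k
      have h2 : IntegrableOn u (tsupport (lap φ)) := D.hu.integrableOn_compact_subset hsl hφ.lap.2
      have h3 : Integrable ((tsupport (lap φ)).indicator u) := by
        rwa [integrable_indicator_iff (isClosed_tsupport _).measurableSet]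
      have h4 : AEStronglyMeasurable
          (fun x => prim (m1 k θ) ((tsupport (lap φ)).indicator u x) * lap φ x) volume :=
        ((prim_cont (hmk k) (fun s => m1_bdd k hM s)).comp_aestronglyMeasurable
          h3.aestronglyMeasurable).mul hφ.lap.cont.aestronglyMeasurable
      refine h4.congr (Eventually.of_forall fun x => ?_)
      by_cases hx : x ∈ tsupport (lap φ)
      · simp only [indicator_of_mem hx]
      · simp [image_eq_zero_of_notMem_tsupport hx]
    · exact hi.abs.const_mul M
    · intro k
      refine Eventually.of_forall fun x => ?_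
      rw [Real.norm_eq_abs, abs_mul, abs_mul, ← mul_assoc]
      exact mul_le_mul_of_nonneg_right (prim_bd (hmk k) (fun s => m1_bdd k hM s) _) (abs_nonneg _)
    · refine Eventually.of_forall fun x => ?_
      exact (prim_tendsto hmk (fun k s => m1_bdd k hM s) (m1_ae hloc) (u x)).mul_const _
  exact le_of_tendsto_of_tendsto t1 t2 (Eventually.of_forall hk)

/-! ### chain rule for good functions -/

lemma jensen_ml (n : ℕ) {Y : E N → ℝ} (hY : Integrable Y) (hY2 : Integrable (fun x => Y x * Y x))
    (x : E N) : ml n Y x * ml n Y x ≤ ml n (fun x => Y x * Y x) x := by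
  obtain ⟨C, hC0, hC⟩ := (mol_tst (N := N) n).bdd
  have hm : ∀ {g : E N → ℝ}, Integrable g → Integrable (fun t => mol n (x - t) * g t) := by
    intro g hg
    apply hg.bdd_mul (c := C) (tst_reflect (mol_tst n) x).cont.aestronglyMeasurable
    exact Eventually.of_forall fun t => hC _
  have hi : Integrable (fun t => mol n (x - t)) := (tst_reflect (mol_tst n) x).integrable
  have hone : ∫ t, mol n (x - t) = 1 := by
    rw [integral_sub_left_eq_self, mol_int]
  set a := ml n Y x with ha
  have h1 : 0 ≤ ∫ t, mol n (x - t) * ((Y t - a) * (Y t - a)) :=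
    integral_nonneg fun t => mul_nonneg (mol_nonneg _ _) (mul_self_nonneg _)
  have h2 : ∫ t, mol n (x - t) * ((Y t - a) * (Y t - a)) =
      ml n (fun x => Y x * Y x) x - 2 * a * ml n Y x + a * a := by
    have e1 : ∀ t, mol n (x - t) * ((Y t - a) * (Y t - a)) =
        (mol n (x - t) * (Y t * Y t) - 2 * a * (mol n (x - t) * Y t)) + a * a * mol n (x - t) := by
      intro t; ring
    simp only [e1]
    have i1 := hm hY2
    have i2 := (hm hY).const_mul (2 * a)
    have i3 := hi.const_mul (a * a)
    have e2 := integral_add (i1.sub i2) i3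
    have e3 := integral_sub i1 i2
    simp only [Pi.sub_apply] at e2
    rw [e2, e3, integral_const_mul, integral_const_mul, hone, ml_eq, ml_eq]
    ring
  rw [h2] at h1
  nlinarith

lemma energy_id {W : E N → ℝ} (hW : Tst W) :
    ∑ i, ∫ x, pd i W x * pd i W x = - ∫ x, W x * lap W x := by
  have h1 : ∀ i, ∫ x, pd i W x * pd i W x = - ∫ x, W x * pd i (pd i W) x := by
    intro i
    rw [ibp (hW.pd i) hW.1 i, neg_neg]
  have h2 : ∫ x, W x * lap W x = ∑ i, ∫ x, W x * pd i (pd i W) x := by
    rw [← integral_finsetSum _ fun i _ => (hW.mul ((hW.pd i).pd i)).integrable]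
    refine integral_congr_ae (Eventually.of_forall fun x => ?_)
    simp only [lap, Finset.mul_sum]
  rw [h2, ← Finset.sum_neg_distrib]
  exact Finset.sum_congr rfl fun i _ => h1 i

section Good

variable {U G : E N → ℝ} {Y : Fin N → E N → ℝ} {M : ℝ}

lemma grad_L2 (hU : Integrable U) (hUs : HasCompactSupport U) (hY : ∀ i, Integrable (Y i))
    (hWD : ∀ i, WD i U (Y i)) (hM : ∀ᵐ x, |G x| ≤ M) (hWL : WL U G)
    (i : Fin N) : Integrable (fun x => Y i x * Y i x) := by
  have hK : ∀ n, ∫ x, ml n (Y i) x * ml n (Y i) x ≤ M * ∫ x, |U x| := by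
    intro n
    have hT := ml_tst n hU hUs
    have h1 := energy_id hT
    have hM0 : 0 ≤ M := (abs_nonneg _).trans (ml_bdd 0 hM 0)
    have h2 : ∫ x, pd i (ml n U) x * pd i (ml n U) x ≤
        ∑ j, ∫ x, pd j (ml n U) x * pd j (ml n U) x :=
      Finset.single_le_sum (f := fun j => ∫ x, pd j (ml n U) x * pd j (ml n U) x)
        (fun j _ => integral_nonneg fun x => mul_self_nonneg _) (Finset.mem_univ i)
    have h3 : - ∫ x, ml n U x * lap (ml n U) x ≤ M * ∫ x, |U x| := by
      have h4 : |∫ x, ml n U x * lap (ml n U) x| ≤ ∫ x, M * |ml n U x| := by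
        rw [← Real.norm_eq_abs]
        refine (norm_integral_le_integral_norm _).trans ?_
        apply integral_mono_of_nonneg (Eventually.of_forall fun x => norm_nonneg _)
          ((ml_integrable n hU).abs.const_mul _)
        refine Eventually.of_forall fun x => ?_
        simp only [Real.norm_eq_abs, abs_mul]
        rw [ml_lap n hU.locallyIntegrable hWL x, mul_comm]
        exact mul_le_mul_of_nonneg_right (ml_bdd n hM x) (abs_nonneg _)
      rw [integral_const_mul] at h4
      have h5 := mul_le_mul_of_nonneg_left (ml_L1_le n hU) hM0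
      linarith [neg_abs_le (∫ x, ml n U x * lap (ml n U) x)]
    have h6 : ∀ x, pd i (ml n U) x = ml n (Y i) x := fun x =>
      ml_pd n hU.locallyIntegrable (hWD i) x
    simp only [h6] at h2
    linarith
  refine ⟨(hY i).aestronglyMeasurable.mul (hY i).aestronglyMeasurable, ?_⟩
  rw [hasFiniteIntegral_iff_ofReal (Eventually.of_forall fun x => mul_self_nonneg _)]
  have h1 : ∀ᵐ x, ENNReal.ofReal (Y i x * Y i x) =
      liminf (fun n => ENNReal.ofReal (ml n (Y i) x * ml n (Y i) x)) atTop := by
    filter_upwards [ml_ae (Y i) (hY i).locallyIntegrable] with x hx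
    have := (ENNReal.continuous_ofReal.tendsto _).comp (hx.mul hx)
    exact this.liminf_eq.symm
  rw [lintegral_congr_ae h1]
  have hcm : ∀ n, Continuous (ml n (Y i)) := fun n =>
    (ml_contDiff n (hY i).locallyIntegrable).continuous
  refine (lintegral_liminf_le fun n =>
    ((hcm n).mul (hcm n)).measurable.ennreal_ofReal).trans_lt ?_
  have h2 : ∀ n, ∫⁻ x, ENNReal.ofReal (ml n (Y i) x * ml n (Y i) x) ≤
      ENNReal.ofReal (M * ∫ x, |U x|) := by
    intro n
    have h6 : ml n (Y i) = pd i (ml n U) := funext fun x =>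
      (ml_pd n hU.locallyIntegrable (hWD i) x).symm
    rw [← ofReal_integral_eq_lintegral_ofReal]
    · exact ENNReal.ofReal_le_ofReal (hK n)
    · rw [h6]
      exact (((ml_tst n hU hUs).pd i).mul ((ml_tst n hU hUs).pd i)).integrable
    · exact Eventually.of_forall fun x => mul_self_nonneg _
  refine lt_of_le_of_lt ?_ (ENNReal.ofReal_lt_top (r := M * ∫ x, |U x|))
  apply liminf_le_of_frequently_le
  · exact Frequently.of_forall h2
  · exact ⟨0, by simp⟩

lemma sq_L1 {W : E N → ℝ} (hW : Integrable W) (hW2 : Integrable (fun x => W x * W x)) :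
    Tendsto (fun n => ∫ x, |ml n W x * ml n W x - W x * W x|) atTop (𝓝 0) ∧
    ∀ n, Integrable (fun x => ml n W x * ml n W x) := by
  have hint : ∀ n, Integrable (fun x => ml n W x * ml n W x) := by
    intro n
    have hc := (ml_contDiff n hW.locallyIntegrable).continuous
    apply (ml_integrable n hW2).mono (hc.mul hc).aestronglyMeasurable
    refine Eventually.of_forall fun x => ?_
    have h1 := jensen_ml n hW hW2 x
    have h2 := mul_self_nonneg (ml n W x)
    change |ml n W x * ml n W x| ≤ |ml n (fun x => W x * W x) x|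
    rw [abs_of_nonneg h2]
    exact h1.trans (le_abs_self _)
  refine ⟨riesz_scheffe hint hW2 ?_ ?_, hint⟩
  · filter_upwards [ml_ae W hW.locallyIntegrable] with x hx
    exact hx.mul hx
  · intro n
    calc ∫ x, |ml n W x * ml n W x| ≤ ∫ x, |ml n (fun x => W x * W x) x| := by
          apply integral_mono (hint n).abs (ml_integrable n hW2).abs
          intro x
          have h1 := jensen_ml n hW hW2 x
          have h2 := mul_self_nonneg (ml n W x)
          simp only
          rw [abs_of_nonneg h2]
          exact h1.trans (le_abs_self _)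
      _ ≤ _ := ml_L1_le n hW2

/-- chain rule (second order) for good functions, `θ' = m` bounded integrable measurable -/
theorem good_chain (hU : Integrable U) (hUs : HasCompactSupport U) (hY : ∀ i, Integrable (Y i))
    (hWD : ∀ i, WD i U (Y i)) (hG : Integrable G) (hM : ∀ᵐ x, |G x| ≤ M) (hWL : WL U G)
    {m : ℝ → ℝ} (hm : Measurable m) (hmi : Integrable m) {c : ℝ} (hc : ∀ s, |m s| ≤ c) (c0 : ℝ)
    {φ : E N → ℝ} (hφ : Tst φ) :
    ∫ x, prim (fun s => c0 + prim m s) (U x) * lap φ x =
      ∫ x, ((c0 + prim m (U x)) * G x + m (U x) * ∑ i, Y i x * Y i x) * φ x := by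
  obtain ⟨D, hD0, hD⟩ := hφ.bdd
  have hc0 : 0 ≤ c := (abs_nonneg _).trans (hc 0)
  have hY2 := fun i => grad_L2 hU hUs hY hWD hM hWL i
  set I := ∫ s, |m s| with hI
  have hI0 : 0 ≤ I := integral_nonneg fun s => abs_nonneg _
  -- bounds on primitives
  have hpb : ∀ {q : ℝ → ℝ}, Integrable q → ∀ t, |prim q t| ≤ ∫ s, |q s| := by
    intro q hq t
    unfold prim
    have h1 := intervalIntegral.norm_integral_le_integral_norm_uIoc (f := q)
        (a := 0) (b := t) (μ := volume)
    refine h1.trans ?_
    exact setIntegral_le_integral hq.abs (Eventually.of_forall fun s => abs_nonneg _)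
  have hθk : ∀ k, ContDiff ℝ ∞ (fun s => c0 + prim (m1 k m) s) := fun k =>
    contDiff_const.add (prim_smooth (m1_contDiff k hmi.locallyIntegrable))
  have hθkb : ∀ k s, |c0 + prim (m1 k m) s| ≤ |c0| + I := by
    intro k s
    refine (abs_add_le _ _).trans (add_le_add le_rfl ?_)
    exact (hpb (m1_integrable k hmi) s).trans (m1_L1_le k hmi)
  have hθb : ∀ s, |c0 + prim m s| ≤ |c0| + I := by
    intro s
    exact (abs_add_le _ _).trans (add_le_add le_rfl (hpb hmi s))
  have hθm : Measurable (fun s => c0 + prim m s) :=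
    (continuous_const.add (prim_cont hm hc)).measurable
  have hSi : Integrable (fun x => ∑ i, Y i x * Y i x) := integrable_finsetSum _ fun i _ => hY2 i
  -- fixed `k`, `n → ∞`
  have hk : ∀ k, ∫ x, prim (fun s => c0 + prim (m1 k m) s) (U x) * lap φ x =
      (∫ x, ((c0 + prim (m1 k m) (U x)) * φ x) * G x) +
        ∫ x, (m1 k m (U x) * φ x) * ∑ i, Y i x * Y i x := by
    intro k
    have hn : ∀ n, ∫ x, prim (fun s => c0 + prim (m1 k m) s) (ml n U x) * lap φ x =
        (∫ x, ((c0 + prim (m1 k m) (ml n U x)) * φ x) * ml n G x) +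
        ∫ x, (m1 k m (ml n U x) * φ x) * ∑ i, ml n (Y i) x * ml n (Y i) x := by
      intro n
      have hs := ml_contDiff n hU.locallyIntegrable
      rw [smooth_second hφ hs (hθk k), ← integral_add]
      · refine integral_congr_ae (Eventually.of_forall fun x => ?_)
        simp only
        have hd : deriv (fun s => c0 + prim (m1 k m) s) (ml n U x) = m1 k m (ml n U x) :=
          ((prim_deriv (m1_contDiff k hmi.locallyIntegrable).continuous _).const_add c0).deriv
        rw [hd, ml_lap n hU.locallyIntegrable hWL x]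
        have h6 : ∀ i, pd i (ml n U) x = ml n (Y i) x := fun i =>
          ml_pd n hU.locallyIntegrable (hWD i) x
        simp only [h6]; ring
      · have : Tst (fun x => ((c0 + prim (m1 k m) (ml n U x)) * ml n G x) * φ x) :=
          hφ.smooth_mul (((hθk k).comp hs).mul (ml_contDiff n hG.locallyIntegrable))
        refine this.integrable.congr (Eventually.of_forall fun x => ?_)
        simp only; ring
      · have : Tst (fun x => (m1 k m (ml n U x) * ∑ i, ml n (Y i) x * ml n (Y i) x) * φ x) := by
          apply hφ.smooth_mul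
          apply ((m1_contDiff k hmi.locallyIntegrable).comp hs).mul
          exact ContDiff.sum fun i _ => (ml_contDiff n (hY i).locallyIntegrable).mul
            (ml_contDiff n (hY i).locallyIntegrable)
        refine this.integrable.congr (Eventually.of_forall fun x => ?_)
        simp only; ring
    have t1 := prim_sub_tendsto hU hφ.lap (hθk k).continuous.measurable (hθkb k)
    have t2 : Tendsto (fun n => ∫ x, ((c0 + prim (m1 k m) (ml n U x)) * φ x) * ml n G x) atTop
        (𝓝 (∫ x, ((c0 + prim (m1 k m) (U x)) * φ x) * G x)) := by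
      apply tendsto_mul_L1 (M := (|c0| + I) * D)
      · intro n
        exact (((hθk k).continuous.comp (ml_contDiff n hU.locallyIntegrable).continuous).mul
          hφ.cont).aestronglyMeasurable
      · intro n
        refine Eventually.of_forall fun x => ?_
        rw [abs_mul]
        exact mul_le_mul (hθkb k _) (hD _) (abs_nonneg _) (by positivity)
      · filter_upwards [ml_ae U hU.locallyIntegrable] with x hx
        exact (((hθk k).continuous.tendsto _).comp hx).mul_const _
      · exact fun n => ml_integrable n hG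
      · exact hG
      · exact ml_L1 hG
    have t3 : Tendsto (fun n => ∫ x, (m1 k m (ml n U x) * φ x) *
        ∑ i, ml n (Y i) x * ml n (Y i) x) atTop
        (𝓝 (∫ x, (m1 k m (U x) * φ x) * ∑ i, Y i x * Y i x)) := by
      apply tendsto_mul_L1 (M := c * D)
      · intro n
        exact (((m1_contDiff k hmi.locallyIntegrable).continuous.comp
          (ml_contDiff n hU.locallyIntegrable).continuous).mul hφ.cont).aestronglyMeasurable
      · intro n
        refine Eventually.of_forall fun x => ?_
        rw [abs_mul]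
        exact mul_le_mul (m1_bdd k hc _) (hD _) (abs_nonneg _) hc0
      · filter_upwards [ml_ae U hU.locallyIntegrable] with x hx
        exact (((m1_contDiff k hmi.locallyIntegrable).continuous.tendsto _).comp hx).mul_const _
      · exact fun n => integrable_finsetSum _ fun i _ => (sq_L1 (hY i) (hY2 i)).2 n
      · exact hSi
      · have hsum : Tendsto (fun n => ∑ i, ∫ x, |ml n (Y i) x * ml n (Y i) x - Y i x * Y i x|)
            atTop (𝓝 (∑ i : Fin N, (0 : ℝ))) :=
          tendsto_finsetSum _ fun i _ => (sq_L1 (hY i) (hY2 i)).1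
        rw [Finset.sum_const_zero] at hsum
        apply squeeze_zero (fun n => integral_nonneg fun x => abs_nonneg _) _ hsum
        intro n
        have hi : ∀ i ∈ (Finset.univ : Finset (Fin N)),
            Integrable (fun x => |ml n (Y i) x * ml n (Y i) x - Y i x * Y i x|) := fun i _ =>
          (((sq_L1 (hY i) (hY2 i)).2 n).sub (hY2 i)).abs
        rw [← integral_finsetSum _ hi]
        apply integral_mono_of_nonneg (Eventually.of_forall fun x => abs_nonneg _)
          (integrable_finsetSum _ hi)
        refine Eventually.of_forall fun x => ?_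
        simp only
        rw [← Finset.sum_sub_distrib]
        exact Finset.abs_sum_le_sum_abs _ _
    exact tendsto_nhds_unique (t1.congr hn) (t2.add t3)
  -- `k → ∞`
  have hmk : ∀ k, Measurable (m1 k m) := fun k =>
    (m1_contDiff k hmi.locallyIntegrable).continuous.measurable
  have hθlim : ∀ s, Tendsto (fun k => c0 + prim (m1 k m) s) atTop (𝓝 (c0 + prim m s)) := fun s =>
    (prim_tendsto hmk (fun k s => m1_bdd k hc s) (m1_ae hmi.locallyIntegrable) s).const_add c0
  have s1 : Tendsto (fun k => ∫ x, prim (fun s => c0 + prim (m1 k m) s) (U x) * lap φ x) atTop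
      (𝓝 (∫ x, prim (fun s => c0 + prim m s) (U x) * lap φ x)) := by
    obtain ⟨C, hC0, hC⟩ := hφ.lap.bdd
    apply tendsto_integral_of_dominated_convergence (fun x => ((|c0| + I) * C) * |U x|)
    · intro k
      exact ((prim_cont (hθk k).continuous.measurable (hθkb k)).comp_aestronglyMeasurable
        hU.aestronglyMeasurable).mul hφ.lap.cont.aestronglyMeasurable
    · exact hU.abs.const_mul _
    · intro k
      refine Eventually.of_forall fun x => ?_
      rw [Real.norm_eq_abs, abs_mul]
      have h1 := prim_bd (hθk k).continuous.measurable (hθkb k) (U x)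
      calc _ ≤ ((|c0| + I) * |U x|) * C := mul_le_mul h1 (hC x) (abs_nonneg _) (by positivity)
        _ = _ := by ring
    · refine Eventually.of_forall fun x => ?_
      exact (prim_tendsto (fun k => (hθk k).continuous.measurable) hθkb
        (Eventually.of_forall hθlim) (U x)).mul_const _
  have s2 : Tendsto (fun k => ∫ x, ((c0 + prim (m1 k m) (U x)) * φ x) * G x) atTop
      (𝓝 (∫ x, ((c0 + prim m (U x)) * φ x) * G x)) := by
    apply tendsto_integral_of_dominated_convergence (fun x => ((|c0| + I) * D) * |G x|)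
    · intro k
      exact (((hθk k).continuous.comp_aestronglyMeasurable hU.aestronglyMeasurable).mul
        hφ.cont.aestronglyMeasurable).mul hG.aestronglyMeasurable
    · exact hG.abs.const_mul _
    · intro k
      refine Eventually.of_forall fun x => ?_
      rw [Real.norm_eq_abs, abs_mul, abs_mul]
      apply mul_le_mul_of_nonneg_right _ (abs_nonneg _)
      exact mul_le_mul (hθkb k _) (hD _) (abs_nonneg _) (by positivity)
    · refine Eventually.of_forall fun x => ?_
      exact ((hθlim (U x)).mul_const _).mul_const _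
  have hZ : volume {s | ¬ Tendsto (fun k => m1 k m s) atTop (𝓝 (m s))} = 0 :=
    m1_ae hmi.locallyIntegrable
  have s3 : Tendsto (fun k => ∫ x, (m1 k m (U x) * φ x) * ∑ i, Y i x * Y i x) atTop
      (𝓝 (∫ x, (m (U x) * φ x) * ∑ i, Y i x * Y i x)) := by
    apply tendsto_integral_of_dominated_convergence (fun x => (c * D) * |∑ i, Y i x * Y i x|)
    · intro k
      exact (((m1_contDiff k hmi.locallyIntegrable).continuous.comp_aestronglyMeasurable
        hU.aestronglyMeasurable).mul hφ.cont.aestronglyMeasurable).mul hSi.aestronglyMeasurable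
    · exact hSi.abs.const_mul _
    · intro k
      refine Eventually.of_forall fun x => ?_
      rw [Real.norm_eq_abs, abs_mul, abs_mul]
      apply mul_le_mul_of_nonneg_right _ (abs_nonneg _)
      exact mul_le_mul (m1_bdd k hc _) (hD _) (abs_nonneg _) hc0
    · filter_upwards [ae_all_iff.2 fun i => Helper304Lap.stampacchia hU (hY i) (hWD i) hZ] with x hx
      by_cases hux : Tendsto (fun k => m1 k m (U x)) atTop (𝓝 (m (U x)))
      · exact (hux.mul_const _).mul_const _
      · have : ∑ i, Y i x * Y i x = 0 := by
          apply Finset.sum_eq_zero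
          intro i _
          rw [hx i hux, mul_zero]
        simp [this]
  have h9 := tendsto_nhds_unique (s1.congr hk) (s2.add s3)
  rw [h9, ← integral_add]
  · refine integral_congr_ae (Eventually.of_forall fun x => ?_)
    simp only; ring
  · apply hG.bdd_mul (c := (|c0| + I) * D)
    · exact (hθm.comp_aemeasurable hU.aestronglyMeasurable.aemeasurable).aestronglyMeasurable.mul
        hφ.cont.aestronglyMeasurable
    · refine Eventually.of_forall fun x => ?_
      rw [Real.norm_eq_abs, abs_mul]
      exact mul_le_mul (hθb _) (hD _) (abs_nonneg _) (by positivity)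
  · apply hSi.bdd_mul (c := c * D)
    · exact (hm.comp_aemeasurable hU.aestronglyMeasurable.aemeasurable).aestronglyMeasurable.mul
        hφ.cont.aestronglyMeasurable
    · refine Eventually.of_forall fun x => ?_
      rw [Real.norm_eq_abs, abs_mul]
      exact mul_le_mul (hc _) (hD _) (abs_nonneg _) hc0

end Good

end Helper304Lap
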