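import Pool.Agent.Helper304.LapChain

open MeasureTheory Filter Topology Set ContinuousLinearMap
open scoped ContDiff Convolution

noncomputable section

namespace Helper304Lap

variable {N : ℕ}

lemma st_contDiff : ContDiff ℝ ∞ Real.smoothTransition := Real.smoothTransition.contDiff

lemma st_deriv_contDiff : ContDiff ℝ ∞ (deriv Real.smoothTransition) := by
  have := st_contDiff
  rw [contDiff_infty_iff_deriv] at this
  exact this.2

lemma st_deriv_neg {s : ℝ} (hs : s < 0) : deriv Real.smoothTransition s = 0 := by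
  have : Real.smoothTransition =ᶠ[𝓝 s] fun _ => 0 := by
    filter_upwards [eventually_lt_nhds hs] with t ht
    exact Real.smoothTransition.zero_of_nonpos ht.le
  rw [this.deriv_eq]; simp

lemma st_deriv_nonneg (s : ℝ) : 0 ≤ deriv Real.smoothTransition s := Real.smoothTransition.monotone.deriv_nonneg

lemma pd_norm_sq (i : Fin N) (z : E N) : pd i (fun z : E N => ‖z‖ ^ 2) z = 2 * z i := by
  unfold pd
  rw [(hasStrictFDerivAt_norm_sq z).hasFDerivAt.fderiv]
  simp [bv, EuclideanSpace.inner_single_right]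

lemma exists_kernel (hN : 0 < N) : ∃ ψ ρ : E N → ℝ, Tst ψ ∧ Tst ρ ∧ (∀ z, 1 ≤ ‖z‖ → ψ z = 0) ∧
    (∀ z, 1 ≤ ‖z‖ → ρ z = 0) ∧ (∀ i z, pd i ψ z = - (z i * ρ z)) ∧ ∫ z, ρ z = 1 := by
  set ψ0 : E N → ℝ := fun z => Real.smoothTransition (1 - 4 * ‖z‖ ^ 2) with hψ0
  set ρ0 : E N → ℝ := fun z => 8 * deriv Real.smoothTransition (1 - 4 * ‖z‖ ^ 2) with hρ0
  have hns : ContDiff ℝ ∞ (fun z : E N => ‖z‖ ^ 2) := contDiff_norm_sq ℝ
  have harg : ∀ z : E N, 1 ≤ ‖z‖ → 1 - 4 * ‖z‖ ^ 2 < 0 := by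
    intro z hz
    have : 1 ≤ ‖z‖ ^ 2 := one_le_pow₀ hz
    linarith
  have hψz : ∀ z, 1 ≤ ‖z‖ → ψ0 z = 0 := fun z hz =>
    Real.smoothTransition.zero_of_nonpos (harg z hz).le
  have hρz : ∀ z, 1 ≤ ‖z‖ → ρ0 z = 0 := fun z hz => by
    simp only [hρ0, st_deriv_neg (harg z hz), mul_zero]
  have hsup : ∀ f : E N → ℝ, (∀ z, 1 ≤ ‖z‖ → f z = 0) → HasCompactSupport f := by
    intro f hf
    apply HasCompactSupport.intro (isCompact_closedBall (0 : E N) 1)
    intro x hx
    apply hf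
    simp only [Metric.mem_closedBall, dist_zero_right, not_le] at hx
    exact hx.le
  have hψT : Tst ψ0 := ⟨st_contDiff.comp (contDiff_const.sub (contDiff_const.mul hns)), hsup _ hψz⟩
  have hρT : Tst ρ0 := ⟨contDiff_const.mul (st_deriv_contDiff.comp
    (contDiff_const.sub (contDiff_const.mul hns))), hsup _ hρz⟩
  have hpd : ∀ i z, pd i ψ0 z = - (z i * ρ0 z) := by
    intro i z
    have hd : Differentiable ℝ (fun z : E N => 1 - 4 * ‖z‖ ^ 2) :=
      (contDiff_const.sub (contDiff_const.mul hns)).differentiable (by simp)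
    have h1 := pd_comp (φ := fun z : E N => 1 - 4 * ‖z‖ ^ 2) (g := Real.smoothTransition) i (hd z)
      (st_contDiff.differentiable (by simp) _)
    have h2 : pd i (fun z : E N => 1 - 4 * ‖z‖ ^ 2) z = - (4 * (2 * z i)) := by
      have h3 : pd i (fun z : E N => 1 - 4 * ‖z‖ ^ 2) z =
          - pd i (fun z : E N => 4 * ‖z‖ ^ 2) z := by
        unfold pd
        rw [fderiv_const_sub]; simp
      rw [h3, pd_const_mul i 4 (hns.differentiable (by simp) z), pd_norm_sq]
    rw [h2] at h1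
    rw [hψ0, h1]
    simp only [hρ0]
    ring
  -- positivity of the integral
  have hpos : 0 < ∫ z, ρ0 z := by
    obtain ⟨s0, hs0, hs1⟩ := exists_deriv_eq_slope Real.smoothTransition zero_lt_one
      st_contDiff.continuous.continuousOn
      (st_contDiff.differentiable (by simp)).differentiableOn
    rw [Real.smoothTransition.one, Real.smoothTransition.zero] at hs1
    norm_num at hs1
    apply hρT.cont.integral_pos_of_hasCompactSupport_nonneg_nonzero hρT.2
      (x := Real.sqrt ((1 - s0) / 4) • bv (⟨0, hN⟩ : Fin N))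
    · intro z
      exact mul_nonneg (by norm_num) (st_deriv_nonneg _)
    · have hn : ‖Real.sqrt ((1 - s0) / 4) • bv (⟨0, hN⟩ : Fin N)‖ ^ 2 = (1 - s0) / 4 := by
        rw [norm_smul, norm_bv, mul_one, Real.norm_eq_abs, sq_abs, Real.sq_sqrt]
        have := hs0.2
        linarith
      simp only [hρ0, hn]
      have : 1 - 4 * ((1 - s0) / 4) = s0 := by ring
      rw [this, hs1]; norm_num
  set c := ∫ z, ρ0 z with hc
  refine ⟨fun z => c⁻¹ * ψ0 z, fun z => c⁻¹ * ρ0 z, hψT.const_mul _, hρT.const_mul _, ?_, ?_, ?_, ?_⟩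
  · intro z hz; simp only [hψz z hz, mul_zero]
  · intro z hz; simp only [hρz z hz, mul_zero]
  · intro i z
    rw [pd_const_mul i c⁻¹ (hψT.diff z), hpd]; ring
  · rw [integral_const_mul, ← hc, inv_mul_cancel₀ hpos.ne']

/-- Scaling operator: superposition of rescaled translated copies of `θ`. -/
def Sp {P : Type*} [MeasurableSpace P] (ν : Measure P) (c r : P → ℝ) (Y : P → E N)
    (θ : E N → ℝ) (x : E N) : ℝ :=
  ∫ p, c p * (((r p) ^ N)⁻¹ * θ ((r p)⁻¹ • (x - Y p))) ∂ν

section Sp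

variable {P : Type*} [MeasurableSpace P] {ν : Measure P} [SFinite ν] {c r : P → ℝ} {Y : P → E N}
  {θ : E N → ℝ}

lemma scale_integral {r : ℝ} (hr : 0 < r) (y : E N) (F : E N → ℝ) :
    ∫ x, F (r⁻¹ • (x - y)) = r ^ N * ∫ z, F z := by
  have h1 : ∫ x, F (r⁻¹ • (x - y)) = ∫ x, F (r⁻¹ • x) :=
    integral_sub_right_eq_self (fun x => F (r⁻¹ • x)) y
  rw [h1, Measure.integral_comp_inv_smul_of_nonneg volume F hr.le]
  simp

lemma scale_integrable {r : ℝ} (hr : 0 < r) (y : E N) {F : E N → ℝ} (hF : Integrable F) :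
    Integrable (fun x => F (r⁻¹ • (x - y))) := by
  have h1 : Integrable (fun x => F (r⁻¹ • x)) := hF.comp_smul (inv_ne_zero hr.ne')
  exact h1.comp_sub_right y

omit [SFinite ν] in
lemma Sp_integrand_meas (hc : Measurable c) (hr : Measurable r) (hY : Measurable Y)
    (hθ : Continuous θ) :
    Measurable (fun q : E N × P =>
      c q.2 * (((r q.2) ^ N)⁻¹ * θ ((r q.2)⁻¹ • (q.1 - Y q.2)))) := by
  have h1 : Measurable (fun q : E N × P => (r q.2)⁻¹ • (q.1 - Y q.2)) :=
    ((hr.comp measurable_snd).inv).smul (measurable_fst.sub (hY.comp measurable_snd))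
  exact (hc.comp measurable_snd).mul
    ((((hr.comp measurable_snd).pow_const N).inv).mul (hθ.measurable.comp h1))

lemma Sp_integrand_integral (hpos : ∀ p, c p ≠ 0 → 0 < r p) (p : P) :
    ∫ x, ‖c p * (((r p) ^ N)⁻¹ * θ ((r p)⁻¹ • (x - Y p)))‖ = |c p| * ∫ z, |θ z| := by
  by_cases h0 : c p = 0
  · simp [h0]
  · have hr := hpos p h0
    have : (fun x => ‖c p * (((r p) ^ N)⁻¹ * θ ((r p)⁻¹ • (x - Y p)))‖) =
        fun x => (|c p| * ((r p) ^ N)⁻¹) * (fun z => |θ z|) ((r p)⁻¹ • (x - Y p)) := by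
      ext x
      rw [norm_mul, norm_mul, Real.norm_eq_abs, Real.norm_eq_abs, Real.norm_eq_abs,
        abs_of_pos (inv_pos.2 (pow_pos hr N))]
      ring
    rw [this, integral_const_mul, scale_integral hr (Y p) (fun z => |θ z|)]
    have : (r p) ^ N ≠ 0 := (pow_pos hr N).ne'
    field_simp

lemma Sp_integrable_prod (hc : Measurable c) (hci : Integrable c ν) (hr : Measurable r)
    (hY : Measurable Y) (hpos : ∀ p, c p ≠ 0 → 0 < r p) (hθ : Continuous θ)
    (hθi : Integrable θ) :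
    Integrable (fun q : E N × P =>
      c q.2 * (((r q.2) ^ N)⁻¹ * θ ((r q.2)⁻¹ • (q.1 - Y q.2)))) (volume.prod ν) := by
  rw [integrable_prod_iff' (Sp_integrand_meas hc hr hY hθ).aestronglyMeasurable]
  constructor
  · refine Eventually.of_forall fun p => ?_
    by_cases h0 : c p = 0
    · simp [h0]
    · change Integrable (fun x => c p * (((r p) ^ N)⁻¹ * θ ((r p)⁻¹ • (x - Y p))))
      exact ((scale_integrable (hpos p h0) (Y p) hθi).const_mul _).const_mul _
  · simp only [Sp_integrand_integral hpos]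
    exact hci.abs.mul_const _

lemma Sp_integrable (hc : Measurable c) (hci : Integrable c ν) (hr : Measurable r)
    (hY : Measurable Y) (hpos : ∀ p, c p ≠ 0 → 0 < r p) (hθ : Continuous θ)
    (hθi : Integrable θ) : Integrable (Sp ν c r Y θ) :=
  (Sp_integrable_prod hc hci hr hY hpos hθ hθi).integral_prod_left

lemma Sp_mul_integral (hc : Measurable c) (hci : Integrable c ν) (hr : Measurable r)
    (hY : Measurable Y) (hpos : ∀ p, c p ≠ 0 → 0 < r p) (hθ : Continuous θ)
    (hθi : Integrable θ) {g : E N → ℝ} (hg : Continuous g) {M : ℝ} (hM : ∀ x, |g x| ≤ M) :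
    ∫ x, Sp ν c r Y θ x * g x = ∫ p, c p * (∫ z, θ z * g (Y p + r p • z)) ∂ν := by
  have h1 := Sp_integrable_prod hc hci hr hY hpos hθ hθi
  have h2 : Integrable (Function.uncurry fun (x : E N) (p : P) =>
      (c p * (((r p) ^ N)⁻¹ * θ ((r p)⁻¹ • (x - Y p)))) * g x) (volume.prod ν) := by
    have := h1.bdd_mul (c := M) (f := fun q : E N × P => g q.1)
      (hg.measurable.comp measurable_fst).aestronglyMeasurable
      (Eventually.of_forall fun q => hM q.1)
    refine this.congr (Eventually.of_forall fun q => ?_)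
    simp only [Function.uncurry]; ring
  have h3 := integral_integral_swap h2
  have h4 : ∀ x, ∫ p, (c p * (((r p) ^ N)⁻¹ * θ ((r p)⁻¹ • (x - Y p)))) * g x ∂ν =
      Sp ν c r Y θ x * g x := fun x => by
    rw [integral_mul_const]; rfl
  simp only [h4] at h3
  rw [h3]
  refine integral_congr_ae (Eventually.of_forall fun p => ?_)
  simp only
  by_cases h0 : c p = 0
  · simp [h0]
  · have hrp := hpos p h0
    have e1 : (fun x => c p * (((r p) ^ N)⁻¹ * θ ((r p)⁻¹ • (x - Y p))) * g x) =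
        fun x => (c p * ((r p) ^ N)⁻¹) *
          (fun z => θ z * g (Y p + r p • z)) ((r p)⁻¹ • (x - Y p)) := by
      ext x
      simp only
      rw [smul_inv_smul₀ hrp.ne', add_sub_cancel]
      ring
    rw [e1, integral_const_mul, scale_integral hrp (Y p) (fun z => θ z * g (Y p + r p • z))]
    have : (r p) ^ N ≠ 0 := (pow_pos hrp N).ne'
    field_simp

omit [SFinite ν] in
lemma Sp_zero {x : E N} (hpos : ∀ p, c p ≠ 0 → 0 < r p) (hθ1 : ∀ z, 1 ≤ ‖z‖ → θ z = 0)
    (h : ∀ p, c p ≠ 0 → r p ≤ ‖x - Y p‖) : Sp ν c r Y θ x = 0 := by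
  unfold Sp
  have : ∀ p, c p * (((r p) ^ N)⁻¹ * θ ((r p)⁻¹ • (x - Y p))) = 0 := by
    intro p
    by_cases h0 : c p = 0
    · simp [h0]
    · rw [hθ1, mul_zero, mul_zero]
      have hrp := hpos p h0
      rw [norm_smul, Real.norm_eq_abs, abs_of_pos (inv_pos.2 hrp)]
      rw [le_inv_mul_iff₀ hrp, mul_one]
      exact h p h0
  simp [this]

end Sp

end Helper304Lap
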