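import Pool.Agent.Helper304.LapVanish

open MeasureTheory Filter Topology Set ContinuousLinearMap
open scoped ContDiff Convolution Manifold

noncomputable section

namespace Helper304Lap

variable {N : ℕ}

/-! ### one-dimensional mollifier -/

def bump1 (n : ℕ) : ContDiffBump (0 : ℝ) where
  rIn := 1 / (2 * ((n : ℝ) + 1))
  rOut := 1 / ((n : ℝ) + 1)
  rIn_pos := by positivity
  rIn_lt_rOut := by
    apply one_div_lt_one_div_of_lt (by positivity)
    linarith [(Nat.cast_nonneg n : (0 : ℝ) ≤ n)]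

def m1 (n : ℕ) (θ : ℝ → ℝ) : ℝ → ℝ := (bump1 n).normed volume ⋆[lsmul ℝ ℝ, volume] θ

lemma m1_eq (n : ℕ) (θ : ℝ → ℝ) (x : ℝ) :
    m1 n θ x = ∫ t, (bump1 n).normed volume t * θ (x - t) := by
  unfold m1; rw [convolution_lsmul]; simp

lemma m1_eq' (n : ℕ) (θ : ℝ → ℝ) (x : ℝ) :
    m1 n θ x = ∫ t, (bump1 n).normed volume (x - t) * θ t := by
  unfold m1; rw [convolution_lsmul_swap]; simp

lemma m1_contDiff (n : ℕ) {θ : ℝ → ℝ} (hθ : LocallyIntegrable θ) : ContDiff ℝ ∞ (m1 n θ) :=
  (bump1 n).hasCompactSupport_normed.contDiff_convolution_left _ (bump1 n).contDiff_normed hθ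

lemma bump1_integrable (n : ℕ) : Integrable ((bump1 n).normed volume) :=
  (bump1 n).integrable_normed

lemma bdd_locInt {θ : ℝ → ℝ} (hθ : Measurable θ) {M : ℝ} (hM : ∀ s, |θ s| ≤ M) :
    LocallyIntegrable θ := by
  rw [locallyIntegrable_iff]
  intro K hK
  exact Measure.integrableOn_of_bounded (M := M) hK.measure_lt_top.ne hθ.aestronglyMeasurable
    (Eventually.of_forall fun s => hM s)

lemma m1_integrand (n : ℕ) {θ : ℝ → ℝ} (hθ : Measurable θ) {M : ℝ} (hM : ∀ s, |θ s| ≤ M) (x : ℝ) :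
    Integrable (fun t => (bump1 n).normed volume t * θ (x - t)) := by
  have := (bump1_integrable n).bdd_mul (c := M) (f := fun t => θ (x - t))
    (hθ.comp (measurable_const.sub measurable_id)).aestronglyMeasurable
    (Eventually.of_forall fun t => hM _)
  refine this.congr (Eventually.of_forall fun t => ?_)
  simp only; ring

lemma m1_bdd (n : ℕ) {θ : ℝ → ℝ} {M : ℝ} (hM : ∀ s, |θ s| ≤ M) (x : ℝ) :
    |m1 n θ x| ≤ M := by
  rw [m1_eq, ← Real.norm_eq_abs]
  calc ‖∫ t, (bump1 n).normed volume t * θ (x - t)‖ ≤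
      ∫ t, ‖(bump1 n).normed volume t * θ (x - t)‖ := norm_integral_le_integral_norm _
    _ ≤ ∫ t, (bump1 n).normed volume t * M := by
        apply integral_mono_of_nonneg (Eventually.of_forall fun t => norm_nonneg _)
          ((bump1_integrable n).mul_const M)
        refine Eventually.of_forall fun t => ?_
        simp only [norm_mul, Real.norm_eq_abs]
        rw [abs_of_nonneg ((bump1 n).nonneg_normed t)]
        exact mul_le_mul_of_nonneg_left (hM _) ((bump1 n).nonneg_normed t)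
    _ = M := by rw [integral_mul_const, (bump1 n).integral_normed, one_mul]

lemma m1_mono (n : ℕ) {θ : ℝ → ℝ} (hmono : Monotone θ) {M : ℝ} (hM : ∀ s, |θ s| ≤ M) :
    Monotone (m1 n θ) := by
  intro x y hxy
  rw [m1_eq, m1_eq]
  apply integral_mono (m1_integrand n hmono.measurable hM x) (m1_integrand n hmono.measurable hM y)
  intro t
  exact mul_le_mul_of_nonneg_left (hmono (by linarith)) ((bump1 n).nonneg_normed t)

lemma m1_ae {θ : ℝ → ℝ} (hθ : LocallyIntegrable θ) :
    ∀ᵐ x, Tendsto (fun n => m1 n θ x) atTop (𝓝 (θ x)) := by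
  apply ContDiffBump.ae_convolution_tendsto_right_of_locallyIntegrable (K := 2) _ _ hθ
  · exact tendsto_one_div_add_atTop_nhds_zero_nat
  · refine Eventually.of_forall fun n => ?_
    change 1 / ((n : ℝ) + 1) ≤ 2 * (1 / (2 * ((n : ℝ) + 1)))
    have : (0 : ℝ) < (n : ℝ) + 1 := by positivity
    apply le_of_eq
    field_simp

lemma m1_integrable (n : ℕ) {θ : ℝ → ℝ} (hθ : Integrable θ) : Integrable (m1 n θ) :=
  (bump1_integrable n).integrable_convolution (lsmul ℝ ℝ) hθ

lemma m1_L1_le (n : ℕ) {θ : ℝ → ℝ} (hθ : Integrable θ) : ∫ x, |m1 n θ x| ≤ ∫ x, |θ x| := by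
  have h1 : ∀ x, |m1 n θ x| ≤ m1 n (fun x => |θ x|) x := by
    intro x
    rw [m1_eq, m1_eq, ← Real.norm_eq_abs]
    refine (norm_integral_le_integral_norm _).trans (le_of_eq ?_)
    refine integral_congr_ae (Eventually.of_forall fun t => ?_)
    simp only [Real.norm_eq_abs, abs_mul, abs_of_nonneg ((bump1 n).nonneg_normed _)]
  calc ∫ x, |m1 n θ x| ≤ ∫ x, m1 n (fun x => |θ x|) x :=
        integral_mono (m1_integrable n hθ).abs (m1_integrable n hθ.abs) h1
    _ = ∫ x, |θ x| := by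
        unfold m1
        rw [integral_convolution (lsmul ℝ ℝ) (bump1_integrable n) hθ.abs]
        simp [(bump1 n).integral_normed]

lemma m1_L1 {θ : ℝ → ℝ} (hθ : Integrable θ) :
    Tendsto (fun n => ∫ x, |m1 n θ x - θ x|) atTop (𝓝 0) :=
  riesz_scheffe (fun n => m1_integrable n hθ) hθ (m1_ae hθ.locallyIntegrable)
    (fun n => m1_L1_le n hθ)

/-! ### chain rule for bounded measurable `θ` -/

lemma chain_meas {u V : E N → ℝ} {i : Fin N} (hu : Integrable u) (hV : Integrable V)
    (h : WD i u V) {θ : ℝ → ℝ} (hθ : Measurable θ) {M : ℝ} (hM : ∀ s, |θ s| ≤ M) :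
    WD i (fun x => prim θ (u x)) (fun x => θ (u x) * V x) := by
  intro φ hφ
  obtain ⟨C, hC0, hC⟩ := (hφ.pd i).bdd
  obtain ⟨D, hD0, hD⟩ := hφ.bdd
  have hM0 : 0 ≤ M := (abs_nonneg _).trans (hM 0)
  have hloc := bdd_locInt hθ hM
  have hc : ∀ k, Continuous (m1 k θ) := fun k => (m1_contDiff k hloc).continuous
  have hb : ∀ k s, |m1 k θ s| ≤ M := fun k s => m1_bdd k hM s
  have hae := m1_ae hloc
  have h1 : ∀ k, ∫ x, prim (m1 k θ) (u x) * pd i φ x = - ∫ x, (m1 k θ (u x) * V x) * φ x :=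
    fun k => chain_cont hu hV h (hc k) (hb k) φ hφ
  have h2 : Tendsto (fun k => ∫ x, prim (m1 k θ) (u x) * pd i φ x) atTop
      (𝓝 (∫ x, prim θ (u x) * pd i φ x)) := by
    apply tendsto_integral_of_dominated_convergence (fun x => (C * M) * |u x|)
    · intro k
      exact ((prim_cont (hc k).measurable (hb k)).comp_aestronglyMeasurable
        hu.aestronglyMeasurable).mul (hφ.pd i).cont.aestronglyMeasurable
    · exact hu.abs.const_mul _
    · intro k
      refine Eventually.of_forall fun x => ?_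
      rw [Real.norm_eq_abs, abs_mul]
      have := prim_bd (hc k).measurable (hb k) (u x)
      calc _ ≤ (M * |u x|) * C := mul_le_mul this (hC x) (abs_nonneg _) (by positivity)
        _ = _ := by ring
    · refine Eventually.of_forall fun x => ?_
      exact (prim_tendsto (fun k => (hc k).measurable) hb hae (u x)).mul_const _
  have hZ : volume {s | ¬ Tendsto (fun k => m1 k θ s) atTop (𝓝 (θ s))} = 0 := hae
  have h3 : Tendsto (fun k => ∫ x, (m1 k θ (u x) * V x) * φ x) atTop
      (𝓝 (∫ x, (θ (u x) * V x) * φ x)) := by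
    apply tendsto_integral_of_dominated_convergence (fun x => (D * M) * |V x|)
    · intro k
      exact (((hc k).comp_aestronglyMeasurable hu.aestronglyMeasurable).mul
        hV.aestronglyMeasurable).mul hφ.cont.aestronglyMeasurable
    · exact hV.abs.const_mul _
    · intro k
      refine Eventually.of_forall fun x => ?_
      rw [Real.norm_eq_abs, abs_mul, abs_mul]
      calc _ ≤ (M * |V x|) * D :=
            mul_le_mul (mul_le_mul_of_nonneg_right (hb k _) (abs_nonneg _)) (hD x)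
              (abs_nonneg _) (by positivity)
        _ = _ := by ring
    · filter_upwards [stampacchia hu hV h hZ] with x hx
      by_cases hux : Tendsto (fun k => m1 k θ (u x)) atTop (𝓝 (θ (u x)))
      · exact (hux.mul_const _).mul_const _
      · have := hx hux
        simp [this]
  exact tendsto_nhds_unique (h2.congr h1) h3.neg

/-! ### localisation -/

lemma exists_cutoff {K Ω : Set (E N)} (hK : IsCompact K) (hΩ : IsOpen Ω) (h : K ⊆ Ω) :
    ∃ χ : E N → ℝ, Tst χ ∧ (∀ x, 0 ≤ χ x ∧ χ x ≤ 1) ∧ tsupport χ ⊆ Ω ∧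
      ∀ x ∈ K, ∀ᶠ y in 𝓝 x, χ y = 1 := by
  obtain ⟨δ, hδ, hδΩ⟩ := hK.exists_cthickening_subset_open hΩ h
  set t := Metric.cthickening δ K with ht
  have htc : IsClosed t := Metric.isClosed_cthickening
  have htK : IsCompact t := hK.cthickening
  have hint : K ⊆ interior t := by
    have h1 : Metric.thickening δ K ⊆ interior t :=
      interior_maximal (Metric.thickening_subset_cthickening _ _) Metric.isOpen_thickening
    exact (Metric.self_subset_thickening hδ K).trans h1
  obtain ⟨f, hf1, hf0, hf⟩ := exists_contMDiffMap_one_nhds_of_subset_interior (n := (⊤ : ℕ∞))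
    𝓘(ℝ, E N) hK.isClosed hint
  have hsupp : tsupport (f : E N → ℝ) ⊆ t := by
    apply closure_minimal _ htc
    intro x hx
    by_contra h'
    exact hx (hf0 x h')
  refine ⟨f, ⟨f.contMDiff.contDiff, ?_⟩, fun x => hf x, hsupp.trans hδΩ, fun x hx => ?_⟩
  · exact HasCompactSupport.of_support_subset_isCompact htK ((subset_tsupport _).trans hsupp)
  · exact hf1.filter_mono (nhds_le_nhdsSet hx)

lemma int_mul {Ω : Set (E N)} {u φ : E N → ℝ} (hu : LocallyIntegrableOn u Ω) (hφ : Tst φ)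
    (hs : tsupport φ ⊆ Ω) : Integrable (fun x => u x * φ x) := by
  obtain ⟨D, hD0, hD⟩ := hφ.bdd
  have h1 : IntegrableOn u (tsupport φ) := hu.integrableOn_compact_subset hs hφ.2
  have h2 : Integrable ((tsupport φ).indicator u) := by
    rwa [integrable_indicator_iff (isClosed_tsupport φ).measurableSet]
  have := h2.bdd_mul (c := D) hφ.cont.aestronglyMeasurable (Eventually.of_forall fun p => hD p)
  refine this.congr (Eventually.of_forall fun x => ?_)
  by_cases hx : x ∈ tsupport φ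
  · simp only [indicator_of_mem hx]; ring
  · simp [image_eq_zero_of_notMem_tsupport hx]

lemma tsupport_pd {φ : E N → ℝ} (i : Fin N) : tsupport (pd i φ) ⊆ tsupport φ := by
  apply closure_minimal _ (isClosed_tsupport φ)
  intro x hx
  apply support_fderiv_subset ℝ
  intro h0
  apply hx
  unfold pd
  rw [h0]; rfl

lemma tsupport_lap {φ : E N → ℝ} : tsupport (lap φ) ⊆ tsupport φ := by
  apply closure_minimal _ (isClosed_tsupport φ)
  intro x hx
  by_contra h
  apply hx
  unfold lap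
  apply Finset.sum_eq_zero
  intro i _
  have h1 : x ∉ tsupport (pd i (pd i φ)) := fun h' => h (tsupport_pd i (tsupport_pd i h'))
  exact image_eq_zero_of_notMem_tsupport h1

lemma tsupport_mul_left' {φ ψ : E N → ℝ} : tsupport (fun x => φ x * ψ x) ⊆ tsupport φ :=
  closure_mono fun x hx h0 => hx (by simp [h0])

lemma tsupport_mul_right' {φ ψ : E N → ℝ} : tsupport (fun x => φ x * ψ x) ⊆ tsupport ψ :=
  closure_mono fun x hx h0 => hx (by simp [h0])

lemma lap_mul {φ ψ : E N → ℝ} (h : ContDiff ℝ ∞ φ) (h' : ContDiff ℝ ∞ ψ) (x : E N) :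
    lap (fun x => φ x * ψ x) x =
      φ x * lap ψ x + 2 * (∑ i, pd i φ x * pd i ψ x) + lap φ x * ψ x := by
  unfold lap
  have h1 : ∀ i, pd i (fun x => φ x * ψ x) = fun x => pd i φ x * ψ x + φ x * pd i ψ x := fun i =>
    funext fun x => pd_mul i (h.differentiable (by simp) x) (h'.differentiable (by simp) x)
  have hd : ∀ {g : E N → ℝ}, ContDiff ℝ ∞ g → Differentiable ℝ g := fun hg =>
    hg.differentiable (by simp)
  have h2 : ∀ i, pd i (pd i (fun x => φ x * ψ x)) x =
      φ x * pd i (pd i ψ) x + 2 * (pd i φ x * pd i ψ x) + pd i (pd i φ) x * ψ x := by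
    intro i
    rw [h1, pd_add i (hd ((contDiff_pd h i).mul h') x) (hd (h.mul (contDiff_pd h' i)) x),
      pd_mul i (hd (contDiff_pd h i) x) (hd h' x), pd_mul i (hd h x) (hd (contDiff_pd h' i) x)]
    ring
  simp only [h2]
  rw [Finset.sum_add_distrib, Finset.sum_add_distrib, ← Finset.mul_sum, ← Finset.mul_sum,
    ← Finset.sum_mul]

/-- Local data: a function with weak gradient and Laplacian, all locally integrable on `Ω`. -/
structure Dat (Ω : Set (E N)) (u f : E N → ℝ) (V : Fin N → E N → ℝ) : Prop where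
  hO : IsOpen Ω
  hu : LocallyIntegrableOn u Ω
  hV : ∀ i, LocallyIntegrableOn (V i) Ω
  hf : LocallyIntegrableOn f Ω
  wd : ∀ i φ, Tst φ → tsupport φ ⊆ Ω → ∫ x, u x * pd i φ x = - ∫ x, V i x * φ x
  wl : ∀ φ, Tst φ → tsupport φ ⊆ Ω → ∫ x, u x * lap φ x = ∫ x, f x * φ x

def cu (χ u : E N → ℝ) : E N → ℝ := fun x => u x * χ x
def cV (χ u : E N → ℝ) (V : Fin N → E N → ℝ) (i : Fin N) : E N → ℝ :=
  fun x => V i x * χ x + u x * pd i χ x
def cf (χ u f : E N → ℝ) (V : Fin N → E N → ℝ) : E N → ℝ :=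
  fun x => f x * χ x + 2 * (∑ i, V i x * pd i χ x) + u x * lap χ x

section Cut

variable {Ω : Set (E N)} {u f χ : E N → ℝ} {V : Fin N → E N → ℝ}

lemma supp_mul {a χ : E N → ℝ} (hχ : HasCompactSupport χ) :
    HasCompactSupport (fun x => a x * χ x) := hχ.mul_left

lemma Dat.cut_u (D : Dat Ω u f V) (hχ : Tst χ) (hs : tsupport χ ⊆ Ω) : Integrable (cu χ u) :=
  int_mul D.hu hχ hs

lemma Dat.cut_V (D : Dat Ω u f V) (hχ : Tst χ) (hs : tsupport χ ⊆ Ω) (i : Fin N) :
    Integrable (cV χ u V i) :=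
  (int_mul (D.hV i) hχ hs).add (int_mul D.hu (hχ.pd i) ((tsupport_pd i).trans hs))

lemma Dat.cut_f (D : Dat Ω u f V) (hχ : Tst χ) (hs : tsupport χ ⊆ Ω) :
    Integrable (cf χ u f V) := by
  have h2 : Integrable (fun x => 2 * (∑ i, V i x * pd i χ x)) :=
    (integrable_finsetSum _ fun i _ =>
      int_mul (D.hV i) (hχ.pd i) ((tsupport_pd i).trans hs)).const_mul 2
  exact ((int_mul D.hf hχ hs).add h2).add (int_mul D.hu hχ.lap (tsupport_lap.trans hs))

lemma cut_u_supp (hχ : Tst χ) : HasCompactSupport (cu χ u) := supp_mul hχ.2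

lemma cut_f_supp (hχ : Tst χ) : HasCompactSupport (cf χ u f V) := by
  apply HasCompactSupport.intro hχ.2.isCompact
  intro x hx
  have h1 : χ x = 0 := image_eq_zero_of_notMem_tsupport hx
  have h2 : ∀ i, pd i χ x = 0 := fun i =>
    image_eq_zero_of_notMem_tsupport fun h' => hx (tsupport_pd i h')
  have h3 : lap χ x = 0 := image_eq_zero_of_notMem_tsupport fun h' => hx (tsupport_lap h')
  simp [cf, h1, h2, h3]

lemma Dat.cut_WD (D : Dat Ω u f V) (hχ : Tst χ) (hs : tsupport χ ⊆ Ω) (i : Fin N) :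
    WD i (cu χ u) (cV χ u V i) := by
  intro φ hφ
  have hχφ : Tst (fun x => χ x * φ x) := hχ.mul hφ
  have hs1 : tsupport (fun x => χ x * φ x) ⊆ Ω := tsupport_mul_left'.trans hs
  have hs2 : tsupport (fun x => pd i χ x * φ x) ⊆ Ω :=
    tsupport_mul_left'.trans ((tsupport_pd i).trans hs)
  have h1 := D.wd i _ hχφ hs1
  have e1 : ∫ x, cu χ u x * pd i φ x =
      (∫ x, u x * pd i (fun x => χ x * φ x) x) - ∫ x, u x * (pd i χ x * φ x) := by
    rw [← integral_sub (int_mul D.hu (hχφ.pd i) ((tsupport_pd i).trans hs1))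
      (int_mul D.hu ((hχ.pd i).mul hφ) hs2)]
    refine integral_congr_ae (Eventually.of_forall fun x => ?_)
    simp only [cu]
    rw [pd_mul i (hχ.diff x) (hφ.diff x)]; ring
  have e2 : ∫ x, cV χ u V i x * φ x =
      (∫ x, V i x * (χ x * φ x)) + ∫ x, u x * (pd i χ x * φ x) := by
    rw [← integral_add (int_mul (D.hV i) hχφ hs1) (int_mul D.hu ((hχ.pd i).mul hφ) hs2)]
    refine integral_congr_ae (Eventually.of_forall fun x => ?_)
    simp only [cV]; ring
  rw [e1, e2, h1]; ring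

lemma Dat.cut_WL (D : Dat Ω u f V) (hχ : Tst χ) (hs : tsupport χ ⊆ Ω) :
    WL (cu χ u) (cf χ u f V) := by
  intro φ hφ
  have hχφ : Tst (fun x => χ x * φ x) := hχ.mul hφ
  have hs1 : tsupport (fun x => χ x * φ x) ⊆ Ω := tsupport_mul_left'.trans hs
  have hpi : ∀ i, Tst (fun x => pd i χ x * φ x) := fun i => (hχ.pd i).mul hφ
  have hsi : ∀ i, tsupport (fun x => pd i χ x * φ x) ⊆ Ω := fun i =>
    tsupport_mul_left'.trans ((tsupport_pd i).trans hs)
  have hpp : ∀ i, Tst (fun x => pd i χ x * pd i φ x) := fun i => (hχ.pd i).mul (hφ.pd i)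
  have hspp : ∀ i, tsupport (fun x => pd i χ x * pd i φ x) ⊆ Ω := fun i =>
    tsupport_mul_left'.trans ((tsupport_pd i).trans hs)
  have hl : Tst (fun x => lap χ x * φ x) := hχ.lap.mul hφ
  have hsl : tsupport (fun x => lap χ x * φ x) ⊆ Ω :=
    tsupport_mul_left'.trans (tsupport_lap.trans hs)
  have hpq : ∀ i, Tst (fun x => pd i (pd i χ) x * φ x) := fun i => ((hχ.pd i).pd i).mul hφ
  have hspq : ∀ i, tsupport (fun x => pd i (pd i χ) x * φ x) ⊆ Ω := fun i =>
    tsupport_mul_left'.trans ((tsupport_pd i).trans ((tsupport_pd i).trans hs))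
  have h1 := D.wl _ hχφ hs1
  have h2 : ∀ i, ∫ x, u x * (pd i χ x * pd i φ x) =
      - (∫ x, V i x * (pd i χ x * φ x)) - ∫ x, u x * (pd i (pd i χ) x * φ x) := by
    intro i
    have h3 := D.wd i _ (hpi i) (hsi i)
    have e1 : ∫ x, u x * pd i (fun x => pd i χ x * φ x) x =
        (∫ x, u x * (pd i (pd i χ) x * φ x)) + ∫ x, u x * (pd i χ x * pd i φ x) := by
      rw [← integral_add (int_mul D.hu (hpq i) (hspq i)) (int_mul D.hu (hpp i) (hspp i))]
      refine integral_congr_ae (Eventually.of_forall fun x => ?_)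
      simp only
      rw [pd_mul i ((hχ.pd i).diff x) (hφ.diff x)]; ring
    rw [e1] at h3
    linarith
  have e1 : ∫ x, cu χ u x * lap φ x =
      (∫ x, u x * lap (fun x => χ x * φ x) x) - 2 * (∑ i, ∫ x, u x * (pd i χ x * pd i φ x)) -
        ∫ x, u x * (lap χ x * φ x) := by
    rw [← integral_finsetSum _ fun i _ => int_mul D.hu (hpp i) (hspp i), ← integral_const_mul]
    have i1 := int_mul D.hu hχφ.lap (tsupport_lap.trans hs1)
    have i2 : Integrable (fun x => 2 * ∑ i, u x * (pd i χ x * pd i φ x)) :=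
      (integrable_finsetSum _ fun i _ => int_mul D.hu (hpp i) (hspp i)).const_mul 2
    have i3 := int_mul D.hu hl hsl
    have e2 := integral_sub i1 i2
    have e3 := integral_sub (i1.sub i2) i3
    simp only [Pi.sub_apply] at e3
    rw [← e2, ← e3]
    refine integral_congr_ae (Eventually.of_forall fun x => ?_)
    simp only [cu]
    rw [lap_mul hχ.1 hφ.1]
    have : ∑ i, u x * (pd i χ x * pd i φ x) = u x * ∑ i, pd i χ x * pd i φ x := by
      rw [Finset.mul_sum]
    rw [this]; ring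
  have e4 : ∫ x, cf χ u f V x * φ x =
      (∫ x, f x * (χ x * φ x)) + 2 * (∑ i, ∫ x, V i x * (pd i χ x * φ x)) +
        ∫ x, u x * (lap χ x * φ x) := by
    rw [← integral_finsetSum _ fun i _ => int_mul (D.hV i) (hpi i) (hsi i), ← integral_const_mul]
    have i1 := int_mul D.hf hχφ hs1
    have i2 : Integrable (fun x => 2 * ∑ i, V i x * (pd i χ x * φ x)) :=
      (integrable_finsetSum _ fun i _ => int_mul (D.hV i) (hpi i) (hsi i)).const_mul 2
    have i3 := int_mul D.hu hl hsl
    have e2 := integral_add i1 i2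
    have e3 := integral_add (i1.add i2) i3
    simp only [Pi.add_apply] at e3
    rw [← e2, ← e3]
    refine integral_congr_ae (Eventually.of_forall fun x => ?_)
    simp only [cf]
    have : ∑ i, V i x * (pd i χ x * φ x) = (∑ i, V i x * pd i χ x) * φ x := by
      rw [Finset.sum_mul]; apply Finset.sum_congr rfl; intro i _; ring
    rw [this]; ring
  have e5 : ∑ i, ∫ x, u x * (pd i (pd i χ) x * φ x) = ∫ x, u x * (lap χ x * φ x) := by
    rw [← integral_finsetSum _ fun i _ => int_mul D.hu (hpq i) (hspq i)]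
    refine integral_congr_ae (Eventually.of_forall fun x => ?_)
    simp only [lap, Finset.sum_mul, Finset.mul_sum]
  rw [e1, e4, h1]
  simp only [h2]
  rw [Finset.sum_sub_distrib, Finset.sum_neg_distrib, e5]
  ring

lemma one_near {x : E N} (h : ∀ᶠ y in 𝓝 x, χ y = 1) :
    χ x = 1 ∧ (∀ i, pd i χ x = 0) ∧ lap χ x = 0 := by
  have h0 : ∀ {g : E N → ℝ} {c : ℝ} {y : E N} (i : Fin N), (∀ᶠ z in 𝓝 y, g z = c) → pd i g y = 0 := by
    intro g c y i hg
    unfold pd
    have : g =ᶠ[𝓝 y] fun _ => c := hg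
    rw [this.fderiv_eq]; simp
  refine ⟨h.self_of_nhds, fun i => h0 i h, ?_⟩
  unfold lap
  apply Finset.sum_eq_zero
  intro i _
  apply h0 (c := 0) i
  filter_upwards [eventually_eventually_nhds.2 h] with z hz
  exact h0 i hz

lemma cut_eq {x : E N} (h : ∀ᶠ y in 𝓝 x, χ y = 1) :
    cu χ u x = u x ∧ (∀ i, cV χ u V i x = V i x) ∧ cf χ u f V x = f x := by
  obtain ⟨h1, h2, h3⟩ := one_near h
  refine ⟨by simp [cu, h1], fun i => by simp [cV, h1, h2], by simp [cf, h1, h2, h3]⟩

end Cut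

/-- localisation principle for a.e. statements -/
lemma loc_ae {Ω : Set (E N)} (hΩ : IsOpen Ω) {P : E N → Prop}
    (h : ∀ χ, Tst χ → tsupport χ ⊆ Ω → ∀ᵐ y, (∀ᶠ z in 𝓝 y, χ z = 1) → P y) :
    ∀ᵐ y, y ∈ Ω → P y := by
  have : (volume : Measure (E N)) {y | ¬ (y ∈ Ω → P y)} = 0 := by
    apply measure_null_of_locally_null
    intro x hx
    have hxΩ : x ∈ Ω := by
      by_contra h'
      exact hx fun h'' => absurd h'' h'
    obtain ⟨χ, hχ, _, hs, h1⟩ := exists_cutoff (isCompact_singleton (x := x)) hΩ (by simpa using hxΩ)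
    have hx1 := h1 x (mem_singleton x)
    refine ⟨{y | ¬ (y ∈ Ω → P y)} ∩ {y | ∀ᶠ z in 𝓝 y, χ z = 1}, ?_, ?_⟩
    · apply inter_mem_nhdsWithin
      exact eventually_eventually_nhds.2 hx1
    · have h2 := h χ hχ hs
      refine measure_mono_null ?_ h2
      rintro y ⟨hy1, hy2⟩ hy3
      exact hy1 fun _ => hy3 hy2
  exact this

/-- Theorem B without measurability assumption -/
theorem vanish_global' (hN : 0 < N) {u f : E N → ℝ} {V : Fin N → E N → ℝ} (hu : Integrable u)
    (hus : HasCompactSupport u) (hV : ∀ i, Integrable (V i)) (hWD : ∀ i, WD i u (V i))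
    (hf : Integrable f) (hfs : HasCompactSupport f) (hWL : WL u f) :
    ∀ᵐ x, (∀ i, V i x = 0) → f x = 0 := by
  set f' : E N → ℝ := (tsupport f).indicator (hf.aestronglyMeasurable.mk f) with hf'
  have hm : Measurable f' :=
    (hf.aestronglyMeasurable.stronglyMeasurable_mk.measurable).indicator
      (isClosed_tsupport f).measurableSet
  have hae : f =ᵐ[volume] f' := by
    filter_upwards [hf.aestronglyMeasurable.ae_eq_mk] with x hx
    by_cases hxs : x ∈ tsupport f
    · rw [hf', indicator_of_mem hxs, hx]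
    · rw [hf', indicator_of_notMem hxs, image_eq_zero_of_notMem_tsupport hxs]
  have hs : HasCompactSupport f' := by
    apply HasCompactSupport.intro hfs.isCompact
    intro x hx
    rw [hf', indicator_of_notMem hx]
  have hWL' : WL u f' := by
    intro φ hφ
    rw [hWL φ hφ]
    apply integral_congr_ae
    filter_upwards [hae] with x hx
    rw [hx]
  filter_upwards [hae, vanish_global hN hu hus hV hWD (hf.congr hae) hm hs hWL'] with x h1 h2 h3
  rw [h1, h2 h3]

/-- local Theorem B -/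
theorem Dat.vanish (hN : 0 < N) {Ω : Set (E N)} {u f : E N → ℝ} {V : Fin N → E N → ℝ}
    (D : Dat Ω u f V) : ∀ᵐ x, x ∈ Ω → (∀ i, V i x = 0) → f x = 0 := by
  apply loc_ae D.hO
  intro χ hχ hs
  filter_upwards [vanish_global' hN (D.cut_u hχ hs) (cut_u_supp hχ) (D.cut_V hχ hs)
    (D.cut_WD hχ hs) (D.cut_f hχ hs) (cut_f_supp hχ) (D.cut_WL hχ hs)] with x hx h1 hV
  obtain ⟨_, e2, e3⟩ := cut_eq (u := u) (V := V) (f := f) h1
  rw [← e3]
  apply hx
  intro i
  rw [e2, hV]

/-- local Stampacchia -/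
theorem Dat.stampacchia {Ω : Set (E N)} {u f : E N → ℝ} {V : Fin N → E N → ℝ}
    (D : Dat Ω u f V) {Z : Set ℝ} (hZ : volume Z = 0) :
    ∀ᵐ x, x ∈ Ω → u x ∈ Z → ∀ i, V i x = 0 := by
  apply loc_ae D.hO
  intro χ hχ hs
  have h := fun i => Helper304Lap.stampacchia (D.cut_u hχ hs) (D.cut_V hχ hs i)
    (D.cut_WD hχ hs i) hZ
  filter_upwards [ae_all_iff.2 h] with x hx h1 hux i
  obtain ⟨e1, e2, _⟩ := cut_eq (u := u) (V := V) (f := f) h1
  rw [← e2]
  apply hx
  rw [e1]; exact hux

/-- local chain rule for the gradient -/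
theorem Dat.chain {Ω : Set (E N)} {u f : E N → ℝ} {V : Fin N → E N → ℝ}
    (D : Dat Ω u f V) {θ : ℝ → ℝ} (hθ : Measurable θ) {M : ℝ} (hM : ∀ s, |θ s| ≤ M)
    (i : Fin N) (φ : E N → ℝ) (hφ : Tst φ) (hs : tsupport φ ⊆ Ω) :
    ∫ x, prim θ (u x) * pd i φ x = - ∫ x, (θ (u x) * V i x) * φ x := by
  obtain ⟨χ, hχ, _, hsχ, h1⟩ := exists_cutoff hφ.2.isCompact D.hO hs
  have h := chain_meas (D.cut_u hχ hsχ) (D.cut_V hχ hsχ i) (D.cut_WD hχ hsχ i) hθ hM φ hφ
  have e1 : ∫ x, prim θ (u x) * pd i φ x = ∫ x, prim θ (cu χ u x) * pd i φ x := by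
    refine integral_congr_ae (Eventually.of_forall fun x => ?_)
    by_cases hx : x ∈ tsupport φ
    · simp only [(cut_eq (u := u) (V := V) (f := f) (h1 x hx)).1]
    · have : pd i φ x = 0 := image_eq_zero_of_notMem_tsupport fun h' => hx (tsupport_pd i h')
      simp [this]
  have e2 : ∫ x, (θ (u x) * V i x) * φ x = ∫ x, (θ (cu χ u x) * cV χ u V i x) * φ x := by
    refine integral_congr_ae (Eventually.of_forall fun x => ?_)
    by_cases hx : x ∈ tsupport φ
    · obtain ⟨e1, e2, _⟩ := cut_eq (u := u) (V := V) (f := f) (h1 x hx)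
      simp only [e1, e2]
    · simp [image_eq_zero_of_notMem_tsupport hx]
  rw [e1, e2, h]

end Helper304Lap
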