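import Pool.Agent.Helper304.LapDom

open MeasureTheory Filter Topology Set ContinuousLinearMap
open scoped ContDiff Convolution

noncomputable section

namespace Helper304Lap

variable {N : ℕ}

/-- heaviside function with jump at `s` -/
def hv (s t : ℝ) : ℝ := if s ≤ t then 1 else 0

/-- distribution function of a measure -/
def th (μ : Measure ℝ) (t : ℝ) : ℝ := μ.real (Iic t)

lemma hv_mono (s : ℝ) : Monotone (hv s) := by
  intro a b hab
  unfold hv
  split_ifs with h1 h2 h3
  · exact le_rfl
  · exact absurd (h1.trans hab) h2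
  · norm_num
  · exact le_rfl

lemma hv_bd (s t : ℝ) : |hv s t| ≤ 1 := by
  unfold hv; split_ifs <;> simp

lemma hv_meas2 : Measurable (fun p : ℝ × ℝ => hv p.1 p.2) := by
  unfold hv
  exact Measurable.ite (measurableSet_le measurable_fst measurable_snd) measurable_const
    measurable_const

lemma hv_nonneg (s t : ℝ) : 0 ≤ hv s t := by
  unfold hv; split_ifs <;> simp

lemma prim_hv (s t : ℝ) : prim (hv s) t = max (t - s) 0 - max (-s) 0 := by
  -- derivative computation through monotone pieces
  have hm : Measurable (hv s) := (hv_mono s).measurable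
  have hbase : ∀ t, ∫ r in s..t, hv s r = max (t - s) 0 := by
    intro t
    rcases le_total s t with h | h
    · rw [max_eq_left (by linarith)]
      have : ∫ r in s..t, hv s r = ∫ r in s..t, (1 : ℝ) := by
        apply intervalIntegral.integral_congr
        intro r hr
        rw [uIcc_of_le h] at hr
        simp [hv, hr.1]
      rw [this]; simp
    · rw [max_eq_right (by linarith)]
      rw [intervalIntegral.integral_symm, neg_eq_zero]
      rw [intervalIntegral.integral_of_le h]
      rw [integral_Ioc_eq_integral_Ioo]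
      apply setIntegral_eq_zero_of_forall_eq_zero
      intro r hr
      simp [hv, hr.2]
  have h1 := prim_sub hm (hv_bd s) t s
  have h2 := prim_sub hm (hv_bd s) 0 s
  rw [hbase] at h1 h2
  rw [prim_zero, zero_sub] at h2
  rw [zero_sub] at h2
  linarith

lemma prim_hv_cont : Continuous (fun p : ℝ × ℝ => prim (hv p.1) p.2) := by
  have : (fun p : ℝ × ℝ => prim (hv p.1) p.2) =
      fun p => max (p.2 - p.1) 0 - max (-p.1) 0 := funext fun p => prim_hv p.1 p.2
  rw [this]
  fun_prop

lemma prim_hv_bd (s t : ℝ) : |prim (hv s) t| ≤ |t| := by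
  simpa using prim_bd (hv_mono s).measurable (hv_bd s) t

section

variable (μ : Measure ℝ) [IsFiniteMeasure μ]

lemma th_mono : Monotone (th μ) := fun _ _ hab =>
  measureReal_mono (Iic_subset_Iic.2 hab)

omit [IsFiniteMeasure μ] in
lemma th_nonneg (t : ℝ) : 0 ≤ th μ t := measureReal_nonneg

lemma th_bd (t : ℝ) : |th μ t| ≤ μ.real univ := by
  rw [abs_of_nonneg (th_nonneg μ t)]
  exact measureReal_mono (subset_univ _)

omit [IsFiniteMeasure μ] in
lemma th_eq (t : ℝ) : th μ t = ∫ s, hv s t ∂μ := by
  have : (fun s => hv s t) = (Iic t).indicator 1 := by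
    ext s
    by_cases h : s ≤ t
    · simp [hv, h]
    · simp [hv, h]
  rw [this, integral_indicator_one measurableSet_Iic]
  rfl

lemma prim_th (t : ℝ) : prim (th μ) t = ∫ s, prim (hv s) t ∂μ := by
  unfold prim
  simp only [th_eq]
  rw [intervalIntegral_integral_swap]
  have hfin : IsFiniteMeasure ((volume.restrict (uIoc 0 t)).prod μ) := by
    have : IsFiniteMeasure ((volume : Measure ℝ).restrict (uIoc 0 t)) := by
      constructor
      simp [uIoc]
    infer_instance
  apply Integrable.of_bound (C := 1)
  · exact (hv_meas2.comp (measurable_snd.prodMk measurable_fst)).aestronglyMeasurable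
  · exact Eventually.of_forall fun p => hv_bd _ _

end

/-- the functional `L_φ(s)` -/
def Lf (u f φ : E N → ℝ) (s : ℝ) : ℝ :=
  Tf (fun x => prim (hv s) (u x)) (fun x => hv s (u x) * f x) φ

section

variable {Ω : Set (E N)} {u f : E N → ℝ} {V : Fin N → E N → ℝ}

lemma locInt_prim (hu : LocallyIntegrableOn u Ω) (hO : IsOpen Ω) {θ : ℝ → ℝ} (hθ : Measurable θ)
    {M : ℝ} (hM : ∀ s, |θ s| ≤ M) : LocallyIntegrableOn (fun x => prim θ (u x)) Ω := by
  rw [locallyIntegrableOn_iff hO.isLocallyClosed] at hu ⊢
  intro K hK hKc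
  exact prim_comp_integrable (hu K hK hKc) hθ hM

lemma locInt_bdd_mul (hum : Measurable u) {w : E N → ℝ} (hw : LocallyIntegrableOn w Ω)
    (hO : IsOpen Ω) {θ : ℝ → ℝ} (hθ : Measurable θ)
    {M : ℝ} (hM : ∀ s, |θ s| ≤ M) : LocallyIntegrableOn (fun x => θ (u x) * w x) Ω := by
  rw [locallyIntegrableOn_iff hO.isLocallyClosed] at hw ⊢
  intro K hK hKc
  exact (hw K hK hKc).bdd_mul (c := M) (hθ.comp hum).aestronglyMeasurable
    (Eventually.of_forall fun x => hM _)

/-- Fubini representation -/
lemma fub (D : Dat Ω u f V) (hum : Measurable u) (hfm : Measurable f) (μ : Measure ℝ)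
    [IsFiniteMeasure μ] {φ : E N → ℝ} (hφ : Tst φ) (hs : tsupport φ ⊆ Ω) :
    Integrable (Lf u f φ) μ ∧
    Tf (fun x => prim (th μ) (u x)) (fun x => th μ (u x) * f x) φ = ∫ s, Lf u f φ s ∂μ := by
  have hlc := hφ.lap.cont
  have i1 : Integrable (Function.uncurry fun (x : E N) (s : ℝ) =>
      prim (hv s) (u x) * lap φ x) (volume.prod μ) := by
    have h1 : Integrable (fun x => u x * lap φ x) := int_mul D.hu hφ.lap (tsupport_lap.trans hs)
    have h2 := h1.mul_prod (integrable_const (1 : ℝ) (μ := μ))
    apply h2.mono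
    · have h3 : Measurable (fun p : E N × ℝ => prim (hv p.2) (u p.1)) :=
        prim_hv_cont.measurable.comp (measurable_snd.prodMk (hum.comp measurable_fst))
      exact (h3.mul (hlc.measurable.comp measurable_fst)).aestronglyMeasurable
    · refine Eventually.of_forall fun p => ?_
      simp only [Function.uncurry, mul_one, norm_mul, Real.norm_eq_abs]
      exact mul_le_mul_of_nonneg_right (prim_hv_bd _ _) (abs_nonneg _)
  have i2 : Integrable (Function.uncurry fun (x : E N) (s : ℝ) =>
      (hv s (u x) * f x) * φ x) (volume.prod μ) := by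
    have h1 : Integrable (fun x => f x * φ x) := int_mul D.hf hφ hs
    have h2 := h1.mul_prod (integrable_const (1 : ℝ) (μ := μ))
    apply h2.mono
    · have h3 : Measurable (fun p : E N × ℝ => hv p.2 (u p.1)) :=
        hv_meas2.comp (measurable_snd.prodMk (hum.comp measurable_fst))
      exact ((h3.mul (hfm.comp measurable_fst)).mul
        (hφ.cont.measurable.comp measurable_fst)).aestronglyMeasurable
    · refine Eventually.of_forall fun p => ?_
      simp only [Function.uncurry, mul_one, norm_mul, Real.norm_eq_abs]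
      rw [mul_assoc]
      have := hv_bd p.2 (u p.1)
      have h4 : 0 ≤ |f p.1| * |φ p.1| := by positivity
      nlinarith
  have e1 : ∫ x, prim (th μ) (u x) * lap φ x = ∫ s, (∫ x, prim (hv s) (u x) * lap φ x) ∂μ := by
    rw [← integral_integral_swap i1]
    refine integral_congr_ae (Eventually.of_forall fun x => ?_)
    simp only
    rw [integral_mul_const, prim_th]
  have e2 : ∫ x, (th μ (u x) * f x) * φ x = ∫ s, (∫ x, (hv s (u x) * f x) * φ x) ∂μ := by
    rw [← integral_integral_swap i2]
    refine integral_congr_ae (Eventually.of_forall fun x => ?_)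
    simp only
    rw [integral_mul_const, integral_mul_const, th_eq]
  have j1 : Integrable (fun s => ∫ x, prim (hv s) (u x) * lap φ x) μ := i1.integral_prod_right
  have j2 : Integrable (fun s => ∫ x, (hv s (u x) * f x) * φ x) μ := i2.integral_prod_right
  refine ⟨?_, ?_⟩
  · exact j1.sub j2
  · unfold Tf Lf
    rw [e1, e2, ← integral_sub j1 j2]
    rfl

lemma Lf_nonneg (hN : 0 < N) (D : Dat Ω u f V) {φ : E N → ℝ} (hφ : Tst φ)
    (hs : tsupport φ ⊆ Ω) (h0 : ∀ x, 0 ≤ φ x) (s : ℝ) : 0 ≤ Lf u f φ s := by
  unfold Lf Tf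
  have := D.kato hN (hv_mono s) (hv_bd s) hφ hs h0
  linarith

end

end Helper304Lap
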