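import Pool.Agent.Helper304.LapGood

open MeasureTheory Filter Topology Set ContinuousLinearMap
open scoped ContDiff Convolution

noncomputable section

namespace Helper304Lap

variable {N : ℕ}

/-- points where the maximal function of `f` is at most `Λ` -/
def goodSet (f : E N → ℝ) (Λ : ℝ) : Set (E N) :=
  {z | ∀ r > 0, ∫ x in Metric.closedBall z r, |f x| ≤ Λ * r ^ N}

lemma goodSet_closed {f : E N → ℝ} (hf : Integrable f) (Λ : ℝ) : IsClosed (goodSet f Λ) := by
  apply isClosed_of_closure_subset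
  intro z hz r hr
  have h1 : ∀ ε > 0, ∫ x in Metric.closedBall z r, |f x| ≤ Λ * (r + ε) ^ N := by
    intro ε hε
    obtain ⟨z', hz', hd⟩ := Metric.mem_closure_iff.1 hz ε hε
    refine le_trans ?_ (hz' (r + ε) (by positivity))
    apply setIntegral_mono_set hf.abs.integrableOn
      (Eventually.of_forall fun x => abs_nonneg _)
    refine Eventually.of_forall fun w hw => ?_
    refine Metric.closedBall_subset_closedBall' ?_ hw
    linarith
  have h2 : Tendsto (fun ε : ℝ => Λ * (r + ε) ^ N) (𝓝[>] 0) (𝓝 (Λ * (r + 0) ^ N)) := by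
    apply Tendsto.mono_left _ nhdsWithin_le_nhds
    exact (Continuous.tendsto (by fun_prop) 0)
  rw [add_zero] at h2
  apply ge_of_tendsto h2
  filter_upwards [self_mem_nhdsWithin] with ε hε using h1 ε hε

lemma vol_ball (z : E N) {r : ℝ} (hr : 0 ≤ r) :
    (volume : Measure (E N)).real (Metric.closedBall z r) =
      r ^ N * (volume : Measure (E N)).real (Metric.closedBall 0 1) := by
  rw [Measure.addHaar_real_closedBall' _ _ hr]
  simp

lemma vol_unit_pos : 0 < (volume : Measure (E N)).real (Metric.closedBall 0 1) := by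
  rw [measureReal_def]
  apply ENNReal.toReal_pos
  · exact (Metric.measure_closedBall_pos _ _ one_pos).ne'
  · exact measure_closedBall_lt_top.ne

lemma avg_eq (f : E N → ℝ) (z : E N) (r : ℝ) :
    (⨍ x in Metric.closedBall z r, |f x|) =
      ((volume : Measure (E N)).real (Metric.closedBall z r))⁻¹ *
        ∫ x in Metric.closedBall z r, |f x| := by
  rw [setAverage_eq, smul_eq_mul]

lemma ae_tendsto_avg {f : E N → ℝ} (hf : Integrable f) :
    ∀ᵐ z, Tendsto (fun r => ⨍ x in Metric.closedBall z r, |f x|) (𝓝[>] 0) (𝓝 |f z|) := by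
  filter_upwards [(Besicovitch.vitaliFamily (volume : Measure (E N))).ae_tendsto_average
    hf.abs.locallyIntegrable] with z hz
  exact hz.comp (Besicovitch.tendsto_filterAt volume z)

lemma ae_mem_goodSet {f : E N → ℝ} (hf : Integrable f) :
    ∀ᵐ z, ∃ n : ℕ, z ∈ goodSet f n := by
  filter_upwards [ae_tendsto_avg hf] with z hz
  have h1 : ∀ᶠ r in 𝓝[>] (0 : ℝ), (⨍ x in Metric.closedBall z r, |f x|) < |f z| + 1 :=
    hz.eventually (eventually_lt_nhds (by linarith))
  rw [eventually_nhdsWithin_iff, Metric.eventually_nhds_iff] at h1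
  obtain ⟨δ, hδ, h2⟩ := h1
  set v := (volume : Measure (E N)).real (Metric.closedBall 0 1) with hv
  have hvp : 0 < v := vol_unit_pos
  obtain ⟨n, hn⟩ := exists_nat_gt (max ((|f z| + 1) * v) ((∫ x, |f x|) / δ ^ N))
  refine ⟨n, fun r hr => ?_⟩
  have hrN : 0 < r ^ N := pow_pos hr N
  by_cases hrδ : r < δ
  · have h3 := h2 (y := r) (by simpa [abs_of_pos hr] using hrδ) hr
    rw [avg_eq, vol_ball _ hr.le, ← hv] at h3
    have hp : 0 < r ^ N * v := by positivity
    rw [inv_mul_lt_iff₀ hp] at h3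
    have h4 : (|f z| + 1) * v < n := (le_max_left _ _).trans_lt hn
    nlinarith
  · push Not at hrδ
    have h3 : ∫ x in Metric.closedBall z r, |f x| ≤ ∫ x, |f x| :=
      setIntegral_le_integral hf.abs (Eventually.of_forall fun x => abs_nonneg _)
    have h4 : (∫ x, |f x|) / δ ^ N < n := (le_max_right _ _).trans_lt hn
    have hδN : 0 < δ ^ N := pow_pos hδ N
    rw [div_lt_iff₀ hδN] at h4
    have h5 : δ ^ N ≤ r ^ N := pow_le_pow_left₀ hδ.le hrδ N
    have h6 : (0 : ℝ) ≤ n := Nat.cast_nonneg n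
    nlinarith

lemma ae_bound_goodSet {f : E N → ℝ} (hf : Integrable f) (Λ : ℝ) :
    ∀ᵐ z, z ∈ goodSet f Λ →
      |f z| ≤ Λ / (volume : Measure (E N)).real (Metric.closedBall 0 1) := by
  filter_upwards [ae_tendsto_avg hf] with z hz hzg
  apply le_of_tendsto hz
  filter_upwards [self_mem_nhdsWithin] with r hr
  have hr' : 0 < r := hr
  rw [avg_eq, vol_ball _ hr'.le]
  have hvp := vol_unit_pos (N := N)
  have hrN : 0 < r ^ N := pow_pos hr' N
  rw [inv_mul_le_iff₀ (by positivity), mul_assoc, mul_div_cancel₀ _ hvp.ne']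
  have := hzg r hr'
  linarith

/-- the scale function -/
def scale (C : Set (E N)) (y : E N) : ℝ := min (Metric.infDist y C) 1 / 4

lemma scale_cont (C : Set (E N)) : Continuous (scale C) :=
  ((Metric.continuous_infDist_pt C).min continuous_const).div_const 4

lemma scale_nonneg (C : Set (E N)) (y : E N) : 0 ≤ scale C y := by
  unfold scale
  have := Metric.infDist_nonneg (x := y) (s := C)
  positivity

lemma scale_le (C : Set (E N)) (y : E N) : scale C y ≤ 1 / 4 := by
  unfold scale
  have : min (Metric.infDist y C) 1 ≤ 1 := min_le_right _ _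
  linarith

lemma scale_le' (C : Set (E N)) (y : E N) : scale C y ≤ Metric.infDist y C / 4 := by
  unfold scale
  have : min (Metric.infDist y C) 1 ≤ Metric.infDist y C := min_le_left _ _
  linarith

lemma scale_lip (C : Set (E N)) (x y : E N) : scale C x ≤ scale C y + ‖x - y‖ / 4 := by
  unfold scale
  have h1 : Metric.infDist x C ≤ Metric.infDist y C + dist x y := Metric.infDist_le_infDist_add_dist
  rw [dist_eq_norm] at h1
  have h2 := norm_nonneg (x - y)
  rcases le_total (Metric.infDist y C) 1 with h | h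
  · rw [min_eq_left h]
    have := min_le_left (Metric.infDist x C) 1
    linarith
  · rw [min_eq_right h]
    have := min_le_right (Metric.infDist x C) 1
    linarith

lemma scale_le_dist {C : Set (E N)} {x : E N} (hx : x ∈ C) (y : E N) :
    scale C y ≤ ‖x - y‖ / 4 := by
  have h1 := scale_le' C y
  have h2 : Metric.infDist y C ≤ dist y x := Metric.infDist_le_dist_of_mem hx
  rw [dist_comm, dist_eq_norm] at h2
  linarith

lemma scale_pos_iff {C : Set (E N)} (hC : IsClosed C) (hne : C.Nonempty) (x : E N) :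
    0 < scale C x ↔ x ∉ C := by
  rw [hC.notMem_iff_infDist_pos hne]
  unfold scale
  constructor
  · intro h
    by_contra h'
    have : Metric.infDist x C = 0 := le_antisymm (not_lt.1 h') Metric.infDist_nonneg
    rw [this] at h
    simp at h
  · intro h
    positivity

/-- The variable-scale mollification is bounded. -/
lemma Jg_bdd {f ρ : E N → ℝ} (hf : Integrable f) {Λ : ℝ}
    (hΛ : 0 ≤ Λ) (hne : (goodSet f Λ).Nonempty)
    (hρz : ∀ z, 1 ≤ ‖z‖ → ρ z = 0) {Mρ : ℝ} (hMρ : ∀ z, |ρ z| ≤ Mρ) (x : E N) :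
    |Jg (scale (goodSet f Λ)) f ρ x| ≤ Mρ * (Λ * (20 / 3) ^ N + 5 ^ N * ∫ y, |f y|) := by
  set C := goodSet f Λ with hC
  have hCc : IsClosed C := goodSet_closed hf Λ
  set ℓ := scale C with hℓ
  have hM0 : 0 ≤ Mρ := (abs_nonneg _).trans (hMρ 0)
  have hI0 : 0 ≤ ∫ y, |f y| := integral_nonneg fun x => abs_nonneg _
  by_cases hx : x ∈ C
  · have : Jg ℓ f ρ x = 0 := by
      apply Sp_zero _ hρz
      · intro y hy
        have := scale_le_dist hx y
        have h2 := norm_nonneg (x - y)
        linarith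
      · intro y hy
        by_contra h
        apply hy
        simp [h]
    rw [this, abs_zero]
    positivity
  · have hlx : 0 < ℓ x := (scale_pos_iff hCc hne x).2 hx
    -- pointwise bound on the integrand
    have hpt : ∀ y, ‖(if 0 < ℓ y then f y else 0) * (((ℓ y) ^ N)⁻¹ * ρ ((ℓ y)⁻¹ • (x - y)))‖ ≤
        (Metric.closedBall x (4 / 3 * ℓ x)).indicator
          (fun y => (Mρ * ((4 / 5 * ℓ x) ^ N)⁻¹) * |f y|) y := by
      intro y
      by_cases hy : 0 < ℓ y
      swap
      · rw [if_neg hy]; simp only [zero_mul, norm_zero]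
        exact indicator_nonneg (fun y _ => by positivity) _
      by_cases hxy : ‖x - y‖ < ℓ y
      swap
      · rw [hρz ((ℓ y)⁻¹ • (x - y))]
        · simp only [mul_zero, norm_zero]
          exact indicator_nonneg (fun y _ => by positivity) _
        · rw [norm_smul, Real.norm_eq_abs, abs_of_pos (inv_pos.2 hy), le_inv_mul_iff₀ hy, mul_one]
          exact not_lt.1 hxy
      have h1 : ℓ x ≤ ℓ y + ‖x - y‖ / 4 := scale_lip C x y
      have h2 : ℓ y ≤ ℓ x + ‖y - x‖ / 4 := scale_lip C y x
      rw [norm_sub_rev] at h2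
      have hmem : y ∈ Metric.closedBall x (4 / 3 * ℓ x) := by
        rw [Metric.mem_closedBall, dist_comm, dist_eq_norm]
        linarith
      rw [indicator_of_mem hmem, if_pos hy, norm_mul, norm_mul, Real.norm_eq_abs, Real.norm_eq_abs,
        Real.norm_eq_abs, abs_of_pos (inv_pos.2 (pow_pos hy N))]
      have h3 : ((ℓ y) ^ N)⁻¹ ≤ ((4 / 5 * ℓ x) ^ N)⁻¹ := by
        apply inv_anti₀ (by positivity)
        apply pow_le_pow_left₀ (by positivity)
        linarith
      calc |f y| * ((ℓ y ^ N)⁻¹ * |ρ ((ℓ y)⁻¹ • (x - y))|)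
          ≤ |f y| * (((4 / 5 * ℓ x) ^ N)⁻¹ * Mρ) := by
            apply mul_le_mul_of_nonneg_left _ (abs_nonneg _)
            exact mul_le_mul h3 (hMρ _) (abs_nonneg _) (by positivity)
        _ = _ := by ring
    have h1 : |Jg ℓ f ρ x| ≤
        (Mρ * ((4 / 5 * ℓ x) ^ N)⁻¹) * ∫ y in Metric.closedBall x (4 / 3 * ℓ x), |f y| := by
      unfold Jg Sp
      rw [← integral_const_mul, ← integral_indicator measurableSet_closedBall,
        ← Real.norm_eq_abs]
      refine (norm_integral_le_integral_norm _).trans ?_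
      apply integral_mono_of_nonneg (Eventually.of_forall fun x => norm_nonneg _)
      · rw [integrable_indicator_iff measurableSet_closedBall]
        exact (hf.abs.const_mul _).integrableOn
      · exact Eventually.of_forall hpt
    refine h1.trans ?_
    rw [mul_assoc]
    apply mul_le_mul_of_nonneg_left _ hM0
    obtain ⟨z, hz, hzd⟩ := hCc.exists_infDist_eq_dist hne x
    have hdpos : 0 < Metric.infDist x C := (hCc.notMem_iff_infDist_pos hne).1 hx
    rcases le_total (Metric.infDist x C) 1 with hd | hd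
    · have hlx' : ℓ x = Metric.infDist x C / 4 := by
        rw [hℓ]; unfold scale; rw [min_eq_left hd]
      have h2 : ∫ y in Metric.closedBall x (4 / 3 * ℓ x), |f y| ≤
          Λ * (4 / 3 * Metric.infDist x C) ^ N := by
        refine le_trans ?_ (hz (4 / 3 * Metric.infDist x C) (by positivity))
        apply setIntegral_mono_set hf.abs.integrableOn
          (Eventually.of_forall fun x => abs_nonneg _)
        refine Eventually.of_forall fun w hw => ?_
        refine Metric.closedBall_subset_closedBall' ?_ hw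
        rw [← hzd, hlx']; linarith
      calc ((4 / 5 * ℓ x) ^ N)⁻¹ * ∫ y in Metric.closedBall x (4 / 3 * ℓ x), |f y|
          ≤ ((4 / 5 * ℓ x) ^ N)⁻¹ * (Λ * (4 / 3 * Metric.infDist x C) ^ N) :=
            mul_le_mul_of_nonneg_left h2 (by positivity)
        _ = Λ * (20 / 3) ^ N := by
            rw [hlx']
            have e1 : (4 / 3 * Metric.infDist x C) ^ N =
                (20 / 3) ^ N * (4 / 5 * (Metric.infDist x C / 4)) ^ N := by
              rw [← mul_pow]; congr 1; ring
            rw [e1]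
            have : (4 / 5 * (Metric.infDist x C / 4)) ^ N ≠ 0 := by positivity
            field_simp
        _ ≤ _ := by
            have : 0 ≤ 5 ^ N * ∫ y, |f y| := by positivity
            linarith
    · have hlx' : ℓ x = 1 / 4 := by
        rw [hℓ]; unfold scale; rw [min_eq_right hd]
      have h2 : ∫ y in Metric.closedBall x (4 / 3 * ℓ x), |f y| ≤ ∫ y, |f y| :=
        setIntegral_le_integral hf.abs (Eventually.of_forall fun x => abs_nonneg _)
      calc ((4 / 5 * ℓ x) ^ N)⁻¹ * ∫ y in Metric.closedBall x (4 / 3 * ℓ x), |f y|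
          ≤ ((4 / 5 * ℓ x) ^ N)⁻¹ * ∫ y, |f y| :=
            mul_le_mul_of_nonneg_left h2 (by positivity)
        _ = 5 ^ N * ∫ y, |f y| := by
            rw [hlx']
            have : (4 / 5 * (1 / 4) : ℝ) = 5⁻¹ := by norm_num
            rw [this, inv_pow, inv_inv]
        _ ≤ _ := by
            have : 0 ≤ Λ * (20 / 3) ^ N := by positivity
            linarith

/-- compact support of the correction -/
lemma Kc_supp {f ℓ ψ : E N → ℝ} (hf : HasCompactSupport f) (hℓ1 : ∀ y, ℓ y ≤ 1)
    (hψ1 : ∀ z, 1 ≤ ‖z‖ → ψ z = 0) : HasCompactSupport (Kc ℓ f ψ) := by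
  obtain ⟨R, hR⟩ := hf.isCompact.isBounded.subset_closedBall 0
  apply HasCompactSupport.intro (isCompact_closedBall (0 : E N) (R + 1))
  intro x hx
  apply Sp_zero (cw_pos 1) hψ1
  intro p hp
  obtain ⟨h1, h2⟩ := cw_lt 1 p hp
  have h3 : p.1 ∈ Metric.closedBall (0 : E N) R := hR (subset_tsupport f h2)
  rw [Metric.mem_closedBall, dist_zero_right] at h3 hx
  push Not at hx
  have h4 : ‖x‖ ≤ ‖x - p.1‖ + ‖p.1‖ := by
    calc ‖x‖ = ‖(x - p.1) + p.1‖ := by rw [sub_add_cancel]
      _ ≤ _ := norm_add_le _ _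
  have := hℓ1 p.1
  linarith

/-- **Lusin-type decomposition**: on the good set, `u` coincides (with its gradient and Laplacian)
with a compactly supported function with bounded Laplacian. -/
theorem good_part (hN : 0 < N) {u f : E N → ℝ} {V : Fin N → E N → ℝ} (hu : Integrable u)
    (hus : HasCompactSupport u) (hV : ∀ i, Integrable (V i)) (hWD : ∀ i, WD i u (V i))
    (hf : Integrable f) (hfm : Measurable f) (hfs : HasCompactSupport f) (hWL : WL u f)
    {Λ : ℝ} (hΛ : 0 ≤ Λ) (hne : (goodSet f Λ).Nonempty) :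
    ∃ (U G : E N → ℝ) (Y : Fin N → E N → ℝ) (M : ℝ), Integrable U ∧ HasCompactSupport U ∧
      (∀ i, Integrable (Y i)) ∧ (∀ i, WD i U (Y i)) ∧ Integrable G ∧ (∀ᵐ x, |G x| ≤ M) ∧
      WL U G ∧ (∀ x ∈ goodSet f Λ, U x = u x ∧ (∀ i, Y i x = V i x) ∧ G x = f x) := by
  obtain ⟨ψ, ρ, hψ, hρ, hψz, hρz, hpd, hint⟩ := exists_kernel hN
  set C := goodSet f Λ with hC
  have hCc : IsClosed C := goodSet_closed hf Λ
  set ℓ := scale C with hℓ
  have hℓc : Continuous ℓ := scale_cont C
  have hℓ0 : ∀ y, 0 ≤ ℓ y := scale_nonneg C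
  have hℓ1 : ∀ y, ℓ y ≤ 1 := fun y => (scale_le C y).trans (by norm_num)
  obtain ⟨Mρ, hM0, hMρ⟩ := hρ.bdd
  have hpdz : ∀ i z, 1 ≤ ‖z‖ → pd i ψ z = 0 := fun i z hz => by rw [hpd, hρz z hz]; simp
  have hK := Kc_integrable hfm hf hℓc hℓ1 hψ
  have hKg : ∀ i, Integrable (Kg ℓ f (pd i ψ)) := fun i => Kg_integrable hfm hf hℓc hℓ1 (hψ.pd i)
  have hJ := Jg_integrable hfm hf hℓc hρ
  have hf0 : Integrable (fun y => if 0 < ℓ y then 0 else f y) := by
    apply hf.mono
    · exact (Measurable.ite (measurableSet_lt measurable_const hℓc.measurable) measurable_const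
        hfm).aestronglyMeasurable
    · refine Eventually.of_forall fun y => ?_
      split_ifs <;> simp
  have hmul : ∀ {g φ : E N → ℝ}, Integrable g → Tst φ → Integrable (fun y => g y * φ y) := by
    intro g φ hg hφ
    obtain ⟨D, hD0, hD⟩ := hφ.bdd
    have := hg.bdd_mul (c := D) hφ.cont.aestronglyMeasurable (Eventually.of_forall fun p => hD p)
    refine this.congr (Eventually.of_forall fun p => ?_)
    simp only; ring
  have hKzero : ∀ x ∈ C, Kc ℓ f ψ x = 0 := by
    intro x hx
    apply Sp_zero (cw_pos 1) hψz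
    intro p hp
    have h1 := (cw_lt 1 p hp).1
    have h2 := scale_le_dist hx p.1
    have h3 := norm_nonneg (x - p.1)
    linarith
  have hKgzero : ∀ i, ∀ x ∈ C, Kg ℓ f (pd i ψ) x = 0 := by
    intro i x hx
    apply Sp_zero (cw_pos 0) (hpdz i)
    intro p hp
    have h1 := (cw_lt 0 p hp).1
    have h2 := scale_le_dist hx p.1
    have h3 := norm_nonneg (x - p.1)
    linarith
  have hJzero : ∀ x ∈ C, Jg ℓ f ρ x = 0 := by
    intro x hx
    apply Sp_zero _ hρz
    · intro y hy
      have := scale_le_dist hx y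
      have h2 := norm_nonneg (x - y)
      linarith
    · intro y hy
      by_contra h
      apply hy
      simp [h]
  refine ⟨fun x => u x + Kc ℓ f ψ x, fun x => (if 0 < ℓ x then 0 else f x) + Jg ℓ f ρ x,
    fun i x => V i x + Kg ℓ f (pd i ψ) x,
    Λ / (volume : Measure (E N)).real (Metric.closedBall 0 1) +
      Mρ * (Λ * (20 / 3) ^ N + 5 ^ N * ∫ y, |f y|), hu.add hK, hus.add (Kc_supp hfs hℓ1 hψz),
    fun i => (hV i).add (hKg i), ?_, hf0.add hJ, ?_, ?_, ?_⟩
  · intro i φ hφ
    have e1 : ∫ x, (u x + Kc ℓ f ψ x) * pd i φ x =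
        (∫ x, u x * pd i φ x) + ∫ x, Kc ℓ f ψ x * pd i φ x := by
      rw [← integral_add (hmul hu (hφ.pd i)) (hmul hK (hφ.pd i))]
      congr 1; ext x; ring
    have e2 : ∫ x, (V i x + Kg ℓ f (pd i ψ) x) * φ x =
        (∫ x, V i x * φ x) + ∫ x, Kg ℓ f (pd i ψ) x * φ x := by
      rw [← integral_add (hmul (hV i) hφ) (hmul (hKg i) hφ)]
      congr 1; ext x; ring
    rw [e1, e2, hWD i φ hφ, Kc_WD hfm hf hℓc hℓ1 hψ i φ hφ]
    ring
  · have hv := vol_unit_pos (N := N)
    have hI0 : 0 ≤ ∫ y, |f y| := integral_nonneg fun x => abs_nonneg _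
    filter_upwards [ae_bound_goodSet hf Λ] with x hx
    have h1 := Jg_bdd hf hΛ hne hρz hMρ x
    refine (abs_add_le _ _).trans (add_le_add ?_ h1)
    split_ifs with h
    · rw [abs_zero]; positivity
    · apply hx
      by_contra h'
      exact h ((scale_pos_iff hCc hne x).2 h')
  · intro φ hφ
    have e1 : ∫ x, (u x + Kc ℓ f ψ x) * lap φ x =
        (∫ x, u x * lap φ x) + ∫ x, Kc ℓ f ψ x * lap φ x := by
      rw [← integral_add (hmul hu hφ.lap) (hmul hK hφ.lap)]
      congr 1; ext x; ring
    rw [e1, hWL φ hφ, Kc_WL hfm hf hℓc hℓ0 hℓ1 hψ hρ hρz hpd hint φ hφ]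
    have hsum : Integrable (fun x => (if 0 < ℓ x then 0 else f x) + Jg ℓ f ρ x - f x) :=
      (hf0.add hJ).sub hf
    have e4 := integral_add (hmul hf hφ) (hmul hsum hφ)
    beta_reduce at e4 ⊢
    rw [← e4]
    refine integral_congr_ae (Eventually.of_forall fun x => ?_)
    beta_reduce
    ring
  · intro x hx
    have hlx : ¬ 0 < ℓ x := by
      rw [scale_pos_iff hCc hne]; simpa using hx
    refine ⟨by simp [hKzero x hx], fun i => by simp [hKgzero i x hx], ?_⟩
    simp [hlx, hJzero x hx]

end Helper304Lap
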