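import Pool.Agent.Helper304.LapExist

open MeasureTheory Filter Topology Set ContinuousLinearMap
open scoped ContDiff Convolution NNReal

noncomputable section

namespace Helper304Lap

variable {N : ℕ}

/-! ### existence of the weak gradient -/

lemma supp_reflect (n : ℕ) (x : E N) :
    tsupport (fun t => mol n (x - t)) ⊆ Metric.closedBall x (1 / ((n : ℝ) + 1)) := by
  apply closure_minimal _ Metric.isClosed_closedBall
  intro t ht
  have h1 : x - t ∈ Function.support (mol (N := N) n) := ht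
  unfold mol at h1
  rw [ContDiffBump.support_normed_eq, Metric.mem_ball, dist_zero_right] at h1
  rw [Metric.mem_closedBall, dist_comm, dist_eq_norm]
  exact h1.le

theorem exists_grad (hN : 0 < N) {Ω : Set (E N)} {u f : E N → ℝ} (hO : IsOpen Ω)
    (hu : LocallyIntegrableOn u Ω) (hf : LocallyIntegrableOn f Ω)
    (hum : Measurable u) (hfm : Measurable f)
    (hWL : ∀ φ, Tst φ → tsupport φ ⊆ Ω → ∫ x, u x * lap φ x = ∫ x, f x * φ x) :
    ∃ V : Fin N → E N → ℝ, ∀ i, LocallyIntegrableOn (V i) Ω ∧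
      ∀ φ, Tst φ → tsupport φ ⊆ Ω → ∫ x, u x * pd i φ x = - ∫ x, V i x * φ x := by
  set a : Fin N → ℕ → E N → ℝ := fun i n x => ∫ t, pd i (mol n) (x - t) * u t with ha
  refine ⟨fun i x => limUnder atTop (fun n => a i n x), fun i => ?_⟩
  have key : ∀ K, IsCompact K → K ⊆ Ω → ∃ (B : Set (E N)) (V' : Fin N → E N → ℝ), IsOpen B ∧
      K ⊆ B ∧ B ⊆ Ω ∧ (∀ i, Integrable (V' i)) ∧
      (∀ i φ, Tst φ → tsupport φ ⊆ B → ∫ x, u x * pd i φ x = - ∫ x, V' i x * φ x) ∧
      ∀ᵐ x, x ∈ B → limUnder atTop (fun n => a i n x) = V' i x := by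
    intro K hK hKΩ
    obtain ⟨B, V', hB, hKB, hBΩ, hV', hWD⟩ := local_grad hN hO hu hf hum hfm hWL hK hKΩ
    refine ⟨B, V', hB, hKB, hBΩ, hV', hWD, ?_⟩
    filter_upwards [ml_ae (V' i) (hV' i).locallyIntegrable] with x hx hxB
    apply Tendsto.limUnder_eq
    apply hx.congr'
    obtain ⟨ε, hε, hεB⟩ := Metric.isOpen_iff.1 hB x hxB
    have hev : ∀ᶠ n : ℕ in atTop, 1 / ((n : ℝ) + 1) < ε :=
      tendsto_one_div_add_atTop_nhds_zero_nat.eventually (eventually_lt_nhds hε)
    filter_upwards [hev] with n hn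
    have hs : tsupport (fun t => mol n (x - t)) ⊆ B :=
      (supp_reflect n x).trans ((Metric.closedBall_subset_ball hn).trans hεB)
    have h1 := hWD i _ (tst_reflect (mol_tst n) x) hs
    simp only [pd_reflect (mol_tst n).1] at h1
    have e1 : ∫ t, u t * -pd i (mol n) (x - t) = - a i n x := by
      simp only [ha]
      rw [← integral_neg]; congr 1; ext t; ring
    rw [e1, neg_inj] at h1
    rw [h1, ml_eq]
    congr 1; ext t; ring
  constructor
  · intro x hx
    obtain ⟨B, V', hB, hKB, hBΩ, hV', hWD, hae⟩ := key {x} isCompact_singleton (by simpa using hx)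
    refine ⟨B, mem_nhdsWithin_of_mem_nhds (hB.mem_nhds (hKB rfl)), ?_⟩
    apply (hV' i).integrableOn.congr
    rw [Filter.EventuallyEq, ae_restrict_iff' hB.measurableSet]
    filter_upwards [hae] with y hy hyB
    exact (hy hyB).symm
  · intro φ hφ hs
    obtain ⟨B, V', hB, hKB, hBΩ, hV', hWD, hae⟩ := key (tsupport φ) hφ.2.isCompact hs
    rw [hWD i φ hφ hKB]
    congr 1
    apply integral_congr_ae
    filter_upwards [hae] with x hx
    by_cases hxs : x ∈ tsupport φ
    · rw [hx (hKB hxs)]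
    · simp [image_eq_zero_of_notMem_tsupport hxs]

/-! ### one-dimensional convex analysis -/

/-- right derivative -/
def rd (Φ : ℝ → ℝ) (t : ℝ) : ℝ := derivWithin Φ (Ioi t) t

section Convex

variable {Φ : ℝ → ℝ}

lemma rd_hasDeriv (hΦ : ConvexOn ℝ univ Φ) (t : ℝ) : HasDerivWithinAt Φ (rd Φ t) (Ioi t) t :=
  hΦ.hasDerivWithinAt_rightDeriv_of_mem_interior (by simp)

lemma rd_mono (hΦ : ConvexOn ℝ univ Φ) : Monotone (rd Φ) := by
  have := hΦ.monotoneOn_rightDeriv
  rw [interior_univ] at this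
  exact fun a b hab => this (mem_univ a) (mem_univ b) hab

lemma rd_bd (hΦ : ConvexOn ℝ univ Φ) {K : ℝ≥0} (hL : LipschitzWith K Φ) (t : ℝ) :
    |rd Φ t| ≤ K := by
  have h1 := (hasDerivWithinAt_iff_tendsto_slope' (self_notMem_Ioi)).1 (rd_hasDeriv hΦ t)
  apply le_of_tendsto h1.abs
  filter_upwards [self_mem_nhdsWithin] with s hs
  have hs' : 0 < s - t := sub_pos.2 hs
  rw [slope_def_field, abs_div, abs_of_pos hs', div_le_iff₀ hs']
  have := hL.dist_le_mul s t
  rw [Real.dist_eq, Real.dist_eq, abs_of_pos hs'] at this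
  exact this

lemma rd_ftc (hΦ : ConvexOn ℝ univ Φ) {K : ℝ≥0} (hL : LipschitzWith K Φ) (t : ℝ) :
    Φ t = Φ 0 + prim (rd Φ) t := by
  have h1 : ∫ s in (0 : ℝ)..t, rd Φ s = Φ t - Φ 0 := by
    apply intervalIntegral.integral_eq_sub_of_hasDeriv_right
    · exact hL.continuous.continuousOn
    · intro x _; exact rd_hasDeriv hΦ x
    · exact prim_ii (rd_mono hΦ).measurable (rd_bd hΦ hL) _ _
  unfold prim
  rw [h1]; ring

lemma diff_of_cont (hΦ : ConvexOn ℝ univ Φ) {K : ℝ≥0} (hL : LipschitzWith K Φ) {t : ℝ}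
    (hc : ContinuousAt (rd Φ) t) : HasDerivAt Φ (rd Φ t) t := by
  have h1 : Φ = fun t => Φ 0 + prim (rd Φ) t := funext fun t => rd_ftc hΦ hL t
  rw [h1]
  apply HasDerivAt.const_add
  rw [← h1]
  apply intervalIntegral.integral_hasDerivAt_right (prim_ii (rd_mono hΦ).measurable (rd_bd hΦ hL) _ _)
  · exact ⟨univ, univ_mem, (rd_mono hΦ).measurable.aestronglyMeasurable⟩
  · exact hc

lemma rd_eq_deriv {t : ℝ} (h : DifferentiableAt ℝ Φ t) : rd Φ t = deriv Φ t := by
  unfold rd
  exact h.derivWithin (uniqueDiffWithinAt_Ioi t)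

lemma second_deriv (hΦ : ConvexOn ℝ univ Φ) {K : ℝ≥0} (hL : LipschitzWith K Φ) {t r : ℝ}
    (h : HasDerivAt (rd Φ) r t) : DifferentiableAt ℝ Φ t ∧
      DifferentiableWithinAt ℝ (deriv Φ) {s | DifferentiableAt ℝ Φ s} t ∧
      derivWithin (deriv Φ) {s | DifferentiableAt ℝ Φ s} t = r := by
  set D : Set ℝ := {s | DifferentiableAt ℝ Φ s} with hD
  have h1 : DifferentiableAt ℝ Φ t := (diff_of_cont hΦ hL h.continuousAt).differentiableAt
  have h2 : HasDerivWithinAt (deriv Φ) r D t := by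
    apply h.hasDerivWithinAt.congr
    · intro s hs; exact (rd_eq_deriv hs).symm
    · exact (rd_eq_deriv h1).symm
  have hcount : (Dᶜ).Countable := by
    apply (rd_mono hΦ).countable_not_continuousAt.mono
    intro s hs hc
    exact hs (diff_of_cont hΦ hL hc).differentiableAt
  have h3 : UniqueDiffWithinAt ℝ D t := by
    rw [uniqueDiffWithinAt_iff_accPt, accPt_principal_iff_clusterPt, ← mem_closure_iff_clusterPt]
    have h4 : (D \ {t})ᶜ.Countable := by
      have : (D \ {t})ᶜ ⊆ Dᶜ ∪ {t} := by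
        intro s hs
        by_cases h5 : s ∈ D
        · right
          by_contra h6
          exact hs ⟨h5, h6⟩
        · left; exact h5
      exact (hcount.union (countable_singleton t)).mono this
    have h5 := h4.dense_compl ℝ
    rw [compl_compl] at h5
    exact h5 t
  exact ⟨h1, h2.differentiableWithinAt, h2.derivWithin h3⟩

end Convex

/-! ### the chain rule -/

lemma int_lap_zero {φ : E N → ℝ} (hφ : Tst φ) : ∫ x, lap φ x = 0 := by
  have h1 : ∀ i, ∫ x, pd i (pd i φ) x = 0 := by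
    intro i
    have := ibp (hφ.pd i) (ψ := fun _ => (1 : ℝ)) contDiff_const i
    simp only [one_mul] at this
    rw [this]
    have h2 : ∀ x, pd i (fun _ : E N => (1 : ℝ)) x = 0 := by intro x; simp [pd]
    simp [h2]
  unfold lap
  rw [integral_finsetSum _ fun i _ => ((hφ.pd i).pd i).integrable]
  simp [h1]

theorem chain_main (hN : 0 < N) {Ω : Set (E N)} {u f g : E N → ℝ} {V : Fin N → E N → ℝ}
    (D : Dat Ω u f V) (hum : Measurable u) (hfm : Measurable f) (hg : LocallyIntegrableOn g Ω)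
    {Φ : ℝ → ℝ} (hΦ : ConvexOn ℝ univ Φ) {K : ℝ≥0} (hL : LipschitzWith K Φ)
    (hWL : ∀ φ, Tst φ → tsupport φ ⊆ Ω → ∫ x, Φ (u x) * lap φ x = ∫ x, g x * φ x) :
    ∀ᵐ x, x ∈ Ω →
      (f x ≠ 0 → DifferentiableAt ℝ Φ (u x)) ∧
      ((∃ i, V i x ≠ 0) → DifferentiableAt ℝ Φ (u x) ∧
        DifferentiableWithinAt ℝ (deriv Φ) {s | DifferentiableAt ℝ Φ s} (u x)) ∧
      g x = deriv Φ (u x) * f x +
        derivWithin (deriv Φ) {s | DifferentiableAt ℝ Φ s} (u x) * ∑ i, V i x * V i x := by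
  have hmono := rd_mono hΦ
  have hbd := rd_bd hΦ hL
  set P := hmono.stieltjesFunction with hP
  have hPbd : ∀ t, |P t| ≤ K := by
    intro t
    rw [hmono.stieltjesFunction_eq]
    have h1 := hmono.tendsto_rightLim t
    exact le_of_tendsto h1.abs (Eventually.of_forall fun s => hbd s)
  set μ := P.measure with hμ
  have hfin : IsFiniteMeasure μ := P.isFiniteMeasure_of_forall_abs_le hPbd
  -- limit at `-∞`
  obtain ⟨l, hl⟩ : ∃ l, Tendsto P atBot (𝓝 l) := by
    refine ⟨_, tendsto_atBot_ciInf P.mono ⟨-K, ?_⟩⟩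
    rintro _ ⟨t, rfl⟩
    exact (abs_le.1 (hPbd t)).1
  have hth : ∀ t, P t = l + th μ t := by
    intro t
    unfold th
    have h0 : l ≤ P t := P.mono.le_of_tendsto hl t
    rw [measureReal_def, hμ, P.measure_Iic hl, ENNReal.toReal_ofReal (sub_nonneg.2 h0)]
    ring
  have hPm : Measurable (P : ℝ → ℝ) := P.mono.measurable
  -- countable set where `P ≠ rd`
  have hPeq : ∀ t, ContinuousAt (rd Φ) t → P t = rd Φ t := by
    intro t ht
    rw [hmono.stieltjesFunction_eq]
    exact tendsto_nhds_unique (hmono.tendsto_rightLim t)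
      (ht.tendsto.mono_left nhdsWithin_le_nhds)
  have hcount := hmono.countable_not_continuousAt
  have hPae : ∀ᵐ t, P t = rd Φ t := by
    filter_upwards [hcount.ae_notMem volume] with t ht
    exact hPeq t (by simpa using ht)
  have hprimP : ∀ t, prim (rd Φ) t = l * t + prim (th μ) t := by
    intro t
    have h1 : prim (rd Φ) t = prim P t := by
      unfold prim
      apply intervalIntegral.integral_congr_ae
      filter_upwards [hPae] with s hs _ using hs.symm
    rw [h1]
    have h2 : (P : ℝ → ℝ) = fun s => th μ s - (-l) := by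
      funext s; rw [hth]; ring
    rw [h2, prim_sub_const (th_mono μ).measurable (th_bd μ)]
    ring
  set h : E N → ℝ := fun x => g x - P (u x) * f x with hh
  have hPf : LocallyIntegrableOn (fun x => P (u x) * f x) Ω :=
    locInt_bdd_mul hum D.hf D.hO hPm hPbd
  have hhi : LocallyIntegrableOn h Ω := hg.sub hPf
  have hthm : Measurable (th μ) := (th_mono μ).measurable
  have hTf : ∀ ψ, Tst ψ → tsupport ψ ⊆ Ω → ∫ x, h x * ψ x =
      Tf (fun x => prim (th μ) (u x)) (fun x => th μ (u x) * f x) ψ := by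
    intro ψ hψ hs
    have e1 : ∫ x, h x * ψ x = (∫ x, g x * ψ x) - ∫ x, (P (u x) * f x) * ψ x := by
      rw [← integral_sub (int_mul hg hψ hs) (int_mul hPf hψ hs)]
      refine integral_congr_ae (Eventually.of_forall fun x => ?_)
      simp only [hh]; ring
    have i0 : Integrable (fun x => Φ 0 * lap ψ x) := hψ.lap.integrable.const_mul _
    have i1 : Integrable (fun x => l * (u x * lap ψ x)) :=
      (int_mul D.hu hψ.lap (tsupport_lap.trans hs)).const_mul l
    have i2 := int_mul (locInt_prim D.hu D.hO hthm (th_bd μ)) hψ.lap (tsupport_lap.trans hs)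
    have e2 : ∫ x, Φ (u x) * lap ψ x = Φ 0 * (∫ x, lap ψ x) + l * (∫ x, u x * lap ψ x) +
        ∫ x, prim (th μ) (u x) * lap ψ x := by
      rw [← integral_const_mul, ← integral_const_mul, ← integral_add i0 i1]
      have := integral_add (i0.add i1) i2
      simp only [Pi.add_apply] at this
      rw [← this]
      refine integral_congr_ae (Eventually.of_forall fun x => ?_)
      simp only
      rw [rd_ftc hΦ hL (u x), hprimP]; ring
    have j1 : Integrable (fun x => l * (f x * ψ x)) := (int_mul D.hf hψ hs).const_mul l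
    have j2 := int_mul (locInt_bdd_mul hum D.hf D.hO hthm (th_bd μ)) hψ hs
    have e3 : ∫ x, (P (u x) * f x) * ψ x = l * (∫ x, f x * ψ x) +
        ∫ x, (th μ (u x) * f x) * ψ x := by
      rw [← integral_const_mul, ← integral_add j1 j2]
      refine integral_congr_ae (Eventually.of_forall fun x => ?_)
      simp only
      rw [hth]; ring
    rw [e1, ← hWL ψ hψ hs, e2, e3, int_lap_zero hψ, D.wl ψ hψ hs]
    unfold Tf
    ring
  have hrep : ∀ ψ, Tst ψ → tsupport ψ ⊆ Ω → ∫ x, h x * ψ x = ∫ s, Lf u f ψ s ∂μ := by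
    intro ψ hψ hs
    rw [hTf ψ hψ hs]
    exact (fub D hum hfm μ hψ hs).2
  have main := rep_identity hN D hum hfm μ hhi hrep
  -- Laplacian of `Φ(u)` on the critical set
  have D2 := D.comp hum D.hO le_rfl hthm (th_bd μ) hhi (fun ψ hψ hs => (hTf ψ hψ hs).symm)
  -- null set of bad values
  have hZ : volume {t | ¬ HasDerivAt (rd Φ) (μ.rnDeriv volume t).toReal t} = 0 :=
    hmono.ae_hasDerivAt
  filter_upwards [main, D.vanish hN, D2.vanish hN, D.stampacchia hZ] with x h1 h2 h3 h4 hxΩ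
  by_cases hV : ∃ i, V i x ≠ 0
  · have hd : HasDerivAt (rd Φ) (μ.rnDeriv volume (u x)).toReal (u x) := by
      by_contra h'
      obtain ⟨i, hi⟩ := hV
      exact hi (h4 hxΩ h' i)
    obtain ⟨k1, k2, k3⟩ := second_deriv hΦ hL hd
    refine ⟨fun _ => k1, fun _ => ⟨k1, k2⟩, ?_⟩
    have h5 := h1 hxΩ hV
    simp only [hh] at h5
    rw [hPeq _ hd.continuousAt, rd_eq_deriv k1] at h5
    rw [k3]
    linarith
  · push Not at hV
    have hf0 : f x = 0 := h2 hxΩ hV
    have hg0 := h3 hxΩ (fun i => by simp [hV i])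
    simp only [hh, hf0, mul_zero, sub_zero, zero_add] at hg0
    refine ⟨fun h' => absurd hf0 h', fun ⟨i, hi⟩ => absurd (hV i) hi, ?_⟩
    simp [hf0, hg0, hV]

end Helper304Lap
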