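import Pool.Agent.Helper304.LapSet

open MeasureTheory Filter Topology Set ContinuousLinearMap
open scoped ContDiff Convolution

noncomputable section

namespace Helper304Lap

variable {N : ℕ}

lemma pd_sum {ι : Type*} {s : Finset ι} {f : ι → E N → ℝ} (i : Fin N) {x : E N}
    (h : ∀ j ∈ s, DifferentiableAt ℝ (f j) x) :
    pd i (fun x => ∑ j ∈ s, f j x) x = ∑ j ∈ s, pd i (f j) x := by
  unfold pd
  rw [fderiv_fun_sum h]
  simp

lemma hess_id {φ : E N → ℝ} (hφ : Tst φ) :
    ∑ i, ∑ j, ∫ x, pd i (pd j φ) x * pd i (pd j φ) x = ∫ x, lap φ x * lap φ x := by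
  have h1 : ∀ i j, ∫ x, pd i (pd j φ) x * pd i (pd j φ) x =
      ∫ x, pd i (pd i φ) x * pd j (pd j φ) x := by
    intro i j
    have e1 := ibp (hφ.pd j) (contDiff_pd (contDiff_pd hφ.1 j) i) i
    have e2 := ibp (hφ.pd j) (contDiff_pd (contDiff_pd hφ.1 i) i) j
    have e3 : pd i (pd i (pd j φ)) = pd j (pd i (pd i φ)) := by
      have e4 : pd i (pd j φ) = pd j (pd i φ) := funext fun x => pd_comm hφ.1 i j x
      rw [e4]
      exact funext fun x => pd_comm (contDiff_pd hφ.1 i) i j x
    rw [e1, e3, ← e2]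
  rw [Finset.sum_congr rfl fun i _ => Finset.sum_congr rfl fun j _ => h1 i j]
  have hint : ∀ i j, Integrable (fun x => pd i (pd i φ) x * pd j (pd j φ) x) := fun i j =>
    (((hφ.pd i).pd i).mul ((hφ.pd j).pd j)).integrable
  have h2 : ∀ x, lap φ x * lap φ x = ∑ i, ∑ j, pd i (pd i φ) x * pd j (pd j φ) x := by
    intro x
    unfold lap
    rw [Finset.sum_mul_sum]
  simp only [h2]
  rw [integral_finsetSum _ fun i _ => integrable_finsetSum _ fun j _ => hint i j]
  apply Finset.sum_congr rfl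
  intro i _
  rw [integral_finsetSum _ fun j _ => hint i j]

lemma quad_cs (a : Fin N → ℝ) (h : Fin N → Fin N → ℝ) :
    (∑ i, ∑ j, a i * a j * h i j) ^ 2 ≤ (∑ i, a i * a i) ^ 2 * ∑ i, ∑ j, h i j * h i j := by
  have h1 := Finset.sum_mul_sq_le_sq_mul_sq (Finset.univ : Finset (Fin N × Fin N))
    (fun p => a p.1 * a p.2) (fun p => h p.1 p.2)
  rw [← Finset.univ_product_univ, Finset.sum_product, Finset.sum_product, Finset.sum_product] at h1
  have h2 : ∑ i, ∑ j, (a i * a j) ^ 2 = (∑ i, a i * a i) ^ 2 := by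
    rw [sq, Finset.sum_mul_sum]
    apply Finset.sum_congr rfl; intro i _
    apply Finset.sum_congr rfl; intro j _
    ring
  rw [h2] at h1
  have h3 : ∑ i, ∑ j, h i j ^ 2 = ∑ i, ∑ j, h i j * h i j := by
    apply Finset.sum_congr rfl; intro i _
    apply Finset.sum_congr rfl; intro j _
    ring
  rw [h3] at h1
  exact h1

lemma young {t X H ε : ℝ} (hε : 0 < ε) (hH : 0 ≤ H) (h : t ^ 2 ≤ X ^ 2 * H) :
    |t| ≤ 1 / (2 * ε) * X ^ 2 + ε / 2 * H := by
  have h0 : 0 ≤ 1 / (2 * ε) * X ^ 2 + ε / 2 * H := by positivity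
  apply abs_le_of_sq_le_sq' _ h0 |> abs_le.2
  refine h.trans ?_
  have : (1 / (2 * ε) * X ^ 2 + ε / 2 * H) ^ 2 - X ^ 2 * H =
      (1 / (2 * ε) * X ^ 2 - ε / 2 * H) ^ 2 := by
    field_simp; ring
  nlinarith [sq_nonneg (1 / (2 * ε) * X ^ 2 - ε / 2 * H)]

lemma cut_bd {δ a s : ℝ} (hδ : 0 < δ) (h : a * a ≤ s) : |a| * (δ ^ 2 / (δ ^ 2 + s)) ≤ δ / 2 := by
  have hs : 0 ≤ s := (mul_self_nonneg a).trans h
  have hp : 0 < δ ^ 2 + s := by positivity
  rw [mul_div_assoc', div_le_div_iff₀ hp two_pos]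
  have h1 : 2 * |a| * δ ≤ δ ^ 2 + s := by
    have := sq_nonneg (δ - |a|)
    have h2 : |a| * |a| = a * a := abs_mul_abs_self a
    nlinarith
  nlinarith [abs_nonneg a]

lemma B_bd {δ s : ℝ} (hδ : 0 < δ) (hs : 0 ≤ s) : |2 * δ ^ 2 / (δ ^ 2 + s) ^ 2 * s| ≤ 1 / 2 := by
  have hp : 0 < δ ^ 2 + s := by positivity
  rw [abs_of_nonneg (by positivity), div_mul_eq_mul_div, div_le_div_iff₀ (by positivity) two_pos]
  nlinarith [sq_nonneg (δ ^ 2 - s)]

lemma key_ineq {φ W : E N → ℝ} (hφ : Tst φ) (hW : Tst W) {δ ε : ℝ} (hδ : 0 < δ) (hε : 0 < ε) :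
    |∫ x, lap W x * (φ x * (δ ^ 2 / (δ ^ 2 + ∑ i, pd i W x * pd i W x)))| ≤
      δ / 2 * (∑ i, ∫ x, |pd i φ x|) +
      1 / (2 * ε) * (∫ x, (φ x * (2 * δ ^ 2 / (δ ^ 2 + ∑ i, pd i W x * pd i W x) ^ 2 *
        ∑ i, pd i W x * pd i W x)) ^ 2) +
      ε / 2 * ∫ x, lap W x * lap W x := by
  set S : E N → ℝ := fun x => ∑ i, pd i W x * pd i W x with hS
  have hS0 : ∀ x, 0 ≤ S x := fun x => Finset.sum_nonneg fun i _ => mul_self_nonneg _
  have hSs : ContDiff ℝ ∞ S := ContDiff.sum fun i _ => (contDiff_pd hW.1 i).mul (contDiff_pd hW.1 i)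
  have hpos : ∀ x, 0 < δ ^ 2 + S x := fun x => by have := hS0 x; positivity
  set A : E N → ℝ := fun x => δ ^ 2 / (δ ^ 2 + S x) with hA
  have hAs : ContDiff ℝ ∞ A := contDiff_const.div (contDiff_const.add hSs) fun x => (hpos x).ne'
  have hpdS : ∀ i x, pd i S x = 2 * ∑ j, pd j W x * pd i (pd j W) x := by
    intro i x
    rw [hS, pd_sum i fun j _ => ((contDiff_pd hW.1 j).mul (contDiff_pd hW.1 j)).differentiable
      (by simp) x, Finset.mul_sum]
    apply Finset.sum_congr rfl
    intro j _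
    rw [pd_mul i ((hW.pd j).diff x) ((hW.pd j).diff x)]
    ring
  have hpdA : ∀ i x, pd i A x = - (δ ^ 2 / (δ ^ 2 + S x) ^ 2) * pd i S x := by
    intro i x
    have hd : HasDerivAt (fun s : ℝ => δ ^ 2 / (δ ^ 2 + s)) (-(δ ^ 2 / (δ ^ 2 + S x) ^ 2)) (S x) := by
      have h1 : HasDerivAt (fun s : ℝ => δ ^ 2 + s) 1 (S x) := (hasDerivAt_id (S x)).const_add _
      have h2 := (hasDerivAt_const (S x) (δ ^ 2)).div h1 (hpos x).ne'
      refine h2.congr_deriv ?_
      rw [zero_mul, zero_sub, mul_one, neg_div]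
    have h3 := pd_comp (g := fun s : ℝ => δ ^ 2 / (δ ^ 2 + s)) i
      (hSs.differentiable (by simp) x) hd.differentiableAt
    rw [hd.deriv] at h3
    exact h3
  have hφA : Tst (fun x => φ x * A x) := hφ.mul_smooth hAs
  -- integration by parts
  have h1 : ∀ i, ∫ x, pd i (pd i W) x * (φ x * A x) =
      - ∫ x, pd i W x * pd i (fun x => φ x * A x) x := by
    intro i
    rw [ibp hφA (contDiff_pd hW.1 i) i, neg_neg]
  have h2 : ∫ x, lap W x * (φ x * A x) = ∑ i, ∫ x, pd i (pd i W) x * (φ x * A x) := by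
    rw [← integral_finsetSum _ fun i _ => (((hW.pd i).pd i).mul hφA).integrable]
    congr 1; ext x
    rw [lap, Finset.sum_mul]
  have h3 : ∫ x, lap W x * (φ x * A x) =
      - (∫ x, ∑ i, pd i W x * pd i (fun x => φ x * A x) x) := by
    rw [h2, integral_finsetSum _ fun i _ => ((hW.pd i).mul (hφA.pd i)).integrable,
      ← Finset.sum_neg_distrib]
    exact Finset.sum_congr rfl fun i _ => h1 i
  -- pointwise formula
  have h4 : ∀ x, ∑ i, pd i W x * pd i (fun x => φ x * A x) x =
      (∑ i, pd i φ x * (pd i W x * A x)) -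
      φ x * (2 * δ ^ 2 / (δ ^ 2 + S x) ^ 2) *
        ∑ i, ∑ j, pd i W x * pd j W x * pd i (pd j W) x := by
    intro x
    have : ∀ i, pd i W x * pd i (fun x => φ x * A x) x =
        pd i φ x * (pd i W x * A x) - φ x * (2 * δ ^ 2 / (δ ^ 2 + S x) ^ 2) *
          ∑ j, pd i W x * pd j W x * pd i (pd j W) x := by
      intro i
      rw [pd_mul i (hφ.diff x) (hAs.differentiable (by simp) x), hpdA, hpdS]
      have e1 : ∑ j, pd i W x * pd j W x * pd i (pd j W) x =
          pd i W x * ∑ j, pd j W x * pd i (pd j W) x := by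
        rw [Finset.mul_sum]; apply Finset.sum_congr rfl; intro j _; ring
      rw [e1]; ring
    simp only [this]
    rw [Finset.sum_sub_distrib, ← Finset.mul_sum]
  -- pointwise bound
  have h5 : ∀ x, |∑ i, pd i W x * pd i (fun x => φ x * A x) x| ≤
      δ / 2 * (∑ i, |pd i φ x|) +
      1 / (2 * ε) * (φ x * (2 * δ ^ 2 / (δ ^ 2 + S x) ^ 2 * S x)) ^ 2 +
      ε / 2 * ∑ i, ∑ j, pd i (pd j W) x * pd i (pd j W) x := by
    intro x
    rw [h4]
    refine (abs_sub _ _).trans ?_
    rw [add_assoc]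
    apply add_le_add
    · refine (Finset.abs_sum_le_sum_abs _ _).trans ?_
      rw [Finset.mul_sum]
      apply Finset.sum_le_sum
      intro i _
      rw [abs_mul, abs_mul, mul_comm (δ / 2)]
      apply mul_le_mul_of_nonneg_left _ (abs_nonneg _)
      have hA0 : |A x| = δ ^ 2 / (δ ^ 2 + S x) := abs_of_nonneg (by have := hpos x; positivity)
      rw [hA0]
      apply cut_bd hδ
      exact Finset.single_le_sum (f := fun i => pd i W x * pd i W x)
        (fun i _ => mul_self_nonneg _) (Finset.mem_univ i)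
    · apply young hε
      · exact Finset.sum_nonneg fun i _ => Finset.sum_nonneg fun j _ => mul_self_nonneg _
      · have := quad_cs (fun i => pd i W x) (fun i j => pd i (pd j W) x)
        have h6 : (φ x * (2 * δ ^ 2 / (δ ^ 2 + S x) ^ 2) *
            ∑ i, ∑ j, pd i W x * pd j W x * pd i (pd j W) x) ^ 2 ≤
            (φ x * (2 * δ ^ 2 / (δ ^ 2 + S x) ^ 2)) ^ 2 *
            ((S x) ^ 2 * ∑ i, ∑ j, pd i (pd j W) x * pd i (pd j W) x) := by
          rw [mul_pow]
          exact mul_le_mul_of_nonneg_left this (sq_nonneg _)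
        refine h6.trans (le_of_eq ?_)
        ring
  rw [h3, abs_neg, ← hess_id hW]
  have hBc : Continuous (fun x => 2 * δ ^ 2 / (δ ^ 2 + S x) ^ 2 * S x) := by
    apply Continuous.mul _ hSs.continuous
    exact continuous_const.div ((continuous_const.add hSs.continuous).pow 2)
      fun x => (pow_pos (hpos x) 2).ne'
  have i1 : Integrable (fun x => δ / 2 * (∑ i, |pd i φ x|)) :=
    (integrable_finsetSum _ fun i _ => (hφ.pd i).integrable.abs).const_mul _
  have i2 : Integrable (fun x => 1 / (2 * ε) *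
      (φ x * (2 * δ ^ 2 / (δ ^ 2 + S x) ^ 2 * S x)) ^ 2) := by
    apply Integrable.const_mul
    apply Continuous.integrable_of_hasCompactSupport
    · exact (hφ.cont.mul hBc).pow 2
    · have : HasCompactSupport (fun x => φ x * (2 * δ ^ 2 / (δ ^ 2 + S x) ^ 2 * S x)) :=
        hφ.2.mul_right
      exact this.comp_left (g := fun t : ℝ => t ^ 2) (by simp)
  have i3 : Integrable (fun x => ε / 2 * ∑ i, ∑ j, pd i (pd j W) x * pd i (pd j W) x) := by
    apply Integrable.const_mul
    exact integrable_finsetSum _ fun i _ => integrable_finsetSum _ fun j _ =>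
      (((hW.pd j).pd i).mul ((hW.pd j).pd i)).integrable
  have h6 : |∫ x, ∑ i, pd i W x * pd i (fun x => φ x * A x) x| ≤
      ∫ x, (δ / 2 * (∑ i, |pd i φ x|) +
      1 / (2 * ε) * (φ x * (2 * δ ^ 2 / (δ ^ 2 + S x) ^ 2 * S x)) ^ 2 +
      ε / 2 * ∑ i, ∑ j, pd i (pd j W) x * pd i (pd j W) x) := by
    rw [← Real.norm_eq_abs]
    refine (norm_integral_le_integral_norm _).trans ?_
    exact integral_mono_of_nonneg (Eventually.of_forall fun x => norm_nonneg _)
      ((i1.add i2).add i3) (Eventually.of_forall h5)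
  refine h6.trans (le_of_eq ?_)
  have e1 : ∫ x, (δ / 2 * (∑ i, |pd i φ x|) +
      1 / (2 * ε) * (φ x * (2 * δ ^ 2 / (δ ^ 2 + S x) ^ 2 * S x)) ^ 2 +
      ε / 2 * ∑ i, ∑ j, pd i (pd j W) x * pd i (pd j W) x) =
      (∫ x, δ / 2 * (∑ i, |pd i φ x|)) +
      (∫ x, 1 / (2 * ε) * (φ x * (2 * δ ^ 2 / (δ ^ 2 + S x) ^ 2 * S x)) ^ 2) +
      (∫ x, ε / 2 * ∑ i, ∑ j, pd i (pd j W) x * pd i (pd j W) x) := by
    rw [← integral_add i1 i2]
    exact integral_add (i1.add i2) i3
  rw [e1, integral_const_mul, integral_const_mul, integral_const_mul,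
    integral_finsetSum _ fun i _ => (hφ.pd i).integrable.abs,
    integral_finsetSum _ fun i _ => integrable_finsetSum _ fun j _ =>
      (((hW.pd j).pd i).mul ((hW.pd j).pd i)).integrable]
  congr 2
  apply Finset.sum_congr rfl
  intro i _
  rw [integral_finsetSum _ fun j _ => (((hW.pd j).pd i).mul ((hW.pd j).pd i)).integrable]

/-- Vanishing of the (bounded) Laplacian on the critical set, for good functions. -/
theorem vanish_good {U G : E N → ℝ} {Y : Fin N → E N → ℝ} {M : ℝ} (hU : Integrable U)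
    (hUs : HasCompactSupport U) (hY : ∀ i, Integrable (Y i)) (hWD : ∀ i, WD i U (Y i))
    (hG : Integrable G) (hM : ∀ᵐ x, |G x| ≤ M) (hWL : WL U G) :
    ∀ᵐ x, (∀ i, Y i x = 0) → G x = 0 := by
  set K : ℝ := M * ∫ x, |G x| with hK
  have hKn : ∀ n, ∫ x, lap (ml n U) x * lap (ml n U) x ≤ K := by
    intro n
    have e1 : ∀ x, lap (ml n U) x = ml n G x := fun x => ml_lap n hU.locallyIntegrable hWL x
    simp only [e1]
    have h1 : ∀ x, ml n G x * ml n G x ≤ M * |ml n G x| := by
      intro x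
      rw [← abs_mul_abs_self]
      exact mul_le_mul_of_nonneg_right (ml_bdd n hM x) (abs_nonneg _)
    have hM0 : 0 ≤ M := (abs_nonneg _).trans (ml_bdd 0 hM 0)
    calc ∫ x, ml n G x * ml n G x ≤ ∫ x, M * |ml n G x| := by
          apply integral_mono_of_nonneg (Eventually.of_forall fun x => mul_self_nonneg _)
            ((ml_integrable n hG).abs.const_mul _) (Eventually.of_forall h1)
      _ = M * ∫ x, |ml n G x| := integral_const_mul _ _
      _ ≤ K := mul_le_mul_of_nonneg_left (ml_L1_le n hG) hM0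
  have hpdU : ∀ n i x, pd i (ml n U) x = ml n (Y i) x := fun n i x =>
    ml_pd n hU.locallyIntegrable (hWD i) x
  set S : E N → ℝ := fun x => ∑ i, Y i x * Y i x with hS
  have hS0 : ∀ x, 0 ≤ S x := fun x => Finset.sum_nonneg fun i _ => mul_self_nonneg _
  have hSm : AEStronglyMeasurable S := by
    apply Finset.aestronglyMeasurable_fun_sum
    intro i _
    exact (hY i).aestronglyMeasurable.mul (hY i).aestronglyMeasurable
  -- inequality in the limit `n → ∞`
  have hlim1 : ∀ φ, Tst φ → ∀ δ > 0, ∀ ε > 0,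
      |∫ x, (φ x * (δ ^ 2 / (δ ^ 2 + S x))) * G x| ≤
        δ / 2 * (∑ i, ∫ x, |pd i φ x|) +
        1 / (2 * ε) * (∫ x, (φ x * (2 * δ ^ 2 / (δ ^ 2 + S x) ^ 2 * S x)) ^ 2) + ε / 2 * K := by
    intro φ hφ δ hδ ε hε
    obtain ⟨D, hD0, hD⟩ := hφ.bdd
    set Sn : ℕ → E N → ℝ := fun n x => ∑ i, ml n (Y i) x * ml n (Y i) x with hSn
    have hSn0 : ∀ n x, 0 ≤ Sn n x := fun n x => Finset.sum_nonneg fun i _ => mul_self_nonneg _
    have hSnc : ∀ n, Continuous (Sn n) := fun n => continuous_finsetSum _ fun i _ =>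
      (ml_contDiff n (hY i).locallyIntegrable).continuous.mul
        (ml_contDiff n (hY i).locallyIntegrable).continuous
    have hSlim : ∀ᵐ x, Tendsto (fun n => Sn n x) atTop (𝓝 (S x)) := by
      have : ∀ᵐ x, ∀ i, Tendsto (fun n => ml n (Y i) x) atTop (𝓝 (Y i x)) :=
        ae_all_iff.2 fun i => ml_ae (Y i) (hY i).locallyIntegrable
      filter_upwards [this] with x hx
      exact tendsto_finsetSum _ fun i _ => (hx i).mul (hx i)
    have hfrac : ∀ s : ℝ, 0 ≤ s → |δ ^ 2 / (δ ^ 2 + s)| ≤ 1 := by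
      intro s hs
      rw [abs_of_nonneg (by positivity), div_le_one (by positivity)]
      linarith
    have hn : ∀ n, |∫ x, (φ x * (δ ^ 2 / (δ ^ 2 + Sn n x))) * ml n G x| ≤
        δ / 2 * (∑ i, ∫ x, |pd i φ x|) +
        1 / (2 * ε) * (∫ x, (φ x * (2 * δ ^ 2 / (δ ^ 2 + Sn n x) ^ 2 * Sn n x)) ^ 2) +
          ε / 2 * K := by
      intro n
      have h1 := key_ineq hφ (ml_tst n hU hUs) hδ hε
      simp only [hpdU] at h1
      have e1 : ∫ x, lap (ml n U) x * (φ x * (δ ^ 2 / (δ ^ 2 + ∑ i, ml n (Y i) x * ml n (Y i) x))) =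
          ∫ x, (φ x * (δ ^ 2 / (δ ^ 2 + Sn n x))) * ml n G x := by
        refine integral_congr_ae (Eventually.of_forall fun x => ?_)
        simp only [ml_lap n hU.locallyIntegrable hWL x, hSn]
        ring
      rw [e1] at h1
      refine h1.trans ?_
      have := mul_le_mul_of_nonneg_left (hKn n) (by positivity : 0 ≤ ε / 2)
      linarith
    have t1 : Tendsto (fun n => ∫ x, (φ x * (δ ^ 2 / (δ ^ 2 + Sn n x))) * ml n G x) atTop
        (𝓝 (∫ x, (φ x * (δ ^ 2 / (δ ^ 2 + S x))) * G x)) := by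
      apply tendsto_mul_L1 (M := D * 1)
      · intro n
        exact (hφ.cont.mul (continuous_const.div (continuous_const.add (hSnc n)) fun x => by
          have := hSn0 n x
          exact (by positivity : (0 : ℝ) < δ ^ 2 + Sn n x).ne')).aestronglyMeasurable
      · intro n
        refine Eventually.of_forall fun x => ?_
        rw [abs_mul]
        exact mul_le_mul (hD x) (hfrac _ (hSn0 n x)) (abs_nonneg _) hD0
      · filter_upwards [hSlim] with x hx
        exact (tendsto_const_nhds.div (tendsto_const_nhds.add hx) (by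
          have := hS0 x; positivity)).const_mul _
      · exact fun n => ml_integrable n hG
      · exact hG
      · exact ml_L1 hG
    have t2 : Tendsto (fun n => ∫ x, (φ x * (2 * δ ^ 2 / (δ ^ 2 + Sn n x) ^ 2 * Sn n x)) ^ 2) atTop
        (𝓝 (∫ x, (φ x * (2 * δ ^ 2 / (δ ^ 2 + S x) ^ 2 * S x)) ^ 2)) := by
      apply tendsto_integral_of_dominated_convergence (fun x => φ x * φ x)
      · intro n
        have : Continuous (fun x => (φ x * (2 * δ ^ 2 / (δ ^ 2 + Sn n x) ^ 2 * Sn n x)) ^ 2) := by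
          apply Continuous.pow
          apply hφ.cont.mul
          apply Continuous.mul _ (hSnc n)
          exact continuous_const.div ((continuous_const.add (hSnc n)).pow 2)
            fun x => by have := hSn0 n x; positivity
        exact this.aestronglyMeasurable
      · exact (hφ.mul hφ).integrable
      · intro n
        refine Eventually.of_forall fun x => ?_
        have h1 := B_bd hδ (hSn0 n x)
        rw [norm_pow, Real.norm_eq_abs, abs_mul, mul_pow, sq_abs (φ x), sq (φ x)]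
        have h2 : |2 * δ ^ 2 / (δ ^ 2 + Sn n x) ^ 2 * Sn n x| ^ 2 ≤ 1 := by
          have := abs_nonneg (2 * δ ^ 2 / (δ ^ 2 + Sn n x) ^ 2 * Sn n x)
          nlinarith
        nlinarith [mul_self_nonneg (φ x)]
      · filter_upwards [hSlim] with x hx
        apply Tendsto.pow
        apply Tendsto.const_mul
        apply Tendsto.mul _ hx
        apply tendsto_const_nhds.div ((tendsto_const_nhds.add hx).pow 2)
        have := hS0 x; positivity
    exact le_of_tendsto_of_tendsto t1.abs
      ((tendsto_const_nhds.add (t2.const_mul _)).add tendsto_const_nhds)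
      (Eventually.of_forall hn)
  -- limit `δ → 0`
  set Z : Set (E N) := {x | S x = 0} with hZ
  have hfin : ∀ φ, Tst φ → ∀ ε > 0, |∫ x, (φ x * (Z.indicator 1 x)) * G x| ≤ ε / 2 * K := by
    intro φ hφ ε hε
    obtain ⟨D, hD0, hD⟩ := hφ.bdd
    set d : ℕ → ℝ := fun k => 1 / ((k : ℝ) + 1) with hd
    have hd0 : ∀ k, 0 < d k := fun k => by simp only [hd]; positivity
    have hdl : Tendsto d atTop (𝓝 0) := tendsto_one_div_add_atTop_nhds_zero_nat
    have hdl2 : Tendsto (fun k => (d k) ^ 2) atTop (𝓝 0) := by simpa using hdl.pow 2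
    have hfl : ∀ x, Tendsto (fun k => (d k) ^ 2 / ((d k) ^ 2 + S x)) atTop
        (𝓝 (Z.indicator 1 x)) := by
      intro x
      by_cases hx : S x = 0
      · rw [indicator_of_mem (by exact hx)]
        apply tendsto_const_nhds.congr
        intro k
        rw [hx, add_zero, div_self (pow_pos (hd0 k) 2).ne']; rfl
      · rw [indicator_of_notMem (by exact hx)]
        have : Tendsto (fun k => (d k) ^ 2 / ((d k) ^ 2 + S x)) atTop (𝓝 (0 / (0 + S x))) :=
          hdl2.div (hdl2.add tendsto_const_nhds) (by simpa using hx)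
        simpa using this
    have t1 : Tendsto (fun k => ∫ x, (φ x * ((d k) ^ 2 / ((d k) ^ 2 + S x))) * G x) atTop
        (𝓝 (∫ x, (φ x * (Z.indicator 1 x)) * G x)) := by
      apply tendsto_integral_of_dominated_convergence (fun x => D * |G x|)
      · intro k
        apply (hφ.cont.aestronglyMeasurable.mul _).mul hG.aestronglyMeasurable
        have hg : Measurable (fun s : ℝ => (d k) ^ 2 / ((d k) ^ 2 + s)) := by fun_prop
        exact (hg.comp_aemeasurable hSm.aemeasurable).aestronglyMeasurable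
      · exact hG.abs.const_mul _
      · intro k
        refine Eventually.of_forall fun x => ?_
        rw [norm_mul, Real.norm_eq_abs, Real.norm_eq_abs, abs_mul]
        apply mul_le_mul_of_nonneg_right _ (abs_nonneg _)
        have h1 : |(d k) ^ 2 / ((d k) ^ 2 + S x)| ≤ 1 := by
          have h2 := pow_pos (hd0 k) 2
          have h3 := hS0 x
          rw [abs_of_nonneg (by positivity), div_le_one (by positivity)]
          linarith
        calc _ ≤ D * 1 := mul_le_mul (hD x) h1 (abs_nonneg _) hD0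
          _ = D := mul_one D
      · exact Eventually.of_forall fun x => ((hfl x).const_mul _).mul_const _
    have t2 : Tendsto (fun k => ∫ x, (φ x * (2 * (d k) ^ 2 / ((d k) ^ 2 + S x) ^ 2 * S x)) ^ 2)
        atTop (𝓝 0) := by
      have : (0 : ℝ) = ∫ x : E N, (0 : ℝ) := by simp
      rw [this]
      apply tendsto_integral_of_dominated_convergence (fun x => φ x * φ x)
      · intro k
        have hg : Measurable (fun s : ℝ => 2 * (d k) ^ 2 / ((d k) ^ 2 + s) ^ 2 * s) := by fun_prop
        exact (hφ.cont.aestronglyMeasurable.mul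
          (hg.comp_aemeasurable hSm.aemeasurable).aestronglyMeasurable).pow 2
      · exact (hφ.mul hφ).integrable
      · intro k
        refine Eventually.of_forall fun x => ?_
        have h1 := B_bd (hd0 k) (hS0 x)
        rw [norm_pow, Real.norm_eq_abs, abs_mul, mul_pow, sq_abs (φ x), sq (φ x)]
        have h2 : |2 * (d k) ^ 2 / ((d k) ^ 2 + S x) ^ 2 * S x| ^ 2 ≤ 1 := by
          have := abs_nonneg (2 * (d k) ^ 2 / ((d k) ^ 2 + S x) ^ 2 * S x)
          nlinarith
        nlinarith [mul_self_nonneg (φ x)]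
      · refine Eventually.of_forall fun x => ?_
        by_cases hx : S x = 0
        · simp [hx]
        · have h3 : Tendsto (fun k => 2 * (d k) ^ 2 / ((d k) ^ 2 + S x) ^ 2 * S x) atTop
              (𝓝 (2 * 0 / (0 + S x) ^ 2 * S x)) := by
            apply Tendsto.mul_const
            apply (hdl2.const_mul 2).div ((hdl2.add tendsto_const_nhds).pow 2)
            simpa using hx
          have h4 := (h3.const_mul (φ x)).pow 2
          simpa using h4
    have t3 : Tendsto (fun k => d k / 2 * (∑ i, ∫ x, |pd i φ x|) +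
        1 / (2 * ε) * (∫ x, (φ x * (2 * (d k) ^ 2 / ((d k) ^ 2 + S x) ^ 2 * S x)) ^ 2) +
          ε / 2 * K) atTop (𝓝 (0 / 2 * (∑ i, ∫ x, |pd i φ x|) + 1 / (2 * ε) * 0 + ε / 2 * K)) :=
      (((hdl.div_const 2).mul_const _).add (t2.const_mul _)).add tendsto_const_nhds
    have := le_of_tendsto_of_tendsto t1.abs t3
      (Eventually.of_forall fun k => hlim1 φ hφ (d k) (hd0 k) ε hε)
    simpa using this
  have hzero : ∀ φ, Tst φ → ∫ x, (Z.indicator 1 x * G x) * φ x = 0 := by
    intro φ hφ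
    have h1 : ∫ x, (φ x * (Z.indicator 1 x)) * G x = 0 := by
      by_contra hne
      have hp : 0 < |∫ x, (φ x * (Z.indicator 1 x)) * G x| := abs_pos.2 hne
      have h2 := hfin φ hφ (|∫ x, (φ x * (Z.indicator 1 x)) * G x| / (|K| + 1)) (by positivity)
      set a := |∫ x, (φ x * (Z.indicator 1 x)) * G x| with ha
      have h3 : a / (|K| + 1) / 2 * K ≤ a / 2 := by
        have h4 : K ≤ |K| + 1 := by linarith [le_abs_self K]
        have h5 : 0 < |K| + 1 := by positivity
        calc a / (|K| + 1) / 2 * K ≤ a / (|K| + 1) / 2 * (|K| + 1) :=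
              mul_le_mul_of_nonneg_left h4 (by positivity)
          _ = a / 2 := by field_simp
      linarith
    rw [← h1]
    congr 1; ext x; ring
  have hZm : NullMeasurableSet Z volume :=
    hSm.aemeasurable.nullMeasurable (measurableSet_singleton 0)
  have hWi : Integrable (fun x => Z.indicator (1 : E N → ℝ) x * G x) := by
    apply hG.bdd_mul (c := 1)
    · exact (aestronglyMeasurable_const (b := (1 : ℝ))).indicator₀ hZm
    · refine Eventually.of_forall fun x => ?_
      by_cases hx : x ∈ Z <;> simp [hx]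
  filter_upwards [WD_test_zero hWi.locallyIntegrable hzero] with x hx hYx
  have hxZ : x ∈ Z := by simp [hZ, hS, hYx]
  simpa [hxZ] using hx

/-- **Theorem B**: the Laplacian vanishes a.e. on the critical set (global version, compact
support). -/
theorem vanish_global (hN : 0 < N) {u f : E N → ℝ} {V : Fin N → E N → ℝ} (hu : Integrable u)
    (hus : HasCompactSupport u) (hV : ∀ i, Integrable (V i)) (hWD : ∀ i, WD i u (V i))
    (hf : Integrable f) (hfm : Measurable f) (hfs : HasCompactSupport f) (hWL : WL u f) :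
    ∀ᵐ x, (∀ i, V i x = 0) → f x = 0 := by
  have h1 : ∀ n : ℕ, ∀ᵐ x, x ∈ goodSet f n → (∀ i, V i x = 0) → f x = 0 := by
    intro n
    by_cases hne : (goodSet f (n : ℝ)).Nonempty
    · obtain ⟨U, G, Y, M, hU, hUs, hY, hUY, hG, hM, hUG, hC⟩ :=
        good_part hN hu hus hV hWD hf hfm hfs hWL (Nat.cast_nonneg n) hne
      filter_upwards [vanish_good hU hUs hY hUY hG hM hUG] with x hx hxg hVx
      obtain ⟨_, h2, h3⟩ := hC x hxg
      rw [← h3]
      apply hx
      intro i
      rw [h2, hVx]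
    · refine Eventually.of_forall fun x hx => ?_
      exact absurd ⟨x, hx⟩ hne
  filter_upwards [ae_all_iff.2 h1, ae_mem_goodSet hf] with x hx ⟨n, hn⟩
  exact hx n hn

end Helper304Lap
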