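import Mathlib
import Pool.Agent.Helper304.Assembly

set_option autoImplicit false

namespace Pool.Agent.Helper304.Square

open MeasureTheory Filter Topology Set
open scoped ENNReal
open Pool.Agent.Helper304.Signs

/-! ### Binary digits -/

open Classical in
/-- binary digits of a real number in `[0,1)` -/
noncomputable def bit (j : ℕ) (x : ℝ) : Bool := decide (Odd ⌊(2:ℝ) ^ (j + 1) * x⌋)

lemma bit_true {j : ℕ} {x : ℝ} : bit j x = true ↔ Odd ⌊(2:ℝ) ^ (j + 1) * x⌋ := by simp [bit]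

lemma bit_false {j : ℕ} {x : ℝ} : bit j x = false ↔ Even ⌊(2:ℝ) ^ (j + 1) * x⌋ := by
  simp [bit]

lemma floor_half (y : ℝ) : ⌊y⌋ = ⌊2 * y⌋ / 2 := by
  have h1 := Int.floor_le y
  have h2 := Int.lt_floor_add_one y
  have h3 : 2 * ⌊y⌋ ≤ ⌊2 * y⌋ := by
    rw [Int.le_floor]; push_cast; linarith
  have h4 : ⌊2 * y⌋ < 2 * ⌊y⌋ + 2 := by
    rw [Int.floor_lt]; push_cast; linarith
  omega

lemma floor_pow (j : ℕ) (x : ℝ) : ⌊(2:ℝ) ^ j * x⌋ = ⌊(2:ℝ) ^ (j + 1) * x⌋ / 2 := by
  rw [floor_half, pow_succ]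
  congr 2
  ring

lemma floor_shift (j : ℕ) (x : ℝ) :
    ⌊(2:ℝ) ^ (j + 1) * (x + 1 / 2 ^ (j + 1))⌋ = ⌊(2:ℝ) ^ (j + 1) * x⌋ + 1 := by
  have : (2:ℝ) ^ (j + 1) * (x + 1 / 2 ^ (j + 1)) = (2:ℝ) ^ (j + 1) * x + 1 := by
    field_simp
  rw [this, Int.floor_add_one]

lemma bit_shift_self (j : ℕ) (x : ℝ) : bit j (x + 1 / 2 ^ (j + 1)) = !bit j x := by
  cases h : bit j x
  · rw [bit_false] at h
    rw [Bool.not_false, bit_true, floor_shift]
    exact h.add_one
  · rw [bit_true] at h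
    rw [Bool.not_true, bit_false, floor_shift]
    exact h.add_one

lemma floor_shift_lt {j : ℕ} {x : ℝ} (h : bit j x = false) : ∀ r i, i + r = j →
    ⌊(2:ℝ) ^ i * (x + 1 / 2 ^ (j + 1))⌋ = ⌊(2:ℝ) ^ i * x⌋ := by
  intro r
  induction r with
  | zero =>
    intro i hi
    rw [bit_false] at h
    have : i = j := by omega
    subst this
    rw [floor_pow i (x + _), floor_pow i x, floor_shift]
    obtain ⟨m, hm⟩ := h
    omega
  | succ r ih =>
    intro i hi
    rw [floor_pow i (x + _), floor_pow i x, ih (i + 1) (by omega)]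

lemma bit_shift_lt {j i : ℕ} {x : ℝ} (h : bit j x = false) (hi : i < j) :
    bit i (x + 1 / 2 ^ (j + 1)) = bit i x := by
  unfold bit
  rw [floor_shift_lt h (j - (i + 1)) (i + 1) (by omega)]

lemma mem_Ico_iff (j : ℕ) (x : ℝ) :
    x ∈ Ico (0:ℝ) 1 ↔ 0 ≤ ⌊(2:ℝ) ^ (j + 1) * x⌋ ∧ ⌊(2:ℝ) ^ (j + 1) * x⌋ < 2 ^ (j + 1) := by
  have hpos : (0:ℝ) < 2 ^ (j + 1) := by positivity
  rw [Int.floor_nonneg, Int.floor_lt, mem_Ico]
  push_cast
  constructor
  · rintro ⟨h1, h2⟩
    constructor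
    · positivity
    · nlinarith
  · rintro ⟨h1, h2⟩
    constructor
    · by_contra hcon
      push Not at hcon
      nlinarith
    · by_contra hcon
      push Not at hcon
      nlinarith

lemma mem_shift {j : ℕ} {x : ℝ} (h : bit j x = false) :
    x + 1 / 2 ^ (j + 1) ∈ Ico (0:ℝ) 1 ↔ x ∈ Ico (0:ℝ) 1 := by
  rw [mem_Ico_iff j, mem_Ico_iff j, floor_shift]
  rw [bit_false] at h
  obtain ⟨m, hm⟩ := h
  have : (2:ℤ) ^ (j + 1) = 2 * 2 ^ j := by rw [pow_succ]; ring
  omega

lemma bit_meas (j : ℕ) : Measurable (bit j) := by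
  classical
  have h1 : Measurable fun x : ℝ => ⌊(2:ℝ) ^ (j + 1) * x⌋ :=
    Int.measurable_floor.comp (measurable_const_mul _)
  exact (Measurable.of_discrete (f := fun n : ℤ => decide (Odd n))).comp h1

/-- digits of points of the square: even indices are digits of `x`, odd indices are digits
of `y` -/
noncomputable def dig (J : ℕ) (p : ℝ × ℝ) : Bool :=
  if J % 2 = 0 then bit (J / 2) p.1 else bit (J / 2) p.2

lemma dig_meas (J : ℕ) : Measurable (dig J) := by
  unfold dig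
  split_ifs
  · exact (bit_meas _).comp measurable_fst
  · exact (bit_meas _).comp measurable_snd

/-- shift vector flipping digit `J` -/
noncomputable def sh (J : ℕ) : ℝ × ℝ :=
  if J % 2 = 0 then (1 / 2 ^ (J / 2 + 1), 0) else (0, 1 / 2 ^ (J / 2 + 1))

lemma dig_shift_self (J : ℕ) (p : ℝ × ℝ) : dig J (p + sh J) = !dig J p := by
  unfold dig sh
  split_ifs
  · exact bit_shift_self _ _
  · exact bit_shift_self _ _

lemma dig_shift_lt {J i : ℕ} {p : ℝ × ℝ} (h : dig J p = false) (hi : i < J) :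
    dig i (p + sh J) = dig i p := by
  unfold dig sh at *
  by_cases hJ : J % 2 = 0
  · rw [if_pos hJ] at h ⊢
    by_cases hi' : i % 2 = 0
    · rw [if_pos hi', if_pos hi']
      exact bit_shift_lt h (by omega)
    · rw [if_neg hi', if_neg hi']
      simp
  · rw [if_neg hJ] at h ⊢
    by_cases hi' : i % 2 = 0
    · rw [if_pos hi', if_pos hi']
      simp
    · rw [if_neg hi', if_neg hi']
      exact bit_shift_lt h (by omega)

/-- the half open unit square -/
def Q : Set (ℝ × ℝ) := Ico 0 1 ×ˢ Ico 0 1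

lemma Q_meas : MeasurableSet Q := measurableSet_Ico.prod measurableSet_Ico

lemma Q_shift {J : ℕ} {p : ℝ × ℝ} (h : dig J p = false) : p + sh J ∈ Q ↔ p ∈ Q := by
  unfold dig sh Q at *
  rw [mem_prod, mem_prod]
  by_cases hJ : J % 2 = 0
  · rw [if_pos hJ] at h ⊢
    have := mem_shift h
    simp only [Prod.fst_add, Prod.snd_add, add_zero]
    rw [this]
  · rw [if_neg hJ] at h ⊢
    have := mem_shift h
    simp only [Prod.fst_add, Prod.snd_add, add_zero]
    rw [this]

/-- Lebesgue measure on the unit square -/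
noncomputable def μI : Measure (ℝ × ℝ) := volume.restrict (Icc 0 1 ×ˢ Icc 0 1)

lemma μI_eq : μI = volume.restrict Q := by
  unfold μI Q
  apply Measure.restrict_congr_set
  exact (Measure.set_prod_ae_eq Ico_ae_eq_Icc Ico_ae_eq_Icc).symm

instance : IsProbabilityMeasure μI := by
  constructor
  unfold μI
  rw [Measure.restrict_apply_univ, Measure.volume_eq_prod, Measure.prod_prod]
  simp

lemma pre_shift {J : ℕ} {p : ℝ × ℝ} (h : dig J p = false) :
    pre dig J (p + sh J) = pre dig J p := by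
  funext i
  exact dig_shift_lt h i.2

theorem dig_sign : SignSystem μI dig := by
  refine ⟨dig_meas, fun J G => ?_⟩
  classical
  set F0 : ℝ × ℝ → ℝ := fun p => if dig J p = true then 0 else G (pre dig J p) with hF0
  set F1 : ℝ × ℝ → ℝ := fun p => if dig J p = true then G (pre dig J p) else 0 with hF1
  have hpre : Measurable (pre dig J) := measurable_pi_lambda _ fun i => dig_meas i
  have hG : Measurable fun p => G (pre dig J p) := (Measurable.of_discrete (f := G)).comp hpre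
  have hset : MeasurableSet {p | dig J p = true} := (dig_meas J) (measurableSet_singleton true)
  have hbd : ∀ w, |G w| ≤ ∑ w, |G w| := fun w =>
    Finset.single_le_sum (f := fun w => |G w|) (fun _ _ => abs_nonneg _) (Finset.mem_univ _)
  have hbd0 : 0 ≤ ∑ w, |G w| := Finset.sum_nonneg fun _ _ => abs_nonneg _
  have hi0 : Integrable F0 μI := by
    refine Integrable.of_bound (Measurable.ite hset measurable_const hG).aestronglyMeasurable
      (∑ w, |G w|) (ae_of_all _ fun p => ?_)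
    simp only [hF0]
    rw [Real.norm_eq_abs]
    split_ifs
    · rw [abs_zero]; exact hbd0
    · exact hbd _
  have hi1 : Integrable F1 μI := by
    refine Integrable.of_bound (Measurable.ite hset hG measurable_const).aestronglyMeasurable
      (∑ w, |G w|) (ae_of_all _ fun p => ?_)
    simp only [hF1]
    rw [Real.norm_eq_abs]
    split_ifs
    · exact hbd _
    · rw [abs_zero]; exact hbd0
  have h1 : ∀ p, sg (dig J p) * G (pre dig J p) = F0 p - F1 p := by
    intro p
    simp only [hF0, hF1]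
    cases dig J p <;> simp [sg]
  simp only [h1]
  rw [integral_sub hi0 hi1, sub_eq_zero, μI_eq, ← integral_indicator Q_meas,
    ← integral_indicator Q_meas]
  rw [← integral_add_right_eq_self (μ := (volume : Measure (ℝ × ℝ))) (Q.indicator F1) (sh J)]
  congr 1
  funext p
  cases h : dig J p
  · have e1 := dig_shift_self J p
    rw [h, Bool.not_false] at e1
    have e2 := Q_shift h
    have e3 := pre_shift h
    by_cases hp : p ∈ Q
    · rw [indicator_of_mem hp, indicator_of_mem (e2.2 hp)]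
      simp only [hF0, hF1, e1, h, e3]
      simp
    · rw [indicator_of_notMem hp, indicator_of_notMem (fun h => hp (e2.1 h))]
  · have e1 := dig_shift_self J p
    rw [h, Bool.not_true] at e1
    have e4 : F0 p = 0 := by simp only [hF0, h]; simp
    have e5 : F1 (p + sh J) = 0 := by simp only [hF1, e1]; simp
    rw [indicator_apply, indicator_apply, e4, e5]
    simp

/-! ### The digits generate -/

/-- dyadic numbers -/
def Dy : Set ℝ := {x | ∃ (k : ℤ) (n : ℕ), x = k / 2 ^ n}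

lemma Dy_dense : Dense Dy := by
  refine dense_of_exists_between fun {a b} hab => ?_
  obtain ⟨n, hn⟩ := pow_unbounded_of_one_lt (1 / (b - a)) (one_lt_two : (1:ℝ) < 2)
  have hba : 0 < b - a := sub_pos.2 hab
  have h2 : (0:ℝ) < 2 ^ n := by positivity
  have h3 : 1 < 2 ^ n * (b - a) := by
    rwa [div_lt_iff₀ hba] at hn
  refine ⟨((⌊2 ^ n * a⌋ + 1 : ℤ) : ℝ) / 2 ^ n, ⟨_, n, rfl⟩, ?_, ?_⟩
  · rw [lt_div_iff₀ h2]
    push_cast
    have := Int.lt_floor_add_one (2 ^ n * a)
    linarith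
  · rw [div_lt_iff₀ h2]
    push_cast
    have := Int.floor_le (2 ^ n * a)
    linarith

lemma Dy_level {x : ℝ} (hx : x ∈ Dy) : ∃ n0 : ℕ, ∀ n ≥ n0, ∃ k : ℤ, x = k / 2 ^ n := by
  obtain ⟨k, n0, rfl⟩ := hx
  refine ⟨n0, fun n hn => ⟨k * 2 ^ (n - n0), ?_⟩⟩
  have : (2:ℝ) ^ n = 2 ^ n0 * 2 ^ (n - n0) := by rw [← pow_add]; congr 1; omega
  rw [this]
  push_cast
  field_simp

/-- dyadic intervals -/
def DI : Set (Set ℝ) := {S : Set ℝ | ∃ l ∈ Dy, ∃ u ∈ Dy, l < u ∧ Ico l u = S}

lemma DI_gen : MeasurableSpace.generateFrom DI = (inferInstance : MeasurableSpace ℝ) := by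
  rw [show (inferInstance : MeasurableSpace ℝ) = borel ℝ from BorelSpace.measurable_eq]
  exact Dy_dense.borel_eq_generateFrom_Ico_mem.symm

lemma DI_span : IsCountablySpanning DI := by
  refine ⟨fun n : ℕ => Ico (((-(n:ℤ) : ℤ) : ℝ) / 2 ^ 0) (((n + 1 : ℤ) : ℝ) / 2 ^ 0), fun n => ?_, ?_⟩
  · refine ⟨_, ⟨_, 0, rfl⟩, _, ⟨_, 0, rfl⟩, ?_, rfl⟩
    simp only [pow_zero, div_one]
    exact_mod_cast (by omega : -(n:ℤ) < (n:ℤ) + 1)
  · rw [eq_univ_iff_forall]
    intro x
    rw [mem_iUnion]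
    obtain ⟨n, hn⟩ := exists_nat_ge |x|
    refine ⟨n, ?_⟩
    rw [mem_Ico]
    push_cast
    simp only [pow_zero, div_one]
    have := abs_le.1 hn
    constructor
    · linarith [this.1]
    · linarith [this.2]

/-- the floors are functions of the digits -/
lemma exists_code (n : ℕ) : ∃ c : (Fin (2 * n) → Bool) → ℤ × ℤ, ∀ p ∈ Q,
    c (pre dig (2 * n) p) = (⌊(2:ℝ) ^ n * p.1⌋, ⌊(2:ℝ) ^ n * p.2⌋) := by
  induction n with
  | zero =>
    refine ⟨fun _ => (0, 0), fun p hp => ?_⟩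
    rw [Q, mem_prod, mem_Ico, mem_Ico] at hp
    have h1 : ⌊(2:ℝ) ^ 0 * p.1⌋ = 0 := by
      rw [pow_zero, one_mul, Int.floor_eq_zero_iff]; exact hp.1
    have h2 : ⌊(2:ℝ) ^ 0 * p.2⌋ = 0 := by
      rw [pow_zero, one_mul, Int.floor_eq_zero_iff]; exact hp.2
    rw [h1, h2]
  | succ n ih =>
    obtain ⟨c, hc⟩ := ih
    refine ⟨fun w => (2 * (c fun i => w ⟨i, by omega⟩).1 +
      (if w ⟨2 * n, by omega⟩ = true then 1 else 0),
      2 * (c fun i => w ⟨i, by omega⟩).2 +
      (if w ⟨2 * n + 1, by omega⟩ = true then 1 else 0)), fun p hp => ?_⟩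
    have h1 : (fun i : Fin (2 * n) => pre dig (2 * (n + 1)) p ⟨i, by omega⟩) =
        pre dig (2 * n) p := rfl
    have h2 : pre dig (2 * (n + 1)) p ⟨2 * n, by omega⟩ = bit n p.1 := by
      simp only [pre, dig]
      rw [if_pos (by omega), show 2 * n / 2 = n by omega]
    have h3 : pre dig (2 * (n + 1)) p ⟨2 * n + 1, by omega⟩ = bit n p.2 := by
      simp only [pre, dig]
      rw [if_neg (by omega), show (2 * n + 1) / 2 = n by omega]
    have key : ∀ x : ℝ, 2 * ⌊(2:ℝ) ^ n * x⌋ + (if bit n x = true then 1 else 0) =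
        ⌊(2:ℝ) ^ (n + 1) * x⌋ := by
      intro x
      rw [floor_pow n x]
      cases h : bit n x
      · rw [bit_false] at h
        obtain ⟨m, hm⟩ := h
        rw [hm]
        simp only [Bool.false_eq_true, if_false]
        omega
      · rw [bit_true] at h
        obtain ⟨m, hm⟩ := h
        rw [hm]
        simp only [if_true]
        omega
    simp only [h1, h2, h3, hc p hp, key]

theorem dig_gen (f : ℝ × ℝ → ℝ) (hf : MemLp f 2 μI)
    (h : ∀ (J : ℕ) (G : (Fin J → Bool) → ℝ), ∫ p, f p * G (pre dig J p) ∂μI = 0) :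
    f =ᵐ[μI] 0 := by
  classical
  have hfi : Integrable f μI := hf.integrable (by norm_num)
  have htot : ∫ p, f p ∂μI = 0 := by
    have := h 0 (fun _ => 1)
    simpa using this
  apply hfi.ae_eq_zero_of_forall_setIntegral_eq_zero
  intro S hS _
  have hgen : (inferInstance : MeasurableSpace (ℝ × ℝ)) =
      MeasurableSpace.generateFrom (image2 (· ×ˢ ·) DI DI) :=
    (generateFrom_eq_prod DI_gen DI_gen DI_span DI_span).symm
  have hpi : IsPiSystem (image2 (· ×ˢ ·) DI DI : Set (Set (ℝ × ℝ))) :=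
    (isPiSystem_Ico_mem Dy Dy).prod (isPiSystem_Ico_mem Dy Dy)
  refine MeasurableSpace.induction_on_inter (C := fun S _ => ∫ p in S, f p ∂μI = 0)
    hgen hpi ?_ ?_ ?_ ?_ S hS
  · simp
  · rintro _ ⟨_, ⟨l, hl, u, hu, _, rfl⟩, _, ⟨l', hl', u', hu', _, rfl⟩, rfl⟩
    obtain ⟨n1, hn1⟩ := Dy_level hl
    obtain ⟨n2, hn2⟩ := Dy_level hu
    obtain ⟨n3, hn3⟩ := Dy_level hl'
    obtain ⟨n4, hn4⟩ := Dy_level hu'
    set N := n1 + n2 + n3 + n4 with hN
    obtain ⟨k1, rfl⟩ := hn1 N (by omega)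
    obtain ⟨k2, rfl⟩ := hn2 N (by omega)
    obtain ⟨k3, rfl⟩ := hn3 N (by omega)
    obtain ⟨k4, rfl⟩ := hn4 N (by omega)
    obtain ⟨c, hc⟩ := exists_code N
    set G : (Fin (2 * N) → Bool) → ℝ := fun w =>
      if ((k1 ≤ (c w).1 ∧ (c w).1 < k2) ∧ (k3 ≤ (c w).2 ∧ (c w).2 < k4)) then 1 else 0 with hG
    have hm : MeasurableSet (Ico ((k1:ℝ) / 2 ^ N) (k2 / 2 ^ N) ×ˢ
        Ico ((k3:ℝ) / 2 ^ N) (k4 / 2 ^ N)) := measurableSet_Ico.prod measurableSet_Ico
    rw [← h (2 * N) G, ← integral_indicator hm, μI_eq]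
    refine setIntegral_congr_fun Q_meas fun p hp => ?_
    have h2 : (0:ℝ) < 2 ^ N := by positivity
    have hiff : p ∈ (Ico ((k1:ℝ) / 2 ^ N) (k2 / 2 ^ N) ×ˢ
        Ico ((k3:ℝ) / 2 ^ N) (k4 / 2 ^ N)) ↔
        ((k1 ≤ (c (pre dig (2 * N) p)).1 ∧ (c (pre dig (2 * N) p)).1 < k2) ∧
        (k3 ≤ (c (pre dig (2 * N) p)).2 ∧ (c (pre dig (2 * N) p)).2 < k4)) := by
      rw [hc p hp, mem_prod, mem_Ico, mem_Ico]
      dsimp only
      rw [Int.le_floor, Int.floor_lt, Int.le_floor, Int.floor_lt, div_le_iff₀ h2,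
        lt_div_iff₀ h2, div_le_iff₀ h2, lt_div_iff₀ h2, mul_comm p.1, mul_comm p.2]
    rw [indicator_apply]
    simp only [hG, hiff]
    split_ifs
    · rw [mul_one]
    · rw [mul_zero]
  · intro t htm ht
    have := integral_add_compl htm hfi
    rw [ht, zero_add, htot] at this
    exact this
  · intro F hd hm hF
    have := hasSum_integral_iUnion hm hd hfi.integrableOn
    simp only [hF] at this
    exact this.unique hasSum_zero

end Pool.Agent.Helper304.Square
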